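import Mathlib

/-!
Definitions for: digit sums are normal along every integer polynomial of degree at least 2.
The paper proof is the page MP_b1aeef_h64_gelfond.md of the team store.
-/

open Finset Polynomial Filter Topology
open scoped BigOperators

namespace Pool.Agent.MP_b1aeef_nt.H64

noncomputable section

/-- e(x) -/
def ee (x : ℝ) : ℂ := Complex.exp (2 * Real.pi * x * Complex.I)

/-- distance to the nearest integer -/
def nn (x : ℝ) : ℝ := |x - round x|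

/-- sum of the base `q` digits -/
def sq (q m : ℕ) : ℕ := (Nat.digits q m).sum

/-- sum of the lowest `L` base `q` digits of an integer -/
def dL (q L : ℕ) (m : ℤ) : ℕ := sq q (m % (q : ℤ) ^ L).toNat

/-- sum of the base `q` digits in positions `a ≤ i < b` -/
def ds (q a b : ℕ) (m : ℤ) : ℕ := dL q (b - a) (m / (q : ℤ) ^ a)

/-- `f` is a polynomial function of degree at most `r` whose `r`-th difference with steps
`h_1, ..., h_r` is `h_1 ... h_r γ` -/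
def IsPoly : ℕ → ℝ → (ℤ → ℝ) → Prop
  | 0, γ, f => ∀ n, f n = γ
  | r + 1, γ, f => ∀ h : ℤ, IsPoly r (h * γ) (fun n => f (n + h) - f n)

/-- Fejer kernel, normalised to be 1 at 0 -/
def fej (U : ℕ) (x : ℝ) : ℝ := ‖𝔼 u ∈ range U, ee (u * x)‖ ^ 2

/-- the basic weight -/
def wt (U K : ℕ) (x : ℝ) : ℝ := ((1 + fej U x) / 2) ^ K

/-- product weight of the phases `ξ t * a ^ k` -/
def Wt {ι : Type} (S : Finset ι) (U : ι → ℕ) (K k : ℕ) (ξ : ι → ℝ) (a : ℕ) : ℝ :=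
  ∏ t ∈ S, wt (U t) K (ξ t * (a : ℝ) ^ k)

/-- its mean over `1 ≤ a ≤ X` -/
def Zt {ι : Type} (S : Finset ι) (U : ι → ℕ) (K k X : ℕ) (ξ : ι → ℝ) : ℝ :=
  𝔼 a : Fin X, Wt S U K k ξ ((a : ℕ) + 1)

/-- the normalised kernel -/
def ker {ι : Type} (S : Finset ι) (U : ι → ℕ) (K k X : ℕ) (ξ : ι → ℝ) (a : ℕ) : ℝ :=
  Wt S U K k ξ a / Zt S U K k X ξ

/-- expectation of a complex function under the density `D`, `n < N` uniform -/
def Ec {Ω : Type} [Fintype Ω] (N : ℕ) (D : ℤ → Ω → ℝ) (φ : ℤ → Ω → ℂ) : ℂ :=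
  𝔼 n ∈ range N, 𝔼 ω : Ω, (D (n : ℤ) ω : ℂ) * φ (n : ℤ) ω

/-- expectation of a real function under the density `D`, `n < N` uniform -/
def Er {Ω : Type} [Fintype Ω] (N : ℕ) (D : ℤ → Ω → ℝ) (φ : ℤ → Ω → ℝ) : ℝ :=
  𝔼 n ∈ range N, 𝔼 ω : Ω, D (n : ℤ) ω * φ (n : ℤ) ω

/-- `D` is a probability density in `ω` for every `n` -/
structure Dens {Ω : Type} [Fintype Ω] (D : ℤ → Ω → ℝ) : Prop where
  nonneg : ∀ n ω, 0 ≤ D n ω
  avg : ∀ n, 𝔼 ω : Ω, D n ω = 1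

/-- the measure is invariant under the shifts `n ↦ n + y`, `|y| ≤ S`, up to `e0` -/
def ZInv {Ω : Type} [Fintype Ω] (N : ℕ) (D : ℤ → Ω → ℝ) (S : ℕ) (e0 : ℝ) : Prop :=
  ∀ y : ℤ, |y| ≤ S → ∀ φ : ℤ → Ω → ℂ, (∀ n ω, ‖φ n ω‖ ≤ 1) →
    ‖Ec N D (fun n ω => φ (n + y) ω) - Ec N D φ‖ ≤ e0

/-! parameters -/

def lg (q N : ℕ) : ℕ := Nat.log q N
def jj (q N : ℕ) : ℕ := lg q N / 8
def KK (q N : ℕ) : ℕ := lg q N ^ 2
def b0 (q N : ℕ) : ℕ := 2 * jj q N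
def atop (q d N : ℕ) : ℕ := (d - 1) * lg q N + 6 * jj q N
def btop (q d N : ℕ) : ℕ := (d + 1) * lg q N
def bet (q N : ℕ) : ℝ := (5 / 8) ^ KK q N

/-- length `N` of the sum, half width `s` of the window, range `R` of the box variables -/
structure Par where
  N : ℕ
  s : ℕ
  R : ℕ

def gg (q : ℕ) (o : Par) : ℕ := Nat.log q (KK q o.N * o.R ^ 2) + 2
def a0 (q : ℕ) (o : Par) : ℕ := 2 * jj q o.N - 2 * o.s
def a1 (q : ℕ) (o : Par) : ℕ := 2 * jj q o.N - o.s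
def UF (q : ℕ) (o : Par) : ℕ := q ^ o.s * o.R
def UW (q : ℕ) (o : Par) : ℕ := q ^ (2 * o.s) * o.R ^ 2
def U0 (q : ℕ) (o : Par) : ℕ := q ^ (o.s - gg q o) / 10

/-- standing assumptions on the parameters -/
structure Ok (q : ℕ) (o : Par) : Prop where
  hq : 2 ≤ q
  hl : 16 ≤ lg q o.N
  hs : 2 * o.s ≤ jj q o.N
  hR : lg q o.N ≤ o.R
  hR4 : o.R ^ 4 ≤ q ^ o.s

/-- admissible parameters of strength `E` -/
def Adm (q : ℕ) (o : Par) (E : ℕ) : Prop :=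
  lg q o.N ≤ o.R ∧ o.R ^ E ≤ 2 ^ o.s ∧ o.s * E ≤ lg q o.N

/-- the correlation that has to tend to 0 -/
def corr (q : ℕ) (α : ℤ → ℝ) (P : ℤ[X]) (J : Finset ℤ) (N : ℕ) : ℂ :=
  𝔼 n ∈ range N, ee (∑ j ∈ J, α j * sq q (P.eval ((n : ℤ) + j)).toNat)

/-! states -/

/-- data of a state on the node set `V` -/
structure Dat (V : Type) where
  Ω : Type
  [fin : Fintype Ω]
  gen : Ω → V → ℕ
  D : ℤ → Ω → ℝ
  lo : V → ℕ
  hi : V → ℕ
  Y : ℕ

attribute [instance] Dat.fin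

/-- the coefficient `G_μ(n)` -/
def mon {V : Type} [Fintype V] (P : ℤ[X]) (A : V → ℕ) (n : ℤ) (μ : V → ℕ) : ℤ :=
  (hasseDeriv (∑ w, μ w) P).eval n * ∏ w, (A w : ℤ) ^ μ w

/-- tolerance for a monomial of total degree `e` -/
def tol (R Y e : ℕ) : ℝ := if e = 1 then 1 / (R : ℝ) ^ 2 else 1 / (Y : ℝ) ^ e

/-- the guarantee at `(n, ω)` -/
def Gu {V : Type} [Fintype V] (q : ℕ) (P : ℤ[X]) (o : Par) (jb : V → ℕ) (S : Dat V) (n : ℤ)
    (ω : S.Ω) : Prop :=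
  ∀ v, 1 ≤ jb v → ∀ μ : V → ℕ, jb v ≤ μ v →
    nn ((mon P (S.gen ω) n μ : ℝ) / (q : ℝ) ^ S.hi v) ≤
      tol o.R S.Y (∑ w, μ w) / (q : ℝ) ^ (S.hi v - S.lo v)

/-- the window phase of a family of generators -/
def wsum {I : Type} [Fintype I] (q : ℕ) (P : ℤ[X]) (o : Par) (u : I → ℤ) (A : I → ℕ) (n : ℤ) : ℝ :=
  ∑ v, (u v : ℝ) * (q : ℝ) ^ gg q o * (P.derivative.eval n : ℤ) * (A v : ℝ) / (q : ℝ) ^ b0 q o.N

/-- elementary part of the invariants of a state -/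
structure St0 {V : Type} [Fintype V] (q : ℕ) (P : ℤ[X]) (o : Par) (C : ℕ) (jb : V → ℕ) (z b p : V)
    (S : Dat V) : Prop where
  Y2 : 2 ≤ S.Y
  Yle : S.Y ≤ q ^ jj q o.N
  jz : jb z = 0
  jb0 : jb b = 0
  jp : jb p = 0
  pz : p ≠ z
  gz : ∀ ω, S.gen ω z = 1
  gb : ∀ ω, S.gen ω b = q ^ a0 q o
  dvd : ∀ ω w, w ≠ z → q ^ jj q o.N ∣ S.gen ω w
  size : ∀ ω w, S.gen ω w * S.Y ≤ q ^ (4 * jj q o.N)
  dens : Dens S.D
  sup : ∀ n ω, S.D n ω ≤ (o.N : ℝ) ^ C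
  reg : ∀ v, b0 q o.N ≤ S.lo v ∧ S.lo v ≤ S.hi v ∧ S.hi v ≤ atop q P.natDegree o.N
  dead : ∀ v, jb v = 0 → S.lo v = S.hi v
  cover : ∀ m : ℤ, ∑ v, ds q (S.lo v) (S.hi v) m = ds q (b0 q o.N) (atop q P.natDegree o.N) m

/-- pointwise invariance of the density -/
def Inv {V : Type} (q : ℕ) (o : Par) (C : ℕ) (S : Dat V) : Prop :=
  ∀ n ω w, ∀ y : ℤ, |y| ≤ S.Y →
    |S.D (n + S.gen ω w * y) ω - S.D n ω| ≤ S.D n ω / S.Y + (o.N : ℝ) ^ C * bet q o.N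

/-- the guarantee holds or the density is tiny -/
def GuD {V : Type} [Fintype V] (q : ℕ) (P : ℤ[X]) (o : Par) (C : ℕ) (jb : V → ℕ) (S : Dat V) : Prop :=
  ∀ n ω, Gu q P o jb S n ω ∨ S.D n ω ≤ (o.N : ℝ) ^ C * bet q o.N

/-- cancellation of linear phases in the generators of `p` and of the non-leaves -/
def Ac {V : Type} (q : ℕ) (o : Par) (jb : V → ℕ) (p : V) (S : Dat V) : Prop :=
  ∀ v, (2 ≤ jb v ∨ v = p) → ∀ x : ℝ, 1 / (2 * (q : ℝ) ^ b0 q o.N) ≤ |x| →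
    |x| ≤ S.Y / (q : ℝ) ^ b0 q o.N → ‖Ec o.N S.D (fun _ ω => ee (x * S.gen ω v))‖ ≤ 1 / S.Y

/-- joint cancellation of the window phases of the leaves -/
def Four {V : Type} [Fintype V] (q : ℕ) (P : ℤ[X]) (o : Par) (jb : V → ℕ) (S : Dat V) : Prop :=
  ∀ u : V → ℤ, (∀ v, jb v ≠ 1 → u v = 0) → u ≠ 0 → (∀ v, |u v| ≤ UF q o) →
    ‖Ec o.N S.D (fun n ω => ee (wsum q P o u (S.gen ω) n))‖ ≤ 1 / S.Y

/-- all invariants of a state -/
structure St {V : Type} [Fintype V] (q : ℕ) (P : ℤ[X]) (o : Par) (C : ℕ) (jb : V → ℕ) (z b p : V)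
    (S : Dat V) : Prop where
  base : St0 q P o C jb z b p S
  inv : Inv q o C S
  gu : GuD q P o C jb S
  ac : Ac q o jb p S
  four : Four q P o jb S

/-- numerical side conditions of a step: new range `q ^ L`, `m` children -/
structure Num (q d : ℕ) (o : Par) (C Y L m E : ℕ) : Prop where
  ok : Ok q o
  hE : q ^ (L * E) ≤ Y
  hL : E ≤ L
  hsm : q ^ (3 * o.s) * (m + 1) ≤ q ^ L
  hbet : (o.N : ℝ) ^ (C + 1) * bet q o.N ≤ 1
  hm : atop q d o.N ≤ m * L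

/-- the monomials of degree exactly `k` in `v` -/
def MM {V : Type} [Fintype V] [DecidableEq V] (d : ℕ) (v : V) (k : ℕ) : Finset (V → ℕ) :=
  (Fintype.piFinset fun _ : V => range (d + 1)).filter (fun μ => μ v = k)

def clo {V : Type} (S : Dat V) (v : V) (L c : ℕ) : ℕ := min (S.lo v + c * L) (S.hi v)
def chi {V : Type} (S : Dat V) (v : V) (L c : ℕ) : ℕ := min (S.lo v + (c + 1) * L) (S.hi v)

/-- inverse tolerance of the kernel of a child whose region has length `len` -/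
def UU {V : Type} [Fintype V] (q R L len : ℕ) (μ : V → ℕ) : ℕ :=
  q ^ len * (if ∑ w, μ w = 1 then R ^ 2 else q ^ (4 * L * ∑ w, μ w))

/-- the phases of the kernel of a child whose region has top `b` -/
def phs {V : Type} [Fintype V] (q : ℕ) (P : ℤ[X]) (S : Dat V) (b : ℕ) (n : ℤ) (ω : S.Ω)
    (μ : V → ℕ) : ℝ :=
  (mon P (S.gen ω) n μ : ℝ) / (q : ℝ) ^ b

/-- the normaliser of the kernel of child number `c` of `v` -/
def zch {V : Type} [Fintype V] [DecidableEq V] (q : ℕ) (P : ℤ[X]) (o : Par) (S : Dat V) (v : V)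
    (k L c : ℕ) (n : ℤ) (ω : S.Ω) : ℝ :=
  Zt (MM P.natDegree v k) (UU q o.R L (chi S v L c - clo S v L c)) (KK q o.N) k (Nat.sqrt S.Y)
    (phs q P S (chi S v L c) n ω)

/-- the kernel of child number `c` of `v` -/
def kch {V : Type} [Fintype V] [DecidableEq V] (q : ℕ) (P : ℤ[X]) (o : Par) (S : Dat V) (v : V)
    (k L c : ℕ) (n : ℤ) (ω : S.Ω) (a : ℕ) : ℝ :=
  ker (MM P.natDegree v k) (UU q o.R L (chi S v L c - clo S v L c)) (KK q o.N) k (Nat.sqrt S.Y)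
    (phs q P S (chi S v L c) n ω) a

/-- the refined state: `v` dies and gets `m` children -/
def refine {V : Type} [Fintype V] [DecidableEq V] (q : ℕ) (P : ℤ[X]) (o : Par) (S : Dat V) (v : V)
    (k m L : ℕ) : Dat (V ⊕ Fin m) where
  Ω := S.Ω × (Fin m → Fin (Nat.sqrt S.Y))
  gen := fun ω => Sum.elim (S.gen ω.1) (fun c => S.gen ω.1 v * ((ω.2 c : ℕ) + 1))
  D := fun n ω => S.D n ω.1 * ∏ c : Fin m, kch q P o S v k L c n ω.1 ((ω.2 c : ℕ) + 1)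
  lo := Sum.elim S.lo (fun c => clo S v L c)
  hi := Sum.elim (Function.update S.hi v (S.lo v)) (fun c => chi S v L c)
  Y := q ^ L

/-- the refined bounds -/
def jref {V : Type} [DecidableEq V] (jb : V → ℕ) (v : V) (m : ℕ) : V ⊕ Fin m → ℕ :=
  Sum.elim (Function.update jb v 0) (fun _ => jb v - 1)

/-! the end -/

/-- data of a final state with directions `I`; direction `i` removes the block
`[lo i, hi i)` of the copies in `cop i` -/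
structure FDat (I : Type) where
  Ω : Type
  [fin : Fintype Ω]
  gen : Ω → I → ℕ
  D : ℤ → Ω → ℝ
  cop : I → Finset ℤ
  lo : I → ℕ
  hi : I → ℕ
  Y : ℕ

attribute [instance] FDat.fin

/-- at `(n, ω)` every direction moves its blocks by little -/
def Kill {I : Type} (q : ℕ) (P : ℤ[X]) (o : Par) (F : FDat I) (n : ℤ) (ω : F.Ω) : Prop :=
  ∀ i, ∀ j ∈ F.cop i, ∀ y : ℕ, y ≤ o.R →
    nn (((P.eval (n + j + F.gen ω i * y) - P.eval (n + j) : ℤ) : ℝ) / (q : ℝ) ^ F.hi i) ≤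
      2 / (o.R : ℝ) / (q : ℝ) ^ (F.hi i - F.lo i)

/-- invariants of a final state, without the Fourier part -/
structure FSt0 {I : Type} [Fintype I] (q : ℕ) (P : ℤ[X]) (J : Finset ℤ) (o : Par) (C : ℕ) (F : FDat I) :
    Prop where
  Ybig : q ^ (2 * o.s) * o.R ≤ F.Y
  Yle : F.Y ≤ q ^ jj q o.N
  dens : Dens F.D
  dvd : ∀ ω i, q ^ jj q o.N ∣ F.gen ω i
  size : ∀ ω i, F.gen ω i * F.Y ≤ q ^ (4 * jj q o.N)
  inv : ∀ n ω i, ∀ y : ℤ, |y| ≤ F.Y →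
    |F.D (n + F.gen ω i * y) ω - F.D n ω| ≤ F.D n ω / F.Y + (o.N : ℝ) ^ C * bet q o.N
  invb : ∀ n ω, ∀ y : ℤ, |y| ≤ F.Y →
    |F.D (n + (q : ℤ) ^ a0 q o * y) ω - F.D n ω| ≤ F.D n ω / F.Y + (o.N : ℝ) ^ C * bet q o.N
  kill : ∀ n ω, Kill q P o F n ω ∨ F.D n ω ≤ (o.N : ℝ) ^ C * bet q o.N
  reg : ∀ i, a0 q o ≤ F.lo i ∧ F.lo i ≤ F.hi i ∧ F.hi i ≤ atop q P.natDegree o.N
  sub : ∀ i, F.cop i ⊆ J
  cover : ∀ (α : ℤ → ℝ) (M : ℤ → ℤ),
    ∑ i, ∑ j ∈ F.cop i, α j * ds q (F.lo i) (F.hi i) (M j) =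
      ∑ j ∈ J, α j * ds q (b0 q o.N) (atop q P.natDegree o.N) (M j) +
        ∑ j ∈ J.erase 0, α j * ds q (a0 q o) (b0 q o.N) (M j)

/-- the Fourier part -/
def FFour {I : Type} [Fintype I] (q : ℕ) (P : ℤ[X]) (o : Par) (F : FDat I) : Prop :=
  ∀ u : I → ℤ, u ≠ 0 → (∀ i, |u i| ≤ UF q o) →
    ‖Ec o.N F.D (fun n ω => ee (wsum q P o u (F.gen ω) n))‖ ≤ 1 / F.Y

/-- the phase of the window node of copy `j` -/
def wph {V : Type} (q : ℕ) (P : ℤ[X]) (o : Par) (S : Dat V) (p : V) (j : ℤ) (n : ℤ) (ω : S.Ω) : ℝ :=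
  ((P.derivative.eval (n + j) * S.gen ω p : ℤ) : ℝ) / (q : ℝ) ^ b0 q o.N

/-- the kernel of the window node of copy `j` -/
def kw {V : Type} (q : ℕ) (P : ℤ[X]) (o : Par) (S : Dat V) (p : V) (j : ℤ) (n : ℤ) (ω : S.Ω)
    (a : ℕ) : ℝ :=
  ker ({()} : Finset Unit) (fun _ => UW q o) (KK q o.N) 1 (Nat.sqrt S.Y)
    (fun _ => wph q P o S p j n ω) a

/-- the final state: the leaves and one window node for each copy other than 0 -/
def win {V : Type} (q : ℕ) (P : ℤ[X]) (o : Par) (jb : V → ℕ) (p : V) (J : Finset ℤ) (S : Dat V)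
    (L : ℕ) : FDat ({v // jb v = 1} ⊕ {j // j ∈ J.erase 0}) where
  Ω := S.Ω × ({j // j ∈ J.erase 0} → Fin (Nat.sqrt S.Y))
  gen := fun ω => Sum.elim (fun v => S.gen ω.1 v.1) (fun c => S.gen ω.1 p * ((ω.2 c : ℕ) + 1))
  D := fun n ω => S.D n ω.1 *
    ∏ c : {j // j ∈ J.erase 0}, kw q P o S p c.1 n ω.1 ((ω.2 c : ℕ) + 1)
  cop := Sum.elim (fun _ => J) (fun c => {c.1})
  lo := Sum.elim (fun v => S.lo v.1) (fun _ => a0 q o)
  hi := Sum.elim (fun v => S.hi v.1) (fun _ => b0 q o.N)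
  Y := q ^ L

/-- the shifted point -/
def pt {I : Type} [Fintype I] (q : ℕ) (o : Par) (A : I → ℕ) (n : ℤ) (y : I → ℕ) (yb : ℕ) : ℤ :=
  n + ∑ i, (A i : ℤ) * y i + (q : ℤ) ^ a0 q o * yb

/-- the phase that survives: window of copy 0 and the low blocks -/
def pmain {I : Type} [Fintype I] (q : ℕ) (α : ℤ → ℝ) (P : ℤ[X]) (J : Finset ℤ) (o : Par)
    (A : I → ℕ) (n : ℤ) (y : I → ℕ) (yb : ℕ) : ℝ :=
  α 0 * ds q (a0 q o) (b0 q o.N) (P.eval (pt q o A n y yb)) +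
    ∑ j ∈ J, α j * ds q 0 (a0 q o) (P.eval (pt q o A n y yb + j))

/-- the blocks removed by direction `i`, read at `y i = 0` -/
def pdir {I : Type} [Fintype I] [DecidableEq I] (q : ℕ) (α : ℤ → ℝ) (P : ℤ[X]) (o : Par)
    (F : FDat I) (ω : F.Ω) (n : ℤ) (i : I) (y : I → ℕ) (yb : ℕ) : ℝ :=
  ∑ j ∈ F.cop i, α j * ds q (F.lo i) (F.hi i)
    (P.eval (pt q o (F.gen ω) n (Function.update y i 0) yb + j))

/-- the top blocks, read at the unshifted point -/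
def ptop (q : ℕ) (α : ℤ → ℝ) (P : ℤ[X]) (J : Finset ℤ) (o : Par) (n : ℤ) : ℝ :=
  ∑ j ∈ J, α j * ds q (atop q P.natDegree o.N) (btop q P.natDegree o.N) (P.eval (n + j))

/-- the full phase at a point -/
def pall (q : ℕ) (α : ℤ → ℝ) (P : ℤ[X]) (J : Finset ℤ) (o : Par) (n : ℤ) : ℝ :=
  ∑ j ∈ J, α j * ds q 0 (btop q P.natDegree o.N) (P.eval (n + j))

/-- the model phase -/
def pmod {I : Type} [Fintype I] [DecidableEq I] (q : ℕ) (α : ℤ → ℝ) (P : ℤ[X]) (J : Finset ℤ)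
    (o : Par) (F : FDat I) (ω : F.Ω) (n : ℤ) (y : I → ℕ) (yb : ℕ) : ℝ :=
  ptop q α P J o n + (pmain q α P J o (F.gen ω) n y yb + ∑ i, pdir q α P o F ω n i y yb)

/-- the model of the correlation -/
def model {I : Type} [Fintype I] [DecidableEq I] (q : ℕ) (α : ℤ → ℝ) (P : ℤ[X]) (J : Finset ℤ)
    (o : Par) (F : FDat I) : ℂ :=
  Ec o.N F.D fun n ω => 𝔼 yb : Fin (q ^ (2 * o.s)), 𝔼 y : I → Fin (o.R),
    ee (pmod q α P J o F ω n (fun i => y i) yb)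

/-- a vertex of the box -/
def vtx {I : Type} [DecidableEq I] {β : Type} (y0 y1 : I → β) (E : Finset I) : I → β :=
  fun i => if i ∈ E then y1 i else y0 i

/-- the cube average of the window -/
def cube {I : Type} [Fintype I] [DecidableEq I] (q : ℕ) (x : ℝ) (P : ℤ[X]) (o : Par) (A : I → ℕ)
    (n : ℤ) (y0 y1 : I → ℕ) : ℂ :=
  𝔼 yb : Fin (q ^ (2 * o.s)), ee (x * ∑ E : Finset I,
    (-1) ^ E.card * (ds q (a0 q o) (b0 q o.N) (P.eval (pt q o A n (vtx y0 y1 E) yb)) : ℝ))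

/-- cube correlation of the digit sum on `L` digits with steps `i` and carries `c` -/
def Phi {I : Type} [Fintype I] [DecidableEq I] (q : ℕ) (x : ℝ) (L : ℕ) (c : Finset I → ℕ)
    (i : I → ℕ) : ℂ :=
  𝔼 t ∈ range (q ^ L), ee (x * ∑ E : Finset I,
    (-1) ^ E.card * (dL q L ((t : ℤ) + ∑ v ∈ E, (i v : ℤ) + c E) : ℝ))

/-- the digits in `[a1, b0)` of the steps of the cube -/
def idx {I : Type} (q : ℕ) (P : ℤ[X]) (o : Par) (A : I → ℕ) (n : ℤ) (r : I → ℤ) : I → ℕ :=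
  fun v => (r v * P.derivative.eval n * A v / (q : ℤ) ^ a1 q o % (q : ℤ) ^ o.s).toNat

/-- real indicator -/
def ind (p : Prop) : ℝ := open Classical in if p then 1 else 0

end

end Pool.Agent.MP_b1aeef_nt.H64
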