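import Pool.Agent.MP_b1aeef_nt.H64.Spec
import Pool.Agent.MP_b1aeef_nt.G4.RBox

/-! Row Box: the box inequality. -/

set_option autoImplicit false

open Finset
open scoped BigOperators

namespace Pool.Agent.MP_b1aeef_nt.H64

namespace RBox

/-- Subsets as Boolean functions. -/
def sb (I : Type) [Fintype I] [DecidableEq I] : Finset I ≃ (I → Bool) where
  toFun E i := decide (i ∈ E)
  invFun ω := univ.filter fun i => ω i = true
  left_inv E := by ext i; simp
  right_inv ω := by funext i; simp

theorem cube_eq {I β : Type} [Fintype I] [DecidableEq I] (φ : (I → β) → ℝ) (y0 y1 : I → β) :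
    ∑ ω : I → Bool, G4.sg ω * φ (G4.mix ω y0 y1) =
      ∑ E : Finset I, (-1) ^ E.card * φ (vtx y0 y1 E) := by
  rw [← (sb I).sum_comp]
  refine sum_congr rfl fun E _ => ?_
  have e1 : G4.sg (sb I E) = (-1) ^ E.card := by
    simp [G4.sg, sb, prod_ite_mem]
  have e2 : G4.mix (sb I E) y0 y1 = vtx y0 y1 E := by
    funext i
    simp [G4.mix, vtx, sb]
  rw [e1, e2]

end RBox

theorem box : BOXStmt := by
  intro I β _ _ _ _ φ ψ h
  rcases isEmpty_or_nonempty β with hβ | hβ
  · have : IsEmpty (I → β) := inferInstance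
    simp
  · have hb := G4.box I β (fun _ _ => 1) (fun _ => ⟨fun _ => zero_le_one, by simp⟩) φ
      (fun i y => ee (ψ i y)) (fun i y => (norm_ee _).le) (fun i y t => by rw [h])
    simp only [prod_const_one, mul_one, Complex.ofReal_one, one_mul, G4.av_prod,
      RBox.cube_eq] at hb
    simp only [ee_add, ee_sum univ (fun i => ψ i _)]
    exact hb

end Pool.Agent.MP_b1aeef_nt.H64
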