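import Pool.Agent.MP_b1aeef_nt.H64.Spec

/-! Choice of the parameters: a power saving for the correlation. -/

set_option autoImplicit false

open Finset Polynomial Filter Topology
open scoped BigOperators

namespace Pool.Agent.MP_b1aeef_nt.H64

namespace RCor

theorem lin_le {K r : ℕ} (h : 4 * K ≤ r) : K * (r + 1) ≤ 2 ^ r := by
  have h1 := Nat.lt_two_pow_self (n := r / 2)
  have h2 := Nat.lt_two_pow_self (n := r - r / 2)
  have h3 : 2 ^ r = 2 ^ (r / 2) * 2 ^ (r - r / 2) := by rw [← pow_add]; congr 1; omega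
  have h4 : 2 * K * (r - r / 2 + 1) ≤ 2 ^ (r / 2) * 2 ^ (r - r / 2) :=
    Nat.mul_le_mul (by omega) h2
  have h5 : K * (r + 1) ≤ K * (2 * (r - r / 2 + 1)) := Nat.mul_le_mul_left _ (by omega)
  rw [h3]
  nlinarith

end RCor

theorem cor (hi : INDStmt) (h0 : INITStmt) : CORStmt := by
  intro q α P J hq hd hJ hpos hα
  obtain ⟨E, C2, hG⟩ := hi (Fin 4) q α P J (fun v => if v = 3 then P.natDegree + 1 else 0) 0 1 2
    16 0 hq hd hJ hpos hα
  obtain ⟨F, hF16, hFE⟩ : ∃ F : ℕ, 16 ≤ F ∧ E ≤ F := ⟨max E 16, le_max_right _ _, le_max_left _ _⟩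
  obtain ⟨K, hK⟩ := exists_nat_ge (2 * C2 ^ 2)
  have hF0 : 0 < F := by omega
  have hM : 0 < 2 * F * (q * F ^ 2) := by positivity
  refine ⟨1 / (2 * F * (q * F ^ 2) : ℕ), by positivity, ?_⟩
  filter_upwards [hG, h0 q P hq hd, eventually_ge_atTop (q ^ (4 * (F ^ 2 + K) * F * F))]
    with N h1 h2 h3
  have hN : 0 < N := lt_of_lt_of_le (by positivity) h3
  obtain ⟨l, hl⟩ : ∃ l, l = lg q N := ⟨_, rfl⟩
  obtain ⟨s, hs⟩ : ∃ s, s = l / F := ⟨_, rfl⟩
  obtain ⟨r, hr⟩ : ∃ r, r = s / F := ⟨_, rfl⟩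
  have a1 : 4 * (F ^ 2 + K) * F * F ≤ l := hl ▸ Nat.le_log_of_pow_le (by omega) h3
  have a2 : 4 * (F ^ 2 + K) ≤ r := by
    rw [hr, hs, Nat.le_div_iff_mul_le hF0, Nat.le_div_iff_mul_le hF0]
    exact a1
  have a3 := RCor.lin_le a2
  have a4 : l + 1 ≤ F * (s + 1) := hs ▸ Nat.lt_mul_div_succ l hF0
  have a5 : s + 1 ≤ F * (r + 1) := hr ▸ Nat.lt_mul_div_succ s hF0
  have a6 : l + 1 ≤ F ^ 2 * (r + 1) := by nlinarith [Nat.mul_le_mul_left F a5]
  have a7 : s * F ≤ l := hs ▸ Nat.div_mul_le_self l F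
  have a8 : r * F ≤ s := hr ▸ Nat.div_mul_le_self s F
  obtain ⟨S, hS, hY⟩ := h2 ⟨N, s, 2 ^ r⟩ rfl (by
    have := Nat.mul_le_mul_left s hF16
    show 2 * s ≤ lg q N / 8
    omega)
  have b1 := h1 ⟨N, s, 2 ^ r⟩ rfl ⟨by
      show lg q N ≤ 2 ^ r
      rw [← hl]
      nlinarith [Nat.zero_le (K * (r + 1))], by
      show (2 ^ r) ^ E ≤ 2 ^ s
      rw [← pow_mul]
      exact Nat.pow_le_pow_right (by norm_num) ((Nat.mul_le_mul_left r hFE).trans a8), by
      show s * E ≤ lg q N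
      exact hl ▸ (Nat.mul_le_mul_left s hFE).trans a7⟩ S hS hY
  have hx0 := norm_nonneg (corr q α P J N)
  have hx1 := corr_le q α P J N
  generalize ‖corr q α P J N‖ = x at b1 hx0 hx1 ⊢
  have b2 : x ^ F ≤ C2 / 2 ^ r := by
    refine (pow_le_pow_of_le_one hx0 hx1 hFE).trans (b1.trans_eq ?_)
    push_cast
    rfl
  have b3 : (K : ℝ) ≤ 2 ^ r := by
    have : K ≤ 2 ^ r := by nlinarith [Nat.zero_le (F ^ 2 * (r + 1)), Nat.zero_le (K * r)]
    exact_mod_cast this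
  have b4 : x ^ (2 * F) ≤ 1 / 2 ^ (r + 1) := by
    rw [mul_comm, pow_mul]
    refine (pow_le_pow_left₀ (by positivity) b2 2).trans ?_
    rw [div_pow, div_le_div_iff₀ (by positivity) (by positivity), pow_succ (2 : ℝ) r]
    nlinarith [mul_le_mul_of_nonneg_right (hK.trans b3) (by positivity : (0 : ℝ) ≤ 2 ^ r)]
  have b5 : N ≤ (2 ^ (r + 1)) ^ (q * F ^ 2) := by
    refine (Nat.lt_pow_succ_log_self (b := q) (by omega) N).le.trans ?_
    refine (Nat.pow_le_pow_left (Nat.lt_two_pow_self (n := q)).le _).trans ?_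
    rw [← pow_mul, ← pow_mul]
    refine Nat.pow_le_pow_right (by norm_num) ?_
    have : Nat.log q N = l := hl.symm
    rw [this]
    nlinarith [Nat.mul_le_mul_left q a6]
  have hN' : (0 : ℝ) < N := by exact_mod_cast hN
  have b6 : x ^ (2 * F * (q * F ^ 2)) ≤ (N : ℝ)⁻¹ := by
    rw [pow_mul]
    refine (pow_le_pow_left₀ (by positivity) b4 _).trans ?_
    rw [one_div, inv_pow]
    exact inv_anti₀ hN' (by exact_mod_cast b5)
  rw [Real.rpow_neg hN'.le, ← Real.inv_rpow hN'.le, one_div,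
    ← Real.pow_rpow_inv_natCast hx0 hM.ne']
  exact Real.rpow_le_rpow (by positivity) b6 (by positivity)

end Pool.Agent.MP_b1aeef_nt.H64
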