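import Pool.Agent.MP_b1aeef_nt.H64.Spec

/-! Row E1: the correlation is close to its model. -/

open Finset Polynomial Filter Topology
open scoped BigOperators

namespace Pool.Agent.MP_b1aeef_nt.H64

namespace RE1

variable {Ω : Type} [Fintype Ω] {N : ℕ} {D : ℤ → Ω → ℝ}

theorem Er_mono (hD : Dens D) {φ ψ : ℤ → Ω → ℝ} (h : ∀ n ∈ range N, ∀ ω, φ n ω ≤ ψ n ω) :
    Er N D φ ≤ Er N D ψ :=
  expect_le_expect fun n hn => expect_le_expect fun ω _ =>
    mul_le_mul_of_nonneg_left (h n hn ω) (hD.nonneg _ _)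

theorem Er_add (φ ψ : ℤ → Ω → ℝ) :
    Er N D (fun n ω => φ n ω + ψ n ω) = Er N D φ + Er N D ψ := by
  simp only [Er, mul_add, expect_add_distrib]

theorem Er_two (φ : ℤ → Ω → ℝ) : Er N D (fun n ω => 2 * φ n ω) = 2 * Er N D φ := by
  simp only [two_mul, Er_add]

theorem Er_sum_le {ι : Type} (s : Finset ι) (φ : ι → ℤ → Ω → ℝ) {c : ℝ}
    (h : ∀ i ∈ s, Er N D (φ i) ≤ c) : Er N D (fun n ω => ∑ i ∈ s, φ i n ω) ≤ s.card * c := by
  have e : Er N D (fun n ω => ∑ i ∈ s, φ i n ω) = ∑ i ∈ s, Er N D (φ i) := by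
    simp only [Er, mul_sum, expect_sum_comm]
  rw [e]
  simpa using sum_le_card_nsmul s _ c h

theorem Er_fst (hD : Dens D) (g : ℤ → ℝ) : Er N D (fun n _ => g n) = 𝔼 n ∈ range N, g n := by
  simp only [Er, ← expect_mul, hD.avg, one_mul]

theorem Ec_fst (hD : Dens D) (g : ℤ → ℂ) : Ec N D (fun n _ => g n) = 𝔼 n ∈ range N, g n := by
  simp only [Ec, ← expect_mul, ← Complex.ofReal_expect, hD.avg, Complex.ofReal_one, one_mul]

theorem norm_Ec_sub (hD : Dens D) (φ ψ : ℤ → Ω → ℂ) :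
    ‖Ec N D φ - Ec N D ψ‖ ≤ Er N D fun n ω => ‖φ n ω - ψ n ω‖ := by
  simp only [Ec, Er, ← expect_sub_distrib, ← mul_sub]
  refine (RCLike.norm_expect_le (K := ℂ)).trans (expect_le_expect fun n _ => ?_)
  refine (RCLike.norm_expect_le (K := ℂ)).trans (expect_le_expect fun ω _ => ?_)
  rw [norm_mul, Complex.norm_real, Real.norm_of_nonneg (hD.nonneg _ _)]

theorem Ec_av {A : Type} [Fintype A] (φ : A → ℤ → Ω → ℂ) :
    Ec N D (fun n ω => 𝔼 a, φ a n ω) = 𝔼 a, Ec N D (φ a) := by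
  simp only [Ec, mul_expect]
  rw [expect_comm univ (range N)]
  exact expect_congr rfl fun n _ => expect_comm _ _ _

theorem norm_sub_av {A : Type} [Fintype A] [Nonempty A] {c : ℂ} {f : A → ℂ} {b : ℝ}
    (h : ∀ a, ‖c - f a‖ ≤ b) : ‖c - 𝔼 a, f a‖ ≤ b := by
  rw [← expect_const (univ_nonempty (α := A)) c, ← expect_sub_distrib]
  exact (RCLike.norm_expect_le (K := ℂ)).trans (expect_le univ_nonempty fun a _ => h a)

theorem Er_small (hD : Dens D) (hN : N ≠ 0) {p : ℤ → Ω → Prop} {b : ℝ} (hb : 0 ≤ b)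
    (h : ∀ n ω, p n ω ∨ D n ω ≤ b) : Er N D (fun n ω => ind (¬ p n ω)) ≤ b := by
  refine expect_le (nonempty_range_iff.2 hN) fun n _ => ?_
  have hne : (univ : Finset Ω).Nonempty := nonempty_iff_ne_empty.2 fun e => by
    have := hD.avg 0
    rw [e, expect_empty] at this
    exact zero_ne_one this
  refine expect_le hne fun ω _ => ?_
  rcases h n ω with h1 | h1
  · exact (congrArg (D n ω * ·) (ind_neg (not_not.2 h1))).trans_le (by rwa [mul_zero])
  · exact (mul_le_of_le_one_right (hD.nonneg _ _) (ind_le_one _)).trans h1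

theorem abs_ind (p : Prop) : |ind p| ≤ 1 := by
  rw [abs_of_nonneg (ind_nonneg p)]
  exact ind_le_one p

theorem sum_lt {ι : Type} {s : Finset ι} {f : ι → ℝ} (h0 : ∀ i ∈ s, 0 ≤ f i)
    (h : ∑ i ∈ s, f i < 1) : ∀ i ∈ s, f i < 1 := fun _ hi => (single_le_sum h0 hi).trans_lt h

theorem not_of_lt {p : Prop} (h : ind p < 1) : ¬ p := fun hp => h.ne (ind_pos hp)

theorem three {a b c : ℝ} (ha : 0 ≤ a) (hb : 0 ≤ b) (hc : 0 ≤ c) (h : 2 * (a + b + c) < 1 + 1) :
    a < 1 ∧ b < 1 ∧ c < 1 := ⟨by linarith, by linarith, by linarith⟩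

theorem carry (he : EQStmt) (P : ℤ[X]) (J : Finset ℤ) (hd : 1 ≤ P.natDegree) :
    ∃ E : ℕ, ∀ (q : ℕ) (o : Par), Ok q o → 80 ≤ o.R → o.R ^ E ≤ 2 ^ o.s → ∀ j ∈ J, ∀ a,
      a0 q o ≤ a → a ≤ atop q P.natDegree o.N → 𝔼 n ∈ range o.N,
        ind (nn (((P.eval ((n : ℤ) + j) : ℤ) : ℝ) / (q : ℝ) ^ a) ≤ 2 / (o.R : ℝ)) ≤ 160 / o.R := by
  choose C hC using fun j : ℤ => he (taylor j P) (by rwa [natDegree_taylor])
  refine ⟨J.sup C, fun q o ok hR hE j hj a h1 h2 => ?_⟩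
  have r1 : (80 : ℝ) ≤ o.R := by exact_mod_cast hR
  have q1 : (1 : ℝ) ≤ q := by exact_mod_cast (by have := ok.hq; omega : 1 ≤ q)
  have b1 : ((o.R : ℝ) / 40) ^ C j ≤ (q : ℝ) ^ o.s := by
    refine (pow_le_pow_left₀ (by positivity) (by linarith : (o.R : ℝ) / 40 ≤ o.R) _).trans ?_
    exact_mod_cast (Nat.pow_le_pow_right (by omega) (le_sup hj)).trans
      (hE.trans (Nat.pow_le_pow_left ok.hq _))
  have s1 := ok.hs
  have s2 := ok.j_le_a0
  have s3 := atop_le (q := q) (N := o.N) hd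
  have := hC j (o.R / 40) ((q : ℝ) ^ a) o.N (by linarith) (Nat.pos_of_ne_zero ok.N_ne)
    (b1.trans (pow_le_pow_right₀ q1 (by omega))) (by
      rw [natDegree_taylor]
      refine (mul_le_mul_of_nonneg_left b1 (by positivity)).trans ?_
      rw [← pow_add]
      refine (pow_le_pow_right₀ q1 (show _ ≤ lg q o.N * P.natDegree by
        rw [mul_comm]; omega)).trans ?_
      rw [pow_mul]
      exact pow_le_pow_left₀ (by positivity) (by exact_mod_cast ok.pow_lg) _)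
  simp only [taylor_eval] at this
  rwa [show 1 / (20 * ((o.R : ℝ) / 40)) = 2 / o.R by field_simp; norm_num,
    show 4 / ((o.R : ℝ) / 40) = 160 / o.R by field_simp; norm_num] at this

theorem shift {I : Type} [Fintype I] {q : ℕ} {P : ℤ[X]} {J : Finset ℤ} {o : Par} {C : ℕ}
    {F : FDat I} (ok : Ok q o) (hF : FSt0 q P J o C F) (ω : F.Ω) (n : ℤ) {y : I → ℕ} {yb : ℕ}
    (hy : ∀ i, y i ≤ F.Y) (hb : yb ≤ q ^ (2 * o.s)) : ∃ h : ℤ, 0 ≤ h ∧
      h ≤ (Fintype.card I + 1 : ℕ) * (q : ℤ) ^ (4 * jj q o.N) ∧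
      pt q o (F.gen ω) n y yb = n + h := by
  refine ⟨_, by positivity, ?_, add_assoc _ _ _⟩
  have h1 : ∑ i, F.gen ω i * y i ≤ Fintype.card I * q ^ (4 * jj q o.N) := by
    simpa using sum_le_card_nsmul univ (fun i => F.gen ω i * y i) _
      fun i _ => (Nat.mul_le_mul_left _ (hy i)).trans (hF.size ω i)
  have h2 : q ^ a0 q o * yb ≤ q ^ (4 * jj q o.N) := by
    refine (Nat.mul_le_mul_left _ hb).trans ?_
    rw [← pow_add, ok.a0_add]
    exact Nat.pow_le_pow_right (by have := ok.hq; omega) (by unfold b0; omega)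
  have h3 := Nat.add_le_add h1 h2
  rw [← add_one_mul] at h3
  exact_mod_cast h3

end RE1

open RE1

theorem e1 (ha : E1aStmt) (hs : FSHStmt) (he : EQStmt) (hg : GROWStmt) : E1Stmt := by
  intro I _ _ q α P J C hq hd h0 hP
  obtain ⟨E, hE⟩ := carry he P J (by omega)
  refine ⟨E, 3 * (Fintype.card I + 1) + 2 * (Fintype.card I * (3 * (Fintype.card I + 1) + 1) +
    Fintype.card I * (J.card * (3 * (Fintype.card I + 1) + 160)) + J.card * 160), ?_⟩
  filter_upwards [hg q P J (Fintype.card I + 1) (C + 1) hq (by omega),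
    hg q P J 0 80 hq (by omega)] with N g1 g2 o hN ok hR F hF
  subst hN
  have r0 : 80 ≤ o.R := g2.1.trans ok.hR
  have r1 : (0 : ℝ) < o.R := by exact_mod_cast (by omega : 0 < o.R)
  have q0 : 0 < q ^ (2 * o.s) := by positivity
  have y1 : o.R ≤ F.Y := (Nat.le_mul_of_pos_left _ q0).trans hF.Ybig
  have y2 : q ^ (2 * o.s) ≤ F.Y := (Nat.le_mul_of_pos_right _ (by omega)).trans hF.Ybig
  have d1 : ((Fintype.card I : ℝ) + 1) * (3 / F.Y) ≤ 3 * (Fintype.card I + 1) * (1 / o.R) := by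
    have : (3 : ℝ) / F.Y ≤ 3 / o.R :=
      div_le_div_of_nonneg_left (by norm_num) r1 (by exact_mod_cast y1)
    refine (mul_le_mul_of_nonneg_left this (by positivity)).trans_eq (by ring)
  have d2 : (o.N : ℝ) ^ C * bet q o.N ≤ 1 / o.R := by
    have n1 : (o.R : ℝ) ≤ o.N := by
      exact_mod_cast y1.trans (hF.Yle.trans ok.pow_j)
    have b1 := bet_pos q o.N
    rw [le_div_iff₀ r1]
    refine le_trans ?_ g1.2.1
    rw [pow_succ, mul_right_comm _ (o.N : ℝ)]
    exact mul_le_mul_of_nonneg_left n1 (by positivity)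
  have c1 : corr q α P J o.N = Ec o.N F.D fun n _ => ee (pall q α P J o n) := by
    rw [Ec_fst hF.dens]
    refine expect_congr rfl fun n hn => congrArg ee (sum_congr rfl fun j hj => ?_)
    rw [ds_nat (hP n j hj) (g2.2.2 n 0 (by positivity) (by exact_mod_cast mem_range.1 hn) le_rfl
      (by simp) j hj).1]
  have : Nonempty (Fin (q ^ (2 * o.s))) := ⟨⟨0, q0⟩⟩
  have : Nonempty (Fin o.R) := ⟨⟨0, by omega⟩⟩
  rw [model, Ec_av]
  refine norm_sub_av fun yb => ?_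
  rw [Ec_av]
  refine norm_sub_av fun y => ?_
  have u1 : ∀ i, (y i : ℕ) ≤ F.Y := fun i => (y i).2.le.trans y1
  have u2 : ∀ i l, Function.update (fun i => (y i : ℕ)) i 0 l ≤ F.Y := fun i l => by
    rcases eq_or_ne l i with rfl | h
    · simp
    · rw [Function.update_of_ne h]; exact u1 l
  have u3 : (yb : ℕ) ≤ F.Y := yb.2.le.trans y2
  have m1 := (hs I q P J o C F ok hF g1.2.1 _ yb u1 u3).1 (fun n _ => ee (pall q α P J o n))
    fun _ _ => (norm_ee _).le
  have m2 := fun i => (hs I q P J o C F ok hF g1.2.1 _ yb (u2 i) u3).2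
  have k1 : ∀ i ∈ (univ : Finset I), Er o.N F.D (fun n ω => ind (¬ Kill q P o F
      (pt q o (F.gen ω) n (Function.update (fun i => (y i : ℕ)) i 0) yb) ω)) ≤
      (3 * (Fintype.card I + 1) + 1) * (1 / o.R) := fun i _ => by
    have a1 := (abs_le.1 (m2 i (fun n ω => ind (¬ Kill q P o F n ω)) fun _ _ => abs_ind _)).2
    have a2 := Er_small hF.dens ok.N_ne (mul_nonneg (by positivity) (bet_pos _ _).le) hF.kill
    linarith
  have k2 : ∀ i ∈ (univ : Finset I), ∀ j ∈ J, Er o.N F.D (fun n ω => ind (nn (((P.eval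
      (pt q o (F.gen ω) n (Function.update (fun i => (y i : ℕ)) i 0) yb + j) : ℤ) : ℝ) /
        (q : ℝ) ^ F.lo i) ≤ 2 / (o.R : ℝ))) ≤
      (3 * (Fintype.card I + 1) + 160) * (1 / o.R) := fun i _ j hj => by
    have a1 := (abs_le.1 (m2 i (fun n _ => ind (nn (((P.eval (n + j) : ℤ) : ℝ) /
      (q : ℝ) ^ F.lo i) ≤ 2 / (o.R : ℝ))) fun _ _ => abs_ind _)).2
    have a2 := hE q o ok r0 hR j hj _ (hF.reg i).1 ((hF.reg i).2.1.trans (hF.reg i).2.2)
    rw [Er_fst hF.dens] at a1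
    rw [div_eq_mul_one_div 160] at a2
    linarith
  have k3 : ∀ j ∈ J, Er o.N F.D (fun n _ => ind (nn (((P.eval (n + j) : ℤ) : ℝ) /
      (q : ℝ) ^ atop q P.natDegree o.N) ≤ 2 / (o.R : ℝ))) ≤ 160 * (1 / o.R) := fun j hj => by
    rw [Er_fst hF.dens, ← div_eq_mul_one_div]
    exact hE q o ok r0 hR j hj _ ((Nat.le.intro ok.a0_add).trans (b0_le_atop _ _ _)) le_rfl
  have s1 := Er_sum_le _ _ k1
  have s2 := Er_sum_le _ _ fun i hi => Er_sum_le _ _ (k2 i hi)
  have s3 := Er_sum_le _ _ k3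
  have s4 := add_le_add (add_le_add s1 s2) s3
  rw [← Er_add, ← Er_add] at s4
  have s5 := mul_le_mul_of_nonneg_left s4 (zero_le_two (α := ℝ))
  rw [← Er_two, card_univ] at s5
  have m3 := (norm_Ec_sub hF.dens
    (fun n ω => ee (pall q α P J o (pt q o (F.gen ω) n (fun i => y i) yb)))
    fun n ω => ee (pmod q α P J o F ω n (fun i => y i) yb)).trans
      (le_trans (Er_mono hF.dens fun n hn ω => ?_) s5)
  · rw [norm_sub_rev] at m1
    have m4 := norm_sub_le_norm_sub_add_norm_sub (corr q α P J o.N)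
      (Ec o.N F.D fun n ω => ee (pall q α P J o (pt q o (F.gen ω) n (fun i => y i) yb)))
      (Ec o.N F.D fun n ω => ee (pmod q α P J o F ω n (fun i => y i) yb))
    rw [← c1] at m1
    rw [div_eq_mul_one_div]
    linarith
  · refine le_of_not_gt fun hl => ?_
    have t0 := (hl.trans_le (norm_sub_le _ _))
    rw [norm_ee, norm_ee] at t0
    have p1 := fun i : I => sum_nonneg (s := J) fun j _ => ind_nonneg (nn (((P.eval
      (pt q o (F.gen ω) n (Function.update (fun i => (y i : ℕ)) i 0) yb + j) : ℤ) : ℝ) /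
        (q : ℝ) ^ F.lo i) ≤ 2 / (o.R : ℝ))
    have p2 := sum_nonneg (s := univ) fun i _ => p1 i
    have p3 := sum_nonneg (s := univ) fun (i : I) _ => ind_nonneg (¬ Kill q P o F
      (pt q o (F.gen ω) n (Function.update (fun i => (y i : ℕ)) i 0) yb) ω)
    have p4 := sum_nonneg (s := J) fun j _ => ind_nonneg (nn (((P.eval ((n : ℤ) + j) : ℤ) : ℝ) /
      (q : ℝ) ^ atop q P.natDegree o.N) ≤ 2 / (o.R : ℝ))
    obtain ⟨l1, l2, l3⟩ := three p3 p2 p4 t0
    obtain ⟨h, h1, h2, h3⟩ := shift ok hF ω n u1 yb.2.le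
    rw [ha I q α P J o C F n ω _ yb ok (by omega) h0 hF (fun i => (y i).2.le)
      (fun i => not_not.1 (not_of_lt (sum_lt (fun _ _ => ind_nonneg _) l1 i (mem_univ i))))
      (fun i j hj => not_le.1 (not_of_lt (sum_lt (fun _ _ => ind_nonneg _)
        (sum_lt (fun i _ => p1 i) l2 i (mem_univ i)) j (hF.sub i hj))))
      (fun j hj => ⟨not_le.1 (not_of_lt (sum_lt (fun _ _ => ind_nonneg _) l3 j hj)),
        h3 ▸ (g1.2.2 n h (by positivity) (by exact_mod_cast mem_range.1 hn) h1 h2 j hj).2⟩),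
      sub_self, norm_zero] at hl
    linarith

end Pool.Agent.MP_b1aeef_nt.H64
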