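import Pool.Agent.MP_b1aeef_nt.H64.Spec

/-! Without carries the true phase is the model phase. -/

open Finset Polynomial Filter Topology
open scoped BigOperators

namespace Pool.Agent.MP_b1aeef_nt.H64

namespace RE1a

theorem pt_upd {I : Type} [Fintype I] [DecidableEq I] (q : ℕ) (o : Par) (A : I → ℕ) (n : ℤ)
    (y : I → ℕ) (yb : ℕ) (i : I) :
    pt q o A n y yb = pt q o A n (Function.update y i 0) yb + A i * y i := by
  unfold pt
  rw [← add_sum_erase univ _ (mem_univ i),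
    ← add_sum_erase univ (fun k => (A k : ℤ) * (Function.update y i 0 k : ℕ)) (mem_univ i)]
  have : ∑ k ∈ univ.erase i, (A k : ℤ) * (Function.update y i 0 k : ℕ) =
      ∑ k ∈ univ.erase i, (A k : ℤ) * y k :=
    sum_congr rfl fun k hk => by rw [Function.update_of_ne (ne_of_mem_erase hk)]
  rw [this, Function.update_self]
  push_cast
  ring

theorem top {q a b j R : ℕ} (hq : 2 ≤ q) (hab : a ≤ b) (hR0 : 0 < R) (hR : R ≤ q ^ j) {D : ℤ}
    (h : |D| * (q : ℤ) ^ j ≤ (q : ℤ) ^ a) :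
    nn ((D : ℝ) / (q : ℝ) ^ b) ≤ 2 / (R : ℝ) / (q : ℝ) ^ (b - a) := by
  have hq0 : (0 : ℝ) < q := by exact_mod_cast (by omega : 0 < q)
  have hR1 : (0 : ℝ) < R := by exact_mod_cast hR0
  have hR2 : (R : ℝ) ≤ (q : ℝ) ^ j := by exact_mod_cast hR
  have h1 : |(D : ℝ)| * (q : ℝ) ^ j ≤ (q : ℝ) ^ a := by exact_mod_cast h
  obtain ⟨u, rfl⟩ := Nat.exists_eq_add_of_le hab
  refine (nn_le_abs _).trans ?_
  have ha : (0 : ℝ) < (q : ℝ) ^ a := by positivity
  have hu : (0 : ℝ) < (q : ℝ) ^ u := by positivity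
  have h2 : |(D : ℝ)| * R ≤ (q : ℝ) ^ a :=
    (mul_le_mul_of_nonneg_left hR2 (abs_nonneg _)).trans h1
  rw [Nat.add_sub_cancel_left, abs_div, abs_of_pos (by positivity : (0 : ℝ) < (q : ℝ) ^ (a + u)),
    pow_add, ← div_div]
  refine div_le_div_of_nonneg_right ?_ hu.le
  rw [div_le_div_iff₀ ha hR1]
  linarith

end RE1a

open RE1a in
theorem e1a : E1aStmt := by
  intro I _ _ q α P J o C F n ω y yb ok hd h0 hF hy hK hN hT
  have hq := ok.hq
  have o1 : a0 q o ≤ b0 q o.N := by have := ok.a0_add; omega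
  have o2 := b0_le_atop q P.natDegree o.N
  have o3 := atop_le_btop (q := q) (N := o.N) hd
  have hR : o.R ≤ q ^ jj q o.N :=
    ok.R_le.trans (Nat.pow_le_pow_right (by omega) (by have := ok.hs; omega))
  have e1 : ptop q α P J o n = ∑ j ∈ J, α j * ds q (atop q P.natDegree o.N)
      (btop q P.natDegree o.N) (P.eval (pt q o (F.gen ω) n y yb + j)) := by
    refine sum_congr rfl fun j hj => ?_
    rw [ds_eq_of_small hq o3 (top hq o3 (by have := ok.R16; omega) hR (hT j hj).2) (hT j hj).1]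
  have e2 : ∀ i, pdir q α P o F ω n i y yb = ∑ j ∈ F.cop i,
      α j * ds q (F.lo i) (F.hi i) (P.eval (pt q o (F.gen ω) n y yb + j)) := fun i => by
    refine sum_congr rfl fun j hj => ?_
    rw [pt_upd q o (F.gen ω) n y yb i, add_right_comm,
      ds_eq_of_small hq (hF.reg i).2.1 (hK i i j hj (y i) (hy i)) (hN i j hj)]
  have e3 := hF.cover α fun j => P.eval (pt q o (F.gen ω) n y yb + j)
  have e4 := add_sum_erase J (fun j => α j * ds q (a0 q o) (b0 q o.N)
    (P.eval (pt q o (F.gen ω) n y yb + j))) h0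
  have e5 : pall q α P J o (pt q o (F.gen ω) n y yb) =
      ∑ j ∈ J, α j * ds q 0 (a0 q o) (P.eval (pt q o (F.gen ω) n y yb + j)) +
      ∑ j ∈ J, α j * ds q (a0 q o) (b0 q o.N) (P.eval (pt q o (F.gen ω) n y yb + j)) +
      ∑ j ∈ J, α j * ds q (b0 q o.N) (atop q P.natDegree o.N)
        (P.eval (pt q o (F.gen ω) n y yb + j)) +
      ∑ j ∈ J, α j * ds q (atop q P.natDegree o.N) (btop q P.natDegree o.N)
        (P.eval (pt q o (F.gen ω) n y yb + j)) := by
    rw [← sum_add_distrib, ← sum_add_distrib, ← sum_add_distrib]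
    refine sum_congr rfl fun j _ => ?_
    rw [← ds_add hq (Nat.zero_le _) o3, ← ds_add hq (Nat.zero_le _) o2,
      ← ds_add hq (Nat.zero_le _) o1]
    push_cast
    ring
  rw [e5, pmod, e1, sum_congr rfl fun i _ => e2 i, e3, pmain, ← e4, add_zero]
  ring

end Pool.Agent.MP_b1aeef_nt.H64
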