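import Pool.Agent.MP_b1aeef_nt.H64.Spec

/-! Row E3: the cube average of the window is bounded by cube correlations of the digit sum. -/

open Finset Polynomial Filter Topology
open scoped BigOperators

namespace Pool.Agent.MP_b1aeef_nt.H64

namespace RE3

theorem per_nat {M : ℕ} {G : ℤ → ℂ} (hG : ∀ y t : ℤ, G (y + M * t) = G y) (k : ℕ) :
    ∑ y ∈ range M, G ((y : ℤ) + k) = ∑ y ∈ range M, G y := by
  induction k with
  | zero => simp
  | succ k ih =>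
    have h1 := sum_range_succ (fun y : ℕ => G ((y : ℤ) + k)) M
    have h2 := sum_range_succ' (fun y : ℕ => G ((y : ℤ) + k)) M
    have h3 : G ((M : ℤ) + k) = G (((0 : ℕ) : ℤ) + k) := by
      rw [← hG (((0 : ℕ) : ℤ) + k) 1]
      exact congrArg G (by push_cast; ring)
    have h4 : ∑ y ∈ range M, G ((y : ℤ) + (k + 1 : ℕ)) =
        ∑ y ∈ range M, G (((y + 1 : ℕ) : ℤ) + k) :=
      sum_congr rfl fun y _ => congrArg G (by push_cast; ring)
    rw [h4, ← ih]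
    exact add_right_cancel ((h2.symm.trans h1).trans (congrArg _ h3))

theorem per {M : ℕ} (hM : 0 < M) {G : ℤ → ℂ} (hG : ∀ y t : ℤ, G (y + M * t) = G y) (k : ℤ) :
    𝔼 y ∈ range M, G ((y : ℤ) + k) = 𝔼 y ∈ range M, G y := by
  obtain ⟨r, hr⟩ := Int.eq_ofNat_of_zero_le (Int.emod_nonneg k (Int.natCast_ne_zero.2 hM.ne'))
  have h1 : ∑ y ∈ range M, G ((y : ℤ) + k) = ∑ y ∈ range M, G ((y : ℤ) + r) := by
    refine sum_congr rfl fun y _ => ?_
    rw [← hG ((y : ℤ) + r) (k / M), ← hr, add_assoc, Int.emod_add_mul_ediv]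
  rw [expect, expect, h1, per_nat hG]

theorem fin_range (M : ℕ) (G : ℕ → ℂ) : 𝔼 y : Fin M, G y = 𝔼 y ∈ range M, G y := by
  rw [expect, expect, Fin.sum_univ_eq_sum_range, card_univ, Fintype.card_fin, card_range]

theorem flo {I : Type} (E : Finset I) {Q : ℤ} (hQ : 0 < Q) (z : ℤ) (w : I → ℤ) :
    ∃ c : ℕ, c ≤ E.card ∧ (z + ∑ v ∈ E, w v) / Q = z / Q + ∑ v ∈ E, w v / Q + c := by
  have h0 : 0 ≤ z % Q + ∑ v ∈ E, w v % Q :=
    add_nonneg (Int.emod_nonneg _ hQ.ne') (sum_nonneg fun v _ => Int.emod_nonneg _ hQ.ne')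
  obtain ⟨c, hc⟩ := Int.eq_ofNat_of_zero_le (Int.ediv_nonneg h0 hQ.le)
  have h1 : ∑ v ∈ E, w v % Q ≤ E.card • Q :=
    sum_le_card_nsmul _ _ _ fun v _ => (Int.emod_lt_of_pos _ hQ).le
  have h2 : (c : ℤ) < E.card + 1 := by
    rw [← hc]
    refine Int.ediv_lt_of_lt_mul hQ ?_
    rw [nsmul_eq_mul] at h1
    linarith [Int.emod_lt_of_pos z hQ]
  refine ⟨c, by omega, ?_⟩
  have h3 : z + ∑ v ∈ E, w v = z % Q + ∑ v ∈ E, w v % Q + Q * (z / Q + ∑ v ∈ E, w v / Q) := by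
    rw [mul_add, mul_sum, add_add_add_comm, ← sum_add_distrib, Int.emod_add_mul_ediv]
    exact congrArg _ (sum_congr rfl fun v _ => (Int.emod_add_mul_ediv _ _).symm)
  rw [h3, Int.add_mul_ediv_left _ _ hQ.ne', hc, add_comm]

theorem tay (P : ℤ[X]) (n h d : ℤ) (hd : d ∣ h) :
    d * d ∣ P.eval (n + h) - (P.eval n + P.derivative.eval n * h) := by
  obtain ⟨k, hk⟩ := P.binomExpansion n h
  rw [hk, add_sub_cancel_left, pow_two]
  exact (mul_dvd_mul hd hd).mul_left k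

theorem vsum {I : Type} [Fintype I] [DecidableEq I] (A y0 y1 : I → ℕ) (E : Finset I) :
    ∑ i, (A i : ℤ) * (vtx y0 y1 E i : ℕ) =
      ∑ i, (A i : ℤ) * y0 i + ∑ v ∈ E, ((y1 v : ℤ) - y0 v) * A v := by
  rw [← sum_ite_mem_eq (s := E), ← sum_add_distrib]
  refine sum_congr rfl fun i _ => ?_
  unfold vtx
  split_ifs <;> ring

theorem inner {I : Type} [Fintype I] [DecidableEq I] {q : ℕ} {o : Par} (h : Ok q o) (x : ℝ)
    (z : ℤ) (w : I → ℤ) :
    ‖𝔼 t ∈ range (q ^ o.s), ee (x * ∑ E : Finset I, (-1) ^ E.card *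
      (ds q (a0 q o) (b0 q o.N) (z + ∑ v ∈ E, w v + (q : ℤ) ^ a1 q o * t) : ℝ))‖ ≤
    ∑ c ∈ Fintype.piFinset (fun _ : Finset I => range (Fintype.card I + 1)),
      ‖Phi q x o.s c (fun v => (w v / (q : ℤ) ^ a1 q o % (q : ℤ) ^ o.s).toNat)‖ := by
  have hq : 0 < q := by have := h.hq; omega
  have hq0 : (0 : ℤ) < q := by exact_mod_cast hq
  have hQ : (0 : ℤ) < (q : ℤ) ^ a1 q o := by positivity
  have hT : (0 : ℤ) < (q : ℤ) ^ o.s := by positivity
  choose c hc1 hc2 using fun E : Finset I => flo E hQ z w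
  refine le_trans (le_of_eq ?_) (single_le_sum (fun _ _ => norm_nonneg _) (a := c)
    (Fintype.mem_piFinset.2 fun E => mem_range.2 (Nat.lt_succ_of_le ((hc1 E).trans E.card_le_univ))))
  let i : I → ℕ := fun v => (w v / (q : ℤ) ^ a1 q o % (q : ℤ) ^ o.s).toNat
  let H : ℤ → ℂ := fun t => ee (x * ∑ E : Finset I,
    (-1) ^ E.card * (dL q o.s (t + ∑ v ∈ E, (i v : ℤ) + c E) : ℝ))
  have hH : ∀ y t : ℤ, H (y + (q ^ o.s : ℕ) * t) = H y := fun y t => by
    refine congrArg (fun u => ee (x * u)) (sum_congr rfl fun E _ => ?_)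
    rw [dL_congr (m := y + ∑ v ∈ E, (i v : ℤ) + c E) ⟨t, by push_cast; ring⟩]
  have h1 : ∀ (t : ℤ) (E : Finset I),
      ds q (a0 q o) (b0 q o.N) (z + ∑ v ∈ E, w v + (q : ℤ) ^ a1 q o * t) =
        ds q (a0 q o) (a1 q o) (z + ∑ v ∈ E, w v) +
          dL q o.s (t + z / (q : ℤ) ^ a1 q o + ∑ v ∈ E, (i v : ℤ) + c E) := by
    intro t E
    have e1 : a0 q o ≤ a1 q o := by have := h.a0_add'; omega
    have e2 : a1 q o ≤ b0 q o.N := by have := h.a1_add; omega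
    have e3 : b0 q o.N - a1 q o = o.s := by have := h.a1_add; omega
    rw [← ds_add h.hq e1 e2, ds_congr h.hq e1 (m := z + ∑ v ∈ E, w v) ⟨t, by ring⟩]
    refine congrArg _ ?_
    rw [ds, e3, Int.add_mul_ediv_left _ _ hQ.ne', hc2 E]
    refine dL_congr ?_
    have e4 : (q : ℤ) ^ o.s ∣ ∑ v ∈ E, (w v / (q : ℤ) ^ a1 q o - (i v : ℤ)) := by
      refine dvd_sum fun v _ => ?_
      rw [Int.toNat_of_nonneg (Int.emod_nonneg _ hT.ne')]
      exact Int.dvd_self_sub_emod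
    rw [sum_sub_distrib] at e4
    exact (dvd_iff_dvd_of_dvd_sub ⟨0, by ring⟩).2 e4
  have h2 : ∀ t : ℕ, ee (x * ∑ E : Finset I, (-1) ^ E.card *
      (ds q (a0 q o) (b0 q o.N) (z + ∑ v ∈ E, w v + (q : ℤ) ^ a1 q o * t) : ℝ)) =
      ee (x * ∑ E : Finset I, (-1) ^ E.card *
        (ds q (a0 q o) (a1 q o) (z + ∑ v ∈ E, w v) : ℝ)) * H (t + z / (q : ℤ) ^ a1 q o) := by
    intro t
    rw [← ee_add, ← mul_add, ← sum_add_distrib]
    refine congrArg (fun u => ee (x * u)) (sum_congr rfl fun E _ => ?_)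
    rw [h1, Nat.cast_add, mul_add]
  rw [expect_congr rfl fun t _ => h2 t, ← mul_expect, norm_mul, norm_ee, one_mul,
    per (pow_pos hq _) hH]
  rfl

end RE3

open RE3 in
theorem e3 : E3Stmt := by
  intro I _ _ q x P o A n y0 y1 h hA hg
  have hq : 0 < q := by have := h.hq; omega
  obtain ⟨u, u', hu⟩ : ∃ u u' : ℤ,
      P.derivative.eval n * u = (q : ℤ) ^ o.s + (q : ℤ) ^ (2 * o.s) * u' := by
    obtain ⟨k, hk⟩ := hg
    have h1 : (q : ℤ) ^ o.s = (Int.gcd (P.derivative.eval n) ((q : ℤ) ^ (2 * o.s)) : ℤ) * k := by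
      exact_mod_cast hk
    rw [Int.gcd_eq_gcd_ab] at h1
    exact ⟨Int.gcdA (P.derivative.eval n) ((q : ℤ) ^ (2 * o.s)) * k,
      -(Int.gcdB (P.derivative.eval n) ((q : ℤ) ^ (2 * o.s)) * k), by linear_combination -h1⟩
  have e0 : a0 q o ≤ b0 q o.N := by have := h.a0_add; omega
  have e1 : (q : ℤ) ^ b0 q o.N = (q : ℤ) ^ a0 q o * (q : ℤ) ^ (2 * o.s) := by
    rw [← pow_add, h.a0_add]
  have e2 : (q : ℤ) ^ a1 q o = (q : ℤ) ^ a0 q o * (q : ℤ) ^ o.s := by rw [← pow_add, h.a0_add']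
  let w : I → ℤ := fun v => ((y1 v : ℤ) - y0 v) * P.derivative.eval n * A v
  let z : ℤ → ℤ := fun y => P.eval n + P.derivative.eval n * ∑ i, (A i : ℤ) * y0 i +
    (q : ℤ) ^ a0 q o * (P.derivative.eval n * y)
  let F : ℤ → ℂ := fun y => ee (x * ∑ E : Finset I,
    (-1) ^ E.card * (ds q (a0 q o) (b0 q o.N) (z y + ∑ v ∈ E, w v) : ℝ))
  have hF : ∀ y t : ℤ, F (y + (q ^ (2 * o.s) : ℕ) * t) = F y := fun y t => by
    refine congrArg (fun u => ee (x * u)) (sum_congr rfl fun E _ => ?_)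
    rw [ds_congr h.hq e0 (m := z y + ∑ v ∈ E, w v) ⟨P.derivative.eval n * t, by
      simp only [z, e1]; push_cast; ring⟩]
  have h1 : cube q x P o A n y0 y1 = 𝔼 y ∈ range (q ^ (2 * o.s)), F y := by
    rw [← fin_range _ fun y => F y]
    refine expect_congr rfl fun y _ => congrArg (fun u => ee (x * u)) (sum_congr rfl fun E _ => ?_)
    have h2 := tay P n (∑ i, (A i : ℤ) * (vtx y0 y1 E i : ℕ) + (q : ℤ) ^ a0 q o * (y : ℕ))
      ((q : ℤ) ^ jj q o.N) (dvd_add (dvd_sum fun i _ => Dvd.dvd.mul_right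
        (by exact_mod_cast hA i) _) ((pow_dvd_pow _ h.j_le_a0).mul_right _))
    rw [← pow_add, ← two_mul, ← add_assoc] at h2
    have h3 : P.eval n + P.derivative.eval n *
        (∑ i, (A i : ℤ) * (vtx y0 y1 E i : ℕ) + (q : ℤ) ^ a0 q o * (y : ℕ)) =
        z (y : ℕ) + ∑ v ∈ E, w v := by
      have h4 : ∑ v ∈ E, w v = P.derivative.eval n * ∑ v ∈ E, ((y1 v : ℤ) - y0 v) * A v := by
        rw [mul_sum]
        exact sum_congr rfl fun v _ => by simp only [w]; ring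
      rw [vsum, h4]
      simp only [z]
      ring
    rw [h3] at h2
    rw [ds_congr h.hq e0 (m := z (y : ℕ) + ∑ v ∈ E, w v) (m' := P.eval (pt q o A n _ y)) h2]
  have h5 : 𝔼 y ∈ range (q ^ (2 * o.s)), F y =
      𝔼 y ∈ range (q ^ (2 * o.s)), 𝔼 t ∈ range (q ^ o.s), F ((y : ℤ) + u * t) := by
    rw [expect_comm, expect_congr rfl fun (t : ℕ) _ => per (pow_pos hq _) hF (u * t),
      expect_const (nonempty_range_iff.2 (pow_pos hq _).ne')]
  rw [h1, h5]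
  refine (RCLike.norm_expect_le (K := ℝ)).trans
    (expect_le (nonempty_range_iff.2 (pow_pos hq _).ne') fun y _ => ?_)
  refine le_trans (le_of_eq (congrArg _ (expect_congr rfl fun t _ => ?_))) (inner h x (z y) w)
  refine congrArg (fun u => ee (x * u)) (sum_congr rfl fun E _ => ?_)
  rw [ds_congr h.hq e0 (m := z y + ∑ v ∈ E, w v + (q : ℤ) ^ a1 q o * t) ⟨u' * t, by
    simp only [z, e1, e2]; linear_combination (q : ℤ) ^ a0 q o * t * hu⟩]

end Pool.Agent.MP_b1aeef_nt.H64
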