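import Pool.Agent.MP_b1aeef_nt.H64.Spec

/-! Row E4: the window digits of the steps of the cube are nearly equidistributed. -/

open Finset Polynomial Filter Topology
open scoped BigOperators

namespace Pool.Agent.MP_b1aeef_nt.H64

namespace RE4

variable {Ω : Type} [Fintype Ω] {N : ℕ} {D : ℤ → Ω → ℝ}

theorem Ec_sum {ι : Type} (s : Finset ι) (φ : ι → ℤ → Ω → ℂ) :
    Ec N D (fun n ω => ∑ i ∈ s, φ i n ω) = ∑ i ∈ s, Ec N D (φ i) := by
  unfold Ec
  simp only [mul_sum, expect_sum_comm]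

theorem Ec_mul (c : ℂ) (φ : ℤ → Ω → ℂ) :
    Ec N D (fun n ω => c * φ n ω) = c * Ec N D φ := by
  unfold Ec
  simp only [mul_expect, mul_left_comm c]

theorem Ec_norm (hD : Dens D) (φ : ℤ → Ω → ℂ) (h : ∀ n ω, ‖φ n ω‖ ≤ 1) : ‖Ec N D φ‖ ≤ 1 := by
  unfold Ec
  rcases Nat.eq_zero_or_pos N with rfl | hN
  · simp
  refine (RCLike.norm_expect_le (K := ℝ)).trans ?_
  refine expect_le (nonempty_range_iff.2 hN.ne') fun n _ => ?_
  refine (RCLike.norm_expect_le (K := ℝ)).trans ?_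
  rw [← hD.avg n]
  refine expect_le_expect fun ω _ => ?_
  rw [norm_mul, Complex.norm_real, Real.norm_of_nonneg (hD.nonneg _ _)]
  exact mul_le_of_le_one_right (hD.nonneg _ _) (h _ _)

theorem Er_coe (φ : ℤ → Ω → ℝ) : (Er N D φ : ℂ) = Ec N D (fun n ω => (φ n ω : ℂ)) := by
  unfold Er Ec
  simp only [Complex.ofReal_expect, Complex.ofReal_mul]

theorem Er_mono (hD : Dens D) {φ ψ : ℤ → Ω → ℝ} (h : ∀ n ω, φ n ω ≤ ψ n ω) :
    Er N D φ ≤ Er N D ψ :=
  expect_le_expect fun n _ => expect_le_expect fun ω _ =>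
    mul_le_mul_of_nonneg_left (h n ω) (hD.nonneg _ _)

theorem near {q a s g : ℕ} (hq : 2 ≤ q) (hg : g ≤ s) (m : ℤ) (i : ℕ)
    (h : (m / (q : ℤ) ^ a % (q : ℤ) ^ s).toNat = i) :
    (q : ℝ) ^ (s - g) * nn ((q : ℝ) ^ g * m / (q : ℝ) ^ (a + s) - (q : ℝ) ^ g * i / (q : ℝ) ^ s) ≤
      1 := by
  have hq0 : (0 : ℤ) < q := by exact_mod_cast (by omega : 0 < q)
  have hq1 : (0 : ℝ) < q := by exact_mod_cast (by omega : 0 < q)
  have ha : (0 : ℤ) < (q : ℤ) ^ a := by positivity
  have hs : (0 : ℤ) < (q : ℤ) ^ s := by positivity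
  have h1 := Int.mul_ediv_add_emod m ((q : ℤ) ^ a)
  have h2 := Int.mul_ediv_add_emod (m / (q : ℤ) ^ a) ((q : ℤ) ^ s)
  have h3 : m / (q : ℤ) ^ a % (q : ℤ) ^ s = i := by
    rw [← h, Int.toNat_of_nonneg (Int.emod_nonneg _ hs.ne')]
  have h4 := Int.emod_nonneg m ha.ne'
  have h5 := Int.emod_lt_of_pos m ha
  rw [h3] at h2
  generalize m / (q : ℤ) ^ a / (q : ℤ) ^ s = t at h2
  generalize m % (q : ℤ) ^ a = ρ at h1 h4 h5
  rw [← h2] at h1
  have h6 : (m : ℝ) = (q : ℝ) ^ a * ((q : ℝ) ^ s * t + i) + ρ := by exact_mod_cast h1.symm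
  have h7 : (0 : ℝ) ≤ ρ := by exact_mod_cast h4
  have h8 : (ρ : ℝ) ≤ (q : ℝ) ^ a := by exact_mod_cast h5.le
  obtain ⟨c, rfl⟩ := Nat.exists_eq_add_of_le hg
  rw [Nat.add_sub_cancel_left]
  have e : (q : ℝ) ^ g * m / (q : ℝ) ^ (a + (g + c)) - (q : ℝ) ^ g * i / (q : ℝ) ^ (g + c) =
      ρ / ((q : ℝ) ^ a * (q : ℝ) ^ c) + (((q : ℤ) ^ g * t : ℤ) : ℝ) := by
    rw [h6]
    push_cast
    simp only [pow_add]
    field_simp
    ring
  rw [e, nn_add_int]
  refine (mul_le_mul_of_nonneg_left (nn_le_abs _) (by positivity)).trans ?_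
  rw [abs_of_nonneg (by positivity), mul_div_assoc', div_le_one (by positivity), mul_comm]
  exact mul_le_mul_of_nonneg_right h8 (by positivity)

theorem expand (hf : FEJStmt) {I : Type} [Fintype I] [DecidableEq I] {U : ℕ} (hU : 1 ≤ U)
    (x : I → ℝ) : ((∏ v, fej U (x v) : ℝ) : ℂ) = (1 / (U : ℂ) ^ 2) ^ Fintype.card I *
      ∑ a ∈ Fintype.piFinset (fun _ : I => range U), ∑ b ∈ Fintype.piFinset (fun _ : I => range U),
        ee (∑ v, ((a v : ℝ) - b v) * x v) := by
  have h1 : ∀ v, (fej U (x v) : ℂ) = (1 / (U : ℂ) ^ 2) *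
      ∑ u ∈ range U, ∑ u' ∈ range U, ee (((u : ℝ) - u') * x v) := by
    intro v
    rw [(hf U hU).2.2.2.2.2.2]
    simp only [expect_eq_sum_div_card, card_range, ← sum_div]
    ring
  rw [Complex.ofReal_prod]
  simp only [h1]
  rw [prod_mul_distrib, prod_const, card_univ, prod_univ_sum]
  congr 1
  refine sum_congr rfl fun a _ => ?_
  rw [prod_univ_sum]
  exact sum_congr rfl fun b _ => (ee_sum _ _).symm

end RE4

theorem e4 (hf : FEJStmt) : E4Stmt := by
  intro I _ _ q P o F r i0 hok hD hF hg hr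
  have hq := hok.hq
  have hq1 : (0 : ℝ) < q := by exact_mod_cast (by omega : 0 < q)
  have h16 : 16 ≤ q ^ (o.s - gg q o) :=
    (Nat.pow_le_pow_left hq 4).trans (Nat.pow_le_pow_right (by omega) (by omega))
  have hU : 1 ≤ U0 q o := by unfold U0; omega
  have hU10 : 10 * U0 q o ≤ q ^ (o.s - gg q o) := by unfold U0; omega
  have hUs : U0 q o ≤ q ^ o.s :=
    le_trans (by omega) (Nat.pow_le_pow_right (by omega : 0 < q) (Nat.sub_le o.s (gg q o)))
  have hU0 : (0 : ℝ) < U0 q o := by exact_mod_cast hU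
  set U := U0 q o with hUdef
  let x : ℤ → F.Ω → I → ℝ := fun n ω v =>
    (q : ℝ) ^ gg q o * ((r v * P.derivative.eval n * F.gen ω v : ℤ) : ℝ) / (q : ℝ) ^ b0 q o.N -
      (q : ℝ) ^ gg q o * i0 v / (q : ℝ) ^ o.s
  have h1 : ∀ n ω, ind (idx q P o (F.gen ω) n r = i0) ≤
      2 ^ Fintype.card I * ∏ v, fej U (x n ω v) := by
    intro n ω
    by_cases h : idx q P o (F.gen ω) n r = i0
    · rw [ind_pos h, ← card_univ, ← prod_const, ← prod_mul_distrib]
      refine le_trans (le_of_eq (prod_const_one (s := univ)).symm)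
        (prod_le_prod (fun _ _ => zero_le_one) fun v _ => ?_)
      have h2 := RE4.near (a := a1 q o) hq (by omega : gg q o ≤ o.s) _ _ (congrFun h v)
      rw [hok.a1_add] at h2
      have h3 : (10 * U : ℝ) ≤ (q : ℝ) ^ (o.s - gg q o) := by exact_mod_cast hU10
      have h4 := (hf U hU).2.2.2.2.1 (x n ω v) (by
        have := mul_le_mul_of_nonneg_right h3 (nn_nonneg (x n ω v))
        linarith)
      linarith
    · rw [ind_neg h]
      exact mul_nonneg (by positivity) (prod_nonneg fun v _ => ((hf U hU).1 _).1)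
  have h2 : ∀ a ∈ Fintype.piFinset (fun _ : I => range U),
      ∀ b ∈ Fintype.piFinset (fun _ : I => range U),
      ‖Ec o.N F.D (fun n ω => ee (∑ v, ((a v : ℝ) - b v) * x n ω v))‖ ≤
        (if a = b then 1 else 0) + 1 / (F.Y : ℝ) := by
    intro a ha b hb
    split_ifs with hab
    · exact (RE4.Ec_norm hD _ fun n ω => (norm_ee _).le).trans
        (le_add_of_nonneg_right (by positivity))
    · have e : ∀ n ω, ee (∑ v, ((a v : ℝ) - b v) * x n ω v) =
          ee (-∑ v, ((a v : ℝ) - b v) * ((q : ℝ) ^ gg q o * i0 v / (q : ℝ) ^ o.s)) *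
            ee (wsum q P o (fun v => ((a v : ℤ) - b v) * r v) (F.gen ω) n) := by
        intro n ω
        rw [← ee_add, wsum, ← sum_neg_distrib, ← sum_add_distrib]
        refine congrArg ee (sum_congr rfl fun v _ => ?_)
        simp only [x]
        push_cast
        ring
      simp only [e]
      rw [RE4.Ec_mul, norm_mul, norm_ee, one_mul, zero_add]
      refine hF _ (fun h0 => hab (funext fun v => ?_)) fun v => ?_
      · have h3 : ((a v : ℤ) - b v) * r v = 0 := congrFun h0 v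
        have h4 := (mul_eq_zero.1 h3).resolve_right (hr v).1
        omega
      · have h3 := mem_range.1 (Fintype.mem_piFinset.1 ha v)
        have h4 := mem_range.1 (Fintype.mem_piFinset.1 hb v)
        have h5 : |(a v : ℤ) - b v| ≤ (q ^ o.s : ℕ) := by
          rw [abs_le]; constructor <;> omega
        rw [abs_mul, UF, Nat.cast_mul]
        exact mul_le_mul h5 (hr v).2 (abs_nonneg _) (by positivity)
  have h3 : Er o.N F.D (fun n ω => ∏ v, fej U (x n ω v)) ≤
      (1 / (U : ℝ)) ^ Fintype.card I + 1 / F.Y := by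
    refine (le_abs_self _).trans ?_
    rw [← Real.norm_eq_abs, ← Complex.norm_real, RE4.Er_coe]
    simp only [RE4.expand hf hU]
    rw [RE4.Ec_mul, RE4.Ec_sum, norm_mul]
    have h4 : ‖∑ a ∈ Fintype.piFinset (fun _ : I => range U), Ec o.N F.D (fun n ω =>
        ∑ b ∈ Fintype.piFinset (fun _ : I => range U), ee (∑ v, ((a v : ℝ) - b v) * x n ω v))‖ ≤
        (U : ℝ) ^ Fintype.card I * (1 + (U : ℝ) ^ Fintype.card I * (1 / F.Y)) := by
      have hc : ((Fintype.piFinset (fun _ : I => range U)).card : ℝ) =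
          (U : ℝ) ^ Fintype.card I := by
        rw [Fintype.card_piFinset]; simp
      refine (norm_sum_le _ _).trans ((sum_le_card_nsmul _ _ _ fun a ha => ?_).trans
        (by rw [nsmul_eq_mul, hc]))
      rw [RE4.Ec_sum]
      refine (norm_sum_le _ _).trans ((sum_le_sum (h2 a ha)).trans (le_of_eq ?_))
      rw [sum_add_distrib, sum_ite_eq, if_pos ha, sum_const, nsmul_eq_mul, hc]
    have h5 : ‖(1 / (U : ℂ) ^ 2) ^ Fintype.card I‖ = (1 / (U : ℝ) ^ 2) ^ Fintype.card I := by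
      simp
    rw [h5]
    refine (mul_le_mul_of_nonneg_left h4 (by positivity)).trans (le_of_eq ?_)
    rw [one_div_pow, one_div_pow, ← pow_mul, mul_comm 2, pow_mul]
    field_simp
  refine (RE4.Er_mono hD h1).trans ?_
  refine le_trans (le_of_eq ?_) (mul_le_mul_of_nonneg_left h3 (by positivity))
  unfold Er
  simp only [mul_expect, mul_left_comm ((2 : ℝ) ^ Fintype.card I)]

end Pool.Agent.MP_b1aeef_nt.H64
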