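import Pool.Agent.MP_b1aeef_nt.H64.Spec

/-! Row E5: the model is small. -/

open Finset Polynomial Filter Topology
open scoped BigOperators

namespace Pool.Agent.MP_b1aeef_nt.H64

namespace RE5

theorem er_mono {Ω : Type} [Fintype Ω] (N : ℕ) {D : ℤ → Ω → ℝ} (hD : Dens D) {φ ψ : ℤ → Ω → ℝ}
    (h : ∀ n ω, φ n ω ≤ ψ n ω) : Er N D φ ≤ Er N D ψ :=
  expect_le_expect fun n _ => expect_le_expect fun ω _ =>
    mul_le_mul_of_nonneg_left (h n ω) (hD.nonneg n ω)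

theorem er_add {Ω : Type} [Fintype Ω] (N : ℕ) (D : ℤ → Ω → ℝ) (φ ψ : ℤ → Ω → ℝ) :
    Er N D (fun n ω => φ n ω + ψ n ω) = Er N D φ + Er N D ψ := by
  unfold Er
  simp only [mul_add, expect_add_distrib]

theorem er_n {Ω : Type} [Fintype Ω] (N : ℕ) {D : ℤ → Ω → ℝ} (hD : Dens D) (f : ℤ → ℝ) :
    Er N D (fun n _ => f n) = 𝔼 n ∈ range N, f (n : ℤ) := by
  unfold Er
  refine expect_congr rfl fun n _ => ?_
  rw [← expect_mul, hD.avg, one_mul]

theorem er_sum {Ω κ : Type} [Fintype Ω] (N : ℕ) (D : ℤ → Ω → ℝ) (s : Finset κ)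
    (φ : κ → ℤ → Ω → ℝ) :
    Er N D (fun n ω => ∑ i ∈ s, φ i n ω) = ∑ i ∈ s, Er N D (φ i) := by
  unfold Er
  simp only [mul_sum, expect_sum_comm]

theorem er_mul {Ω : Type} [Fintype Ω] (N : ℕ) (D : ℤ → Ω → ℝ) (φ : ℤ → Ω → ℝ) (c : ℝ) :
    Er N D (fun n ω => φ n ω * c) = Er N D φ * c := by
  unfold Er
  simp only [← mul_assoc, expect_mul]

theorem er_expect {Ω κ : Type} [Fintype Ω] [Fintype κ] (N : ℕ) (D : ℤ → Ω → ℝ)
    (φ : κ → ℤ → Ω → ℝ) :
    Er N D (fun n ω => 𝔼 i : κ, φ i n ω) = 𝔼 i : κ, Er N D (φ i) := by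
  unfold Er
  simp only [mul_expect]
  rw [expect_comm (univ : Finset κ)]
  exact expect_congr rfl fun n _ => expect_comm _ _ _

theorem norm_expect_ee {κ : Type} (s : Finset κ) (f : κ → ℝ) : ‖𝔼 i ∈ s, ee (f i)‖ ≤ 1 := by
  rcases s.eq_empty_or_nonempty with rfl | h
  · simp
  · refine (RCLike.norm_expect_le (K := ℝ)).trans ?_
    simp only [norm_ee]
    rw [expect_const h]

theorem exp_eq {I : Type} [Fintype I] [DecidableEq I] {R : ℕ} (hR : 0 < R) (i : I) (a : Fin R) :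
    𝔼 y : I → Fin R, ind (y i = a) = 1 / (R : ℝ) := by
  have h1 : ∑ y : I → Fin R, ind (y i = a) =
      ((univ.filter fun y : I → Fin R => y i = a).card : ℝ) := by
    rw [card_filter]
    push_cast
    refine sum_congr rfl fun y _ => ?_
    by_cases h : y i = a
    · rw [ind_pos h, if_pos h]
    · rw [ind_neg h, if_neg h]
  have h2 := Fintype.card_filter_piFinset_const_eq_of_mem (ι := I) (univ : Finset (Fin R)) i
    (mem_univ a)
  rw [Fintype.piFinset_univ, card_univ, Fintype.card_fin] at h2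
  have h3 : 1 ≤ Fintype.card I := Fintype.card_pos_iff.2 ⟨i⟩
  obtain ⟨e, he⟩ := Nat.exists_eq_add_of_le' h3
  rw [expect_eq_sum_div_card, h1, h2, card_univ, Fintype.card_fun, Fintype.card_fin, he,
    Nat.add_sub_cancel]
  have : (0 : ℝ) < R := by exact_mod_cast hR
  push_cast
  field_simp
  ring

theorem exp_coll {I : Type} [Fintype I] [DecidableEq I] {R : ℕ} (hR : 0 < R) (y0 : I → Fin R) :
    𝔼 y : I → Fin R, ind (∃ i, y i = y0 i) ≤ (Fintype.card I : ℝ) / R := by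
  have h1 : ∀ y : I → Fin R, ind (∃ i, y i = y0 i) ≤ ∑ i, ind (y i = y0 i) := fun y => by
    by_cases h : ∃ i, y i = y0 i
    · obtain ⟨i, hi⟩ := h
      rw [ind_pos ⟨i, hi⟩, ← ind_pos hi]
      exact single_le_sum (f := fun i => ind (y i = y0 i)) (fun j _ => ind_nonneg _) (mem_univ i)
    · rw [ind_neg h]
      exact sum_nonneg fun j _ => ind_nonneg _
  refine (expect_le_expect fun y _ => h1 y).trans (le_of_eq ?_)
  rw [expect_sum_comm]
  simp only [exp_eq hR]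
  rw [sum_const, card_univ, nsmul_eq_mul]
  ring

theorem idx_lt {I : Type} {q : ℕ} (hq : 2 ≤ q) (P : ℤ[X]) (o : Par) (A : I → ℕ) (n : ℤ)
    (r : I → ℤ) (v : I) : idx q P o A n r v < q ^ o.s := by
  have hq0 : (0 : ℤ) < (q : ℤ) ^ o.s := by
    have : (0 : ℤ) < q := by exact_mod_cast (by omega : 0 < q)
    positivity
  unfold idx
  rw [Int.toNat_lt (Int.emod_nonneg _ hq0.ne')]
  push_cast
  exact Int.emod_lt_of_pos _ hq0

theorem split_idx {I : Type} [Fintype I] [DecidableEq I] {M : ℕ} (f : (I → ℕ) → ℝ)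
    (hf : ∀ i, 0 ≤ f i) (j : I → ℕ) (hj : ∀ v, j v < M) :
    f j ≤ ∑ i0 : I → Fin M, ind (j = fun v => (i0 v : ℕ)) * f (fun v => (i0 v : ℕ)) := by
  have h := single_le_sum (s := univ)
    (f := fun i0 : I → Fin M => ind (j = fun v => (i0 v : ℕ)) * f (fun v => (i0 v : ℕ)))
    (fun i0 _ => mul_nonneg (ind_nonneg _) (hf _)) (mem_univ fun v => ⟨j v, hj v⟩)
  simp only [ind_pos True.intro, one_mul] at h
  exact h

/-- the numerical end -/
theorem numeric {k : ℕ} {Q U Y R θ B : ℝ} (hR : 0 < R) (hU : 0 < U) (hY : 0 < Y) (hQ : 0 < Q)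
    (hB : 0 ≤ B) (h0 : 0 ≤ θ) (h1 : θ ≤ 1) (hQU : Q ≤ B * R ^ 4 * U) (hθ : θ * R ^ (4 * k + 1) ≤ 1)
    (hQY : Q ^ (k + 1) ≤ Y) (hRQ : R ≤ Q) :
    ((1 / U) ^ k + 1 / Y) * (Q ^ k * θ) ≤ (B ^ k + 1) / R := by
  have a1 : (1 / U) ^ k * (Q ^ k * θ) ≤ B ^ k / R := by
    have e1 : (1 / U) ^ k * Q ^ k ≤ B ^ k * R ^ (4 * k) := by
      rw [← mul_pow, pow_mul, ← mul_pow]
      refine pow_le_pow_left₀ (by positivity) ?_ k
      rw [one_div, inv_mul_le_iff₀ hU]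
      linarith
    rw [le_div_iff₀ hR]
    calc (1 / U) ^ k * (Q ^ k * θ) * R = ((1 / U) ^ k * Q ^ k) * (θ * R) := by ring
      _ ≤ (B ^ k * R ^ (4 * k)) * (θ * R) := mul_le_mul_of_nonneg_right e1 (by positivity)
      _ = B ^ k * (θ * R ^ (4 * k + 1)) := by ring
      _ ≤ B ^ k * 1 := mul_le_mul_of_nonneg_left hθ (by positivity)
      _ = B ^ k := mul_one _
  have a2 : 1 / Y * (Q ^ k * θ) ≤ 1 / R := by
    rw [one_div_mul_eq_div, div_le_div_iff₀ hY hR, one_mul]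
    calc Q ^ k * θ * R ≤ Q ^ k * 1 * Q := by gcongr
      _ = Q ^ (k + 1) := by ring
      _ ≤ Y := hQY
  rw [add_mul, add_div]
  exact add_le_add a1 a2

end RE5

open RE5 in
theorem e5 (h2 : E2Stmt) (h3 : E3Stmt) (h4 : E4Stmt) (hv : VALStmt) (hg : GNStmt) : E5Stmt := by
  intro I _ _ _ q α P J hP hα
  by_cases hq : 2 ≤ q
  swap
  · exact ⟨0, 0, fun o C F hok => absurd hok.hq hq⟩
  obtain ⟨θ, C0, θ0, θ1, hG⟩ := hg q (α 0) hq hα I
  obtain ⟨Ev, Cv, hV⟩ := hv q P hP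
  obtain ⟨n0, hn0⟩ := exists_pow_lt_of_lt_one (show (0 : ℝ) < 1 / 2 by norm_num) θ1
  have hn1 : n0 ≠ 0 := by
    rintro rfl
    norm_num at hn0
  have hC0 : 0 ≤ C0 := by
    have := (expect_nonneg fun i _ => norm_nonneg _).trans (hG 0 (fun _ => 0) fun _ => Nat.zero_le _)
    simpa using this
  obtain ⟨k, hk⟩ : ∃ k, k = Fintype.card I := ⟨_, rfl⟩
  obtain ⟨T, hT⟩ : ∃ T, T = Fintype.piFinset (fun _ : Finset I => range (Fintype.card I + 1)) :=
    ⟨_, rfl⟩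
  refine ⟨Ev + 5 + (4 * k + 1) * n0 + (k + 1),
    k + (Cv + T.card * (2 ^ k * C0 * ((20 * (q : ℝ) ^ 2) ^ k + 1))), ?_⟩
  intro o C F hok hRE hq6 hY hF hFour
  have hR16 := hok.R16
  have hR0 : 0 < o.R := by omega
  have hRr : (0 : ℝ) < o.R := by exact_mod_cast hR0
  have hq0 : 0 < q := by omega
  have hpow : ∀ e, e ≤ Ev + 5 + (4 * k + 1) * n0 + (k + 1) → o.R ^ e ≤ 2 ^ o.s := fun e he =>
    (Nat.pow_le_pow_right hR0 he).trans hRE
  have hKR : KK q o.N * o.R ^ 2 ≤ o.R ^ 4 := by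
    have := Nat.pow_le_pow_left hok.hR 2
    unfold KK
    calc lg q o.N ^ 2 * o.R ^ 2 ≤ o.R ^ 2 * o.R ^ 2 := Nat.mul_le_mul_right _ this
      _ = o.R ^ 4 := by ring
  have hgg : q ^ gg q o ≤ q ^ 2 * o.R ^ 4 := hok.gg_le.trans (Nat.mul_le_mul_left _ hKR)
  have hg4 : gg q o + 4 ≤ o.s := by
    rw [← Nat.pow_le_pow_iff_right (show 1 < q by omega)]
    calc q ^ (gg q o + 4) = q ^ gg q o * q ^ 4 := pow_add _ _ _
      _ ≤ q ^ 2 * o.R ^ 4 * q ^ 4 := Nat.mul_le_mul_right _ hgg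
      _ = q ^ 6 * o.R ^ 4 := by ring
      _ ≤ o.R * o.R ^ 4 := Nat.mul_le_mul_right _ hq6
      _ = o.R ^ 5 := by ring
      _ ≤ 2 ^ o.s := hpow 5 (by omega)
      _ ≤ q ^ o.s := Nat.pow_le_pow_left hq _
  have h16 : 16 ≤ q ^ (o.s - gg q o) :=
    calc 16 = 2 ^ 4 := by norm_num
      _ ≤ q ^ 4 := Nat.pow_le_pow_left hq _
      _ ≤ q ^ (o.s - gg q o) := Nat.pow_le_pow_right hq0 (by omega)
  have hU1 : q ^ (o.s - gg q o) ≤ 20 * U0 q o := by unfold U0; omega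
  have hU0 : 0 < U0 q o := by omega
  have hQU : q ^ o.s ≤ 20 * q ^ 2 * o.R ^ 4 * U0 q o :=
    calc q ^ o.s = q ^ gg q o * q ^ (o.s - gg q o) := by
          rw [← pow_add]; congr 1; omega
      _ ≤ q ^ 2 * o.R ^ 4 * (20 * U0 q o) := Nat.mul_le_mul hgg hU1
      _ = 20 * q ^ 2 * o.R ^ 4 * U0 q o := by ring
  have hQY : (q ^ o.s) ^ (k + 1) ≤ F.Y :=
    (Nat.pow_le_pow_right (by positivity) (by omega)).trans hY
  have hY0 : 0 < F.Y := lt_of_lt_of_le (by positivity) hQY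
  have hθ : θ ^ o.s * (o.R : ℝ) ^ (4 * k + 1) ≤ 1 := by
    rw [← pow_le_one_iff_of_nonneg (by positivity) hn1, mul_pow, ← pow_mul, ← pow_mul,
      mul_comm o.s, pow_mul]
    have e1 : ((o.R : ℝ)) ^ ((4 * k + 1) * n0) ≤ 2 ^ o.s := by
      exact_mod_cast hpow ((4 * k + 1) * n0) (by omega)
    calc (θ ^ n0) ^ o.s * (o.R : ℝ) ^ ((4 * k + 1) * n0) ≤ (1 / 2) ^ o.s * 2 ^ o.s :=
          mul_le_mul (pow_le_pow_left₀ (by positivity) hn0.le _) e1 (by positivity)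
            (by positivity)
      _ = 1 := by rw [← mul_pow]; norm_num
  have hnum := numeric (k := k) (Q := ((q ^ o.s : ℕ) : ℝ)) (U := U0 q o) (Y := F.Y) (R := o.R)
    (θ := θ ^ o.s) (B := 20 * (q : ℝ) ^ 2) hRr (by exact_mod_cast hU0) (by exact_mod_cast hY0)
    (by positivity) (by positivity) (by positivity) (pow_le_one₀ θ0.le θ1.le)
    (by exact_mod_cast hQU) hθ (by exact_mod_cast hQY) (by exact_mod_cast hok.R_le)
  obtain ⟨W, hW⟩ : ∃ W : ℝ, W = (1 / (U0 q o : ℝ)) ^ k + 1 / F.Y := ⟨_, rfl⟩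
  have hW0 : 0 ≤ W := by rw [hW]; positivity
  rw [← hW] at hnum
  have hCv : 0 ≤ Cv / o.R :=
    (expect_nonneg fun n _ => ind_nonneg _).trans (hV o hok (hpow Ev (by omega)))
  have hM0 : 0 ≤ (T.card : ℝ) * (2 ^ k * C0 * ((20 * (q : ℝ) ^ 2) ^ k + 1)) / o.R := by positivity
  have key : ∀ y0 y1 : I → Fin o.R,
      Er o.N F.D (fun n ω => ‖cube q (α 0) P o (F.gen ω) n (fun i => y0 i) (fun i => y1 i)‖) ≤
        ind (∃ i, y1 i = y0 i) +
          (Cv / o.R + T.card * (2 ^ k * C0 * ((20 * (q : ℝ) ^ 2) ^ k + 1)) / o.R) := by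
    intro y0 y1
    have hc1 : ∀ n ω, ‖cube q (α 0) P o (F.gen ω) n (fun i => y0 i) (fun i => y1 i)‖ ≤ 1 :=
      fun n ω => norm_expect_ee _ _
    by_cases hy : ∃ i, y1 i = y0 i
    · have e1 := er_mono o.N hF.dens (ψ := fun _ _ => 1) hc1
      rw [er_n o.N hF.dens (fun _ => 1), expect_const (nonempty_range_iff.2 hok.N_ne)] at e1
      rw [ind_pos hy]
      linarith
    rw [ind_neg hy, zero_add]
    obtain ⟨r, hr⟩ : ∃ r : I → ℤ, r = fun i => ((y1 i : ℕ) : ℤ) - ((y0 i : ℕ) : ℤ) := ⟨_, rfl⟩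
    have hr1 : ∀ i, r i ≠ 0 ∧ |r i| ≤ o.R := fun i => by
      have a1 := (y0 i).2
      have a2 := (y1 i).2
      have a3 : (y1 i : ℕ) ≠ y0 i := fun h => hy ⟨i, Fin.ext h⟩
      rw [hr, abs_le]
      dsimp only
      omega
    have hpt : ∀ n ω, ‖cube q (α 0) P o (F.gen ω) n (fun i => y0 i) (fun i => y1 i)‖ ≤
        ind (¬ Int.gcd (P.derivative.eval n) ((q : ℤ) ^ (2 * o.s)) ∣ q ^ o.s) +
          ∑ c ∈ T, ∑ i0 : I → Fin (q ^ o.s), ind (idx q P o (F.gen ω) n r = fun v => (i0 v : ℕ)) *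
            ‖Phi q (α 0) o.s c (fun v => (i0 v : ℕ))‖ := fun n ω => by
      by_cases hd : Int.gcd (P.derivative.eval n) ((q : ℤ) ^ (2 * o.s)) ∣ q ^ o.s
      · rw [ind_neg (not_not.2 hd), zero_add]
        refine (h3 I q (α 0) P o (F.gen ω) n _ _ hok (hF.dvd ω) hd).trans ?_
        rw [← hT, ← hr]
        exact sum_le_sum fun c _ => split_idx (fun i => ‖Phi q (α 0) o.s c i‖)
          (fun _ => norm_nonneg _) _ (idx_lt hq P o _ n r)
      · rw [ind_pos hd]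
        exact (hc1 n ω).trans (le_add_of_nonneg_right (sum_nonneg fun c _ => sum_nonneg fun i0 _ =>
          mul_nonneg (ind_nonneg _) (norm_nonneg _)))
    refine (er_mono o.N hF.dens hpt).trans ?_
    rw [er_add, er_n o.N hF.dens, er_sum]
    refine add_le_add (hV o hok (hpow Ev (by omega))) ?_
    rw [mul_div_assoc, ← nsmul_eq_mul]
    refine sum_le_card_nsmul _ _ _ fun c hc => ?_
    have hc' : ∀ E, c E ≤ Fintype.card I := fun E => by
      rw [hT, Fintype.mem_piFinset] at hc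
      exact Nat.lt_succ_iff.1 (mem_range.1 (hc E))
    have hG1 := hG o.s c hc'
    rw [expect_eq_sum_div_card, card_univ, Fintype.card_fun, Fintype.card_fin, ← hk,
      div_le_iff₀ (by positivity)] at hG1
    rw [er_sum]
    calc ∑ i0 : I → Fin (q ^ o.s), Er o.N F.D (fun n ω =>
            ind (idx q P o (F.gen ω) n r = fun v => (i0 v : ℕ)) *
              ‖Phi q (α 0) o.s c (fun v => (i0 v : ℕ))‖)
        ≤ ∑ i0 : I → Fin (q ^ o.s), 2 ^ k * W * ‖Phi q (α 0) o.s c (fun v => (i0 v : ℕ))‖ := by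
          refine sum_le_sum fun i0 _ => ?_
          rw [er_mul]
          refine mul_le_mul_of_nonneg_right ?_ (norm_nonneg _)
          rw [hW, hk]
          exact h4 I q P o F r _ hok hF.dens hFour hg4 hr1
      _ = 2 ^ k * W * ∑ i0 : I → Fin (q ^ o.s), ‖Phi q (α 0) o.s c (fun v => (i0 v : ℕ))‖ := by
          rw [mul_sum]
      _ ≤ 2 ^ k * W * (C0 * θ ^ o.s * (((q ^ o.s) ^ k : ℕ) : ℝ)) :=
          mul_le_mul_of_nonneg_left hG1 (by positivity)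
      _ = 2 ^ k * C0 * (W * (((q ^ o.s : ℕ) : ℝ) ^ k * θ ^ o.s)) := by push_cast; ring
      _ ≤ 2 ^ k * C0 * (((20 * (q : ℝ) ^ 2) ^ k + 1) / o.R) :=
          mul_le_mul_of_nonneg_left hnum (by positivity)
      _ = 2 ^ k * C0 * ((20 * (q : ℝ) ^ 2) ^ k + 1) / o.R := by ring
  have : Nonempty (Fin o.R) := ⟨⟨0, hR0⟩⟩
  refine (h2 I q α P J o F hq (Nat.pos_of_ne_zero hok.N_ne) hF.dens).trans ?_
  rw [er_expect]
  refine expect_le univ_nonempty fun y0 _ => ?_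
  rw [er_expect]
  refine (expect_le_expect fun y1 _ => key y0 y1).trans ?_
  rw [expect_add_distrib, expect_const univ_nonempty, add_div, add_div, hk]
  exact add_le_add (exp_coll hR0 y0) le_rfl

end Pool.Agent.MP_b1aeef_nt.H64
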