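import Pool.Agent.MP_b1aeef_nt.H64.Spec

/-! Row Eq: carries are rare. -/

open Finset Polynomial Filter Topology
open scoped BigOperators

namespace Pool.Agent.MP_b1aeef_nt.H64

namespace REq

theorem freq (h0 : W0Stmt) (Q : ℤ[X]) (hQ : 1 ≤ Q.natDegree) : ∃ C : ℕ, ∀ (B M : ℝ) (N : ℕ),
    2 ≤ B → 1 ≤ N → B ^ C ≤ M → M * B ^ C ≤ (N : ℝ) ^ Q.natDegree → ∀ h : ℤ, h ≠ 0 →
    |(h : ℝ)| ≤ 2 * B → ‖𝔼 n ∈ range N, ee (h * (((Q.eval (n : ℤ) : ℤ) : ℝ) / M))‖ ≤ 1 / B := by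
  obtain ⟨C, hC⟩ := h0 _ hQ
  have a0 : Q.coeff Q.natDegree ≠ 0 := leadingCoeff_ne_zero.2 (by rintro rfl; simp at hQ)
  obtain ⟨c, hc⟩ : ∃ c : ℕ, (c : ℝ) = |(Q.natDegree.factorial : ℝ) * (Q.coeff Q.natDegree : ℝ)| :=
    ⟨(Q.natDegree.factorial * Q.coeff Q.natDegree : ℤ).natAbs, by
      rw [Nat.cast_natAbs]; push_cast; rfl⟩
  refine ⟨C + 3 + c, fun B M N hB hN h1 h2 h h3 h4 => le_of_not_gt fun hlt => ?_⟩
  have B0 : 0 < B := by linarith
  have N0 : (0 : ℝ) < N := by exact_mod_cast hN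
  have M0 : 0 < M := (pow_pos B0 _).trans_le h1
  rw [expect_eq_sum_div_card, card_range, norm_div, Complex.norm_natCast, lt_div_iff₀ N0] at hlt
  obtain ⟨t, t1, t2, t3⟩ := hC B _ N N _ hB hN le_rfl
    ((isPoly_int _ Q le_rfl).mul_const (h / M)) (by
      rw [div_eq_inv_mul, ← one_div]
      refine hlt.le.trans_eq (congrArg norm (sum_congr rfl fun n _ => congrArg ee (by ring))))
  have c1 : (c : ℝ) ≤ B ^ c :=
    le_trans (by exact_mod_cast Nat.lt_two_pow_self.le) (pow_le_pow_left₀ zero_le_two hB c)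
  have e : (t : ℝ) * (Q.natDegree.factorial * (Q.coeff Q.natDegree : ℝ) * (h / M)) =
      ((t * (Q.natDegree.factorial * Q.coeff Q.natDegree) * h : ℤ) : ℝ) / M := by
    push_cast
    ring
  have i1 : (1 : ℝ) ≤ |((t * (Q.natDegree.factorial * Q.coeff Q.natDegree) * h : ℤ) : ℝ)| := by
    have t0 : (t : ℤ) ≠ 0 := by omega
    have f0 : (Q.natDegree.factorial : ℤ) ≠ 0 := by exact_mod_cast Nat.factorial_ne_zero _
    exact_mod_cast Int.one_le_abs (mul_ne_zero (mul_ne_zero t0 (mul_ne_zero f0 a0)) h3)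
  have i2 : |((t * (Q.natDegree.factorial * Q.coeff Q.natDegree) * h : ℤ) : ℝ)| ≤
      B ^ C * B ^ c * (2 * B) := by
    push_cast
    rw [abs_mul, abs_mul, ← hc, Nat.abs_cast]
    gcongr
  have p1 := pow_pos B0 C
  have p2 : 1 ≤ B ^ c := one_le_pow₀ (by linarith)
  have i3 : B ^ C * B ^ c * (2 * B) * 2 ≤ B ^ (C + 3 + c) := by
    rw [show B ^ (C + 3 + c) = B ^ C * B ^ c * B * (B * B) by ring,
      show B ^ C * B ^ c * (2 * B) * 2 = B ^ C * B ^ c * B * (2 * 2) by ring]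
    gcongr
  rw [e, nn_eq_abs (by
    rw [abs_div, abs_of_pos M0, div_le_iff₀ M0]
    linarith), abs_div, abs_of_pos M0, div_le_div_iff₀ M0 (pow_pos N0 _)] at t3
  have i4 : B ^ C < B ^ (C + 3 + c) := pow_lt_pow_right₀ (by linarith) (by omega)
  nlinarith [mul_le_mul_of_nonneg_right i1 (pow_pos N0 Q.natDegree).le,
    mul_lt_mul_of_pos_left i4 M0]

theorem diag (U : ℕ) (hU : 1 ≤ U) (b : ℝ) :
    𝔼 u ∈ range U, 𝔼 u' ∈ range U, ((if u = u' then (1 : ℝ) else 0) + b) = 1 / U + b := by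
  have ne : (range U).Nonempty := nonempty_range_iff.2 (by omega)
  rw [expect_congr rfl fun u hu => show _ = 1 / (U : ℝ) + b by
    rw [expect_add_distrib, expect_const ne, expect_eq_sum_div_card, sum_ite_eq, if_pos hu,
      card_range], expect_const ne]

end REq

open REq in
theorem eq_ok (h0 : W0Stmt) (hf : FEJStmt) : EQStmt := by
  intro Q hQ
  obtain ⟨C, hC⟩ := freq h0 Q hQ
  refine ⟨C, fun B M N hB hN h1 h2 => ?_⟩
  have B0 : 0 < B := by linarith
  have u1 : B ≤ ⌈B⌉₊ := Nat.le_ceil B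
  have u2 : (⌈B⌉₊ : ℝ) ≤ 2 * B := by linarith [Nat.ceil_lt_add_one B0.le]
  have u3 : 1 ≤ ⌈B⌉₊ := Nat.ceil_pos.2 B0
  obtain ⟨f1, -, -, -, f2, -, f3⟩ := hf _ u3
  generalize ⌈B⌉₊ = U at *
  have k : 𝔼 n ∈ range N, fej U (((Q.eval (n : ℤ) : ℤ) : ℝ) / M) ≤ 1 / U + 1 / B := by
    refine (le_abs_self _).trans ?_
    rw [← Real.norm_eq_abs, ← Complex.norm_real, Complex.ofReal_expect, ← diag U u3]
    simp only [f3]
    rw [expect_comm]
    refine (RCLike.norm_expect_le (K := ℂ)).trans (expect_le_expect fun u hu => ?_)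
    rw [expect_comm]
    refine (RCLike.norm_expect_le (K := ℂ)).trans (expect_le_expect fun u' hu' => ?_)
    split_ifs with e
    · simp [e, expect_const (nonempty_range_iff.2 (show N ≠ 0 by omega)), B0.le]
    · have a1 : (u : ℝ) < U := by exact_mod_cast mem_range.1 hu
      have a2 : (u' : ℝ) < U := by exact_mod_cast mem_range.1 hu'
      have := hC B M N hB hN h1 h2 ((u : ℤ) - u') (by omega) (by
        push_cast
        rw [abs_le]
        constructor <;> linarith [u.cast_nonneg (α := ℝ), u'.cast_nonneg (α := ℝ)])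
      simpa only [zero_add, Int.cast_sub, Int.cast_natCast] using this
  refine (expect_le_expect (g := fun n : ℕ => 2 * fej U (((Q.eval (n : ℤ) : ℤ) : ℝ) / M))
    fun n _ => ?_).trans ?_
  · by_cases h : nn (((Q.eval (n : ℤ) : ℤ) : ℝ) / M) ≤ 1 / (20 * B)
    · rw [ind_pos h]
      have := f2 _ ((mul_le_mul u2 h (nn_nonneg _) (by positivity)).trans_eq (by
        field_simp
        norm_num))
      linarith
    · rw [ind_neg h]
      exact mul_nonneg zero_le_two (f1 _).1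
  · rw [← mul_expect]
    have := one_div_le_one_div_of_le B0 u1
    have e : 4 / B = 2 * (1 / B + 1 / B) := by ring
    linarith

end Pool.Agent.MP_b1aeef_nt.H64
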