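import Pool.Agent.MP_b1aeef_nt.H64.Spec
import Pool.Agent.MP_b1aeef_nt.G4.RGow
import Pool.Agent.MP_b1aeef_nt.G4.RXi

/-! Row Gn: the mean of the cube correlations of the digit sum decays exponentially. -/

open Finset
open scoped BigOperators

namespace Pool.Agent.MP_b1aeef_nt.H64

namespace RGn

variable {I : Type} [Fintype I] [DecidableEq I]

/-- vertices of the cube as subsets -/
def eqv : (I → Bool) ≃ Finset I where
  toFun ω := univ.filter fun i => ω i = true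
  invFun E := fun i => decide (i ∈ E)
  left_inv ω := by funext i; simp
  right_inv E := by ext i; simp

theorem link (q L : ℕ) (x : ℝ) [NeZero (q ^ L)] (c : Finset I → ℕ) (z : I → ZMod (q ^ L)) :
    G4.cA q x z (fun ω => c (eqv ω)) = Phi q x L c fun v => (z v).val := by
  unfold G4.cA Phi
  refine expect_nbij ZMod.val (fun a _ => mem_range.2 (ZMod.val_lt a)) (fun t _ => ?_)
    (ZMod.val_injective _).injOn fun t ht => ⟨t, by simp, ZMod.val_cast_of_lt (by simpa using ht)⟩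
  refine congrArg (fun y => ee (x * y)) (Fintype.sum_equiv eqv _ _ fun ω => ?_)
  have h1 : G4.sg ω = (-1) ^ (eqv ω).card := by
    rw [G4.sg, prod_ite, prod_const_one, mul_one, prod_const]
    rfl
  have h2 : t + (∑ i, if ω i then z i else 0) + (c (eqv ω) : ZMod (q ^ L)) =
      ((t.val + ∑ v ∈ eqv ω, (z v).val + c (eqv ω) : ℕ) : ZMod (q ^ L)) := by
    push_cast [ZMod.natCast_zmod_val]
    rw [← sum_filter]
    rfl
  have h3 : ((t.val : ℤ) + ∑ v ∈ eqv ω, ((z v).val : ℤ) + c (eqv ω)) % (q : ℤ) ^ L =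
      ((t.val + ∑ v ∈ eqv ω, (z v).val + c (eqv ω)) % q ^ L : ℕ) := by
    push_cast
    rfl
  rw [h1, h2, ZMod.val_natCast, dL, h3, Int.toNat_natCast]
  rfl

theorem all {q : ℕ} {x : ℝ} (hq : 2 ≤ q) (hx : ∀ k : ℤ, ((q : ℝ) - 1) * x ≠ k) (I : Type)
    [Fintype I] [DecidableEq I] [Nonempty I] (B : ℕ) :
    ∃ (m : ℕ) (θ : ℝ), 1 ≤ m ∧ 0 < θ ∧ θ < 1 ∧ ∀ (L : ℕ) (r : (I → Bool) → ℕ), (∀ ω, r ω ≤ B) →
      ‖G4.RGow.av q x (q ^ L) r‖ ≤ θ ^ (L / m) := by
  obtain ⟨m, θ, hm, h0, h1, h⟩ := G4.gow q x hq hx I (Fintype.card I + 1 + B)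
  refine ⟨m, θ, hm, h0, h1, fun L r hr => ?_⟩
  have e : q ^ L = q ^ (m * (L / m)) * q ^ (L % m) := by rw [← pow_add, Nat.div_add_mod]
  have : NeZero (q ^ (m * (L / m))) := ⟨by positivity⟩
  rw [e, G4.RGow.split hq]
  have : Nonempty (Fin (q ^ (L % m))) := ⟨⟨0, by positivity⟩⟩
  refine (G4.norm_av_le _).trans (G4.av_le_const fun p => ?_)
  rw [norm_mul, G4.norm_ee, one_mul, ← G4.RGow.link]
  refine h _ _ rfl _ fun ω => Nat.div_le_of_le_mul ?_
  have h2 := G4.RGow.vx_le ω (fun o => p o) (M := q ^ (L % m)) fun o => (p o).2.le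
  have h3 : B ≤ q ^ (L % m) * B := Nat.le_mul_of_pos_left _ (by positivity)
  have h4 := hr ω
  rw [mul_add, mul_add, mul_one, mul_comm _ (Fintype.card I)]
  omega

end RGn

theorem gn : GNStmt := by
  intro q x hq hx I _ _ _
  obtain ⟨m, θ, hm, h0, h1, h⟩ := RGn.all hq hx (Option I) (Fintype.card I)
  obtain ⟨ρ, r0, r1, hρ⟩ : ∃ ρ : ℝ, 0 < ρ ∧ ρ < 1 ∧ ρ ^ (2 * m) = θ :=
    ⟨θ ^ (((2 * m : ℕ) : ℝ))⁻¹, Real.rpow_pos_of_pos h0 _,
      Real.rpow_lt_one h0.le h1 (by positivity), Real.rpow_inv_natCast_pow h0.le (by omega)⟩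
  refine ⟨ρ, (ρ ^ m)⁻¹, r0, r1, fun L c hc => ?_⟩
  have : NeZero (q ^ L) := ⟨by positivity⟩
  have e : ∀ a : Fin (q ^ L), (ZMod.finEquiv (q ^ L) a).val = a := by
    generalize q ^ L = Q at *
    intro a
    obtain ⟨n, rfl⟩ := Nat.exists_eq_succ_of_ne_zero (NeZero.ne Q)
    rfl
  have e2 : 𝔼 i : I → Fin (q ^ L), ‖Phi q x L c (fun v => i v)‖ =
      𝔼 z : I → ZMod (q ^ L), ‖G4.cA q x z (fun ω => c (RGn.eqv ω))‖ :=
    Fintype.expect_equiv (Equiv.piCongrRight fun _ => (ZMod.finEquiv (q ^ L)).toEquiv) _ _ fun i => by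
      rw [RGn.link]
      exact congrArg (fun f => ‖Phi q x L c f‖) (funext fun v => (e (i v)).symm)
  have h2 := h L (fun ω => c (RGn.eqv fun i => ω (some i))) fun _ => hc _
  rw [← G4.RGow.link, ← G4.RXi.mean_sq q x fun ω => c (RGn.eqv ω), Complex.norm_real,
    Real.norm_eq_abs] at h2
  have h3 := G4.jen (W := fun _ : I → ZMod (q ^ L) => 1)
    (g := fun z => ‖G4.cA q x z (fun ω => c (RGn.eqv ω))‖)
    ⟨fun _ => zero_le_one, G4.av_const 1⟩ (fun _ => norm_nonneg _) 2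
  simp only [one_mul] at h3
  have h4 : 𝔼 z : I → ZMod (q ^ L), ‖G4.cA q x z (fun ω => c (RGn.eqv ω))‖ ≤ ρ ^ (m * (L / m)) := by
    refine le_of_pow_le_pow_left₀ two_ne_zero (by positivity) ?_
    rw [← pow_mul, mul_comm _ 2, ← mul_assoc, pow_mul, hρ]
    exact h3.trans ((le_abs_self _).trans h2)
  rw [e2, le_inv_mul_iff₀ (by positivity)]
  refine (mul_le_mul_of_nonneg_left h4 (by positivity)).trans ?_
  rw [← pow_add]
  refine pow_le_pow_of_le_one r0.le r1.le ?_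
  have := Nat.div_add_mod L m
  have := Nat.mod_lt L hm
  omega

end Pool.Agent.MP_b1aeef_nt.H64
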