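import Pool.Agent.MP_b1aeef_nt.H64.Spec

/-!
The initial state.
-/

open Finset Polynomial Filter Topology
open scoped BigOperators

namespace Pool.Agent.MP_b1aeef_nt.H64

noncomputable section

namespace RInit

/-- the initial state -/
def st (q d : ℕ) (o : Par) : Dat (Fin 4) where
  Ω := Fin (q ^ (2 * jj q o.N))
  gen := fun a => ![1, q ^ a0 q o, q ^ jj q o.N * ((a : ℕ) + 1), q ^ jj q o.N * ((a : ℕ) + 1)]
  D := fun _ _ => 1
  lo := fun _ => b0 q o.N
  hi := fun v => if v = 3 then atop q d o.N else b0 q o.N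
  Y := q ^ (jj q o.N - 1)

theorem ds_self (q a : ℕ) (m : ℤ) : ds q a a m = 0 := by
  simp [ds, dL, sq]

theorem geo {q j : ℕ} (hq : 2 ≤ q) (hj : 1 ≤ j) {x : ℝ} (h1 : 1 / (2 * (q : ℝ) ^ (2 * j)) ≤ |x|)
    (h2 : |x| ≤ ((q ^ (j - 1) : ℕ) : ℝ) / (q : ℝ) ^ (2 * j)) :
    ‖𝔼 a : Fin (q ^ (2 * j)), ee (x * ((q ^ j * ((a : ℕ) + 1) : ℕ) : ℝ))‖ ≤
      1 / ((q ^ (j - 1) : ℕ) : ℝ) := by
  obtain ⟨i, rfl⟩ := Nat.exists_eq_add_of_le' hj
  rw [Nat.add_sub_cancel] at h2 ⊢
  have q2 : (2 : ℝ) ≤ q := by exact_mod_cast hq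
  have q0 : (0 : ℝ) < q := by linarith
  have w0 : (0 : ℝ) < (q : ℝ) ^ i := by positivity
  have e : (q : ℝ) ^ (2 * (i + 1)) = (q : ℝ) ^ i * q * ((q : ℝ) ^ i * q) := by ring
  push_cast at h2
  rw [e] at h1 h2
  rw [div_le_iff₀ (by positivity)] at h1
  rw [le_div_iff₀ (by positivity)] at h2
  have a1 : |x * (q : ℝ) ^ (i + 1)| = |x| * ((q : ℝ) ^ i * q) := by
    rw [abs_mul, abs_of_pos (pow_pos q0 (i + 1)), pow_succ]
  have a2 : |x * (q : ℝ) ^ (i + 1)| ≤ 1 / 2 := by
    have h3 : |x| * ((q : ℝ) ^ i * q) * q ≤ 1 := by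
      refine le_of_mul_le_mul_right ?_ w0
      nlinarith
    have h4 : 0 ≤ |x| * ((q : ℝ) ^ i * q) := by positivity
    rw [a1]
    nlinarith
  have g := geom_ee (q ^ (2 * (i + 1))) (x * (q : ℝ) ^ (i + 1)) (x * (q : ℝ) ^ (i + 1))
  rw [nn_eq_abs a2, a1] at g
  have s : ∑ a : Fin (q ^ (2 * (i + 1))), ee (x * ((q ^ (i + 1) * ((a : ℕ) + 1) : ℕ) : ℝ)) =
      ∑ a ∈ range (q ^ (2 * (i + 1))),
        ee (a * (x * (q : ℝ) ^ (i + 1)) + x * (q : ℝ) ^ (i + 1)) := by
    rw [← Fin.sum_univ_eq_sum_range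
      (fun a : ℕ => ee (a * (x * (q : ℝ) ^ (i + 1)) + x * (q : ℝ) ^ (i + 1)))]
    refine sum_congr rfl fun a _ => congrArg ee ?_
    push_cast
    ring
  rw [Fintype.expect_eq_sum_div_card, s, norm_div, Fintype.card_fin, Complex.norm_natCast]
  generalize ‖∑ a ∈ range (q ^ (2 * (i + 1))),
    ee (a * (x * (q : ℝ) ^ (i + 1)) + x * (q : ℝ) ^ (i + 1))‖ = t at g
  push_cast
  rw [e, div_le_div_iff₀ (by positivity) w0]
  have t1 : t ≤ (q : ℝ) ^ i * q := by
    by_contra h
    have h' := not_le.1 h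
    have p0 : 0 < (q : ℝ) ^ i * q := by positivity
    have : 0 ≤ |x| * ((q : ℝ) ^ i * q) := by positivity
    nlinarith
  have : t * (q : ℝ) ^ i ≤ (q : ℝ) ^ i * q * (q : ℝ) ^ i := by gcongr
  have : (q : ℝ) ^ i * q * (q : ℝ) ^ i * 1 ≤ (q : ℝ) ^ i * q * (q : ℝ) ^ i * q := by
    gcongr
    linarith
  nlinarith

end RInit

open RInit in
theorem init : INITStmt := by
  intro q P hq hd
  filter_upwards [eventually_ge_atTop (q ^ 24)] with N hN o ho hs
  subst ho
  have q0 : 0 < q := by omega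
  have N0 : 0 < o.N := (pow_pos q0 24).trans_le hN
  have hl : 24 ≤ lg q o.N := Nat.le_log_of_pow_le (by omega) hN
  have hj : 3 ≤ jj q o.N := by unfold jj; omega
  have mono : ∀ {a b : ℕ}, a ≤ b → q ^ a ≤ q ^ b := fun h => Nat.pow_le_pow_right q0 h
  haveI : Nonempty (st q P.natDegree o).Ω := ⟨(⟨0, pow_pos q0 _⟩ : Fin (q ^ (2 * jj q o.N)))⟩
  refine ⟨st q P.natDegree o, ⟨⟨?_, mono (Nat.sub_le _ _), by simp, by simp, by simp, by simp,
    fun _ => rfl, fun _ => rfl, ?_, ?_, ⟨fun _ _ => zero_le_one, fun _ => ?_⟩,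
    fun _ _ => by simp [st], ?_, ?_, ?_⟩, ?_, ?_, ?_, ?_⟩, ?_⟩
  · exact hq.trans ((pow_one q).ge.trans (mono (by omega)))
  · intro ω w hw
    fin_cases w
    · exact absurd rfl hw
    · exact pow_dvd_pow q (by unfold a0; omega)
    · exact Dvd.intro _ rfl
    · exact Dvd.intro _ rfl
  · intro ω w
    have h3 : ∀ a : Fin (q ^ (2 * jj q o.N)),
        q ^ jj q o.N * ((a : ℕ) + 1) * q ^ (jj q o.N - 1) ≤ q ^ (4 * jj q o.N) := fun a => by
      refine (Nat.mul_le_mul_right _ (Nat.mul_le_mul_left _ (Nat.succ_le_of_lt a.is_lt))).trans ?_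
      rw [← pow_add, ← pow_add]
      exact mono (by omega)
    fin_cases w
    · exact (one_mul _).le.trans (mono (by omega))
    · exact (pow_add q _ _).ge.trans (mono (by unfold a0; omega))
    · exact h3 ω
    · exact h3 ω
  · exact Fintype.expect_const 1
  · intro v
    have := b0_le_atop q P.natDegree o.N
    refine ⟨le_rfl, ?_, ?_⟩ <;> simp only [st] <;> split_ifs <;> omega
  · intro v hv
    simp only [st]
    split_ifs with h
    · simp [h] at hv
    · rfl
  · intro m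
    simp [st, Fin.sum_univ_four, ds_self]
  · intro n ω w y _
    have := bet_pos q o.N
    simp only [st, sub_self, abs_zero]
    positivity
  · refine fun n ω => Or.inl fun v hv μ hμ => ?_
    have h3 : v = 3 := by
      by_contra h
      simp [h] at hv
    simp only [h3, if_true] at hμ
    have h4 : P.natDegree < ∑ w, μ w :=
      lt_of_lt_of_le hμ (single_le_sum (fun _ _ => Nat.zero_le _) (mem_univ 3))
    have h5 : mon P ((st q P.natDegree o).gen ω) n μ = 0 := by
      unfold mon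
      rw [hasse_eq_zero P h4, eval_zero, zero_mul]
    rw [h5, Int.cast_zero, zero_div, nn_zero]
    unfold tol
    split_ifs <;> positivity
  · intro v hv x h1 h2
    have hg : ∀ ω : Fin (q ^ (2 * jj q o.N)),
        (st q P.natDegree o).gen ω v = q ^ jj q o.N * ((ω : ℕ) + 1) := fun ω => by
      fin_cases v
      · simp at hv
      · simp at hv
      · rfl
      · rfl
    have e : Ec o.N (st q P.natDegree o).D (fun _ ω => ee (x * (st q P.natDegree o).gen ω v)) =
        𝔼 a : Fin (q ^ (2 * jj q o.N)), ee (x * ((q ^ jj q o.N * ((a : ℕ) + 1) : ℕ) : ℝ)) := by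
      unfold Ec
      refine (expect_congr rfl fun n _ => ?_).trans
        (expect_const (nonempty_range_iff.2 N0.ne') _)
      refine expect_congr rfl fun ω _ => ?_
      exact (one_mul _).trans (congrArg (fun k : ℕ => ee (x * k)) (hg ω))
    rw [e]
    exact geo hq (by omega) h1 h2
  · intro u hu h0
    refine absurd (funext fun v => hu v ?_) h0
    beta_reduce
    split_ifs <;> omega
  · refine (Nat.lt_pow_succ_log_self (b := q) (by omega) o.N).le.trans ?_
    change _ ≤ (q ^ (jj q o.N - 1)) ^ 16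
    rw [← pow_mul]
    refine mono ?_
    unfold jj lg at *
    omega

end

end Pool.Agent.MP_b1aeef_nt.H64
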