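import Pool.Agent.MP_b1aeef_nt.H64.Spec

/-! Elementary properties of the kernel and the lower bound for its normaliser. -/

open Finset Polynomial Filter Topology
open scoped BigOperators

namespace Pool.Agent.MP_b1aeef_nt.H64

namespace RK2

theorem Wt_pos (hw : WTStmt) {ι : Type} (S : Finset ι) (U : ι → ℕ) (K k : ℕ) (ξ : ι → ℝ)
    (hU : ∀ t ∈ S, 1 ≤ U t) (a : ℕ) : 0 < Wt S U K k ξ a :=
  prod_pos fun t ht => ((hw (U t) K (hU t ht)).1 _).1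

theorem Wt_le_one (hw : WTStmt) {ι : Type} (S : Finset ι) (U : ι → ℕ) (K k : ℕ) (ξ : ι → ℝ)
    (hU : ∀ t ∈ S, 1 ≤ U t) (a : ℕ) : Wt S U K k ξ a ≤ 1 :=
  prod_le_one (fun t ht => ((hw (U t) K (hU t ht)).1 _).1.le)
    fun t ht => ((hw (U t) K (hU t ht)).1 _).2

theorem Wt_le_small (hw : WTStmt) {ι : Type} (S : Finset ι) (U : ι → ℕ) (K k : ℕ) (ξ : ι → ℝ)
    (hU : ∀ t ∈ S, 1 ≤ U t) (a : ℕ) (h : ∃ t ∈ S, 1 ≤ U t * nn (ξ t * (a : ℝ) ^ k)) :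
    Wt S U K k ξ a ≤ (5 / 8) ^ K := by
  classical
  obtain ⟨t0, ht0, h0⟩ := h
  unfold Wt
  rw [← mul_prod_erase S _ ht0]
  have h1 : ∏ t ∈ S.erase t0, wt (U t) K (ξ t * (a : ℝ) ^ k) ≤ 1 :=
    prod_le_one (fun t ht => ((hw (U t) K (hU t (mem_of_mem_erase ht))).1 _).1.le)
      fun t ht => ((hw (U t) K (hU t (mem_of_mem_erase ht))).1 _).2
  have h2 := (hw (U t0) K (hU t0 ht0)).2.2.2.1 _ h0
  have h3 := ((hw (U t0) K (hU t0 ht0)).1 (ξ t0 * (a : ℝ) ^ k)).1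
  calc wt (U t0) K (ξ t0 * (a : ℝ) ^ k) * ∏ t ∈ S.erase t0, wt (U t) K (ξ t * (a : ℝ) ^ k)
      ≤ wt (U t0) K (ξ t0 * (a : ℝ) ^ k) * 1 := mul_le_mul_of_nonneg_left h1 h3.le
    _ ≤ (5 / 8) ^ K := by rw [mul_one]; exact h2

theorem Wt_congr (hw : WTStmt) {ι : Type} (S : Finset ι) (U : ι → ℕ) (K k : ℕ) (ξ ξ' : ι → ℝ)
    (hU : ∀ t ∈ S, 1 ≤ U t) (h : ∀ t ∈ S, ∃ n : ℤ, ξ' t = ξ t + n) (a : ℕ) :
    Wt S U K k ξ' a = Wt S U K k ξ a := by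
  unfold Wt
  refine prod_congr rfl fun t ht => ?_
  obtain ⟨n, hn⟩ := h t ht
  have e : ξ' t * (a : ℝ) ^ k = ξ t * (a : ℝ) ^ k + ((n * (a : ℤ) ^ k : ℤ) : ℝ) := by
    rw [hn]; push_cast; ring
  rw [e, (hw (U t) K (hU t ht)).2.2.1]

theorem Zt_eq {ι : Type} (S : Finset ι) (U : ι → ℕ) (K k X : ℕ) (ξ : ι → ℝ) :
    Zt S U K k X ξ = (∑ a ∈ range X, Wt S U K k ξ (a + 1)) / X := by
  unfold Zt
  rw [expect_eq_sum_div_card, card_univ, Fintype.card_fin,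
    Fin.sum_univ_eq_sum_range (fun a => Wt S U K k ξ (a + 1)) X]

theorem Zt_pos (hw : WTStmt) {ι : Type} (S : Finset ι) (U : ι → ℕ) (K k X : ℕ) (ξ : ι → ℝ)
    (hU : ∀ t ∈ S, 1 ≤ U t) (hX : 1 ≤ X) : 0 < Zt S U K k X ξ := by
  rw [Zt_eq]
  have hX' : (0 : ℝ) < X := by exact_mod_cast hX
  refine div_pos (sum_pos (fun a _ => Wt_pos hw S U K k ξ hU _) ?_) hX'
  exact nonempty_range_iff.mpr (by omega)

theorem Zt_le_one (hw : WTStmt) {ι : Type} (S : Finset ι) (U : ι → ℕ) (K k X : ℕ) (ξ : ι → ℝ)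
    (hU : ∀ t ∈ S, 1 ≤ U t) (hX : 1 ≤ X) : Zt S U K k X ξ ≤ 1 := by
  rw [Zt_eq]
  have hX' : (0 : ℝ) < X := by exact_mod_cast hX
  rw [div_le_one hX']
  calc ∑ a ∈ range X, Wt S U K k ξ (a + 1) ≤ ∑ _a ∈ range X, (1 : ℝ) :=
        sum_le_sum fun a _ => Wt_le_one hw S U K k ξ hU _
    _ = X := by simp

/-- lower bound for one weight -/
theorem wt_ge (hw : WTStmt) (U K : ℕ) (hU : 1 ≤ U) (x : ℝ) :
    Real.exp (-(13 * K * U * nn x)) ≤ wt U K x := by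
  have h := (hw U K hU).2.2.2.2 x (-x)
  rw [add_neg_cancel, (hw U K hU).2.1, nn_neg] at h
  rw [Real.exp_neg, inv_le_iff_one_le_mul₀ (Real.exp_pos _)]
  exact h

/-- at a good point the product weight is at least `1/4` -/
theorem Wt_ge (hw : WTStmt) {ι : Type} (S : Finset ι) (U : ι → ℕ) (K k T : ℕ) (ξ : ι → ℝ)
    (B B1 : ℝ) (hS : S.card ≤ T) (hB : 0 ≤ B) (hB1 : 0 < B1) (hBB : 13 * T * B ≤ B1)
    (hU : ∀ t ∈ S, 1 ≤ U t ∧ (K * U t : ℝ) ≤ B) (a : ℕ)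
    (h : ∀ t ∈ S, nn (ξ t * (a : ℝ) ^ k) ≤ 1 / B1) : 1 / 4 ≤ Wt S U K k ξ a := by
  have h1 : ∏ _t ∈ S, Real.exp (-(13 * B / B1)) ≤ Wt S U K k ξ a := by
    unfold Wt
    refine prod_le_prod (fun t _ => (Real.exp_pos _).le) fun t ht => ?_
    refine le_trans ?_ (wt_ge hw (U t) K (hU t ht).1 _)
    rw [Real.exp_le_exp, neg_le_neg_iff]
    have h2 : (K * U t : ℝ) * nn (ξ t * (a : ℝ) ^ k) ≤ B * (1 / B1) :=
      mul_le_mul (hU t ht).2 (h t ht) (nn_nonneg _) hB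
    calc 13 * (K : ℝ) * U t * nn (ξ t * (a : ℝ) ^ k)
        = 13 * ((K * U t : ℝ) * nn (ξ t * (a : ℝ) ^ k)) := by ring
      _ ≤ 13 * (B * (1 / B1)) := by linarith
      _ = 13 * B / B1 := by ring
  refine le_trans ?_ h1
  rw [prod_const, ← Real.exp_nat_mul]
  have hc : (S.card : ℝ) ≤ T := by exact_mod_cast hS
  have h3 : (S.card : ℝ) * (13 * B / B1) ≤ 1 := by
    rw [← mul_div_assoc, div_le_one hB1]
    have : (S.card : ℝ) * (13 * B) ≤ T * (13 * B) := mul_le_mul_of_nonneg_right hc (by positivity)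
    linarith
  have h4 : Real.exp (-1) ≤ Real.exp (S.card * -(13 * B / B1)) := by
    rw [Real.exp_le_exp]; linarith
  refine le_trans ?_ h4
  rw [Real.exp_neg, le_inv_comm₀ (by norm_num) (Real.exp_pos _)]
  have := Real.exp_one_lt_d9
  norm_num at this ⊢
  linarith

end RK2

open RK2 in
theorem k2 (hw : WTStmt) : K2Stmt := by
  intro ι S U K k X ξ hU hX
  have hZ := Zt_pos hw S U K k X ξ hU hX
  refine ⟨⟨hZ, Zt_le_one hw S U K k X ξ hU hX⟩, ?_, fun a => ⟨?_, ?_⟩, fun a ha => ?_,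
    fun ξ' h a => ?_⟩
  · unfold ker
    rw [← expect_div]
    exact div_self hZ.ne'
  · exact div_nonneg (Wt_pos hw S U K k ξ hU a).le hZ.le
  · exact div_le_div_of_nonneg_right (Wt_le_one hw S U K k ξ hU a) hZ.le
  · exact div_le_div_of_nonneg_right (Wt_le_small hw S U K k ξ hU a ha) hZ.le
  · unfold ker
    have hz : Zt S U K k X ξ' = Zt S U K k X ξ := by
      unfold Zt
      exact expect_congr rfl fun a _ => Wt_congr hw S U K k ξ ξ' hU h _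
    rw [hz, Wt_congr hw S U K k ξ ξ' hU h]

open RK2 in
theorem k1 (h1 : W1Stmt) (hw : WTStmt) : K1Stmt := by
  intro T k hk
  obtain ⟨C1, hC1⟩ := h1 T k hk
  refine ⟨(13 * T + 1) * C1 + 2, fun ι S U K X ξ B hS hB hU hX => ?_⟩
  have hB0 : (0 : ℝ) < B := by linarith
  have hB1 : (1 : ℝ) ≤ B := by linarith
  obtain ⟨B1, hB1d⟩ : ∃ B1 : ℝ, B1 = B ^ (13 * T + 1) := ⟨_, rfl⟩
  have hp : ((13 * T : ℕ) : ℝ) ≤ B ^ (13 * T) := by
    have h2 : (13 * T : ℕ) ≤ 2 ^ (13 * T) := Nat.lt_two_pow_self.le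
    have h3 : ((13 * T : ℕ) : ℝ) ≤ (2 : ℝ) ^ (13 * T) := by exact_mod_cast h2
    exact h3.trans (pow_le_pow_left₀ (by norm_num) hB _)
  have hp1 : (1 : ℝ) ≤ B ^ (13 * T) := one_le_pow₀ hB1
  have hBB : 13 * T * B ≤ B1 := by
    rw [hB1d, pow_succ]
    push_cast at hp
    exact mul_le_mul_of_nonneg_right hp hB0.le
  have hB12 : 2 ≤ B1 := by
    rw [hB1d, pow_succ]; nlinarith
  have hB10 : 0 < B1 := by linarith
  have hpw : B ^ ((13 * T + 1) * C1 + 2) = B1 ^ C1 * B ^ 2 := by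
    rw [pow_add, pow_mul, hB1d]
  have hB4 : (4 : ℝ) ≤ B ^ 2 := by nlinarith
  have hq : (1 : ℝ) ≤ B1 ^ C1 := one_le_pow₀ (by linarith)
  rw [hpw] at hX ⊢
  have hX1 : B1 ^ C1 ≤ X := by nlinarith
  have hX0 : (0 : ℝ) < X := by linarith
  have hcount := hC1 ι S ξ B1 X hS hB12 hX1
  have hsum : ∑ a ∈ range X, ind (∀ t ∈ S, nn (ξ t * ((a + 1 : ℕ) : ℝ) ^ k) ≤ 1 / B1) ≤
      ∑ a ∈ range X, 4 * Wt S U K k ξ (a + 1) := by
    refine sum_le_sum fun a _ => ?_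
    by_cases hg : ∀ t ∈ S, nn (ξ t * ((a + 1 : ℕ) : ℝ) ^ k) ≤ 1 / B1
    · rw [ind_pos hg]
      have := Wt_ge hw S U K k T ξ B B1 hS hB0.le hB10 hBB hU (a + 1) hg
      linarith
    · rw [ind_neg hg]
      have := Wt_pos hw S U K k ξ (fun t ht => (hU t ht).1) (a + 1)
      linarith
  rw [← mul_sum] at hsum
  rw [Zt_eq, le_div_iff₀ hX0]
  have h5 : (X : ℝ) / B1 ^ C1 ≤ 4 * ∑ a ∈ range X, Wt S U K k ξ (a + 1) := hcount.trans hsum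
  have h6 : 1 / (B1 ^ C1 * B ^ 2) * X ≤ X / B1 ^ C1 / 4 := by
    rw [div_div, one_div_mul_eq_div]
    exact div_le_div_of_nonneg_left hX0.le (by positivity)
      (mul_le_mul_of_nonneg_left hB4 (by positivity))
  linarith

end Pool.Agent.MP_b1aeef_nt.H64
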