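import Pool.Agent.MP_b1aeef_nt.H64.Spec

/-! Row K4: stability of the kernel. -/

open Finset
open scoped BigOperators

namespace Pool.Agent.MP_b1aeef_nt.H64

namespace RK4

variable {ι : Type} {S : Finset ι} {U : ι → ℕ} {K k : ℕ}

theorem W_nonneg (hw : WTStmt) (hU : ∀ t ∈ S, 1 ≤ U t) (ξ : ι → ℝ) (a : ℕ) :
    0 ≤ Wt S U K k ξ a :=
  prod_nonneg fun t ht => ((hw (U t) K (hU t ht)).1 _).1.le

theorem W_le_one (hw : WTStmt) (hU : ∀ t ∈ S, 1 ≤ U t) (ξ : ι → ℝ) (a : ℕ) :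
    Wt S U K k ξ a ≤ 1 :=
  prod_le_one (fun t ht => ((hw (U t) K (hU t ht)).1 _).1.le)
    fun t ht => ((hw (U t) K (hU t ht)).1 _).2

theorem W_ratio (hw : WTStmt) (hU : ∀ t ∈ S, 1 ≤ U t) (ξ ξ' : ι → ℝ) (a : ℕ) :
    Wt S U K k ξ' a ≤ Wt S U K k ξ a *
      Real.exp (∑ t ∈ S, 13 * K * U t * nn ((ξ' t - ξ t) * (a : ℝ) ^ k)) := by
  unfold Wt
  rw [Real.exp_sum, ← prod_mul_distrib]
  refine prod_le_prod (fun t ht => ((hw (U t) K (hU t ht)).1 _).1.le) fun t ht => ?_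
  have h := (hw (U t) K (hU t ht)).2.2.2.2 (ξ t * (a : ℝ) ^ k) ((ξ' t - ξ t) * (a : ℝ) ^ k)
  have e : ξ t * (a : ℝ) ^ k + (ξ' t - ξ t) * (a : ℝ) ^ k = ξ' t * (a : ℝ) ^ k := by ring
  rwa [e] at h

theorem W_bad (hw : WTStmt) (hU : ∀ t ∈ S, 1 ≤ U t) (ξ : ι → ℝ) (a : ℕ)
    (h : ¬ ∀ t ∈ S, U t * nn (ξ t * (a : ℝ) ^ k) ≤ 1) : Wt S U K k ξ a ≤ (5 / 8) ^ K := by
  classical
  push Not at h
  obtain ⟨t, ht, h⟩ := h
  unfold Wt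
  rw [← mul_prod_erase S _ ht]
  have h1 := (hw (U t) K (hU t ht)).2.2.2.1 _ h.le
  have h2 : ∏ s ∈ S.erase t, wt (U s) K (ξ s * (a : ℝ) ^ k) ≤ 1 :=
    prod_le_one (fun s hs => ((hw (U s) K (hU s (mem_of_mem_erase hs))).1 _).1.le)
      fun s hs => ((hw (U s) K (hU s (mem_of_mem_erase hs))).1 _).2
  have h3 := ((hw (U t) K (hU t ht)).1 (ξ t * (a : ℝ) ^ k)).1.le
  exact (mul_le_of_le_one_right h3 h2).trans h1

theorem exp_le {τ : ℝ} (h0 : 0 ≤ τ) (h1 : τ ≤ 1 / 10) : Real.exp τ ≤ 1 + 2 * τ := by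
  have h := Real.abs_exp_sub_one_le (x := τ) (by rw [abs_of_nonneg h0]; linarith)
  rw [abs_of_nonneg h0] at h
  have := le_abs_self (Real.exp τ - 1)
  linarith

theorem W_le (hw : WTStmt) (hU : ∀ t ∈ S, 1 ≤ U t) (ξ ξ' : ι → ℝ) (a : ℕ) {τ : ℝ}
    (h0 : 0 ≤ τ) (h1 : τ ≤ 1 / 10)
    (h : (∀ t ∈ S, U t * nn (ξ' t * (a : ℝ) ^ k) ≤ 1) →
      ∑ t ∈ S, 13 * K * U t * nn ((ξ' t - ξ t) * (a : ℝ) ^ k) ≤ τ) :
    Wt S U K k ξ' a ≤ (1 + 2 * τ) * Wt S U K k ξ a + (5 / 8) ^ K := by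
  have hW := W_nonneg (K := K) (k := k) hw hU ξ a
  have hb : (0 : ℝ) ≤ (5 / 8) ^ K := by positivity
  by_cases hg : ∀ t ∈ S, U t * nn (ξ' t * (a : ℝ) ^ k) ≤ 1
  · have h2 := W_ratio (K := K) (k := k) hw hU ξ ξ' a
    have h3 := (Real.exp_le_exp.2 (h hg)).trans (exp_le h0 h1)
    have h4 := mul_le_mul_of_nonneg_left h3 hW
    linarith
  · have h2 := W_bad (K := K) hw hU ξ' a hg
    have : 0 ≤ (1 + 2 * τ) * Wt S U K k ξ a := by positivity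
    linarith

theorem Z_le {X : ℕ} (hX : 1 ≤ X) (ξ ξ' : ι → ℝ) {c β : ℝ}
    (h : ∀ a : ℕ, 1 ≤ a → a ≤ X → Wt S U K k ξ' a ≤ c * Wt S U K k ξ a + β) :
    Zt S U K k X ξ' ≤ c * Zt S U K k X ξ + β := by
  have : Nonempty (Fin X) := ⟨⟨0, hX⟩⟩
  unfold Zt
  have h1 : 𝔼 a : Fin X, Wt S U K k ξ' ((a : ℕ) + 1) ≤
      𝔼 a : Fin X, (c * Wt S U K k ξ ((a : ℕ) + 1) + β) :=
    expect_le_expect fun a _ => h _ (by omega) (by have := a.2; omega)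
  rw [expect_add_distrib, ← mul_expect, expect_const univ_nonempty] at h1
  exact h1

theorem one {W W' Z Z' z0 τ β : ℝ} (h0 : 0 ≤ τ) (h1 : τ ≤ 1 / 10) (hz : 0 < z0) (hz1 : z0 ≤ 1)
    (hZ : z0 ≤ Z) (hZ' : z0 ≤ Z') (hW : 0 ≤ W) (hW1 : W ≤ 1) (hβ : 0 ≤ β)
    (a : W' ≤ (1 + 2 * τ) * W + β) (b : Z ≤ (1 + 2 * τ) * Z' + β) :
    W' / Z' ≤ (1 + 5 * τ) * (W / Z) + 3 * β / z0 ^ 2 := by
  have pZ : 0 < Z := hz.trans_le hZ
  have pZ' : 0 < Z' := hz.trans_le hZ'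
  set κ := W / Z with hκ
  have κ0 : 0 ≤ κ := by positivity
  have κ1 : κ ≤ 1 / z0 := div_le_div₀ zero_le_one hW1 hz hZ
  have eW : W = κ * Z := by rw [hκ]; field_simp
  set u := 1 / z0 with hu
  have u1 : 1 ≤ u := by rw [hu, le_div_iff₀ hz]; linarith
  have e2 : 3 * β / z0 ^ 2 = 3 * β * u ^ 2 := by rw [hu]; field_simp
  have uZ : 1 ≤ u * Z' := by rw [hu, div_mul_eq_mul_div, le_div_iff₀ hz]; linarith
  rw [e2, div_le_iff₀ pZ']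
  have s1 : W ≤ κ * ((1 + 2 * τ) * Z') + u * β := by
    have := mul_le_mul_of_nonneg_left b κ0
    have := mul_le_mul_of_nonneg_right κ1 hβ
    nlinarith
  have s2 : (1 + 2 * τ) * W ≤ (1 + 2 * τ) * (κ * ((1 + 2 * τ) * Z') + u * β) :=
    mul_le_mul_of_nonneg_left s1 (by linarith)
  have s3 : (1 + 2 * τ) * (1 + 2 * τ) ≤ 1 + 5 * τ := by nlinarith
  have s4 : (1 + 2 * τ) * (1 + 2 * τ) * (κ * Z') ≤ (1 + 5 * τ) * (κ * Z') :=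
    mul_le_mul_of_nonneg_right s3 (by positivity)
  have uβ : 0 ≤ u * β := by positivity
  have s5 : u * β ≤ u * β * (u * Z') := le_mul_of_one_le_right uβ uZ
  have s6 : β ≤ u * β := le_mul_of_one_le_left hβ u1
  have s7 : (1 + 2 * τ) * (u * β) ≤ 2 * (u * β) := mul_le_mul_of_nonneg_right (by linarith) uβ
  nlinarith

end RK4

open RK4 in
theorem k4 (hw : WTStmt) (h2 : K2Stmt) : K4Stmt := by
  intro ι S U K k X ξ ξ' τ z0 hU hX h0 h1 hz hZ hZ' h a ha haX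
  have hb : (0 : ℝ) ≤ (5 / 8) ^ K := by positivity
  have A : ∀ a : ℕ, 1 ≤ a → a ≤ X →
      Wt S U K k ξ' a ≤ (1 + 2 * τ) * Wt S U K k ξ a + (5 / 8) ^ K := fun a ha haX =>
    W_le hw hU ξ ξ' a h0 h1 fun hg => h a ha haX (Or.inr hg)
  have B : ∀ a : ℕ, 1 ≤ a → a ≤ X →
      Wt S U K k ξ a ≤ (1 + 2 * τ) * Wt S U K k ξ' a + (5 / 8) ^ K := fun a ha haX =>
    W_le hw hU ξ' ξ a h0 h1 fun hg => by
      refine le_trans (le_of_eq (sum_congr rfl fun t _ => ?_)) (h a ha haX (Or.inl hg))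
      rw [← nn_neg ((ξ' t - ξ t) * (a : ℝ) ^ k)]
      congr 2
      ring
  have ZA := Z_le hX ξ ξ' A
  have ZB := Z_le hX ξ' ξ B
  have hz1 : z0 ≤ 1 := hZ.trans (h2 ι S U K k X ξ hU hX).1.2
  have up := one h0 h1 hz hz1 hZ hZ' (W_nonneg hw hU ξ a) (W_le_one hw hU ξ a) hb (A a ha haX) ZB
  have lo := one h0 h1 hz hz1 hZ' hZ (W_nonneg hw hU ξ' a) (W_le_one hw hU ξ' a) hb (B a ha haX) ZA
  have k0 : 0 ≤ ker S U K k X ξ a := ((h2 ι S U K k X ξ hU hX).2.2.1 a).1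
  have k0' : 0 ≤ ker S U K k X ξ' a := ((h2 ι S U K k X ξ' hU hX).2.2.1 a).1
  change ker S U K k X ξ' a ≤ (1 + 5 * τ) * ker S U K k X ξ a + _ at up
  change ker S U K k X ξ a ≤ (1 + 5 * τ) * ker S U K k X ξ' a + _ at lo
  have e : (5 : ℝ) * (5 / 8) ^ K / z0 ^ 2 = 3 * (5 / 8) ^ K / z0 ^ 2 + 2 * ((5 / 8) ^ K / z0 ^ 2) := by
    ring
  have p : (0 : ℝ) ≤ (5 / 8) ^ K / z0 ^ 2 := by positivity
  have t0 : 0 ≤ τ * ker S U K k X ξ a := mul_nonneg h0 k0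
  rw [e]
  rcases le_total (ker S U K k X ξ a) (ker S U K k X ξ' a) with hc | hc
  · rw [abs_of_nonneg (by linarith)]
    linarith
  · rw [abs_of_nonpos (by linarith)]
    have := mul_le_mul_of_nonneg_left hc h0
    linarith

end Pool.Agent.MP_b1aeef_nt.H64
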