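import Pool.Agent.MP_b1aeef_nt.H64.Spec

/-! Fourier expansion of a product of weights. -/

open Finset
open scoped BigOperators

namespace Pool.Agent.MP_b1aeef_nt.H64

namespace RKf

/-- convex combination of characters with frequencies bounded by `B` -/
def Rep (B : ℕ) (f : ℝ → ℝ) : Prop := ∃ (κ : Type) (_ : Fintype κ) (c : κ → ℝ) (u : κ → ℤ),
  (∀ i, 0 ≤ c i) ∧ ∑ i, c i = 1 ∧ (∀ i, |u i| ≤ B) ∧
    ∀ x, (f x : ℂ) = ∑ i, (c i : ℂ) * ee (u i * x)

theorem one : Rep 0 fun _ => 1 :=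
  ⟨Unit, inferInstance, fun _ => 1, fun _ => 0, fun _ => zero_le_one, by simp, by simp, by simp⟩

theorem mul {B B' : ℕ} {f g : ℝ → ℝ} (hf : Rep B f) (hg : Rep B' g) :
    Rep (B + B') fun x => f x * g x := by
  obtain ⟨κ, _, c, u, c0, c1, ub, e⟩ := hf
  obtain ⟨κ', _, c', u', c0', c1', ub', e'⟩ := hg
  refine ⟨κ × κ', inferInstance, fun i => c i.1 * c' i.2, fun i => u i.1 + u' i.2,
    fun i => mul_nonneg (c0 _) (c0' _), ?_, fun i => ?_, fun x => ?_⟩
  · rw [Fintype.sum_prod_type, ← Fintype.sum_mul_sum, c1, c1', one_mul]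
  · push_cast
    exact (abs_add_le _ _).trans (add_le_add (ub _) (ub' _))
  · rw [Complex.ofReal_mul, e, e', Fintype.sum_mul_sum, Fintype.sum_prod_type]
    refine sum_congr rfl fun i _ => sum_congr rfl fun j _ => ?_
    push_cast
    rw [add_mul, ee_add]
    ring

theorem base (hf : FEJStmt) {U : ℕ} (hU : 1 ≤ U) : Rep U fun x => (1 + fej U x) / 2 := by
  have h0 : (U : ℝ) ≠ 0 := by positivity
  have h1 : (U : ℂ) ≠ 0 := by exact_mod_cast h0
  refine ⟨Option (Fin U × Fin U), inferInstance,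
    fun i => i.elim (1 / 2) fun _ => 1 / (2 * (U : ℝ) ^ 2),
    fun i => i.elim 0 fun p => ((p.1 : ℕ) : ℤ) - (p.2 : ℕ), fun i => ?_, ?_, fun i => ?_,
    fun x => ?_⟩
  · cases i <;> simp only [Option.elim] <;> positivity
  · rw [Fintype.sum_option]
    simp only [Option.elim, sum_const, card_univ, Fintype.card_prod, Fintype.card_fin,
      nsmul_eq_mul]
    push_cast
    field_simp
    norm_num
  · cases i with
    | none => simp
    | some p =>
      have a := p.1.2
      have b := p.2.2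
      simp only [Option.elim]
      rw [abs_le]
      omega
  · rw [Fintype.sum_option, Fintype.sum_prod_type]
    push_cast
    rw [(hf U hU).2.2.2.2.2.2 x]
    simp only [Option.elim, expect_eq_sum_div_card, card_range, ← sum_div, ← mul_sum]
    rw [sum_range fun u => ∑ u' ∈ range U, ee (((u : ℝ) - u') * x)]
    simp only [sum_range fun u' : ℕ => ee ((_ - (u' : ℝ)) * x)]
    push_cast
    simp only [zero_mul, ee_zero]
    generalize ∑ a : Fin U, ∑ b : Fin U, ee ((((a : ℕ) : ℝ) - (b : ℕ)) * x) = T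
    field_simp

theorem pow (hf : FEJStmt) {U : ℕ} (hU : 1 ≤ U) (K : ℕ) : Rep (K * U) (wt U K) := by
  induction K with
  | zero =>
    rw [zero_mul]
    exact (funext fun x => pow_zero _ : wt U 0 = fun _ => 1) ▸ one
  | succ K ih =>
    rw [Nat.succ_mul]
    exact (funext fun x => pow_succ _ _ : wt U (K + 1) = fun x => wt U K x * _) ▸
      mul ih (base hf hU)

theorem orth (B : ℕ) (u : ℤ) (hu : |u| ≤ B) :
    ∑ j ∈ range (B + 1), ee (u * (j / ((B : ℝ) + 1))) = ((B : ℂ) + 1) * (ind (u = 0) : ℝ) := by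
  have h0 : (B : ℝ) + 1 ≠ 0 := by positivity
  by_cases h : u = 0
  · simp [h, ind_pos]
  rw [ind_neg h]
  have e : ∀ j : ℕ, ee (u * (j / ((B : ℝ) + 1))) = ee (u / ((B : ℝ) + 1)) ^ j := fun j => by
    rw [← ee_nat_mul]
    congr 1
    ring
  have n1 : ee (u / ((B : ℝ) + 1)) - 1 ≠ 0 := by
    intro h1
    have h2 := le_norm_ee_sub_one (u / ((B : ℝ) + 1))
    rw [h1, norm_zero] at h2
    have h3 : |(u : ℝ) / ((B : ℝ) + 1) - round ((u : ℝ) / ((B : ℝ) + 1))| ≤ 0 := by
      unfold nn at h2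
      linarith
    rw [abs_nonpos_iff, sub_eq_zero, div_eq_iff h0] at h3
    have h4 : u = round ((u : ℝ) / ((B : ℝ) + 1)) * ((B : ℤ) + 1) := by exact_mod_cast h3
    exact h (Int.eq_zero_of_abs_lt_dvd (m := (B : ℤ) + 1) ⟨_, h4.trans (mul_comm _ _)⟩ (by omega))
  have g := geom_sum_mul (ee (u / ((B : ℝ) + 1))) (B + 1)
  rw [← ee_nat_mul, show ((B + 1 : ℕ) : ℝ) * (u / ((B : ℝ) + 1)) = u by
    push_cast
    field_simp, ee_int, sub_self] at g
  simp only [e]
  rw [(mul_eq_zero.1 g).resolve_right n1]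
  simp

theorem mass {κ : Type} [Fintype κ] {B : ℕ} {f : ℝ → ℝ} {c : κ → ℝ} {u : κ → ℤ}
    (ub : ∀ i, |u i| ≤ B) (e : ∀ x, (f x : ℂ) = ∑ i, (c i : ℂ) * ee (u i * x))
    (f0 : ∀ x, 0 ≤ f x) (f1 : f 0 = 1) : 1 / ((B : ℝ) + 1) ≤ ∑ i, c i * ind (u i = 0) := by
  have h : ∑ j ∈ range (B + 1), f (j / ((B : ℝ) + 1)) =
      (∑ i, c i * ind (u i = 0)) * ((B : ℝ) + 1) := by
    apply Complex.ofReal_injective
    push_cast
    simp only [e]
    rw [sum_comm, sum_mul]
    refine sum_congr rfl fun i _ => ?_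
    rw [← mul_sum, orth B _ (ub i)]
    ring
  rw [div_le_iff₀ (by positivity), ← h]
  have := single_le_sum (f := fun j : ℕ => f (j / ((B : ℝ) + 1))) (fun j _ => f0 _)
    (mem_range.2 (Nat.succ_pos B))
  simpa [f1] using this

end RKf

theorem kf (hf : FEJStmt) (hw : WTStmt) : KFStmt := by
  classical
  intro ι S U K hU
  choose κ fin c u c0 c1 ub e using fun t : S => RKf.pow hf (hU t t.2) K
  refine ⟨∀ t : S, κ t, inferInstance, fun i => ∏ t, c t (i t),
    fun i t => if h : t ∈ S then u ⟨t, h⟩ (i ⟨t, h⟩) else 0,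
    fun i => prod_nonneg fun t _ => c0 t _, ?_, fun i t ht => ?_, ?_, fun x => ?_⟩
  · rw [← Fintype.prod_sum]
    simp [c1]
  · simp only [dif_pos ht]
    exact ub ⟨t, ht⟩ _
  · have h : ∀ i : ∀ t : S, κ t, (∏ t, c t (i t)) *
        ind (∀ t ∈ S, (if h : t ∈ S then u ⟨t, h⟩ (i ⟨t, h⟩) else 0) = 0) =
        ∏ t, c t (i t) * ind (u t (i t) = 0) := by
      intro i
      rw [prod_mul_distrib]
      congr 1
      by_cases H : ∀ t : S, u t (i t) = 0
      · rw [ind_pos fun t ht => by rw [dif_pos ht, H]]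
        exact (prod_eq_one fun t _ => ind_pos (H t)).symm
      · obtain ⟨t, ht⟩ := not_forall.1 H
        rw [ind_neg fun G => ht (by simpa [t.2] using G t t.2)]
        exact (prod_eq_zero (mem_univ t) (ind_neg ht)).symm
    simp only [h]
    rw [← Fintype.prod_sum fun t j => c t j * ind (u t j = 0), ← prod_coe_sort]
    refine prod_le_prod (fun t _ => by positivity) fun t _ => ?_
    have w := hw (U t) K (hU t t.2)
    simpa using RKf.mass (ub t) (e t) (fun x => (w.1 x).1.le) w.2.1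
  · rw [← prod_coe_sort, Complex.ofReal_prod]
    simp only [e]
    rw [Fintype.prod_sum]
    refine sum_congr rfl fun i _ => ?_
    rw [prod_mul_distrib, Complex.ofReal_prod, ← ee_sum, ← sum_coe_sort S]
    congr 2
    exact sum_congr rfl fun t _ => by rw [dif_pos t.2]

end Pool.Agent.MP_b1aeef_nt.H64
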