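import Pool.Agent.MP_b1aeef_nt.H64.Spec

/-! Row Leaf2: the leaf estimate in a state. -/

open Finset Polynomial Filter Topology
open scoped BigOperators

namespace Pool.Agent.MP_b1aeef_nt.H64

theorem leaf2 (h : LEAFStmt) (hz : ZSHStmt) : LEAF2Stmt := by
  intro q d C1
  obtain ⟨k, hk⟩ : ∃ k, k = 2 * C1 + 1 := ⟨_, rfl⟩
  obtain ⟨c, hc⟩ : ∃ c, c = k * 2 ^ d + 1 := ⟨_, rfl⟩
  refine ⟨c + 2 * (3 + c * d) + 2 * k, ?_⟩
  intro V _ P o C jb z b p S v L m r γ0 Θ h0 hi ha hv hn hr hΘ hlo hhi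
  have hW : 16 ≤ q ^ L := hn.big
  have h1 : (q ^ L) ^ c ≤ S.Y := hn.pow_le (by omega)
  have h2 : Nat.sqrt S.Y * (q ^ L) ^ (3 + c * d) ≤ S.Y := hn.sqrt_mul_le (by omega)
  have h3 : (q ^ L) ^ k ≤ Nat.sqrt S.Y := hn.pow_le_sqrt (by omega)
  have hq : (0 : ℝ) < (q : ℝ) ^ b0 q o.N := by
    have := hn.ok.hq
    positivity
  have hcast : (q : ℝ) ^ L = ((q ^ L : ℕ) : ℝ) := by push_cast; rfl
  rw [hcast] at hhi ⊢
  generalize q ^ L = W at hW h1 h2 h3 hhi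
  have hW0 : 0 < W := by omega
  have w16 : (16 : ℝ) ≤ W := by exact_mod_cast hW
  have w1 : (1 : ℝ) ≤ W := by linarith
  have w0 : (0 : ℝ) < W := by linarith
  have r1 : (W : ℝ) ^ c ≤ S.Y := by exact_mod_cast h1
  have r2 : (Nat.sqrt S.Y : ℝ) * (W : ℝ) ^ (3 + c * d) ≤ S.Y := by exact_mod_cast h2
  have r3 : (W : ℝ) ^ k ≤ (Nat.sqrt S.Y : ℝ) := by exact_mod_cast h3
  have five : ∀ e : ℕ, 5 * (1 / (W : ℝ) ^ (e + 1)) ≤ 1 / (W : ℝ) ^ e := fun e => by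
    rw [mul_one_div, div_le_div_iff₀ (by positivity) (by positivity), pow_succ]
    nlinarith [pow_pos w0 e]
  have hZ := hz V q P o C jb z b p S hn.ok h0 hi hn.hbet
  have key := h S.Ω o.N (W ^ c) (Nat.sqrt S.Y) r S.D (3 / S.Y) (1 / S.Y) (1 / (W : ℝ) ^ k)
    (1 / (2 * (q : ℝ) ^ b0 q o.N)) (S.Y / (q : ℝ) ^ b0 q o.N) γ0 (fun ω => S.gen ω v) Θ
    (by have := hn.ok.N16; omega) (Nat.pow_pos hW0) ((Nat.pow_pos hW0).trans_le h3) h0.dens
    (fun y hy => hZ y (hy.trans (by exact_mod_cast h1))) hΘ (ha v hv) hlo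
    (by
      have e1 : ((W ^ c : ℕ) : ℝ) ^ r ≤ (W : ℝ) ^ (c * d) := by
        rw [Nat.cast_pow, ← pow_mul]
        exact pow_le_pow_right₀ w1 (Nat.mul_le_mul_left _ hr)
      refine le_trans ?_ (div_le_div_of_nonneg_right r2 hq.le)
      calc |γ0| * (Nat.sqrt S.Y : ℝ) * ((W ^ c : ℕ) : ℝ) ^ r
          ≤ (W : ℝ) ^ 3 / (q : ℝ) ^ b0 q o.N * (Nat.sqrt S.Y : ℝ) * (W : ℝ) ^ (c * d) := by
            gcongr
        _ = _ := by
            rw [pow_add]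
            ring)
    (by positivity) ((div_le_one (by positivity)).2 (one_le_pow₀ w1)) (by positivity)
    (by positivity)
    (by
      have e1 : 1 / (S.Y : ℝ) ≤ 1 / (W : ℝ) ^ c := one_div_le_one_div_of_le (by positivity) r1
      have e2 : 1 / (W : ℝ) ^ (k * 2 ^ d) ≤ (1 / (W : ℝ) ^ k) ^ 2 ^ r := by
        rw [one_div_pow, ← pow_mul]
        exact one_div_le_one_div_of_le (by positivity) (pow_le_pow_right₀ w1
          (Nat.mul_le_mul_left _ (Nat.pow_le_pow_right (by norm_num) hr)))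
      have e3 := five (k * 2 ^ d)
      have e4 : 3 / (S.Y : ℝ) = 3 * (1 / (S.Y : ℝ)) := by ring
      rw [← hc] at e3
      rw [Nat.cast_pow, e4]
      linarith)
  have e1 : 1 / (Nat.sqrt S.Y : ℝ) ≤ 1 / (W : ℝ) ^ k :=
    one_div_le_one_div_of_le (by positivity) r3
  have e2 := five (2 * C1)
  rw [← hk] at e2
  refine (abs_le_of_sq_le_sq' ?_ (by positivity)).2
  rw [one_div_pow, ← pow_mul, mul_comm C1 2]
  linarith

end Pool.Agent.MP_b1aeef_nt.H64
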