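import Pool.Agent.MP_b1aeef_nt.H64.Spec
import Pool.Agent.MP_b1aeef_nt.G4.RRes

/-! From the correlation bound to counting. -/

set_option autoImplicit false

open Finset Polynomial Filter Topology
open scoped BigOperators

namespace Pool.Agent.MP_b1aeef_nt.H64

namespace RMain

theorem sum_le (h : CORStmt) {q k : ℕ} (hq : 2 ≤ q) (P : ℤ[X]) (hd : 2 ≤ P.natDegree)
    (hP : ∀ n : ℕ, 0 ≤ P.eval (n : ℤ)) (al : Fin k → ℝ) (l0 : Fin k)
    (hal : ∀ n : ℤ, ((q : ℝ) - 1) * al l0 ≠ n) :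
    ∃ c C : ℝ, 0 < c ∧ ∀ N : ℕ, ‖∑ n ∈ range N, G4.ee (∑ l : Fin k, al l *
      (G4.ds q (P.eval ((n + l : ℕ) : ℤ)).toNat : ℝ))‖ ≤ C * (N : ℝ) ^ (1 - c) := by
  classical
  have e1 : ∀ (n : ℕ) (l : Fin k), (taylor ((l0 : ℕ) : ℤ) P).eval ((n : ℤ) +
      (((l : ℕ) : ℤ) - (l0 : ℕ))) = P.eval ((n + l : ℕ) : ℤ) := fun n l => by
    rw [taylor_eval]
    congr 1
    push_cast
    ring
  obtain ⟨α, hα⟩ : ∃ α : ℤ → ℝ, ∀ l : Fin k, α (((l : ℕ) : ℤ) - (l0 : ℕ)) = al l :=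
    ⟨fun j => if h : (j + (l0 : ℕ)).toNat < k then al ⟨_, h⟩ else 0, fun l => by simp⟩
  obtain ⟨c, hc, h1⟩ := h q α (taylor ((l0 : ℕ) : ℤ) P)
    (univ.image fun l : Fin k => ((l : ℕ) : ℤ) - (l0 : ℕ)) hq (by rwa [natDegree_taylor])
    (mem_image.2 ⟨l0, mem_univ _, sub_self _⟩) (fun n j hj => by
      obtain ⟨l, -, rfl⟩ := mem_image.1 hj
      rw [e1]
      exact hP _) (by rw [← sub_self ((l0 : ℕ) : ℤ), hα]; exact hal)
  obtain ⟨N0, h2⟩ := eventually_atTop.1 h1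
  refine ⟨c, 1 + (N0 : ℝ) ^ c, hc, fun N => ?_⟩
  rcases Nat.eq_zero_or_pos N with rfl | hN
  · simp only [range_zero, sum_empty, norm_zero]
    positivity
  have hN' : (0 : ℝ) < N := by exact_mod_cast hN
  have p1 : 0 ≤ (N : ℝ) ^ (1 - c) := by positivity
  have p2 : 0 ≤ (N0 : ℝ) ^ c * (N : ℝ) ^ (1 - c) := by positivity
  rw [add_mul, one_mul]
  rcases le_total N N0 with hs | hs
  · have h4 : (N : ℝ) ≤ (N0 : ℝ) ^ c * (N : ℝ) ^ (1 - c) := by
      refine le_trans (le_of_eq ?_) (mul_le_mul_of_nonneg_right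
        (Real.rpow_le_rpow hN'.le (by exact_mod_cast hs) hc.le) p1)
      rw [← Real.rpow_add hN', add_sub_cancel, Real.rpow_one]
    refine (norm_sum_le _ _).trans ?_
    simp only [G4.norm_ee, sum_const, card_range, nsmul_eq_mul, mul_one]
    linarith
  have h3 := h2 N hs
  rw [corr, expect_eq_sum_div_card, card_range, norm_div, Complex.norm_natCast,
    div_le_iff₀ hN'] at h3
  have h4 : (N : ℝ) ^ (-c) * N = (N : ℝ) ^ (1 - c) := by
    rw [sub_eq_add_neg, Real.rpow_add hN', Real.rpow_one, mul_comm]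
  refine le_trans (le_of_eq ?_) ((h3.trans_eq h4).trans (le_add_of_nonneg_right p2))
  congr 1
  refine sum_congr rfl fun n _ => ?_
  rw [sum_image fun l _ l' _ h => Fin.ext (by omega)]
  simp only [hα, e1]
  rfl

end RMain

open G4.RRes in
theorem main_of (h : CORStmt) : MAINStmt := by
  intro q m k hq hm P hd hP
  have hm' : (0 : ℝ) < m := by exact_mod_cast hm
  obtain ⟨c, C, hc, hC, h1⟩ := unif (Fintype.piFinset (fun _ : Fin k => range m) \
      Fintype.piFinset (fun _ : Fin k => (range m).filter fun h => m ∣ (q - 1) * h))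
    (fun h N => ‖∑ n ∈ range N, G4.ee (∑ l : Fin k, (h l : ℝ) / m *
      (G4.ds q (P.eval ((n + l : ℕ) : ℤ)).toNat : ℝ))‖) fun g hh => by
      obtain ⟨h2, h3⟩ := mem_sdiff.1 hh
      rw [Fintype.mem_piFinset] at h2 h3
      push Not at h3
      obtain ⟨l0, h3⟩ := h3
      refine RMain.sum_le h hq P hd hP (fun l => (g l : ℝ) / m) l0 fun n hn => h3 ?_
      refine mem_filter.2 ⟨h2 l0, Int.natCast_dvd_natCast.1 ⟨n, ?_⟩⟩
      rw [← mul_div_assoc, div_eq_iff hm'.ne'] at hn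
      rw [Nat.cast_mul, Nat.cast_sub (by omega), mul_comm (m : ℤ)]
      exact_mod_cast hn
  refine ⟨c, C, hc, fun w N => ?_⟩
  rcases Nat.eq_zero_or_pos N with rfl | hN
  · simp only [range_zero, filter_empty, card_empty, Nat.cast_zero, mul_zero, sub_zero, abs_zero]
    positivity
  refine le_trans ?_ (h1 N hN)
  have h2 := sum_congr (s₁ := range N) rfl fun n _ =>
    expand hq hm (fun l : Fin k => (P.eval ((n + l : ℕ) : ℤ)).toNat) w
  rw [sum_sub_distrib, ← mul_sum, ← mul_sum, sum_boole, sum_boole, sum_comm] at h2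
  have h3 := (congrArg norm h2).trans_le (norm_sum_le _ _)
  simp only [← sum_mul, norm_mul, G4.norm_ee, mul_one] at h3
  refine le_trans ?_ h3
  have h4 : (1 : ℝ) ≤ (m : ℝ) ^ k := one_le_pow₀ (by exact_mod_cast hm)
  refine (le_mul_of_one_le_left (abs_nonneg _) h4).trans_eq ?_
  rw [← abs_of_pos (pow_pos hm' k), ← abs_mul, ← Real.norm_eq_abs, ← Complex.norm_real]
  congr 1
  have h5 : (m : ℂ) ≠ 0 := by exact_mod_cast hm'.ne'
  unfold G4.ds
  push_cast
  rw [div_pow]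
  field_simp

end Pool.Agent.MP_b1aeef_nt.H64
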