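import Pool.Agent.MP_b1aeef_nt.H64.Spec

/-! Row Marg: summing out independent new variables. -/

open Finset Polynomial Filter Topology
open scoped BigOperators

namespace Pool.Agent.MP_b1aeef_nt.H64

namespace RMarg

theorem expect_pi {K Cc A : Type} [Field K] [CharZero K] [Fintype Cc] [DecidableEq Cc] [Fintype A]
    (f : Cc → A → K) : 𝔼 a : Cc → A, ∏ c, f c (a c) = ∏ c, 𝔼 x, f c x := by
  simp only [expect_eq_sum_div_card]
  rw [prod_div_distrib, prod_univ_sum, Fintype.piFinset_univ, prod_const, card_univ, card_univ,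
    card_univ, Fintype.card_fun, Nat.cast_pow]

theorem expect_two {K Ω Cc A : Type} [Field K] [CharZero K] [Fintype Ω] [Fintype Cc]
    [DecidableEq Cc] [Fintype A] (g : Ω → K) (f : Cc → Ω → A → K) :
    𝔼 ω : Ω × (Cc → A), g ω.1 * ∏ c, f c ω.1 (ω.2 c) = 𝔼 ω, g ω * ∏ c, 𝔼 x, f c ω x := by
  rw [← univ_product_univ, expect_product]
  refine expect_congr rfl fun ω _ => ?_
  rw [← expect_pi, mul_expect]

end RMarg

open RMarg in
theorem marg : MARGStmt := by
  intro Ω Cc _ _ _ N X D k hD h0 h1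
  refine ⟨⟨fun n ω => mul_nonneg (hD.nonneg _ _) (prod_nonneg fun c _ => h0 _ _ _ _), fun n => ?_⟩,
    fun φ => ?_, fun c0 φ ψ => ?_⟩
  · rw [expect_two (D n) fun c ω a => k c n ω a]
    simp only [h1, prod_const_one, mul_one]
    exact hD.avg n
  · refine expect_congr rfl fun n _ => ?_
    have e := expect_two (fun ω => (D n ω : ℂ) * φ n ω) fun c ω a => (k c n ω a : ℂ)
    simp only [← Complex.ofReal_expect, h1, Complex.ofReal_one, prod_const_one, mul_one] at e
    rw [← e]
    refine expect_congr rfl fun ω _ => ?_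
    rw [Complex.ofReal_mul, Complex.ofReal_prod]
    ring
  · refine (RCLike.norm_expect_le (K := ℝ)).trans (expect_le_expect fun n _ => ?_)
    have e := expect_two (fun ω => (D n ω : ℂ) * ee (φ n ω))
      fun c ω a => (k c n ω a : ℂ) * ee (ψ c n ω a)
    have e' : 𝔼 ω : Ω × (Cc → Fin X), ((D n ω.1 * ∏ c, k c n ω.1 (ω.2 c) : ℝ) : ℂ) *
        ee (φ n ω.1 + ∑ c, ψ c n ω.1 (ω.2 c)) = _ := Eq.trans (expect_congr rfl fun ω _ => by
      rw [Complex.ofReal_mul, Complex.ofReal_prod, ee_add, ee_sum, prod_mul_distrib]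
      ring) e
    rw [e']
    refine (RCLike.norm_expect_le (K := ℝ)).trans (expect_le_expect fun ω _ => ?_)
    rw [norm_mul, norm_mul, norm_ee, mul_one, Complex.norm_real,
      Real.norm_of_nonneg (hD.nonneg _ _), norm_prod]
    refine mul_le_mul_of_nonneg_left ?_ (hD.nonneg _ _)
    rw [← mul_prod_erase univ _ (mem_univ c0)]
    refine mul_le_of_le_one_right (norm_nonneg _) (prod_le_one (fun _ _ => norm_nonneg _)
      fun c _ => ?_)
    refine (RCLike.norm_expect_le (K := ℝ)).trans (le_of_eq ?_)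
    rw [← h1 c n ω]
    refine expect_congr rfl fun a _ => ?_
    rw [norm_mul, norm_ee, mul_one, Complex.norm_real, Real.norm_of_nonneg (h0 _ _ _ _)]

end Pool.Agent.MP_b1aeef_nt.H64
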