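import Pool.Agent.MP_b1aeef_nt.H64.Spec

/-! Rows NUM and GROW: choice of the parameters, size and growth of the polynomial. -/

open Finset Polynomial Filter Topology
open scoped BigOperators

namespace Pool.Agent.MP_b1aeef_nt.H64

namespace RNum

theorem lg_ev {q : ℕ} (hq : 2 ≤ q) (A : ℕ) : ∀ᶠ N : ℕ in atTop, A ≤ lg q N :=
  (eventually_ge_atTop (q ^ A)).mono fun _ h => Nat.le_log_of_pow_le (by omega) h

theorem bet_le {q : ℕ} (hq : 2 ≤ q) (C N : ℕ) (h : 4 * q * C ≤ lg q N) :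
    (N : ℝ) ^ C * bet q N ≤ 1 := by
  have h1 : (N : ℝ) ≤ (q : ℝ) ^ (lg q N + 1) := by
    exact_mod_cast (Nat.lt_pow_succ_log_self (b := q) (by omega) N).le
  have h2 : (q : ℝ) ≤ (8 / 5) ^ (2 * q) := by
    have a1 : (q : ℝ) ≤ 2 ^ q := by exact_mod_cast (Nat.lt_two_pow_self (n := q)).le
    rw [pow_mul]
    exact a1.trans (pow_le_pow_left₀ (by norm_num) (by norm_num) q)
  have h3 : 2 * q * (lg q N + 1) * C ≤ lg q N ^ 2 := by
    rcases Nat.eq_zero_or_pos C with rfl | hC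
    · simp
    · have a1 : 1 ≤ lg q N := le_trans (by nlinarith) h
      nlinarith [Nat.mul_le_mul_left (lg q N) h, Nat.mul_le_mul_left (2 * q * C) a1]
  have h4 : (N : ℝ) ^ C ≤ (8 / 5) ^ (lg q N ^ 2) := by
    calc (N : ℝ) ^ C ≤ (((8 / 5) ^ (2 * q)) ^ (lg q N + 1)) ^ C :=
          pow_le_pow_left₀ (by positivity) (h1.trans (pow_le_pow_left₀ (by positivity) h2 _)) C
      _ = (8 / 5) ^ (2 * q * (lg q N + 1) * C) := by rw [← pow_mul, ← pow_mul, ← mul_assoc]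
      _ ≤ _ := pow_le_pow_right₀ (by norm_num) h3
  refine (mul_le_mul_of_nonneg_right h4 (bet_pos q N).le).trans_eq ?_
  unfold bet KK
  rw [← mul_pow]
  norm_num

theorem poly_bd (P : ℤ[X]) (hd : 1 ≤ P.natDegree) : ∃ c : ℕ, ∀ B x y : ℤ, 1 ≤ B → |x| ≤ B →
    |y| ≤ B → |P.eval x| ≤ c * B ^ P.natDegree ∧
      |P.eval y - P.eval x| ≤ c * (|y - x| * B ^ (P.natDegree - 1)) := by
  refine ⟨(∑ i ∈ range (P.natDegree + 1), (P.coeff i).natAbs) * P.natDegree,
    fun B x y hB hx hy => ⟨?_, ?_⟩⟩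
  · rw [eval_eq_sum_range]
    push_cast
    rw [mul_assoc, sum_mul]
    refine (abs_sum_le_sum_abs _ _).trans (sum_le_sum fun i hi => ?_)
    rw [abs_mul, abs_pow]
    refine mul_le_mul_of_nonneg_left ?_ (abs_nonneg _)
    have a1 := (pow_le_pow_left₀ (abs_nonneg x) hx i).trans
      (pow_le_pow_right₀ hB (Nat.lt_succ_iff.1 (mem_range.1 hi)))
    have a2 : (1 : ℤ) ≤ P.natDegree := by exact_mod_cast hd
    have a3 : 0 ≤ B ^ P.natDegree := by positivity
    nlinarith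
  · rw [eval_eq_sum_range, eval_eq_sum_range, ← sum_sub_distrib]
    push_cast
    rw [mul_assoc, sum_mul]
    refine (abs_sum_le_sum_abs _ _).trans (sum_le_sum fun i hi => ?_)
    rw [← mul_sub, abs_mul]
    refine mul_le_mul_of_nonneg_left ((abs_pow_sub_pow_le y x i).trans ?_) (abs_nonneg _)
    have a0 := Nat.lt_succ_iff.1 (mem_range.1 hi)
    have a1 : max |y| |x| ^ (i - 1) ≤ B ^ (P.natDegree - 1) :=
      (pow_le_pow_left₀ (le_max_of_le_left (abs_nonneg y)) (max_le hy hx) _).trans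
        (pow_le_pow_right₀ hB (by omega))
    have a2 : (i : ℤ) ≤ P.natDegree := by exact_mod_cast a0
    calc |y - x| * i * max |y| |x| ^ (i - 1) ≤ |y - x| * P.natDegree * B ^ (P.natDegree - 1) := by
          gcongr
      _ = _ := by ring

end RNum

open RNum

theorem num : NUMStmt := by
  intro q d C ρ E E2 hq
  obtain ⟨r, hr⟩ : ∃ r, r = 2 * (E + 1) * ρ + 1 := ⟨_, rfl⟩
  refine ⟨(d + 1) * r, r, 16 + 6 * r + E2 * r, ?_⟩
  filter_upwards [lg_ev hq (16 + 4 * q * (C + 1) + r * (E + 2 * ((d + 1) * r) + 1))]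
  rintro N hN o rfl ⟨h1, h2, h3⟩ Y hY
  have q0 : 0 < q := by omega
  have r0 : 0 < r := by omega
  have h16 : 16 ≤ lg q o.N := by omega
  have ok : Ok q o := ⟨hq, h16, by
    have : o.s * 16 ≤ lg q o.N := le_trans (Nat.mul_le_mul_left _ (by omega)) h3
    unfold jj
    omega, h1,
    (Nat.pow_le_pow_right (by omega) (by omega)).trans (h2.trans (Nat.pow_le_pow_left hq _))⟩
  have hY0 : Y ≠ 0 := by
    rintro rfl
    have := ok.N16
    rcases Nat.eq_zero_or_pos ρ with rfl | h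
    · simp at hY
      omega
    · rw [zero_pow h.ne'] at hY
      omega
  obtain ⟨L, hL⟩ : ∃ L, L = Nat.log q Y / (E + 1) := ⟨_, rfl⟩
  have a1 : L * (E + 1) ≤ Nat.log q Y := hL ▸ Nat.div_mul_le_self _ _
  have a2 : Nat.log q Y + 1 ≤ (E + 1) * (L + 1) := hL ▸ Nat.lt_mul_div_succ _ (by omega)
  have a3 : o.N ≤ q ^ ((E + 1) * (L + 1) * ρ) := by
    rw [pow_mul]
    exact hY.trans (Nat.pow_le_pow_left ((Nat.lt_pow_succ_log_self (by omega) Y).le.trans
      (Nat.pow_le_pow_right q0 a2)) _)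
  have a4 : lg q o.N ≤ (E + 1) * (L + 1) * ρ :=
    (Nat.pow_le_pow_iff_right (by omega)).1 (ok.pow_lg.trans a3)
  have a5 : 1 ≤ L := by
    by_contra h
    have : L = 0 := by omega
    rw [this] at a4
    nlinarith [Nat.zero_le (r * (E + 2 * ((d + 1) * r))), Nat.zero_le ((E + 1) * ρ)]
  have a6 : (E + 1) * (L + 1) * ρ ≤ L * r := by
    rw [hr]
    nlinarith [Nat.mul_le_mul_left ((E + 1) * ρ) a5]
  have a7 : lg q o.N ≤ L * r := a4.trans a6
  have a8 : E + 2 * ((d + 1) * r) + 1 ≤ L :=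
    Nat.le_of_mul_le_mul_left (c := r) (by rw [mul_comm r L]; omega) r0
  have a9 : o.s * 6 ≤ L := Nat.le_of_mul_le_mul_right (c := r) (by
    nlinarith [Nat.zero_le (o.s * E2 * r)]) r0
  refine ⟨L, ⟨ok, ?_, by omega, ?_, bet_le hq _ _ (by omega), ?_⟩, ?_,
    Nat.le_of_mul_le_mul_right (c := r) (by nlinarith [Nat.zero_le (o.s * r)]) r0⟩
  · exact (Nat.pow_le_pow_right q0 (le_trans (by nlinarith) a1)).trans (Nat.pow_log_le_self q hY0)
  · refine (Nat.mul_le_mul_left _ (Nat.lt_pow_self (a := q) (by omega))).trans ?_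
    rw [← pow_add]
    exact Nat.pow_le_pow_right q0 (by omega)
  · have b1 : (d - 1) * lg q o.N ≤ d * lg q o.N := Nat.mul_le_mul_right _ (by omega)
    have b2 := ok.j8
    have b3 := Nat.mul_le_mul_left (d + 1) a7
    unfold atop
    nlinarith
  · rw [← pow_mul]
    exact a3.trans (Nat.pow_le_pow_right q0 a6)

theorem grow : GROWStmt := by
  intro q P J D C hq hd
  obtain ⟨c, hc⟩ := poly_bd P hd
  obtain ⟨c2, hc2⟩ : ∃ c2 : ℕ, c2 = q + D + ∑ j ∈ J, j.natAbs := ⟨_, rfl⟩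
  obtain ⟨e, he⟩ := Nat.exists_eq_add_of_le' hd
  filter_upwards [lg_ev hq (4 * q * C), lg_ev hq (8 * (c * c2 ^ e * (c2 + D)))] with N h1 h2
  refine ⟨le_trans (by nlinarith) h1, bet_le hq C N h1, fun n h n0 n1 k0 k1 j hj => ?_⟩
  have q1 : (1 : ℤ) ≤ q := by exact_mod_cast (by omega : 1 ≤ q)
  have u1 : (1 : ℤ) ≤ (q : ℤ) ^ lg q N := one_le_pow₀ q1
  have a1 : (N : ℤ) ≤ q * (q : ℤ) ^ lg q N := by
    rw [← pow_succ']
    exact_mod_cast (Nat.lt_pow_succ_log_self (b := q) (by omega) N).le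
  have a2 : h ≤ D * (q : ℤ) ^ lg q N := k1.trans (mul_le_mul_of_nonneg_left
    (pow_le_pow_right₀ q1 (by unfold jj; omega)) (by positivity))
  have a3 : |j| ≤ ((∑ j ∈ J, j.natAbs : ℕ) : ℤ) := by
    rw [← Int.natCast_natAbs]
    exact_mod_cast single_le_sum (f := fun j : ℤ => j.natAbs) (fun _ _ => Nat.zero_le _) hj
  have a4 : |j| ≤ ((∑ j ∈ J, j.natAbs : ℕ) : ℤ) * (q : ℤ) ^ lg q N :=
    a3.trans (le_mul_of_one_le_right (by positivity) u1)
  have a5 : (c2 : ℤ) * (q : ℤ) ^ lg q N = q * (q : ℤ) ^ lg q N + D * (q : ℤ) ^ lg q N +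
      ((∑ j ∈ J, j.natAbs : ℕ) : ℤ) * (q : ℤ) ^ lg q N := by
    rw [hc2, Nat.cast_add, Nat.cast_add]
    ring
  have a6 := abs_le.1 a4
  obtain ⟨b1, b2⟩ := hc (c2 * (q : ℤ) ^ lg q N) (n + j) (n + h + j) (by
    have : (1 : ℤ) ≤ c2 := by exact_mod_cast (by omega : 1 ≤ c2)
    nlinarith) (abs_le.2 ⟨by linarith, by linarith⟩) (abs_le.2 ⟨by linarith, by linarith⟩)
  have a7 : ((c * c2 ^ e * (c2 + D) : ℕ) : ℤ) < (q : ℤ) ^ jj q N := by
    exact_mod_cast (Nat.lt_pow_self (a := q) (by omega)).trans_le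
      (Nat.pow_le_pow_right (by omega) (by unfold jj; omega))
  push_cast at a7
  have a8 : (q : ℤ) ^ jj q N ≤ (q : ℤ) ^ lg q N := pow_le_pow_right₀ q1 (by unfold jj; omega)
  have a9 : (0 : ℤ) ≤ c * (c2 : ℤ) ^ e * c2 := by positivity
  have a10 : (0 : ℤ) ≤ c * (c2 : ℤ) ^ e * D := by positivity
  rw [show n + h + j - (n + j) = h by ring, abs_of_nonneg k0] at b2
  unfold btop atop
  rw [he, Nat.add_sub_cancel] at *
  constructor
  · calc P.eval (n + j) ≤ c * (c2 * (q : ℤ) ^ lg q N) ^ (e + 1) := (le_abs_self _).trans b1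
      _ = c * (c2 : ℤ) ^ e * c2 * ((q : ℤ) ^ lg q N) ^ (e + 1) := by ring
      _ < (q : ℤ) ^ lg q N * ((q : ℤ) ^ lg q N) ^ (e + 1) :=
          mul_lt_mul_of_pos_right (by linarith) (by positivity)
      _ = _ := by ring
  · calc _ ≤ c * (D * (q : ℤ) ^ (4 * jj q N) * (c2 * (q : ℤ) ^ lg q N) ^ e) *
          (q : ℤ) ^ jj q N := by
          refine mul_le_mul_of_nonneg_right (b2.trans ?_) (by positivity)
          gcongr
      _ = c * (c2 : ℤ) ^ e * D * (q : ℤ) ^ (e * lg q N + 5 * jj q N) := by ring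
      _ ≤ (q : ℤ) ^ jj q N * (q : ℤ) ^ (e * lg q N + 5 * jj q N) :=
          mul_le_mul_of_nonneg_right (by linarith) (by positivity)
      _ = _ := by ring

end Pool.Agent.MP_b1aeef_nt.H64
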