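import Pool.Agent.MP_b1aeef_nt.H64.Spec

/-! Row S1: the elementary invariants survive a refinement step. -/

open Finset Polynomial Filter Topology
open scoped BigOperators

namespace Pool.Agent.MP_b1aeef_nt.H64

namespace RS1

theorem UU_pos {V : Type} [Fintype V] {q R : ℕ} (hq : 2 ≤ q) (hR : 1 ≤ R) (L len : ℕ)
    (μ : V → ℕ) : 1 ≤ UU q R L len μ := by
  unfold UU
  have hq0 : 0 < q := by omega
  refine Nat.mul_pos (pow_pos hq0 _) ?_
  split_ifs
  · exact pow_pos (by omega) _
  · exact pow_pos hq0 _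

/-- telescoping of the blocks of the children -/
theorem tele {V : Type} {q : ℕ} (hq : 2 ≤ q) (S : Dat V) (v : V) (L : ℕ) (h : S.lo v ≤ S.hi v)
    (x : ℤ) : ∀ m : ℕ, ∑ c ∈ range m, ds q (clo S v L c) (chi S v L c) x =
      ds q (S.lo v) (clo S v L m) x
  | 0 => by
    have : clo S v L 0 = S.lo v := by unfold clo; simp [h]
    simp [this]
  | m + 1 => by
    rw [sum_range_succ, tele hq S v L h x m]
    have e : clo S v L (m + 1) = chi S v L m := rfl
    rw [e]
    refine ds_add hq ?_ ?_ x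
    · unfold clo; exact le_min (Nat.le_add_right _ _) h
    · unfold clo chi
      exact min_le_min (Nat.add_le_add_left (Nat.mul_le_mul_right _ (Nat.le_succ _)) _) le_rfl

theorem cover {V : Type} [Fintype V] [DecidableEq V] {q : ℕ} (hq : 2 ≤ q) (S : Dat V) (v : V)
    (L m : ℕ) (h : S.lo v ≤ S.hi v) (h2 : S.hi v ≤ m * L) (x : ℤ) :
    ∑ w, ds q (S.lo w) (Function.update S.hi v (S.lo v) w) x +
      ∑ c : Fin m, ds q (clo S v L c) (chi S v L c) x = ∑ w, ds q (S.lo w) (S.hi w) x := by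
  have e1 : ∑ c : Fin m, ds q (clo S v L c) (chi S v L c) x = ds q (S.lo v) (S.hi v) x := by
    rw [Fin.sum_univ_eq_sum_range (fun c => ds q (clo S v L c) (chi S v L c) x) m,
      tele hq S v L h x m]
    have : clo S v L m = S.hi v := by unfold clo; exact min_eq_right (by omega)
    rw [this]
  rw [e1, ← Finset.add_sum_erase _ _ (mem_univ v), ← Finset.add_sum_erase _ _ (mem_univ v),
    Function.update_self, ds_self, zero_add, add_comm]
  refine congrArg (fun t => ds q (S.lo v) (S.hi v) x + t) (sum_congr rfl fun w hw => ?_)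
  rw [Function.update_of_ne (ne_of_mem_erase hw)]

end RS1

theorem s1 (h2 : K2Stmt) (hz : ZCHStmt) (hm : MARGStmt) : S1Stmt := by
  intro V _ _ q P jb z b p v hv
  obtain ⟨C1, E1, H⟩ := hz V q P v (jb v - 1) (by omega)
  refine ⟨E1 + C1 + 2, fun o C S L m hS hN => ?_⟩
  have hq := hN.ok.hq
  have hY : q ^ L ≤ S.Y := by simpa using hN.pow_le (e := 1) (by omega)
  have hX : q ^ L ≤ Nat.sqrt S.Y := by simpa using hN.pow_le_sqrt (e := 1) (by omega)
  have hXY : Nat.sqrt S.Y * q ^ L ≤ S.Y := by simpa using hN.sqrt_mul_le (e := 1) (by omega)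
  have hbig := hN.big
  have hX1 : 1 ≤ Nat.sqrt S.Y := by omega
  have hR1 : 1 ≤ o.R := by have := hN.ok.R16; omega
  have hzv : z ≠ v := fun e => by have := hS.jz; rw [e] at this; omega
  have hbv : b ≠ v := fun e => by have := hS.jb0; rw [e] at this; omega
  have hpv : p ≠ v := fun e => by have := hS.jp; rw [e] at this; omega
  have hN1 : (1 : ℝ) ≤ o.N := by
    have := hN.ok.N16
    exact_mod_cast (by omega : 1 ≤ o.N)
  have K := fun (c : ℕ) (n : ℤ) (ω : S.Ω) =>
    h2 (V → ℕ) (MM P.natDegree v (jb v - 1)) (UU q o.R L (chi S v L c - clo S v L c))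
      (KK q o.N) (jb v - 1) (Nat.sqrt S.Y) (phs q P S (chi S v L c) n ω)
      (fun t _ => RS1.UU_pos hq hR1 L _ t) hX1
  have hk0 : ∀ (c : ℕ) (n : ℤ) (ω : S.Ω) (a : ℕ), 0 ≤ kch q P o S v (jb v - 1) L c n ω a :=
    fun c n ω a => ((K c n ω).2.2.1 a).1
  have hk1 : ∀ (c : ℕ) (n : ℤ) (ω : S.Ω) (a : ℕ), kch q P o S v (jb v - 1) L c n ω a ≤ o.N := by
    intro c n ω a
    have a1 : kch q P o S v (jb v - 1) L c n ω a ≤ 1 / zch q P o S v (jb v - 1) L c n ω :=
      ((K c n ω).2.2.1 a).2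
    have a2 := H o C S L m (hN.mono (by omega)) c n ω
    have a3 : (q ^ L) ^ C1 ≤ o.N := ((hN.pow_le (by omega)).trans hS.Yle).trans hN.ok.pow_j
    have a4 : ((q : ℝ) ^ L) ^ C1 ≤ o.N := by exact_mod_cast a3
    have a5 : (0 : ℝ) < ((q : ℝ) ^ L) ^ C1 := by
      have : (0 : ℝ) < q := by exact_mod_cast (by omega : 0 < q)
      positivity
    refine a1.trans (le_trans ?_ a4)
    have a6 := one_div_le_one_div_of_le (one_div_pos.2 a5) a2
    rwa [one_div_one_div] at a6
  have hreg := hS.reg v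
  refine ⟨?_, ?_, ?_, ?_, ?_, ?_, ?_, ?_, ?_, ?_, ?_, ?_, ?_, ?_, ?_⟩
  · show 2 ≤ q ^ L
    omega
  · exact hY.trans hS.Yle
  · show Function.update jb v 0 z = 0
    rw [Function.update_of_ne hzv]; exact hS.jz
  · show Function.update jb v 0 b = 0
    rw [Function.update_of_ne hbv]; exact hS.jb0
  · show Function.update jb v 0 p = 0
    rw [Function.update_of_ne hpv]; exact hS.jp
  · exact fun e => hS.pz (Sum.inl_injective e)
  · exact fun ω => hS.gz ω.1
  · exact fun ω => hS.gb ω.1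
  · intro ω w hw
    rcases w with w | c
    · exact hS.dvd ω.1 w fun e => hw (congrArg Sum.inl e)
    · exact (hS.dvd ω.1 v hzv.symm).mul_right _
  · intro ω w
    rcases w with w | c
    · exact (Nat.mul_le_mul_left _ hY).trans (hS.size ω.1 w)
    · show S.gen ω.1 v * ((ω.2 c : ℕ) + 1) * q ^ L ≤ _
      refine le_trans ?_ (hS.size ω.1 v)
      rw [mul_assoc]
      exact Nat.mul_le_mul_left _ ((Nat.mul_le_mul_right _ (ω.2 c).2).trans hXY)
  · exact (hm S.Ω (Fin m) o.N (Nat.sqrt S.Y) S.D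
      (fun c n ω a => kch q P o S v (jb v - 1) L c n ω ((a : ℕ) + 1)) hS.dens
      (fun c n ω a => hk0 c n ω _) (fun c n ω => (K c n ω).2.1)).1
  · intro n ω
    show S.D n ω.1 * ∏ c : Fin m, kch q P o S v (jb v - 1) L c n ω.1 ((ω.2 c : ℕ) + 1) ≤ _
    have a1 : ∏ c : Fin m, kch q P o S v (jb v - 1) L c n ω.1 ((ω.2 c : ℕ) + 1) ≤
        (o.N : ℝ) ^ m := by
      have a2 : ∏ c : Fin m, kch q P o S v (jb v - 1) L c n ω.1 ((ω.2 c : ℕ) + 1) ≤
          ∏ _c : Fin m, (o.N : ℝ) :=
        prod_le_prod (fun c _ => hk0 c n ω.1 _) (fun c _ => hk1 c n ω.1 _)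
      rwa [prod_const, card_univ, Fintype.card_fin] at a2
    refine (mul_le_mul (hS.sup n ω.1) a1 (prod_nonneg fun (c : Fin m) _ => hk0 c n ω.1 _)
      (by positivity)).trans ?_
    rw [← pow_add]
    exact pow_le_pow_right₀ hN1 (by omega)
  · intro w
    rcases w with w | c
    · show b0 q o.N ≤ S.lo w ∧ S.lo w ≤ Function.update S.hi v (S.lo v) w ∧
        Function.update S.hi v (S.lo v) w ≤ _
      rcases eq_or_ne w v with rfl | hw
      · rw [Function.update_self]; exact ⟨hreg.1, le_rfl, hreg.2.1.trans hreg.2.2⟩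
      · rw [Function.update_of_ne hw]; exact hS.reg w
    · show b0 q o.N ≤ clo S v L c ∧ clo S v L c ≤ chi S v L c ∧ chi S v L c ≤ _
      unfold clo chi
      refine ⟨le_min (hreg.1.trans (Nat.le_add_right _ _)) (hreg.1.trans hreg.2.1),
        min_le_min (Nat.add_le_add_left (Nat.mul_le_mul_right _ (Nat.le_succ _)) _) le_rfl,
        (min_le_right _ _).trans hreg.2.2⟩
  · intro w hw
    rcases w with w | c
    · show S.lo w = Function.update S.hi v (S.lo v) w
      rcases eq_or_ne w v with rfl | hwv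
      · rw [Function.update_self]
      · rw [Function.update_of_ne hwv]
        refine hS.dead w ?_
        have e : Function.update jb v 0 w = 0 := hw
        rwa [Function.update_of_ne hwv] at e
    · have e : jb v - 1 = 0 := hw
      omega
  · intro x
    rw [Fintype.sum_sum_type, ← hS.cover x]
    exact RS1.cover hq S v L m hreg.2.1 (hreg.2.2.trans hN.hm) x

end Pool.Agent.MP_b1aeef_nt.H64
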