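import Pool.Agent.MP_b1aeef_nt.H64.Spec

/-! Row S3: pointwise invariance of the refined density. -/

open Finset Polynomial Filter Topology
open scoped BigOperators

namespace Pool.Agent.MP_b1aeef_nt.H64

namespace RS3

lemma mul_est {x x' y y' τ σ b c Mx My : ℝ} (h1 : |x' - x| ≤ τ * x + b)
    (h2 : |y' - y| ≤ σ * y + c) (hx : 0 ≤ x) (hxM : x ≤ Mx) (hy : 0 ≤ y) (hy' : 0 ≤ y')
    (hyM : y' ≤ My) (hτ0 : 0 ≤ τ) (hτ : τ ≤ 1) (hσ : 0 ≤ σ) (hb : 0 ≤ b) (hc : 0 ≤ c) :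
    |x' * y' - x * y| ≤ (τ + 2 * σ) * (x * y) + b * My + 2 * c * Mx := by
  have h3 : |x' * y' - x * y| ≤ (τ * x + b) * y' + x * (σ * y + c) := by
    rw [show x' * y' - x * y = (x' - x) * y' + x * (y' - y) by ring]
    refine (abs_add_le _ _).trans (add_le_add ?_ ?_)
    · rw [abs_mul, abs_of_nonneg hy']
      exact mul_le_mul_of_nonneg_right h1 hy'
    · rw [abs_mul, abs_of_nonneg hx]
      exact mul_le_mul_of_nonneg_left h2 hx
  have h4 : τ * x * y' ≤ τ * x * (y + σ * y + c) :=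
    mul_le_mul_of_nonneg_left (by linarith [(abs_le.1 h2).2]) (mul_nonneg hτ0 hx)
  have h5 : τ * (x * (σ * y + c)) ≤ 1 * (x * (σ * y + c)) :=
    mul_le_mul_of_nonneg_right hτ (by positivity)
  have h6 : b * y' ≤ b * My := mul_le_mul_of_nonneg_left hyM hb
  have h7 : c * x ≤ c * Mx := mul_le_mul_of_nonneg_left hxM hc
  nlinarith

lemma prod_bd {ι : Type} (s : Finset ι) {k : ι → ℝ} {N : ℝ} (hk : ∀ i, 0 ≤ k i ∧ k i ≤ N) :
    0 ≤ ∏ i ∈ s, k i ∧ ∏ i ∈ s, k i ≤ N ^ s.card :=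
  ⟨prod_nonneg fun i _ => (hk i).1, by
    rw [← prod_const]
    exact prod_le_prod (fun i _ => (hk i).1) fun i _ => (hk i).2⟩

lemma comb {ι : Type} (s : Finset ι) {k k' : ι → ℝ} {x x' τ σ N β : ℝ} {C : ℕ} (hN : 1 ≤ N)
    (hβ : 0 ≤ β) (hσ : 0 ≤ σ) (hτ : 0 ≤ τ) (hx0 : 0 ≤ x) (hx : x ≤ N ^ C)
    (h : |x' - x| ≤ τ * x + N ^ C * β) (hk : ∀ i, 0 ≤ k i ∧ k i ≤ N)
    (hk' : ∀ i, 0 ≤ k' i ∧ k' i ≤ N) (hd : ∀ i, |k' i - k i| ≤ σ * k i + 5 * N ^ 2 * β)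
    (hs : τ + 2 * s.card * σ ≤ 1) :
    |x' * ∏ i ∈ s, k' i - x * ∏ i ∈ s, k i| ≤ (τ + 2 * s.card * σ) * (x * ∏ i ∈ s, k i) +
      N ^ (C + s.card + 1) * β * (1 + 10 * s.card) := by
  classical
  have hN0 : 0 ≤ N := by linarith
  induction s using Finset.induction_on with
  | empty =>
    have : N ^ C * β ≤ N ^ (C + 1) * β :=
      mul_le_mul_of_nonneg_right (pow_le_pow_right₀ hN (by omega)) hβ
    simp only [prod_empty, card_empty, Nat.cast_zero, mul_one, mul_zero, zero_mul, add_zero]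
    linarith
  | insert i s hi ih =>
    rw [card_insert_of_notMem hi] at hs ⊢
    push_cast at hs ⊢
    have h1 : τ + 2 * s.card * σ ≤ 1 := by linarith
    obtain ⟨h2, h3⟩ := prod_bd s hk
    have h4 : x * ∏ i ∈ s, k i ≤ N ^ (C + s.card) := by
      rw [pow_add]
      exact mul_le_mul hx h3 h2 (by positivity)
    have h5 := mul_est (ih h1) (hd i) (mul_nonneg hx0 h2) h4 (hk i).1 (hk' i).1 (hk' i).2
      (by positivity) h1 hσ (by positivity) (by positivity)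
    rw [prod_insert hi, prod_insert hi, mul_comm (k' i), mul_comm (k i), ← mul_assoc, ← mul_assoc]
    refine h5.trans (le_of_eq ?_)
    ring

lemma fin {m C : ℕ} {k k' : Fin m → ℝ} {x x' Y Y' N β : ℝ} (hN : 16 ≤ N) (hβ : 0 ≤ β)
    (hY' : 2 ≤ Y') (hY : Y' ^ 2 ≤ Y) (hm : m + 1 ≤ Y') (hYN : Y ≤ N) (hx0 : 0 ≤ x) (hx0' : 0 ≤ x')
    (hx : x ≤ N ^ C) (h : |x' - x| ≤ x / Y + N ^ C * β) (hk : ∀ i, 0 ≤ k i ∧ k i ≤ N)
    (hk' : ∀ i, 0 ≤ k' i ∧ k' i ≤ N)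
    (hd : x ≤ N ^ C * β ∨ ∀ i, |k' i - k i| ≤ k i / (8 * Y' ^ 2) + 5 * N ^ 2 * β) :
    |x' * ∏ i, k' i - x * ∏ i, k i| ≤ (x * ∏ i, k i) / Y' + N ^ (C + m + 3) * β := by
  have hN0 : 0 ≤ N := by linarith
  have hY0 : 0 < Y' := by linarith
  have hY2 : 2 * Y' ≤ Y := by nlinarith
  have hm0 : (0 : ℝ) ≤ m := Nat.cast_nonneg m
  obtain ⟨p1, p2⟩ := prod_bd univ hk
  obtain ⟨p3, p4⟩ := prod_bd univ hk'
  rw [card_univ, Fintype.card_fin] at p2 p4
  rcases hd with hd | hd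
  · have h1 : x / Y ≤ x := div_le_self hx0 (by linarith)
    have h2 : x' ≤ 3 * (N ^ C * β) := by linarith [(abs_le.1 h).2]
    have h3 : x' * ∏ i, k' i ≤ 3 * (N ^ C * β) * N ^ m := mul_le_mul h2 p4 p3 (by positivity)
    have h4 : x * ∏ i, k i ≤ N ^ C * β * N ^ m := mul_le_mul hd p2 p1 (by positivity)
    have h5 : 3 * (N ^ C * β * N ^ m) ≤ N ^ 3 * (N ^ C * β * N ^ m) :=
      mul_le_mul_of_nonneg_right (le_trans (by norm_num) (pow_le_pow_left₀ (by norm_num) hN 3))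
        (by positivity)
    have h6 : N ^ (C + m + 3) * β = N ^ 3 * (N ^ C * β * N ^ m) := by ring
    have h7 : 0 ≤ (x * ∏ i, k i) / Y' := by positivity
    have h8 := mul_nonneg hx0 p1
    have h9 := mul_nonneg hx0' p3
    have h10 : 0 ≤ N ^ C * β * N ^ m := by positivity
    rw [abs_le]
    constructor <;> linarith
  · have h1 : Y⁻¹ + 2 * m * (8 * Y' ^ 2)⁻¹ ≤ Y'⁻¹ := by
      have a1 : Y⁻¹ ≤ (2 * Y')⁻¹ := inv_anti₀ (by linarith) hY2
      have a2 : 2 * m * (8 * Y' ^ 2)⁻¹ ≤ 2 * Y' * (8 * Y' ^ 2)⁻¹ :=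
        mul_le_mul_of_nonneg_right (by linarith) (by positivity)
      have a3 : (2 * Y')⁻¹ + 2 * Y' * (8 * Y' ^ 2)⁻¹ = 3 / 4 * Y'⁻¹ := by
        field_simp
        norm_num
      have a4 : 0 < Y'⁻¹ := by positivity
      linarith
    have h2 : Y'⁻¹ ≤ 1 := inv_le_one_of_one_le₀ (by linarith)
    have h3 := comb (τ := Y⁻¹) (σ := (8 * Y' ^ 2)⁻¹) univ (by linarith) hβ (by positivity)
      (inv_nonneg.2 (by linarith)) hx0 hx (by rwa [← div_eq_inv_mul]) hk hk'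
      (fun i => by rw [← div_eq_inv_mul]; exact hd i)
      (by rw [card_univ, Fintype.card_fin]; linarith)
    rw [card_univ, Fintype.card_fin] at h3
    refine h3.trans (add_le_add ?_ ?_)
    · rw [div_eq_inv_mul]
      exact mul_le_mul_of_nonneg_right h1 (mul_nonneg hx0 p1)
    · rw [show N ^ (C + m + 3) * β = N ^ (C + m + 1) * β * N ^ 2 by ring]
      exact mul_le_mul_of_nonneg_left (by nlinarith) (by positivity)

end RS3

open RS3 in
theorem s3 (ha : S3aStmt) (hb : S3bStmt) (h2 : K2Stmt) (hz : ZCHStmt) : S3Stmt := by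
  intro V _ _ q P jb z b p v hv
  obtain ⟨Ea, ha⟩ := ha V q P jb z b p v hv
  obtain ⟨Eb, hb⟩ := hb V q P jb z b p v hv
  obtain ⟨C1, Ez, hz⟩ := hz V q P v (jb v - 1) (by omega)
  refine ⟨Ea + Eb + Ez + C1 + 2, fun o C S L m h0 hI hG hN => ?_⟩
  have ha := ha o C S L m h0 (hN.mono (by omega))
  have hb := hb o C S L m h0 (hN.mono (by omega))
  have hz := hz o C S L m (hN.mono (by omega))
  have hq := hN.ok.hq
  have hR := hN.ok.R16
  have hYN : S.Y ≤ o.N := h0.Yle.trans hN.ok.pow_j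
  have hX : 1 ≤ Nat.sqrt S.Y := Nat.le_sqrt.2 (by have := h0.Y2; omega)
  have hXY : Nat.sqrt S.Y * q ^ L ≤ S.Y := by
    simpa using hN.sqrt_mul_le (e := 1) (by omega)
  have hY1 : q ^ L ≤ Nat.sqrt S.Y * q ^ L := Nat.le_mul_of_pos_left _ hX
  have hk : ∀ c n ω a, 0 ≤ kch q P o S v (jb v - 1) L c n ω a ∧
      kch q P o S v (jb v - 1) L c n ω a ≤ o.N := fun c n ω a => by
    obtain ⟨h3, h4⟩ := (h2 _ (MM P.natDegree v (jb v - 1))
      (UU q o.R L (chi S v L c - clo S v L c)) (KK q o.N) (jb v - 1) (Nat.sqrt S.Y)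
      (phs q P S (chi S v L c) n ω) (fun t _ => by
        unfold UU
        refine Nat.one_le_iff_ne_zero.2 ?_
        split_ifs <;> positivity) hX).2.2.1 a
    refine ⟨h3, h4.trans ((one_div_le_one_div_of_le (by positivity) (hz c n ω)).trans ?_)⟩
    rw [one_div_one_div]
    exact_mod_cast (hN.pow_le (e := C1) (by omega)).trans hYN
  have key : ∀ (n : ℤ) (ω : S.Ω × (Fin m → Fin (Nat.sqrt S.Y))) (w : V) (y : ℤ), |y| ≤ S.Y →
      (S.D n ω.1 ≤ (o.N : ℝ) ^ C * bet q o.N ∨ ∀ c a : ℕ, 1 ≤ a → a ≤ Nat.sqrt S.Y →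
        |kch q P o S v (jb v - 1) L c (n + S.gen ω.1 w * y) ω.1 a -
          kch q P o S v (jb v - 1) L c n ω.1 a| ≤
        kch q P o S v (jb v - 1) L c n ω.1 a / (8 * ((q : ℝ) ^ L) ^ 2) +
          5 * (o.N : ℝ) ^ 2 * bet q o.N) →
      |(refine q P o S v (jb v - 1) m L).D (n + S.gen ω.1 w * y) ω -
        (refine q P o S v (jb v - 1) m L).D n ω| ≤
      (refine q P o S v (jb v - 1) m L).D n ω / (q ^ L : ℕ) +
        (o.N : ℝ) ^ (C + m + 3) * bet q o.N := fun n ω w y hy hd => by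
    rw [Nat.cast_pow]
    exact fin (by exact_mod_cast hN.ok.N16) (bet_pos _ _).le
      (by exact_mod_cast le_trans (by norm_num) hN.big)
      (by exact_mod_cast hN.pow_le (e := 2) (by omega)) (by exact_mod_cast hN.m_le)
      (by exact_mod_cast hYN) (h0.dens.nonneg _ _) (h0.dens.nonneg _ _) (h0.sup _ _)
      (hI n ω.1 w y hy) (fun c => hk _ _ _ _) (fun c => hk _ _ _ _)
      (hd.imp_right fun h c => h c _ (by omega) (ω.2 c).2)
  intro n ω w y hy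
  change |y| ≤ ((q ^ L : ℕ) : ℤ) at hy
  have hc : ∀ {a b : ℕ}, a ≤ b → (a : ℤ) ≤ b := fun h => Int.ofNat_le.2 h
  have hv' : ∀ y : ℤ, |y| ≤ (Nat.sqrt S.Y * q ^ L : ℕ) → _ := fun y hy =>
    key n ω v y (hy.trans (hc hXY)) ((hG n ω.1).symm.imp_right fun h => hb n ω.1 y h hy)
  rcases w with w | c
  · by_cases hw : w = v
    · subst hw
      exact hv' y (hy.trans (hc hY1))
    · exact key n ω w y (hy.trans (hc (hY1.trans hXY))) (Or.inr (ha n ω.1 w y hw hy))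
  · have h3 := hv' ((((ω.2 c : ℕ) + 1 : ℕ) : ℤ) * y) (by
      rw [abs_mul, Nat.abs_cast, Nat.cast_mul]
      exact mul_le_mul (hc (ω.2 c).2) hy (abs_nonneg _) (Nat.cast_nonneg _))
    rw [← mul_assoc, ← Nat.cast_mul] at h3
    exact h3

end Pool.Agent.MP_b1aeef_nt.H64
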