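import Pool.Agent.MP_b1aeef_nt.H64.Spec

/-! The kernels of the children are stable under shifts along the other nodes. -/

open Finset Polynomial Filter Topology
open scoped BigOperators

namespace Pool.Agent.MP_b1aeef_nt.H64

namespace RS3a

variable {V : Type} [Fintype V] [DecidableEq V]

theorem sum_single (μ : V → ℕ) (w : V) (i : ℕ) :
    ∑ u, (μ + Pi.single w i : V → ℕ) u = ∑ u, μ u + i := by
  simp [sum_add_distrib]

theorem mon_shift (P : ℤ[X]) (A : V → ℕ) (n y : ℤ) (w : V) (μ : V → ℕ) :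
    mon P A (n + A w * y) μ - mon P A n μ = ∑ i ∈ range P.natDegree,
      (((∑ u, μ u + (i + 1)).choose (∑ u, μ u) : ℤ) * y ^ (i + 1)) *
        mon P A n (μ + Pi.single w (i + 1)) := by
  have h : ∀ i : ℕ, ∏ u, (A u : ℤ) ^ (μ + Pi.single w i : V → ℕ) u =
      (∏ u, (A u : ℤ) ^ μ u) * (A w : ℤ) ^ i := fun i => by
    simp only [Pi.add_apply, pow_add, prod_mul_distrib]
    rw [prod_eq_single w (f := fun u => (A u : ℤ) ^ (Pi.single w i : V → ℕ) u)] <;>
      simp +contextual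
  unfold mon
  rw [hasse_shift, sum_range_succ', add_mul, sum_mul]
  simp only [add_zero, Nat.choose_self, Nat.cast_one, one_mul, pow_zero, mul_one,
    add_sub_cancel_right]
  refine sum_congr rfl fun i _ => ?_
  rw [sum_single, h, mul_pow]
  ring

omit [DecidableEq V] in
theorem uu_pos {q R : ℕ} (hq : 1 ≤ q) (hR : 1 ≤ R) (L len : ℕ) (μ : V → ℕ) :
    1 ≤ UU q R L len μ := by
  unfold UU
  split_ifs <;> exact Nat.succ_le_of_lt (by positivity)

theorem uu_le {q R L : ℕ} (hq : 1 ≤ q) (hR : R ^ 2 ≤ q ^ L) (len : ℕ) {μ : V → ℕ}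
    (hμ : 1 ≤ ∑ u, μ u) (w : V) (i : ℕ) :
    UU q R L len μ * (q ^ L) ^ (4 * (i + 1)) ≤ UU q R L len (μ + Pi.single w (i + 1)) := by
  unfold UU
  rw [sum_single, if_neg (show ¬ ∑ u, μ u + (i + 1) = 1 by omega), mul_assoc]
  refine Nat.mul_le_mul_left _ ?_
  rw [show q ^ (4 * L * (∑ u, μ u + (i + 1))) =
    q ^ (4 * L * ∑ u, μ u) * (q ^ L) ^ (4 * (i + 1)) by ring]
  refine Nat.mul_le_mul_right _ ?_
  split_ifs with h
  · exact hR.trans (Nat.pow_le_pow_right hq (by rw [h]; omega))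
  · exact le_rfl

theorem key {q R L len k : ℕ} (hq : 1 ≤ q) (hR : R ^ 2 ≤ q ^ L) (hk : 1 ≤ k) (P : ℤ[X])
    (A : V → ℕ) (n : ℤ) {y : ℤ} (hy : |y| ≤ (q ^ L : ℕ)) {v w : V} (hw : w ≠ v) (B x : ℝ)
    (h : ∀ μ ∈ MM P.natDegree v k, UU q R L len μ * nn ((mon P A n μ : ℝ) / B * x) ≤ 1)
    {μ : V → ℕ} (hμ : μ ∈ MM P.natDegree v k) :
    UU q R L len μ * nn (((mon P A (n + A w * y) μ : ℝ) / B - (mon P A n μ : ℝ) / B) * x) ≤
      P.natDegree * (2 ^ P.natDegree / ((q : ℝ) ^ L) ^ 3) := by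
  have hv : μ v = k := (mem_filter.1 hμ).2
  have h1 : 1 ≤ ∑ u, μ u := (hv ▸ hk).trans (single_le_sum (fun _ _ => Nat.zero_le _) (mem_univ v))
  have hY : (1 : ℝ) ≤ (q : ℝ) ^ L := one_le_pow₀ (by exact_mod_cast hq)
  rw [← sub_div, ← Int.cast_sub, mon_shift, Int.cast_sum, sum_div, sum_mul]
  refine (mul_le_mul_of_nonneg_left (nn_sum_le _ _) (Nat.cast_nonneg _)).trans ?_
  rw [mul_sum]
  refine (sum_le_card_nsmul _ _ _ fun i _ => ?_).trans_eq (by rw [card_range, nsmul_eq_mul])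
  rw [Int.cast_mul, mul_div_assoc, mul_assoc]
  by_cases hd : P.natDegree < ∑ u, μ u + (i + 1)
  · rw [mon, sum_single, hasse_eq_zero P hd]
    simp only [eval_zero, zero_mul, Int.cast_zero, zero_div, mul_zero, nn_zero]
    positivity
  have h2 : μ + Pi.single w (i + 1) ∈ MM P.natDegree v k := by
    refine mem_filter.2 ⟨Fintype.mem_piFinset.2 fun u => mem_range.2 ?_, by simp [hw.symm, hv]⟩
    have := single_le_sum (f := (μ + Pi.single w (i + 1) : V → ℕ)) (fun _ _ => Nat.zero_le _)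
      (mem_univ u)
    rw [sum_single] at this
    omega
  have h3 := h _ h2
  set z := nn ((mon P A n (μ + Pi.single w (i + 1)) : ℝ) / B * x) with hz
  have z0 : 0 ≤ z := nn_nonneg _
  have h4 : (UU q R L len μ : ℝ) * ((q : ℝ) ^ L) ^ (4 * (i + 1)) * z ≤ 1 :=
    (mul_le_mul_of_nonneg_right (by exact_mod_cast uu_le hq hR len h1 w i) z0).trans h3
  have h5 : |((((∑ u, μ u + (i + 1)).choose (∑ u, μ u) : ℤ) * y ^ (i + 1) : ℤ) : ℝ)| ≤
      2 ^ P.natDegree * ((q : ℝ) ^ L) ^ (i + 1) := by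
    rw [Int.cast_mul, abs_mul, Int.cast_natCast, Nat.abs_cast, Int.cast_pow, abs_pow]
    refine mul_le_mul ?_ (pow_le_pow_left₀ (abs_nonneg _) (by exact_mod_cast hy) _)
      (by positivity) (by positivity)
    exact_mod_cast (Nat.choose_le_two_pow _ _).trans (Nat.pow_le_pow_right (by omega) (by omega))
  refine (mul_le_mul_of_nonneg_left ((nn_int_mul_le _ _).trans
    (mul_le_mul_of_nonneg_right h5 z0)) (Nat.cast_nonneg _)).trans ?_
  rw [le_div_iff₀ (by positivity)]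
  have h6 : ((q : ℝ) ^ L) ^ (i + 1) * ((q : ℝ) ^ L) ^ 3 ≤ ((q : ℝ) ^ L) ^ (4 * (i + 1)) := by
    rw [← pow_add]
    exact pow_le_pow_right₀ hY (by omega)
  calc _ = 2 ^ P.natDegree * ((UU q R L len μ : ℝ) *
        (((q : ℝ) ^ L) ^ (i + 1) * ((q : ℝ) ^ L) ^ 3) * z) := by ring
    _ ≤ 2 ^ P.natDegree * 1 := mul_le_mul_of_nonneg_left ((mul_le_mul_of_nonneg_right
        (mul_le_mul_of_nonneg_left h6 (Nat.cast_nonneg _)) z0).trans h4) (by positivity)
    _ = _ := mul_one _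

end RS3a

open RS3a in
theorem s3a (h4 : K4Stmt) (hz : ZCHStmt) : S3aStmt := by
  intro V _ _ q P jb z b p v hv
  have hk : 1 ≤ jb v - 1 := by omega
  obtain ⟨C1, E0, hE0⟩ := hz V q P v (jb v - 1) hk
  set c0 : ℕ := 1040 * (MM P.natDegree v (jb v - 1)).card * P.natDegree * 2 ^ P.natDegree with hc0
  refine ⟨E0 + C1 + c0 ^ 2, fun o C S L m hS hN n ω w y hw hy c a ha ha' => ?_⟩
  have hq : 1 ≤ q := by have := hN.ok.hq; omega
  have hY : (16 : ℝ) ≤ (q : ℝ) ^ L := by exact_mod_cast hN.big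
  have hR : o.R ^ 2 ≤ q ^ L := ((Nat.pow_le_pow_right (by have := hN.ok.R16; omega)
    (by omega)).trans hN.ok.hR4).trans hN.s_le
  have hK : (c0 : ℝ) * KK q o.N ≤ (q : ℝ) ^ L := by
    have h1 : (c0 * KK q o.N) ^ 2 ≤ (q ^ L) ^ 2 := by
      rw [mul_pow, pow_two (q ^ L)]
      exact Nat.mul_le_mul (hN.const_sq_le (by omega)) (hN.ok.KK2.trans hN.s_le)
    exact_mod_cast (Nat.pow_le_pow_iff_left two_ne_zero).1 h1
  have hC : ((q : ℝ) ^ L) ^ C1 ≤ o.N := by
    exact_mod_cast ((hN.pow_le (by omega)).trans hS.Yle).trans hN.ok.pow_j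
  have hz' := hE0 o C S L m (hN.mono (by omega)) c
  have fin : ∀ f : (V → ℕ) → ℝ, (∀ μ ∈ MM P.natDegree v (jb v - 1),
      UU q o.R L (chi S v L c - clo S v L c) μ * f μ ≤
        P.natDegree * (2 ^ P.natDegree / ((q : ℝ) ^ L) ^ 3)) →
      ∑ μ ∈ MM P.natDegree v (jb v - 1),
        13 * (KK q o.N : ℝ) * UU q o.R L (chi S v L c - clo S v L c) μ * f μ ≤
          1 / (80 * ((q : ℝ) ^ L) ^ 2) := by
    intro f hf
    refine (sum_le_card_nsmul _ _ (13 * (KK q o.N : ℝ) *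
      (P.natDegree * (2 ^ P.natDegree / ((q : ℝ) ^ L) ^ 3))) fun μ hμ => ?_).trans ?_
    · rw [mul_assoc]
      exact mul_le_mul_of_nonneg_left (hf μ hμ) (by positivity)
    · rw [nsmul_eq_mul]
      calc _ = (c0 : ℝ) * KK q o.N / (80 * ((q : ℝ) ^ L) ^ 3) := by
            rw [hc0]; push_cast; field_simp; ring
        _ ≤ (q : ℝ) ^ L / (80 * ((q : ℝ) ^ L) ^ 3) :=
            div_le_div_of_nonneg_right hK (by positivity)
        _ = _ := by field_simp
  refine (h4 _ _ _ _ _ _ (phs q P S (chi S v L c) n ω)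
    (phs q P S (chi S v L c) (n + S.gen ω w * y) ω) (1 / (80 * ((q : ℝ) ^ L) ^ 2)) _
    (fun μ _ => uu_pos hq (by have := hN.ok.R16; omega) _ _ μ) (ha.trans ha') (by positivity)
    (one_div_le_one_div_of_le (by norm_num) (by nlinarith)) (by positivity) (hz' n ω)
    (hz' _ ω) (fun a _ _ h => ?_) a ha ha').trans (add_le_add (le_of_eq ?_) ?_)
  · rcases h with h | h
    · exact fin _ fun μ hμ => key hq hR hk P _ n hy hw _ _ h hμ
    · refine fin _ fun μ hμ => ?_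
      have h1 := key hq hR hk P (S.gen ω) (n + S.gen ω w * y) (y := -y) (by rwa [abs_neg]) hw _ _
        h hμ
      rwa [mul_neg, add_neg_cancel_right, ← neg_sub, neg_mul, nn_neg] at h1
  · unfold kch
    field_simp
    ring
  · rw [one_div, inv_pow, div_inv_eq_mul, mul_right_comm]
    exact mul_le_mul_of_nonneg_right (mul_le_mul_of_nonneg_left
      (pow_le_pow_left₀ (by positivity) hC 2) (by norm_num)) (bet_pos q o.N).le

end Pool.Agent.MP_b1aeef_nt.H64
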