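import Pool.Agent.MP_b1aeef_nt.H64.Spec

/-! The kernels of the children are stable under shifts along the parent. -/

open Finset Polynomial Filter Topology
open scoped BigOperators

namespace Pool.Agent.MP_b1aeef_nt.H64

namespace RS3b

theorem mon_shift {V : Type} [Fintype V] [DecidableEq V] (P : ℤ[X]) (A : V → ℕ) (n y : ℤ) (v : V)
    (μ : V → ℕ) : mon P A (n + A v * y) μ - mon P A n μ = ∑ i ∈ range P.natDegree,
      ((∑ w, μ w + (i + 1)).choose (∑ w, μ w) : ℤ) * y ^ (i + 1) *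
        mon P A n (μ + Pi.single v (i + 1)) := by
  have h1 : ∀ i : ℕ, mon P A n (μ + Pi.single v i) =
      (hasseDeriv (∑ w, μ w + i) P).eval n * ((∏ w, (A w : ℤ) ^ μ w) * (A v : ℤ) ^ i) := fun i => by
    have e1 : ∑ w, (μ + Pi.single v i : V → ℕ) w = ∑ w, μ w + i := by
      simp [sum_add_distrib]
    have e2 : ∏ w, (A w : ℤ) ^ (Pi.single v i : V → ℕ) w = (A v : ℤ) ^ i := by
      rw [prod_eq_single v]
      · simp
      · intro w _ hw
        simp [Pi.single_eq_of_ne hw]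
      · simp
    rw [mon, e1]
    simp only [Pi.add_apply, pow_add, prod_mul_distrib, e2]
  simp only [h1]
  rw [mon, mon, hasse_shift, sum_range_succ', add_mul, sum_mul]
  simp only [add_zero, Nat.choose_self, Nat.cast_one, one_mul, pow_zero, mul_one,
    add_sub_cancel_right]
  refine sum_congr rfl fun i _ => ?_
  ring

theorem num {X Z Y : ℝ} (e i : ℕ) (hZ : 2 ≤ Z) (hX : 0 ≤ X) (hY : 0 < Y) (h : X * Z ^ 6 ≤ Y) :
    Z ^ (4 * e) * (2 ^ (e + (i + 1)) * (X * Z) ^ (i + 1) * X ^ e) * (1 / Y ^ (e + (i + 1))) ≤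
      2 / Z ^ 5 := by
  have Z0 : 0 < Z := by linarith
  have h5 : 2 ≤ Z ^ 5 := hZ.trans (le_self_pow₀ (by linarith) (by norm_num))
  have h2 : 2 ≤ Z ^ 2 := hZ.trans (le_self_pow₀ (by linarith) (by norm_num))
  have a1 : 2 * X * Z ^ 4 / Y ≤ 1 := by
    rw [div_le_one hY]
    have : 0 ≤ X * Z ^ 4 := by positivity
    nlinarith
  have a2 : 2 * X * Z / Y ≤ 2 / Z ^ 5 := by
    rw [div_le_div_iff₀ hY (by positivity)]
    nlinarith
  have a3 : 2 * X * Z / Y ≤ 1 := a2.trans ((div_le_one (by positivity)).2 h5)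
  have e1 : Z ^ (4 * e) * (2 ^ (e + (i + 1)) * (X * Z) ^ (i + 1) * X ^ e) *
      (1 / Y ^ (e + (i + 1))) =
      (2 * X * Z ^ 4 / Y) ^ e * (2 * X * Z / Y) ^ i * (2 * X * Z / Y) := by
    simp only [div_pow, mul_pow, pow_add, pow_mul]
    field_simp
  rw [e1]
  have b1 : (2 * X * Z ^ 4 / Y) ^ e * (2 * X * Z / Y) ^ i ≤ 1 :=
    mul_le_one₀ (pow_le_one₀ (by positivity) a1) (by positivity) (pow_le_one₀ (by positivity) a3)
  exact (mul_le_of_le_one_left (by positivity) b1).trans a2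

theorem term {V : Type} [Fintype V] [DecidableEq V] {q : ℕ} {P : ℤ[X]} {jb : V → ℕ} {v : V}
    {o : Par} {C L m E : ℕ} {S : Dat V} (hv : 2 ≤ jb v) (hlo : S.lo v ≤ S.hi v)
    (hN : Num q P.natDegree o C S.Y L m E) (hE : 12 ≤ E) {n y : ℤ} {ω : S.Ω}
    (hG : Gu q P o jb S n ω) (hy : |y| ≤ (Nat.sqrt S.Y * q ^ L : ℕ)) (c : ℕ) {a : ℕ}
    (ha : a ≤ Nat.sqrt S.Y) {μ : V → ℕ} (hμ : μ v = jb v - 1) :
    (UU q o.R L (chi S v L c - clo S v L c) μ : ℝ) *
      nn ((phs q P S (chi S v L c) (n + S.gen ω v * y) ω μ - phs q P S (chi S v L c) n ω μ) *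
        (a : ℝ) ^ (jb v - 1)) ≤ P.natDegree * (2 / ((q : ℝ) ^ L) ^ 5) := by
  have hq := hN.ok.hq
  have q0 : (0 : ℝ) < q := by exact_mod_cast (by omega : 0 < q)
  have q1 : (1 : ℝ) ≤ q := by exact_mod_cast (by omega : 1 ≤ q)
  set e := ∑ w, μ w with he
  have ke : jb v - 1 ≤ e := hμ ▸ single_le_sum (f := μ) (fun _ _ => Nat.zero_le _) (mem_univ v)
  have Z2 : (2 : ℝ) ≤ (q : ℝ) ^ L := by exact_mod_cast (by have := hN.big; omega : 2 ≤ q ^ L)
  have X1 : 1 ≤ Nat.sqrt S.Y := by simpa using hN.pow_le_sqrt (e := 0) (by omega)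
  have XY : (Nat.sqrt S.Y : ℝ) * ((q : ℝ) ^ L) ^ 6 ≤ S.Y := by
    exact_mod_cast hN.sqrt_mul_le (e := 6) (by omega)
  have Y0 : (0 : ℝ) < S.Y := lt_of_lt_of_le (by positivity) XY
  have hU : (UU q o.R L (chi S v L c - clo S v L c) μ : ℝ) ≤
      (q : ℝ) ^ (chi S v L c - clo S v L c) * ((q : ℝ) ^ L) ^ (4 * e) := by
    have : UU q o.R L (chi S v L c - clo S v L c) μ ≤
        q ^ (chi S v L c - clo S v L c) * (q ^ L) ^ (4 * e) := by
      refine Nat.mul_le_mul_left _ ?_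
      rw [← he]
      split_ifs with h1
      · rw [h1]
        exact (Nat.pow_le_pow_left (hN.ok.R_le.trans hN.s_le) 2).trans
          (Nat.pow_le_pow_right (by positivity) (by norm_num))
      · rw [← pow_mul]
        exact le_of_eq (by ring)
    exact_mod_cast this
  have hb : chi S v L c ≤ S.hi v := min_le_right _ _
  have hl : chi S v L c - clo S v L c + (S.hi v - chi S v L c) ≤ S.hi v - S.lo v := by
    have h1 : S.lo v ≤ clo S v L c := le_min (Nat.le_add_right _ _) hlo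
    have h2 : clo S v L c ≤ chi S v L c :=
      min_le_min_right _ (Nat.add_le_add_left (Nat.mul_le_mul_right _ (Nat.le_succ c)) _)
    omega
  have hp : (q : ℝ) ^ (chi S v L c - clo S v L c) * (q : ℝ) ^ (S.hi v - chi S v L c) ≤
      (q : ℝ) ^ (S.hi v - S.lo v) := by
    rw [← pow_add]
    exact pow_le_pow_right₀ q1 hl
  have e1 : (phs q P S (chi S v L c) (n + S.gen ω v * y) ω μ - phs q P S (chi S v L c) n ω μ) *
      (a : ℝ) ^ (jb v - 1) = ∑ i ∈ range P.natDegree,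
        ((((e + (i + 1)).choose e : ℤ) * y ^ (i + 1) * (a : ℤ) ^ (jb v - 1) : ℤ) : ℝ) *
          ((mon P (S.gen ω) n (μ + Pi.single v (i + 1)) : ℝ) / (q : ℝ) ^ chi S v L c) := by
    rw [phs, phs, ← sub_div, ← Int.cast_sub, mon_shift, ← he]
    push_cast
    rw [sum_div, sum_mul]
    exact sum_congr rfl fun i _ => by ring
  rw [e1]
  refine (mul_le_mul_of_nonneg_left (nn_sum_le _ _) (Nat.cast_nonneg _)).trans ?_
  rw [mul_sum]
  refine (sum_le_card_nsmul _ _ (2 / ((q : ℝ) ^ L) ^ 5) fun i _ => ?_).trans (by simp)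
  have g1 := hG v (by omega) (μ + Pi.single v (i + 1)) (by simp; omega)
  have e2 : ∑ w, (μ + Pi.single v (i + 1) : V → ℕ) w = e + (i + 1) := by
    simp [sum_add_distrib, he]
  rw [e2, tol, if_neg (by omega)] at g1
  have g2 := nn_div_pow_le hq (mon P (S.gen ω) n (μ + Pi.single v (i + 1)) : ℝ) hb
  have g3 := nn_int_mul_le (((e + (i + 1)).choose e : ℤ) * y ^ (i + 1) * (a : ℤ) ^ (jb v - 1))
    ((mon P (S.gen ω) n (μ + Pi.single v (i + 1)) : ℝ) / (q : ℝ) ^ chi S v L c)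
  have g4 : |((((e + (i + 1)).choose e : ℤ) * y ^ (i + 1) * (a : ℤ) ^ (jb v - 1) : ℤ) : ℝ)| ≤
      2 ^ (e + (i + 1)) * ((Nat.sqrt S.Y : ℝ) * (q : ℝ) ^ L) ^ (i + 1) *
        (Nat.sqrt S.Y : ℝ) ^ e := by
    have c1 : (((e + (i + 1)).choose e : ℕ) : ℝ) ≤ 2 ^ (e + (i + 1)) := by
      exact_mod_cast Nat.choose_le_two_pow _ _
    have c2 : |(y : ℝ)| ≤ (Nat.sqrt S.Y : ℝ) * (q : ℝ) ^ L := by exact_mod_cast hy
    have c3 : (a : ℝ) ^ (jb v - 1) ≤ (Nat.sqrt S.Y : ℝ) ^ e := by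
      exact_mod_cast (Nat.pow_le_pow_left ha _).trans (Nat.pow_le_pow_right X1 ke)
    push_cast
    rw [abs_mul, abs_mul, abs_pow, Nat.abs_cast, abs_of_nonneg (by positivity :
      (0 : ℝ) ≤ (a : ℝ) ^ (jb v - 1))]
    gcongr
  have g5 := (g3.trans (mul_le_mul g4 (g2.trans (mul_le_mul_of_nonneg_left g1 (by positivity)))
    (nn_nonneg _) (by positivity)))
  refine (mul_le_mul hU g5 (nn_nonneg _) (by positivity)).trans
    (le_trans ?_ (num e i Z2 (Nat.cast_nonneg _) Y0 XY))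
  have g6 : (q : ℝ) ^ (chi S v L c - clo S v L c) * (q : ℝ) ^ (S.hi v - chi S v L c) /
      (q : ℝ) ^ (S.hi v - S.lo v) ≤ 1 := (div_le_one (by positivity)).2 hp
  refine le_trans (le_of_eq ?_) (mul_le_of_le_one_right (by positivity) g6)
  ring

end RS3b

theorem s3b (h4 : K4Stmt) (hz : ZCHStmt) : S3bStmt := by
  intro V _ _ q P jb z b p v hv
  obtain ⟨C1, E1, hZ⟩ := hz V q P v (jb v - 1) (by omega)
  refine ⟨E1 + C1 + 12 + 2080 * ((MM P.natDegree v (jb v - 1)).card * P.natDegree), ?_⟩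
  intro o C S L m hS hN n ω y hG hy c a a1 a2
  have hq := hN.ok.hq
  have Z16 : (16 : ℝ) ≤ (q : ℝ) ^ L := by exact_mod_cast hN.big
  have Z0 : (0 : ℝ) < (q : ℝ) ^ L := by linarith
  have X1 : 1 ≤ Nat.sqrt S.Y := by simpa using hN.pow_le_sqrt (e := 0) (by omega)
  have hZ' := hZ o C S L m (hN.mono (by omega)) c
  have hK : (KK q o.N : ℝ) ≤ (q : ℝ) ^ L := by
    exact_mod_cast ((Nat.le_self_pow two_ne_zero _).trans hN.ok.KK2).trans hN.s_le
  have hT : 2080 * (((MM P.natDegree v (jb v - 1)).card : ℝ) * P.natDegree) ≤ (q : ℝ) ^ L := by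
    exact_mod_cast hN.const_le (c := 2080 * ((MM P.natDegree v (jb v - 1)).card * P.natDegree))
      (by omega)
  have hC : ((q : ℝ) ^ L) ^ C1 ≤ o.N := by
    exact_mod_cast ((hN.pow_le (e := C1) (by omega)).trans hS.Yle).trans hN.ok.pow_j
  have key := h4 _ (MM P.natDegree v (jb v - 1)) (UU q o.R L (chi S v L c - clo S v L c))
    (KK q o.N) (jb v - 1) (Nat.sqrt S.Y) (phs q P S (chi S v L c) n ω)
    (phs q P S (chi S v L c) (n + S.gen ω v * y) ω) (1 / (80 * ((q : ℝ) ^ L) ^ 2))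
    (1 / ((q : ℝ) ^ L) ^ C1) (fun t _ => ?_) X1 (by positivity) ?_ (by positivity) (hZ' n ω)
    (hZ' _ ω) (fun a _ ha _ => ?_) a a1 a2
  · refine key.trans (add_le_add (le_of_eq ?_) ?_)
    · rw [kch]
      field_simp
      ring
    · have b0 := (bet_pos q o.N).le
      have e : 5 * (5 / 8 : ℝ) ^ KK q o.N / (1 / ((q : ℝ) ^ L) ^ C1) ^ 2 =
          5 * (((q : ℝ) ^ L) ^ C1) ^ 2 * bet q o.N := by
        rw [bet]
        field_simp
      rw [e]
      gcongr
  · have := hN.ok.R16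
    refine Nat.one_le_iff_ne_zero.2 ?_
    unfold UU
    split_ifs <;> positivity
  · exact one_div_le_one_div_of_le (by norm_num) (by nlinarith)
  · refine (sum_le_card_nsmul _ _ (13 * (q : ℝ) ^ L * (P.natDegree * (2 / ((q : ℝ) ^ L) ^ 5)))
      fun μ hμ => ?_).trans ?_
    · rw [mul_assoc]
      have h1 := RS3b.term hv (hS.reg v).2.1 hN (by omega) hG hy c ha (mem_filter.1 hμ).2
      exact mul_le_mul (by linarith) h1 (mul_nonneg (Nat.cast_nonneg _) (nn_nonneg _))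
        (by positivity)
    · rw [nsmul_eq_mul, le_div_iff₀ (by positivity)]
      have e : ((MM P.natDegree v (jb v - 1)).card : ℝ) *
          (13 * (q : ℝ) ^ L * (P.natDegree * (2 / ((q : ℝ) ^ L) ^ 5))) * (80 * ((q : ℝ) ^ L) ^ 2) =
          2080 * (((MM P.natDegree v (jb v - 1)).card : ℝ) * P.natDegree) / ((q : ℝ) ^ L) ^ 2 := by
        field_simp
        ring
      rw [e, div_le_one (by positivity)]
      nlinarith

end Pool.Agent.MP_b1aeef_nt.H64
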