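import Pool.Agent.MP_b1aeef_nt.H64.Spec

/-! Cancellation of linear phases in the refined state. -/

open Finset Polynomial Filter Topology
open scoped BigOperators

namespace Pool.Agent.MP_b1aeef_nt.H64

namespace RS4

section
variable {Ω : Type} [Fintype Ω] {N : ℕ} {D : ℤ → Ω → ℝ}

theorem er_mono (hD : Dens D) {φ ψ : ℤ → Ω → ℝ} (h : ∀ n ω, φ n ω ≤ ψ n ω) :
    Er N D φ ≤ Er N D ψ :=
  expect_le_expect fun n _ => expect_le_expect fun ω _ =>
    mul_le_mul_of_nonneg_left (h n ω) (hD.nonneg n ω)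

theorem er_const (hD : Dens D) (hN : N ≠ 0) (c : ℝ) : Er N D (fun _ _ => c) = c := by
  simp only [Er, ← expect_mul, hD.avg, expect_const (nonempty_range_iff.2 hN), one_mul]

theorem er_lin (hD : Dens D) (hN : N ≠ 0) (c : ℝ) (s : Finset ℕ) (f : ℕ → ℤ → Ω → ℝ) :
    Er N D (fun n ω => c + ∑ t ∈ s, 2 * f t n ω) = c + ∑ t ∈ s, 2 * Er N D (f t) := by
  have h := er_const hD hN c
  simp only [Er, mul_add, expect_add_distrib, mul_sum, expect_sum_comm, mul_expect,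
    mul_left_comm (2 : ℝ)] at h ⊢
  rw [h]

theorem er_fej (hf : FEJStmt) (hD : Dens D) (hN : N ≠ 0) {U : ℕ} (hU : 1 ≤ U) (θ : Ω → ℝ)
    {δ : ℝ} (hδ : 0 ≤ δ) (h : ∀ u < U, ∀ u' < U, u ≠ u' →
      ‖Ec N D fun _ ω => ee (((u : ℝ) - u') * θ ω)‖ ≤ δ) :
    Er N D (fun _ ω => fej U (θ ω)) ≤ 1 / U + δ := by
  have hne : (range U).Nonempty := nonempty_range_iff.2 (by omega)
  have e1 : ((Er N D (fun _ ω => fej U (θ ω)) : ℝ) : ℂ) =
      𝔼 u ∈ range U, 𝔼 u' ∈ range U, Ec N D fun _ ω => ee (((u : ℝ) - u') * θ ω) := by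
    simp only [Er, Ec, Complex.ofReal_expect, Complex.ofReal_mul, (hf U hU).2.2.2.2.2.2,
      mul_expect]
    simp only [expect_comm (range U) (range N), expect_comm (range U) univ]
  have e2 : ‖Ec N D fun _ _ => (1 : ℂ)‖ = 1 := by
    simp only [Ec, mul_one, ← Complex.ofReal_expect, hD.avg,
      expect_const (nonempty_range_iff.2 hN), Complex.ofReal_one, norm_one]
  refine (le_abs_self _).trans ?_
  rw [← Real.norm_eq_abs, ← Complex.norm_real, e1]
  refine (RCLike.norm_expect_le (K := ℂ)).trans (expect_le hne fun u hu => ?_)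
  refine (RCLike.norm_expect_le (K := ℂ)).trans ?_
  have e3 : 𝔼 u' ∈ range U, ((if u = u' then 1 else 0 : ℝ) + δ) = 1 / U + δ := by
    rw [expect_add_distrib, expect_const hne, expect_eq_sum_div_card, sum_ite_eq, if_pos hu,
      card_range]
  rw [← e3]
  refine expect_le_expect fun u' hu' => ?_
  split_ifs with e
  · simp only [e, sub_self, zero_mul, ee_zero, e2]
    linarith
  · rw [zero_add]
    exact h u (mem_range.1 hu) u' (mem_range.1 hu') e

end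

/-- the pointwise bound -/
theorem point (h5 : K5Stmt) (h2 : K2Stmt) (hf : FEJStmt) {ι : Type} (S : Finset ι) (U' : ι → ℕ)
    (K k X : ℕ) (ξ : ι → ℝ) (θ y : ℝ) (C1 Q U : ℕ) (hU' : ∀ t ∈ S, 1 ≤ U' t) (hX : 1 ≤ X)
    (hy : 0 < y) (hz : 1 / y ^ C1 ≤ Zt S U' K k X ξ) (hU : 1 ≤ U) (hQ : 10 * (U * Q) ≤ X)
    (hw : ∀ Ξ : ℝ, 1 / (2 * y ^ (C1 + 1)) ≤ ‖𝔼 a : Fin X,
      ee (Ξ * (((a : ℕ) + 1 : ℕ) : ℝ) ^ k + θ * (((a : ℕ) + 1 : ℕ) : ℝ))‖ →
      ∃ t : ℕ, 1 ≤ t ∧ t ≤ Q ∧ nn (t * θ) ≤ Q / X) :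
    ‖𝔼 a : Fin X, (ker S U' K k X ξ ((a : ℕ) + 1) : ℂ) * ee (θ * (((a : ℕ) + 1 : ℕ) : ℝ))‖ ≤
      1 / (2 * y) + ∑ t ∈ Icc 1 Q, 2 * fej U (t * θ) := by
  have h0 : ∀ t ∈ Icc 1 Q, 0 ≤ 2 * fej U (t * θ) := fun t _ =>
    mul_nonneg zero_le_two ((hf U hU).1 _).1
  by_cases h : ∀ Ξ : ℝ, ‖𝔼 a : Fin X, ee (Ξ * (((a : ℕ) + 1 : ℕ) : ℝ) ^ k +
      θ * (((a : ℕ) + 1 : ℕ) : ℝ))‖ ≤ 1 / (2 * y ^ (C1 + 1))
  · have h1 := h5 ι S U' K k X ξ θ _ _ hU' hX (by positivity) hz h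
    have e : 1 / (2 * y ^ (C1 + 1)) / (1 / y ^ C1) = 1 / (2 * y) := by
      rw [pow_succ]
      field_simp
    rw [e] at h1
    linarith [sum_nonneg h0]
  · obtain ⟨Ξ, hΞ⟩ := not_forall.1 h
    obtain ⟨t, t1, t2, t3⟩ := hw Ξ (not_le.1 hΞ).le
    have hX' : (0 : ℝ) < X := by exact_mod_cast hX
    have hQ' : (10 : ℝ) * (U * Q) ≤ X := by exact_mod_cast hQ
    have h3 : U * nn (t * θ) ≤ 1 / 10 := by
      refine (mul_le_mul_of_nonneg_left t3 (Nat.cast_nonneg U)).trans ?_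
      rw [← mul_div_assoc, div_le_iff₀ hX']
      linarith
    have h4 := (hf U hU).2.2.2.2.1 _ h3
    have h6 := single_le_sum h0 (mem_Icc.2 ⟨t1, t2⟩)
    obtain ⟨-, k1, k2, -⟩ := h2 ι S U' K k X ξ hU' hX
    have h7 : ‖𝔼 a : Fin X, (ker S U' K k X ξ ((a : ℕ) + 1) : ℂ) *
        ee (θ * (((a : ℕ) + 1 : ℕ) : ℝ))‖ ≤ 1 := by
      refine (RCLike.norm_expect_le (K := ℂ)).trans (le_of_eq ?_)
      rw [← k1]
      exact expect_congr rfl fun a _ => by
        rw [norm_mul, norm_ee, mul_one, Complex.norm_real, Real.norm_of_nonneg (k2 _).1]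
    have h8 : 0 < 1 / (2 * y) := by positivity
    linarith

end RS4

open RS4

theorem s4 (hw : W2Stmt) (h5 : K5Stmt) (h2 : K2Stmt) (hm : MARGStmt) (hf : FEJStmt)
    (hz : ZCHStmt) : S4Stmt := by
  intro V _ _ q P jb z b p v hv
  obtain ⟨C1, E1, hz⟩ := hz V q P v (jb v - 1) (by omega)
  obtain ⟨Cw, hw⟩ := hw (max (jb v - 1) 2) (le_max_right _ _)
  refine ⟨E1 + 2 * (2 * ((C1 + 2) * Cw) + 3), fun o C S L m h0 hA hN => ?_⟩
  generalize he : (C1 + 2) * Cw = e at hN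
  have hy16 := hN.big
  have hX := hN.pow_le_sqrt (e := 2 * e + 3) (by omega)
  have hY := hN.pow_le (e := 2 * e + 3) (by omega)
  have hz' := hz o C S L m (hN.mono (by omega))
  have hq : 0 < q := by have := hN.ok.hq; omega
  have hR := hN.ok.R16
  have hcast : (q : ℝ) ^ L = ((q ^ L : ℕ) : ℝ) := by push_cast; rfl
  rw [hcast] at hz'
  have hX1 : 1 ≤ Nat.sqrt S.Y := le_trans (Nat.one_le_pow _ _ (by omega)) hX
  have hUU : ∀ c, ∀ μ ∈ MM P.natDegree v (jb v - 1),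
      1 ≤ UU q o.R L (chi S v L c - clo S v L c) μ := fun c μ _ => by
    unfold UU
    split_ifs <;> exact Nat.succ_le_of_lt (by positivity)
  obtain ⟨-, m2, m3⟩ := hm S.Ω (Fin m) o.N (Nat.sqrt S.Y) S.D
    (fun c n ω a => kch q P o S v (jb v - 1) L c n ω ((a : ℕ) + 1)) h0.dens
    (fun c n ω a => ((h2 _ _ _ _ _ _ _ (hUU c) hX1).2.2.1 _).1)
    (fun c n ω => (h2 _ _ _ _ _ _ _ (hUU c) hX1).2.1)
  have hb : (0 : ℝ) < (q : ℝ) ^ b0 q o.N := by positivity
  intro w hw' x hx1 hx2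
  change |x| ≤ ((q ^ L : ℕ) : ℝ) / _ at hx2
  change _ ≤ 1 / ((q ^ L : ℕ) : ℝ)
  generalize q ^ L = y at hy16 hX hY hz' hx2 ⊢
  have hy : (16 : ℝ) ≤ y := by exact_mod_cast hy16
  have hy0 : (0 : ℝ) < y := by linarith
  rcases w with w | c
  · have hyY : (y : ℝ) ≤ S.Y := by
      exact_mod_cast le_trans (Nat.le_self_pow (by omega) y) hY
    have hw2 : 2 ≤ jb w ∨ w = p := by
      refine hw'.imp (fun h => ?_) Sum.inl.inj
      have h' : 2 ≤ Function.update jb v 0 w := h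
      by_cases e : w = v
      · rw [e, Function.update_self] at h'
        omega
      · rwa [Function.update_of_ne e] at h'
    refine (le_of_eq (congrArg norm (m2 fun _ ω => ee (x * S.gen ω w)))).trans ?_
    exact (hA w hw2 x hx1 (hx2.trans (by gcongr))).trans (by gcongr)
  · have hk : 2 ≤ jb v - 1 := hw'.resolve_right Sum.inr_ne_inl
    rw [max_eq_left hk] at hw
    have m4 := m3 c (fun _ _ => 0)
      fun c' _ ω a => if c' = c then x * S.gen ω v * (((a : ℕ) + 1 : ℕ) : ℝ) else 0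
    simp only [zero_add, sum_ite_eq', mem_univ, if_true] at m4
    refine le_trans (le_of_eq ?_) (m4.trans ?_)
    · congr 2
      funext n ω
      show ee (x * ((S.gen ω.1 v * ((ω.2 c : ℕ) + 1) : ℕ) : ℝ)) = _
      rw [Nat.cast_mul, mul_assoc]
    have hU : 1 ≤ y ^ (e + 2) := Nat.one_le_pow _ _ (by omega)
    have hB : (2 * (y : ℝ) ^ (C1 + 1)) ^ Cw ≤ ((y ^ e : ℕ) : ℝ) := by
      rw [← he, Nat.cast_pow, pow_mul]
      refine pow_le_pow_left₀ (by positivity) ?_ _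
      rw [pow_succ' _ (C1 + 1)]
      gcongr
      linarith
    have hB2 : 2 ≤ 2 * (y : ℝ) ^ (C1 + 1) := by
      linarith [one_le_pow₀ (n := C1 + 1) (show (1 : ℝ) ≤ y by linarith)]
    have hprod : y ^ (2 * e + 3) = y * (y ^ (e + 2) * y ^ e) := by ring
    refine (er_mono h0.dens fun n ω => point h5 h2 hf _ _ _ _ _ _ (x * S.gen ω v) y C1 (y ^ e)
      (y ^ (e + 2)) (hUU c) hX1 hy0 (hz' c n ω) hU
      (le_trans (Nat.mul_le_mul_right _ (by omega)) (hprod ▸ hX)) fun Ξ hΞ => ?_).trans ?_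
    · obtain ⟨t, t1, t2, t3⟩ := hw _ Ξ _ _ hB2 hX1 hΞ
      exact ⟨t, t1, by exact_mod_cast t2.trans hB, t3.trans (by gcongr)⟩
    rw [er_lin h0.dens hN.ok.N_ne]
    have hYr : (y : ℝ) * ((y : ℝ) ^ (e + 2) * (y : ℝ) ^ e) ≤ S.Y := by
      exact_mod_cast hprod ▸ hY
    have hUY : (y : ℝ) ^ (e + 2) ≤ S.Y := by
      exact_mod_cast le_trans (Nat.pow_le_pow_right (by omega) (by omega)) hY
    have h3 := sum_le_card_nsmul (Icc 1 (y ^ e))
      (fun t : ℕ => 2 * Er o.N S.D fun _ ω => fej (y ^ (e + 2)) (t * (x * S.gen ω v)))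
      (4 / (y : ℝ) ^ (e + 2)) fun t ht => by
        obtain ⟨t1, t2⟩ := mem_Icc.1 ht
        have t1' : (1 : ℝ) ≤ t := by exact_mod_cast t1
        have t2' : (t : ℝ) ≤ (y : ℝ) ^ e := by exact_mod_cast t2
        have h4 := er_fej hf h0.dens hN.ok.N_ne hU (fun ω => t * (x * S.gen ω v))
          (δ := 1 / S.Y) (by positivity) fun u hu u' hu' hne => by
            have a1 : (1 : ℝ) ≤ |(u : ℝ) - u'| := by
              exact_mod_cast Int.one_le_abs (sub_ne_zero.2 (Int.natCast_inj.not.2 hne))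
            have a2 : |(u : ℝ) - u'| ≤ (y : ℝ) ^ (e + 2) := by
              have b1 : (u : ℝ) ≤ (y : ℝ) ^ (e + 2) := by exact_mod_cast hu.le
              have b2 : (u' : ℝ) ≤ (y : ℝ) ^ (e + 2) := by exact_mod_cast hu'.le
              have b3 : (0 : ℝ) ≤ u := Nat.cast_nonneg u
              have b4 : (0 : ℝ) ≤ u' := Nat.cast_nonneg u'
              exact abs_le.2 ⟨by linarith, by linarith⟩
            have a3 : |((u : ℝ) - u') * t * x| = |(u : ℝ) - u'| * t * |x| := by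
              rw [abs_mul, abs_mul, Nat.abs_cast]
            have a4 := hA v (Or.inl hv) (((u : ℝ) - u') * t * x)
              (by
                rw [a3]
                exact hx1.trans (le_mul_of_one_le_left (abs_nonneg _)
                  (one_le_mul_of_one_le_of_one_le a1 t1')))
              (by
                rw [a3]
                calc _ ≤ (y : ℝ) ^ (e + 2) * (y : ℝ) ^ e * (y / (q : ℝ) ^ b0 q o.N) := by gcongr
                  _ = (y : ℝ) * ((y : ℝ) ^ (e + 2) * (y : ℝ) ^ e) / (q : ℝ) ^ b0 q o.N := by ring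
                  _ ≤ _ := by gcongr)
            simpa only [mul_assoc] using a4
        have h6 : 1 / (S.Y : ℝ) ≤ 1 / (y : ℝ) ^ (e + 2) := by gcongr
        have h7 : 4 / (y : ℝ) ^ (e + 2) = 4 * (1 / (y : ℝ) ^ (e + 2)) := by ring
        rw [Nat.cast_pow] at h4
        linarith
    rw [Nat.card_Icc, Nat.add_sub_cancel, nsmul_eq_mul, Nat.cast_pow] at h3
    have h8 : (y : ℝ) ^ e * (4 / (y : ℝ) ^ (e + 2)) ≤ 1 / (2 * y) := by
      rw [← mul_div_assoc, div_le_div_iff₀ (by positivity) (by positivity), pow_add]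
      nlinarith [mul_pos (pow_pos hy0 e) hy0]
    have h9 : 1 / (y : ℝ) = 1 / (2 * y) + 1 / (2 * y) := by
      field_simp
      norm_num
    linarith

end Pool.Agent.MP_b1aeef_nt.H64
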