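import Pool.Agent.MP_b1aeef_nt.H64.Spec

/-! Row S5: the Fourier invariant of the leaves survives a step. -/

open Finset Polynomial Filter Topology
open scoped BigOperators

namespace Pool.Agent.MP_b1aeef_nt.H64

namespace RS5

theorem UU_pos {V : Type} [Fintype V] {q : ℕ} {o : Par} (h : Ok q o) (L len : ℕ) (μ : V → ℕ) :
    1 ≤ UU q o.R L len μ := by
  have h1 : 0 < q := by have := h.hq; omega
  have h2 : 0 < o.R := by have := h.R16; omega
  unfold UU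
  refine Nat.succ_le_of_lt ?_
  split_ifs <;> positivity

theorem eq_single {V : Type} [Fintype V] [DecidableEq V] {v : V} {μ : V → ℕ} (h1 : μ v = 1)
    (h2 : ∑ w, μ w = 1) : μ = Pi.single v 1 := by
  funext w
  by_cases hw : w = v
  · subst hw; simp [h1]
  · have h3 : ∑ x ∈ ({v, w} : Finset V), μ x ≤ ∑ x, μ x :=
      sum_le_sum_of_subset (subset_univ _)
    rw [sum_pair (Ne.symm hw)] at h3
    rw [Pi.single_eq_of_ne hw]; omega

theorem sum_single {V : Type} [Fintype V] [DecidableEq V] (v : V) :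
    ∑ w, (Pi.single v 1 : V → ℕ) w = 1 := by simp

theorem prod_single {V : Type} [Fintype V] [DecidableEq V] (v : V) (A : V → ℕ) :
    ∏ w, (A w : ℤ) ^ (Pi.single v 1 : V → ℕ) w = A v := by
  rw [prod_eq_single v (fun w _ hw => by rw [Pi.single_eq_of_ne hw, pow_zero])
    (fun h => absurd (mem_univ v) h)]
  simp

theorem single_mem {V : Type} [Fintype V] [DecidableEq V] {d : ℕ} (hd : 1 ≤ d) (v : V) :
    (Pi.single v 1 : V → ℕ) ∈ MM d v 1 := by
  unfold MM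
  refine mem_filter.2 ⟨Fintype.mem_piFinset.2 fun w => mem_range.2 ?_, by simp⟩
  by_cases hw : w = v
  · subst hw; simp; omega
  · rw [Pi.single_eq_of_ne hw]; omega

theorem poly_der (P : ℤ[X]) (hd : 1 ≤ P.natDegree) :
    IsPoly (P.natDegree - 1) (P.natDegree.factorial * (P.leadingCoeff : ℝ))
      fun n => ((P.derivative.eval n : ℤ) : ℝ) := by
  refine (isPoly_int (P.natDegree - 1) P.derivative (natDegree_derivative_le P)).congr ?_
    fun _ => rfl
  obtain ⟨e, he⟩ := Nat.exists_eq_add_of_le' hd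
  rw [coeff_derivative, leadingCoeff, he, Nat.add_sub_cancel, Nat.factorial_succ]
  push_cast; ring

theorem poly_mon {V : Type} [Fintype V] [DecidableEq V] (P : ℤ[X]) (hd : 1 ≤ P.natDegree)
    (A : V → ℕ) (v : V) (μ : V → ℕ) (hμ : μ v = 1) :
    IsPoly (P.natDegree - 1)
      (if μ = Pi.single v 1 then P.natDegree.factorial * (P.leadingCoeff : ℝ) * A v else 0)
      fun n => ((mon P A n μ : ℤ) : ℝ) := by
  split_ifs with h
  · subst h
    refine ((poly_der P hd).mul_const (A v : ℝ)).congr rfl fun n => ?_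
    unfold mon
    rw [sum_single, prod_single, hasseDeriv_one]; push_cast; rfl
  · have h1 : μ v ≤ ∑ w, μ w := single_le_sum (f := μ) (fun _ _ => Nat.zero_le _) (mem_univ v)
    have h2 : ∑ w, μ w ≠ 1 := fun h2 => h (eq_single hμ h2)
    have h3 : (hasseDeriv (∑ w, μ w) P).natDegree < P.natDegree - 1 ∨
        hasseDeriv (∑ w, μ w) P = 0 := by
      rcases Nat.lt_or_ge P.natDegree (∑ w, μ w) with h4 | h4
      · exact Or.inr (hasse_eq_zero P h4)
      · exact Or.inl ((natDegree_hasseDeriv_le P _).trans_lt (by omega))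
    have h4 : (hasseDeriv (∑ w, μ w) P).natDegree ≤ P.natDegree - 1 :=
      (natDegree_hasseDeriv_le P _).trans (by omega)
    have h5 : (hasseDeriv (∑ w, μ w) P).coeff (P.natDegree - 1) = 0 := by
      rcases h3 with h3 | h3
      · exact coeff_eq_zero_of_natDegree_lt h3
      · rw [h3, coeff_zero]
    refine ((isPoly_int _ _ h4).mul_const ((∏ w, (A w : ℤ) ^ μ w : ℤ) : ℝ)).congr ?_ fun n => ?_
    · rw [h5]; simp
    · unfold mon; rw [Int.cast_mul]

/-- the frequency of the geometric sum is a polynomial function -/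
theorem poly_theta {V : Type} [Fintype V] [DecidableEq V] (q : ℕ) (P : ℤ[X])
    (hd : 1 ≤ P.natDegree) (S : Dat V) (v : V) (bb : ℕ) (u : (V → ℕ) → ℤ) (t : ℝ) (ω : S.Ω) :
    IsPoly (P.natDegree - 1)
      (P.natDegree.factorial * (P.leadingCoeff : ℝ) *
        ((u (Pi.single v 1) : ℝ) / (q : ℝ) ^ bb + t) * S.gen ω v)
      fun n => ∑ μ ∈ MM P.natDegree v 1, (u μ : ℝ) * phs q P S bb n ω μ +
        t * (P.derivative.eval n : ℤ) * (S.gen ω v : ℝ) := by
  have h1 := IsPoly.sum (MM P.natDegree v 1) fun μ hμ =>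
    (poly_mon P hd (S.gen ω) v μ (mem_filter.1 hμ).2).mul_const ((u μ : ℝ) / (q : ℝ) ^ bb)
  have h2 := (poly_der P hd).mul_const (t * S.gen ω v)
  refine (h1.add h2).congr ?_ fun n => ?_
  · rw [sum_eq_single (Pi.single v 1) (fun μ _ h => by rw [if_neg h, zero_mul])
      (fun h => absurd (single_mem hd v) h), if_pos rfl]
    ring
  · congr 1
    · refine sum_congr rfl fun μ _ => ?_
      unfold phs; ring
    · ring

/-- size of the top coefficient -/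
theorem gam_bounds {q d C Y L m E : ℕ} {o : Par} (h : Num q d o C Y L m E) {f : ℕ} {a : ℤ}
    (hf : 1 ≤ f) (ha : a ≠ 0) (hE : 2 * q ^ 2 * (f * a.natAbs) ≤ E) {lo hi : ℕ}
    (h1 : b0 q o.N ≤ lo) (h2 : lo ≤ hi) {u1 uc : ℤ}
    (hu1 : |u1| ≤ (KK q o.N * (q ^ (hi - lo) * o.R ^ 2) : ℕ)) (hc : uc ≠ 0)
    (huc : |uc| ≤ UF q o) :
    1 / (2 * (q : ℝ) ^ b0 q o.N) ≤ |(f : ℝ) * (a : ℝ) * ((u1 : ℝ) / (q : ℝ) ^ hi +
      (uc : ℝ) * (q : ℝ) ^ gg q o / (q : ℝ) ^ b0 q o.N)| ∧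
    |(f : ℝ) * (a : ℝ) * ((u1 : ℝ) / (q : ℝ) ^ hi +
      (uc : ℝ) * (q : ℝ) ^ gg q o / (q : ℝ) ^ b0 q o.N)| ≤
        ((q : ℝ) ^ L) ^ 3 / (q : ℝ) ^ b0 q o.N := by
  have hq : (2 : ℝ) ≤ q := by exact_mod_cast h.ok.hq
  have hq0 : (0 : ℝ) < q := by linarith
  have hB : (0 : ℝ) < (q : ℝ) ^ b0 q o.N := by positivity
  have hG : (1 : ℝ) ≤ (q : ℝ) ^ gg q o := one_le_pow₀ (by linarith)
  have e1 : |(u1 : ℝ) / (q : ℝ) ^ hi| ≤ (q : ℝ) ^ gg q o / 2 / (q : ℝ) ^ b0 q o.N := by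
    have g1 : |(u1 : ℝ)| ≤ (KK q o.N : ℝ) * ((q : ℝ) ^ (hi - lo) * (o.R : ℝ) ^ 2) := by
      exact_mod_cast hu1
    have g2 : 2 * ((KK q o.N : ℝ) * (o.R : ℝ) ^ 2) ≤ (q : ℝ) ^ gg q o := by
      exact_mod_cast h.ok.le_gg
    have g3 : (q : ℝ) ^ (hi - lo) * (q : ℝ) ^ b0 q o.N ≤ (q : ℝ) ^ hi := by
      rw [← pow_add]; exact pow_le_pow_right₀ (by linarith) (by omega)
    have g4 : (0 : ℝ) < (q : ℝ) ^ (hi - lo) := by positivity
    rw [abs_div, abs_of_pos (by positivity : (0 : ℝ) < (q : ℝ) ^ hi),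
      div_le_div_iff₀ (by positivity) hB]
    calc |(u1 : ℝ)| * (q : ℝ) ^ b0 q o.N
        ≤ (KK q o.N : ℝ) * ((q : ℝ) ^ (hi - lo) * (o.R : ℝ) ^ 2) * (q : ℝ) ^ b0 q o.N := by
          gcongr
      _ = ((KK q o.N : ℝ) * (o.R : ℝ) ^ 2) * ((q : ℝ) ^ (hi - lo) * (q : ℝ) ^ b0 q o.N) := by
          ring
      _ ≤ (q : ℝ) ^ gg q o / 2 * (q : ℝ) ^ hi := by
          gcongr; linarith
  have c1 : (1 : ℝ) ≤ |(uc : ℝ)| := by exact_mod_cast Int.one_le_abs hc
  have c2 : |(uc : ℝ)| ≤ (UF q o : ℝ) := by exact_mod_cast huc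
  have e2 : |(uc : ℝ) * (q : ℝ) ^ gg q o / (q : ℝ) ^ b0 q o.N| =
      |(uc : ℝ)| * ((q : ℝ) ^ gg q o / (q : ℝ) ^ b0 q o.N) := by
    rw [mul_div_assoc, abs_mul, abs_of_pos (by positivity :
      (0 : ℝ) < (q : ℝ) ^ gg q o / (q : ℝ) ^ b0 q o.N)]
  have a1 : (1 : ℝ) ≤ |(f : ℝ) * (a : ℝ)| := by
    have : (1 : ℤ) ≤ |(f : ℤ) * a| := Int.one_le_abs (mul_ne_zero (by omega) ha)
    exact_mod_cast this
  have a2 : 2 * (q : ℝ) ^ 2 * |(f : ℝ) * (a : ℝ)| ≤ (q : ℝ) ^ L := by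
    have := h.const_le hE
    have g : ((2 * q ^ 2 * (f * a.natAbs) : ℕ) : ℝ) ≤ ((q ^ L : ℕ) : ℝ) := by exact_mod_cast this
    rw [abs_mul, Nat.abs_cast]
    push_cast at g
    rw [Nat.cast_natAbs, Int.cast_abs] at g
    exact g
  set x := (u1 : ℝ) / (q : ℝ) ^ hi
  set y := (uc : ℝ) * (q : ℝ) ^ gg q o / (q : ℝ) ^ b0 q o.N
  set G := (q : ℝ) ^ gg q o / (q : ℝ) ^ b0 q o.N with hGdef
  have hG0 : 1 / (q : ℝ) ^ b0 q o.N ≤ G := by rw [hGdef]; gcongr
  have hGp : 0 < G := by positivity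
  have e1' : |x| ≤ G / 2 := by rw [hGdef, div_right_comm]; exact e1
  have y1 : G ≤ |y| := by rw [e2]; nlinarith
  have y2 : |y| ≤ (UF q o : ℝ) * G := by rw [e2]; gcongr
  have s1 : G / 2 ≤ |x + y| := by
    have := abs_sub_abs_le_abs_sub y (-x)
    rw [abs_neg, sub_neg_eq_add, add_comm] at this
    linarith
  have s2 : |x + y| ≤ 2 * (UF q o : ℝ) * G := by
    have := abs_add_le x y
    nlinarith
  rw [abs_mul]
  constructor
  · have : 1 / (2 * (q : ℝ) ^ b0 q o.N) = 1 / (q : ℝ) ^ b0 q o.N / 2 := by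
      rw [div_div, mul_comm]
    rw [this]; nlinarith
  · have n1 : UF q o * q ^ gg q o ≤ q ^ 2 * q ^ L := by
      have k1 := h.ok.gg_le
      have k2 := h.ok.KR
      have k3 := h.ok.R_le
      have k4 := h.s3_le
      unfold UF
      calc q ^ o.s * o.R * q ^ gg q o ≤ q ^ o.s * q ^ o.s * (q ^ 2 * q ^ o.s) :=
            Nat.mul_le_mul (Nat.mul_le_mul_left _ k3) (k1.trans (Nat.mul_le_mul_left _ k2))
        _ = q ^ 2 * q ^ (3 * o.s) := by ring
        _ ≤ _ := Nat.mul_le_mul_left _ k4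
    have n2 : (UF q o : ℝ) * (q : ℝ) ^ gg q o ≤ (q : ℝ) ^ 2 * (q : ℝ) ^ L := by exact_mod_cast n1
    have n3 : (1 : ℝ) ≤ (q : ℝ) ^ L := one_le_pow₀ (by linarith)
    calc |(f : ℝ) * (a : ℝ)| * |x + y| ≤ |(f : ℝ) * (a : ℝ)| * (2 * (UF q o : ℝ) * G) := by gcongr
      _ = 2 * |(f : ℝ) * (a : ℝ)| * ((UF q o : ℝ) * (q : ℝ) ^ gg q o) / (q : ℝ) ^ b0 q o.N := by
          rw [hGdef]; ring
      _ ≤ 2 * |(f : ℝ) * (a : ℝ)| * ((q : ℝ) ^ 2 * (q : ℝ) ^ L) / (q : ℝ) ^ b0 q o.N := by gcongr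
      _ = 2 * (q : ℝ) ^ 2 * |(f : ℝ) * (a : ℝ)| * (q : ℝ) ^ L / (q : ℝ) ^ b0 q o.N := by ring
      _ ≤ (q : ℝ) ^ L * (q : ℝ) ^ L / (q : ℝ) ^ b0 q o.N := by gcongr
      _ ≤ _ := by
          gcongr
          nlinarith [mul_nonneg (mul_nonneg (zero_le_one.trans n3) (zero_le_one.trans n3))
            (sub_nonneg.2 n3)]

theorem wsum_split {V : Type} [Fintype V] [DecidableEq V] (q : ℕ) (P : ℤ[X]) (o : Par) (S : Dat V)
    (v : V) (k m L : ℕ) (u : V ⊕ Fin m → ℤ) (n : ℤ) (ω : (refine q P o S v k m L).Ω) :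
    wsum q P o u ((refine q P o S v k m L).gen ω) n =
      wsum q P o (fun w => u (Sum.inl w)) (S.gen ω.1) n +
        ∑ c : Fin m, (u (Sum.inr c) : ℝ) * (q : ℝ) ^ gg q o / (q : ℝ) ^ b0 q o.N *
          (P.derivative.eval n : ℤ) * (S.gen ω.1 v : ℝ) * ((((ω.2 c : ℕ) + 1 : ℕ)) : ℝ) := by
  unfold wsum
  rw [Fintype.sum_sum_type]
  congr 1
  refine sum_congr rfl fun c _ => ?_
  show (u (Sum.inr c) : ℝ) * (q : ℝ) ^ gg q o * (P.derivative.eval n : ℤ) *
    ((S.gen ω.1 v * ((ω.2 c : ℕ) + 1) : ℕ) : ℝ) / (q : ℝ) ^ b0 q o.N = _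
  push_cast; ring

end RS5

open RS5 in
theorem s5 (hl : LEAF2Stmt) (h6 : K6Stmt) (h2 : K2Stmt) (hm : MARGStmt) (hz : ZCHStmt) :
    S5Stmt := by
  intro V _ _ q P jb z b p v hd hv
  obtain ⟨C1, E1, hz1⟩ := hz V q P v (jb v - 1) (by omega)
  obtain ⟨E2, hl1⟩ := hl q P.natDegree (C1 + 1)
  refine ⟨E1 + E2 + 2 * q ^ 2 * (P.natDegree.factorial * P.leadingCoeff.natAbs) + 1, ?_⟩
  intro o C S L m hS hN u hu0 hune hub
  have hok := hN.ok
  have hq0 : (0 : ℝ) < q := by have := hok.hq; exact_mod_cast (by omega : 0 < q)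
  have hX : 1 ≤ Nat.sqrt S.Y := by
    have := hS.base.Y2
    exact Nat.succ_le_of_lt (Nat.sqrt_pos.2 (by omega))
  have hk := fun (c : Fin m) (n : ℤ) (ω : S.Ω) =>
    h2 (V → ℕ) (MM P.natDegree v (jb v - 1)) (UU q o.R L (chi S v L c - clo S v L c)) (KK q o.N)
      (jb v - 1) (Nat.sqrt S.Y) (phs q P S (chi S v L c) n ω) (fun t _ => UU_pos hok _ _ t) hX
  obtain ⟨-, m2, m3⟩ := hm S.Ω (Fin m) o.N (Nat.sqrt S.Y) S.D
    (fun c n ω a => kch q P o S v (jb v - 1) L c n ω ((a : ℕ) + 1)) hS.base.dens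
    (fun c n ω a => ((hk c n ω).2.2.1 _).1) (fun c n ω => (hk c n ω).2.1)
  simp only [wsum_split]
  by_cases hc : ∀ c, u (Sum.inr c) = 0
  · have e := m2 fun n ω => ee (wsum q P o (fun w => u (Sum.inl w)) (S.gen ω) n)
    have f := hS.four (fun w => u (Sum.inl w)) (fun w hw => hu0 _ (by
        show Function.update jb v 0 w ≠ 1
        by_cases h : w = v
        · subst h; simp
        · rwa [Function.update_of_ne h]))
      (fun h => hune (funext fun w => by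
        rcases w with w | c
        · exact congrFun h w
        · exact hc c)) (fun w => hub _)
    rw [← e] at f
    simp only [hc, Int.cast_zero, zero_mul, zero_div, sum_const_zero, add_zero]
    refine f.trans ?_
    have h1 : (q ^ L) ^ 1 ≤ S.Y := hN.pow_le (by omega)
    rw [pow_one] at h1
    show 1 / (S.Y : ℝ) ≤ 1 / ((q ^ L : ℕ) : ℝ)
    exact one_div_le_one_div_of_le (by push_cast; positivity) (by exact_mod_cast h1)
  · obtain ⟨c, hc⟩ := not_forall.1 hc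
    have hj : jb v - 1 = 1 := by
      by_contra h
      exact hc (hu0 (Sum.inr c) h)
    refine (m3 c (fun n ω => wsum q P o (fun w => u (Sum.inl w)) (S.gen ω) n)
      (fun c n ω a => (u (Sum.inr c) : ℝ) * (q : ℝ) ^ gg q o / (q : ℝ) ^ b0 q o.N *
          (P.derivative.eval n : ℤ) * (S.gen ω v : ℝ) * ((((a : ℕ) + 1 : ℕ)) : ℝ))).trans ?_
    have hz2 := hz1 o C S L m (hN.mono (by omega)) c
    unfold zch at hz2
    unfold kch
    rw [hj] at hz2 ⊢
    have hreg := hS.base.reg v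
    have r1 : b0 q o.N ≤ clo S v L c := by unfold clo; omega
    have r2 : clo S v L c ≤ chi S v L c := by
      unfold clo chi
      have : (c : ℕ) * L ≤ ((c : ℕ) + 1) * L := Nat.mul_le_mul_right _ (by omega)
      omega
    have key := h6 (V → ℕ) S.Ω (MM P.natDegree v 1) (UU q o.R L (chi S v L c - clo S v L c))
      (KK q o.N) (Nat.sqrt S.Y) o.N S.D (fun n ω => phs q P S (chi S v L c) n ω)
      (fun n ω => (u (Sum.inr c) : ℝ) * (q : ℝ) ^ gg q o / (q : ℝ) ^ b0 q o.N *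
          (P.derivative.eval n : ℤ) * (S.gen ω v : ℝ))
      (1 / ((q : ℝ) ^ L) ^ C1) (1 / ((q : ℝ) ^ L) ^ (C1 + 1)) (fun t _ => UU_pos hok _ _ t) hX
      hS.base.dens (by positivity) hz2 (fun u' hu' => by
        have g1 := hu' _ (single_mem (by omega) v)
        have g2 : UU q o.R L (chi S v L c - clo S v L c) (Pi.single v 1 : V → ℕ) =
            q ^ (chi S v L c - clo S v L c) * o.R ^ 2 := by
          unfold UU; rw [if_pos (sum_single v)]
        rw [g2] at g1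
        have hP : P ≠ 0 := fun h => by simp [h] at hd
        obtain ⟨g3, g4⟩ := gam_bounds hN (Nat.factorial_pos P.natDegree)
          (leadingCoeff_ne_zero.2 hP) (by omega) r1 r2 g1 hc (hub _)
        exact hl1 V P o C jb z b p S v L m (P.natDegree - 1) _ _ hS.base hS.inv hS.ac (Or.inl hv)
          (hN.mono (by omega)) (Nat.sub_le _ _)
          (fun ω => poly_theta q P (by omega) S v (chi S v L c) u' _ ω) g3 g4)
    refine key.trans (le_of_eq ?_)
    show _ = 1 / ((q ^ L : ℕ) : ℝ)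
    push_cast
    field_simp
    ring

end Pool.Agent.MP_b1aeef_nt.H64
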