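import Pool.Agent.MP_b1aeef_nt.H64.Spec

/-! The shift lemma. -/

open Finset
open scoped BigOperators

namespace Pool.Agent.MP_b1aeef_nt.H64

namespace RSh

theorem tele (g : ℤ → ℂ) (N k : ℕ) :
    ∑ n ∈ range N, g (n + k) - ∑ n ∈ range N, g n =
      ∑ m ∈ range k, g (N + m) - ∑ m ∈ range k, g m := by
  have h1 := sum_range_add (fun n : ℕ => g n) N k
  have h2 := sum_range_add (fun n : ℕ => g n) k N
  rw [add_comm k N, h1] at h2
  simp only [Nat.cast_add, add_comm (k : ℤ)] at h2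
  linear_combination -h2

theorem edge (g : ℤ → ℂ) (w : ℤ → ℝ) (hw : ∀ n, ‖g n‖ ≤ w n) (N H : ℕ) (h : ℤ) (hh : |h| ≤ H) :
    ‖∑ n ∈ range N, g (n + h) - ∑ n ∈ range N, g n‖ ≤
      ∑ m ∈ range H, (w (N + m) + w m + (w (N - 1 - m) + w (-1 - m))) := by
  have w0 : ∀ n, 0 ≤ w n := fun n => (norm_nonneg _).trans (hw n)
  obtain ⟨k, rfl | rfl⟩ := Int.eq_nat_or_neg h
  · have hk : k ≤ H := by simpa using hh
    rw [tele, ← sum_sub_distrib]
    refine (norm_sum_le _ _).trans ((sum_le_sum fun m _ => ?_).trans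
      (sum_le_sum_of_subset_of_nonneg (range_mono hk) fun m _ _ =>
        add_nonneg (add_nonneg (w0 _) (w0 _)) (add_nonneg (w0 _) (w0 _))))
    exact ((norm_sub_le _ _).trans (add_le_add (hw _) (hw _))).trans
      (le_add_of_nonneg_right (add_nonneg (w0 _) (w0 _)))
  · have hk : k ≤ H := by simpa using hh
    have e := tele (fun n => g (n + -k)) N k
    simp only [add_neg_cancel_right] at e
    rw [norm_sub_rev, e, ← sum_sub_distrib, ← sum_range_reflect]
    refine (norm_sum_le _ _).trans ((sum_le_sum fun m hm => ?_).trans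
      (sum_le_sum_of_subset_of_nonneg (range_mono hk) fun m _ _ =>
        add_nonneg (add_nonneg (w0 _) (w0 _)) (add_nonneg (w0 _) (w0 _))))
    have hm' := mem_range.1 hm
    have e1 : ((N : ℤ) + (k - 1 - m : ℕ) + -k) = N - 1 - m := by omega
    have e2 : (((k - 1 - m : ℕ) : ℤ) + -k) = -1 - m := by omega
    rw [e1, e2]
    exact ((norm_sub_le _ _).trans (add_le_add (hw _) (hw _))).trans
      (le_add_of_nonneg_left (add_nonneg (w0 _) (w0 _)))

theorem cast {Ω : Type} [Fintype Ω] (N : ℕ) (D : ℤ → Ω → ℝ) (φ : ℤ → Ω → ℝ) :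
    Ec N D (fun n ω => (φ n ω : ℂ)) = (Er N D φ : ℂ) := by
  simp only [Ec, Er, Complex.ofReal_expect, Complex.ofReal_mul]

theorem cx {Ω : Type} [Fintype Ω] {N H : ℕ} {D : ℤ → Ω → ℝ} {h : Ω → ℤ} {τ b : ℝ} (hN : 1 ≤ N)
    (hD : Dens D) (hh : ∀ ω, |h ω| ≤ H) (hi : ∀ n ω, |D (n + h ω) ω - D n ω| ≤ τ * D n ω + b)
    (φ : ℤ → Ω → ℂ) (hφ : ∀ n ω, ‖φ n ω‖ ≤ 1) :
    ‖Ec N D (fun n ω => φ (n + h ω) ω) - Ec N D φ‖ ≤ τ + b + 4 * H / N := by
  have hΩ : (univ : Finset Ω).Nonempty := by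
    rcases (univ : Finset Ω).eq_empty_or_nonempty with e | e
    · have := hD.avg 0
      rw [e, expect_empty] at this
      exact absurd this zero_ne_one
    · exact e
  have hr : (range N).Nonempty := nonempty_range_iff.2 (by omega)
  have hN' : (0 : ℝ) < N := by exact_mod_cast hN
  have h1 : ‖Ec N D (fun n ω => φ (n + h ω) ω) -
      𝔼 n ∈ range N, 𝔼 ω : Ω, (D (n + h ω) ω : ℂ) * φ (n + h ω) ω‖ ≤ τ + b := by
    unfold Ec
    rw [← expect_sub_distrib]
    refine (RCLike.norm_expect_le (K := ℂ)).trans (expect_le hr fun n _ => ?_)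
    rw [← expect_sub_distrib]
    refine (RCLike.norm_expect_le (K := ℂ)).trans
      ((expect_le_expect (g := fun ω => τ * D n ω + b) fun ω _ => ?_).trans ?_)
    · rw [← sub_mul, norm_mul, ← Complex.ofReal_sub, Complex.norm_real, Real.norm_eq_abs,
        abs_sub_comm]
      exact (mul_le_of_le_one_right (abs_nonneg _) (hφ _ _)).trans (hi n ω)
    · rw [expect_add_distrib, ← mul_expect, hD.avg, mul_one, expect_const hΩ]
  have h2 : ‖(𝔼 n ∈ range N, 𝔼 ω : Ω, (D (n + h ω) ω : ℂ) * φ (n + h ω) ω) - Ec N D φ‖ ≤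
      4 * H / N := by
    unfold Ec
    rw [expect_comm, expect_comm (range N), ← expect_sub_distrib]
    refine (RCLike.norm_expect_le (K := ℂ)).trans
      ((expect_le_expect (g := fun ω => (∑ m ∈ range H, (D (N + m) ω + D m ω +
        (D (N - 1 - m) ω + D (-1 - m) ω))) / N) fun ω _ => ?_).trans ?_)
    · rw [expect_eq_sum_div_card, expect_eq_sum_div_card, card_range, ← sub_div, norm_div,
        Complex.norm_natCast]
      refine div_le_div_of_nonneg_right (edge (fun n => (D n ω : ℂ) * φ n ω) (fun n => D n ω)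
        (fun n => ?_) N H (h ω) (hh ω)) hN'.le
      rw [norm_mul, Complex.norm_real, Real.norm_of_nonneg (hD.nonneg _ _)]
      exact mul_le_of_le_one_right (hD.nonneg _ _) (hφ _ _)
    · rw [← expect_div, expect_sum_comm]
      simp only [expect_add_distrib, hD.avg, sum_const, card_range, nsmul_eq_mul]
      exact le_of_eq (by ring)
  exact (norm_sub_le_norm_sub_add_norm_sub _ _ _).trans (add_le_add h1 h2)

end RSh

theorem sh : SHStmt := by
  intro Ω _ N H D h τ b hN hD hh hi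
  refine ⟨RSh.cx hN hD hh hi, fun φ hφ => ?_⟩
  have e := RSh.cx hN hD hh hi (fun n ω => (φ n ω : ℂ))
    (fun n ω => by rw [Complex.norm_real]; exact hφ n ω)
  rw [RSh.cast N D φ, RSh.cast N D fun n ω => φ (n + h ω) ω, ← Complex.ofReal_sub,
    Complex.norm_real] at e
  exact e

end Pool.Agent.MP_b1aeef_nt.H64
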