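import Pool.Agent.MP_b1aeef_nt.H64.Spec

/-! The step, the end and the induction over shapes. -/

open Finset Polynomial Filter Topology
open scoped BigOperators

namespace Pool.Agent.MP_b1aeef_nt.H64

theorem step (h1 : S1Stmt) (h2 : S2Stmt) (h3 : S3Stmt) (h4 : S4Stmt) (h5 : S5Stmt)
    (hn : NUMStmt) : STEPStmt := by
  intro V _ _ q P jb z b p v ρ C hq hd hv
  obtain ⟨E1, H1⟩ := h1 V q P jb z b p v hv
  obtain ⟨E2, H2⟩ := h2 V q P jb z b p v hv
  obtain ⟨E3, H3⟩ := h3 V q P jb z b p v hv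
  obtain ⟨E4, H4⟩ := h4 V q P jb z b p v hv
  obtain ⟨E5, H5⟩ := h5 V q P jb z b p v hd hv
  obtain ⟨m, ρ', E', H⟩ := hn q P.natDegree C ρ (E1 + E2 + E3 + E4 + E5) 0 hq
  refine ⟨m, ρ', C + m + 3, E', ?_⟩
  filter_upwards [H] with N HN o ho hA S hS hY
  obtain ⟨L, hL, hN, -⟩ := HN o ho hA S.Y hY
  exact ⟨refine q P o S v (jb v - 1) m L,
    ⟨H1 o C S L m hS.base (hL.mono (by omega)), H3 o C S L m hS.base hS.inv hS.gu (hL.mono (by omega)),
      H2 o C S L m hS.base hS.gu (hL.mono (by omega)),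
      H4 o C S L m hS.base hS.ac (hL.mono (by omega)), H5 o C S L m hS (hL.mono (by omega))⟩, hN⟩

theorem Adm.mono {q : ℕ} {o : Par} {E E' : ℕ} (h : Adm q o E) (hE : E' ≤ E) (h1 : 1 ≤ lg q o.N) :
    Adm q o E' :=
  ⟨h.1, (Nat.pow_le_pow_right (h1.trans h.1) hE).trans h.2.1,
    (Nat.mul_le_mul_left _ hE).trans h.2.2⟩

theorem lg_ev {q : ℕ} (hq : 2 ≤ q) (c : ℕ) : ∀ᶠ N in atTop, c ≤ lg q N := by
  filter_upwards [eventually_ge_atTop (q ^ c)] with N hN
  exact (Nat.le_log_iff_pow_le (by omega) (by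
    have : 0 < q ^ c := by positivity
    omega)).2 hN

theorem FSt0.nonempty {I : Type} [Fintype I] {q : ℕ} {P : ℤ[X]} {J : Finset ℤ} {o : Par} {C : ℕ}
    {F : FDat I} (h : FSt0 q P J o C F) (ho : Ok q o) (h0 : 0 ∈ J) : Nonempty I := by
  by_contra hI
  rw [not_nonempty_iff] at hI
  have hc := h.cover (fun j => if j = 0 then 1 else 0) (fun _ => (q : ℤ) ^ b0 q o.N)
  have e1 : ∑ j ∈ J.erase 0, (if j = 0 then (1 : ℝ) else 0) *
      (ds q (a0 q o) (b0 q o.N) ((q : ℤ) ^ b0 q o.N) : ℝ) = 0 :=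
    sum_eq_zero fun j hj => by rw [if_neg (ne_of_mem_erase hj), zero_mul]
  have hq := ho.hq
  have e2 : ds q (b0 q o.N) (atop q P.natDegree o.N) ((q : ℤ) ^ b0 q o.N) = 1 := by
    have hlt : 1 ≤ atop q P.natDegree o.N - b0 q o.N := by
      have := ho.j2; unfold atop b0; omega
    unfold ds
    rw [Int.ediv_self (by positivity)]
    have := dL_nat (q := q) (L := atop q P.natDegree o.N - b0 q o.N) (m := 1)
      (Nat.one_lt_pow (by omega) (by omega))
    rw [Nat.cast_one] at this
    rw [this, sq_of_lt hq (by omega)]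
  rw [e1, e2] at hc
  simp [h0] at hc

theorem fin (w1 : WIN1Stmt) (w2 : WIN2Stmt) (hn : NUMStmt) (e1 : E1Stmt) (e5 : E5Stmt) :
    FINStmt := by
  intro V _ _ q α P J jb z b p ρ C hq hd h0 hP hα hj
  obtain ⟨E1, H1⟩ := w1 V q P J jb z b p hj
  obtain ⟨E2, H2⟩ := w2 V q P J jb z b p hd
  obtain ⟨E3, C3, H3⟩ := e1 ({v // jb v = 1} ⊕ {j // j ∈ J.erase 0}) q α P J (C + J.card + 2)
    hq hd h0 hP
  rcases isEmpty_or_nonempty ({v // jb v = 1} ⊕ {j // j ∈ J.erase 0}) with hI | hI
  · obtain ⟨m, ρ', E', H⟩ := hn q P.natDegree C ρ E1 0 hq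
    refine ⟨E', 0, ?_⟩
    filter_upwards [H] with N HN o ho hA S hS hY
    obtain ⟨L, hL, -, -⟩ := HN o ho hA S.Y hY
    exact absurd ((H1 o C S L m hS.base hS.inv hS.gu hL).nonempty hL.ok h0) (not_nonempty_iff.2 hI)
  obtain ⟨E4, C4, H4⟩ := e5 ({v // jb v = 1} ⊕ {j // j ∈ J.erase 0}) q α P J hd hα
  obtain ⟨m, ρ', E', H⟩ := hn q P.natDegree C ρ (E1 + E2) E4 hq
  set n := 2 ^ Fintype.card ({v // jb v = 1} ⊕ {j // j ∈ J.erase 0}) with hn'
  have hn1 : 1 ≤ n := Nat.one_le_two_pow
  refine ⟨E' + E3 + E4 + n, 2 ^ n * (|C3| ^ n + |C4|), ?_⟩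
  filter_upwards [H, H3, lg_ev hq (q ^ 6), lg_ev hq 1] with N HN HN3 hl hl1 o ho hA S hS hY
  subst ho
  obtain ⟨L, hL, -, hs⟩ := HN o rfl (hA.mono (by omega) hl1) S.Y hY
  have F0 := H1 o C S L m hS.base hS.inv hS.gu (hL.mono (by omega))
  have F1 := H2 o C S L m hS (hL.mono (by omega))
  have g1 := HN3 o rfl hL.ok (hA.mono (E' := E3) (by omega) hl1).2.1 _ F0
  have g2 := H4 o _ _ hL.ok (hA.mono (E' := E4) (by omega) hl1).2.1 (hl.trans hA.1)
    (by rw [← pow_mul]; exact Nat.pow_le_pow_right (by omega) hs) F0 F1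
  set M := model q α P J o (win q P o jb p J S L)
  set c := corr q α P J o.N
  have hR : (1 : ℝ) ≤ o.R := by exact_mod_cast (by have := hL.ok.R16; omega : 1 ≤ o.R)
  have hc1 : ‖c‖ ≤ 1 := corr_le q α P J o.N
  have g3 : ‖c‖ ≤ ‖c - M‖ + ‖M‖ := by simpa using norm_add_le (c - M) M
  have g4 : ‖c - M‖ ^ n ≤ |C3| ^ n / o.R := by
    have a1 : ‖c - M‖ ≤ |C3| / o.R := g1.trans (by gcongr; exact le_abs_self _)
    calc ‖c - M‖ ^ n ≤ (|C3| / o.R) ^ n := by gcongr
      _ = |C3| ^ n / o.R ^ n := div_pow _ _ _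
      _ ≤ _ := by gcongr; exact le_self_pow₀ hR (by omega)
  have g5 : ‖M‖ ^ n ≤ |C4| / o.R := g2.trans (by gcongr; exact le_abs_self _)
  calc ‖c‖ ^ (E' + E3 + E4 + n) ≤ ‖c‖ ^ n := pow_le_pow_of_le_one (norm_nonneg _) hc1 (by omega)
    _ ≤ (‖c - M‖ + ‖M‖) ^ n := by gcongr
    _ ≤ 2 ^ (n - 1) * (‖c - M‖ ^ n + ‖M‖ ^ n) := add_pow_le (norm_nonneg _) (norm_nonneg _) n
    _ ≤ 2 ^ n * (|C3| ^ n / o.R + |C4| / o.R) := by
        gcongr
        · norm_num
        · omega
    _ = _ := by ring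

theorem ind_ok (hs : STEPStmt) (hf : FINStmt) : INDStmt := by
  intro V _ _ q α P J jb z b p ρ C hq hd h0 hP hα
  have key : ∀ k t : ℕ, ∀ (V : Type) [Fintype V] [DecidableEq V] (jb : V → ℕ) (z b p : V)
      (ρ C : ℕ), (∀ v, jb v ≤ k + 1) → (univ.filter fun v => jb v = k + 1).card ≤ t →
      Good q α P J jb z b p ρ C := by
    intro k
    induction k with
    | zero => intro t V _ _ jb z b p ρ C h _; exact hf V q α P J jb z b p ρ C hq hd h0 hP hα h
    | succ k ihk =>
      intro t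
      induction t with
      | zero =>
        intro V _ _ jb z b p ρ C h hc
        refine ihk _ V jb z b p ρ C (fun v => ?_) le_rfl
        have : v ∉ univ.filter fun v => jb v = k + 1 + 1 := by
          rw [card_eq_zero.1 (Nat.le_zero.1 hc)]; exact notMem_empty v
        have h1 := h v
        simp only [mem_filter, mem_univ, true_and] at this
        omega
      | succ t iht =>
        intro V _ _ jb z b p ρ C h hc
        by_cases hex : ∃ v, jb v = k + 1 + 1
        · obtain ⟨v, hv⟩ := hex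
          obtain ⟨m, ρ', C', E, H⟩ := hs V q P jb z b p v ρ C hq hd (by omega)
          have hb : ∀ w, jref jb v m w ≤ k + 1 + 1 := by
            rintro (w | c)
            · simp only [jref, Sum.elim_inl, Function.update_apply]
              split_ifs
              · omega
              · exact h w
            · simp only [jref, Sum.elim_inr]; omega
          have hcard : (univ.filter fun w => jref jb v m w = k + 1 + 1).card ≤ t := by
            have : (univ.filter fun w => jref jb v m w = k + 1 + 1) ⊆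
                ((univ.filter fun w => jb w = k + 1 + 1).erase v).map Function.Embedding.inl := by
              rintro (w | c) hw
              · simp only [jref, mem_filter, mem_univ, true_and, Sum.elim_inl,
                  Function.update_apply] at hw
                split_ifs at hw with e
                exact mem_map.2 ⟨w, mem_erase.2 ⟨e, by simpa using hw⟩, rfl⟩
              · simp only [jref, mem_filter, mem_univ, true_and, Sum.elim_inr] at hw
                omega
            have h2 := card_le_card this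
            rw [card_map, card_erase_of_mem (by simpa using hv)] at h2
            omega
          obtain ⟨E', C2, H'⟩ := iht (V ⊕ Fin m) (jref jb v m) (Sum.inl z) (Sum.inl b) (Sum.inl p)
            ρ' C' hb hcard
          refine ⟨E + E', C2, ?_⟩
          filter_upwards [H, H', lg_ev hq 1] with N HN HN' hl o ho hA S hS hY
          subst ho
          obtain ⟨S', hS', hY'⟩ := HN o rfl (hA.mono (by omega) hl) S hS hY
          exact (pow_le_pow_of_le_one (norm_nonneg _) (corr_le q α P J o.N) (by omega)).trans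
            (HN' o rfl (hA.mono (by omega) hl) S' hS' hY')
        · refine ihk _ V jb z b p ρ C (fun v => ?_) le_rfl
          have h1 := h v
          have : jb v ≠ k + 1 + 1 := fun e => hex ⟨v, e⟩
          omega
  exact key (univ.sup jb) _ V jb z b p ρ C
    (fun v => (le_sup (f := jb) (mem_univ v)).trans (Nat.le_succ _)) le_rfl

end Pool.Agent.MP_b1aeef_nt.H64
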