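import Pool.Agent.MP_b1aeef_nt.H64.Spec

/-! Row Val: large valuations of the derivative are rare. -/

open Finset Polynomial Filter Topology
open scoped BigOperators

namespace Pool.Agent.MP_b1aeef_nt.H64

namespace RVal

theorem exists_prime {q s : ℕ} (hq : 2 ≤ q) (p : ℤ)
    (h : ¬ Int.gcd p ((q : ℤ) ^ (2 * s)) ∣ q ^ s) :
    ∃ r ∈ q.primeFactors, (r : ℤ) ^ (s + 1) ∣ p := by
  by_contra hc
  apply h
  rw [Nat.dvd_iff_prime_pow_dvd_dvd]
  intro r k hr hk
  rcases Nat.eq_zero_or_pos k with h0 | h0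
  · subst h0
    simp
  have h1 : ((r ^ k : ℕ) : ℤ) ∣ p :=
    (Int.natCast_dvd_natCast.2 hk).trans (Int.gcd_dvd_left _ _)
  have h2 : ((r ^ k : ℕ) : ℤ) ∣ (q : ℤ) ^ (2 * s) :=
    (Int.natCast_dvd_natCast.2 hk).trans (Int.gcd_dvd_right _ _)
  have h3 : r ^ k ∣ q ^ (2 * s) := by
    have : ((r ^ k : ℕ) : ℤ) ∣ ((q ^ (2 * s) : ℕ) : ℤ) := by
      rw [Nat.cast_pow q]
      exact h2
    exact Int.natCast_dvd_natCast.1 this
  have h4 : r ∣ q := hr.dvd_of_dvd_pow ((dvd_pow_self r h0.ne').trans h3)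
  have h5 : k ≤ s := by
    by_contra hks
    apply hc
    refine ⟨r, Nat.mem_primeFactors.2 ⟨hr, h4, by omega⟩, ?_⟩
    refine (pow_dvd_pow (r : ℤ) (show s + 1 ≤ k by omega)).trans ?_
    rw [← Nat.cast_pow]
    exact h1
  exact (pow_dvd_pow r h5).trans (pow_dvd_pow_of_dvd h4 s)

end RVal

theorem val (h : EQStmt) : VALStmt := by
  intro q P hP
  have hd : P.derivative.natDegree = P.natDegree - 1 :=
    natDegree_derivative P
  obtain ⟨C, hC⟩ := h P.derivative (by omega)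
  refine ⟨C, 4 * q, fun o ok hE => ?_⟩
  have hq := ok.hq
  have hR := ok.R16
  have hN := ok.N16
  have hRp : (0 : ℝ) < o.R := by exact_mod_cast (show 0 < o.R by omega)
  have key : ∀ r ∈ q.primeFactors, 𝔼 n ∈ range o.N,
      ind (nn (((P.derivative.eval (n : ℤ) : ℤ) : ℝ) / (r : ℝ) ^ (o.s + 1)) ≤ 1 / (20 * (o.R : ℝ)))
        ≤ 4 / (o.R : ℝ) := by
    intro r hr
    have hr2 : 2 ≤ r := (Nat.prime_of_mem_primeFactors hr).two_le
    have hrq : r ≤ q := Nat.le_of_mem_primeFactors hr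
    apply hC
    · exact_mod_cast (show 2 ≤ o.R by omega)
    · omega
    · have : o.R ^ C ≤ r ^ (o.s + 1) :=
        hE.trans ((Nat.pow_le_pow_left hr2 _).trans (Nat.pow_le_pow_right (by omega) (by omega)))
      exact_mod_cast this
    · have h1 : r ^ (o.s + 1) * o.R ^ C ≤ q ^ (o.s + 1) * q ^ o.s :=
        Nat.mul_le_mul (Nat.pow_le_pow_left hrq _) (hE.trans (Nat.pow_le_pow_left hq _))
      have h2 : q ^ (o.s + 1) * q ^ o.s ≤ q ^ lg q o.N := by
        rw [← pow_add]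
        apply Nat.pow_le_pow_right (by omega)
        have := ok.hs
        have := ok.j8
        have := ok.hl
        omega
      have h3 : o.N ≤ o.N ^ P.derivative.natDegree := Nat.le_self_pow (by omega) _
      have : r ^ (o.s + 1) * o.R ^ C ≤ o.N ^ P.derivative.natDegree :=
        h1.trans (h2.trans (ok.pow_lg.trans h3))
      exact_mod_cast this
  have pt : ∀ n ∈ range o.N, ind (¬ Int.gcd (P.derivative.eval (n : ℤ))
      ((q : ℤ) ^ (2 * o.s)) ∣ q ^ o.s) ≤ ∑ r ∈ q.primeFactors,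
      ind (nn (((P.derivative.eval (n : ℤ) : ℤ) : ℝ) / (r : ℝ) ^ (o.s + 1)) ≤
        1 / (20 * (o.R : ℝ))) := by
    intro n _
    by_cases hn : ¬ Int.gcd (P.derivative.eval (n : ℤ)) ((q : ℤ) ^ (2 * o.s)) ∣ q ^ o.s
    · obtain ⟨r, hr, t, ht⟩ := RVal.exists_prime hq _ hn
      have hr2 : 2 ≤ r := (Nat.prime_of_mem_primeFactors hr).two_le
      have hr0 : (r : ℝ) ≠ 0 := by exact_mod_cast (show r ≠ 0 by omega)
      rw [ind_pos hn]
      refine le_trans (le_of_eq ?_) (single_le_sum (fun i _ => ind_nonneg _) hr)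
      symm
      apply ind_pos
      have e : ((P.derivative.eval (n : ℤ) : ℤ) : ℝ) / (r : ℝ) ^ (o.s + 1) = (t : ℝ) := by
        rw [ht]
        push_cast
        field_simp
      rw [e, nn_int]
      positivity
    · rw [ind_neg hn]
      exact sum_nonneg fun i _ => ind_nonneg _
  refine (expect_le_expect pt).trans ?_
  rw [expect_sum_comm]
  refine (sum_le_sum key).trans ?_
  rw [sum_const, nsmul_eq_mul]
  have hc : (q.primeFactors.card : ℝ) ≤ q := by
    have : q.primeFactors.card ≤ q := by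
      have h1 : q.primeFactors ⊆ Icc 1 q := fun r hr =>
        mem_Icc.2 ⟨(Nat.prime_of_mem_primeFactors hr).one_le, Nat.le_of_mem_primeFactors hr⟩
      simpa using card_le_card h1
    exact_mod_cast this
  calc (q.primeFactors.card : ℝ) * (4 / (o.R : ℝ)) ≤ q * (4 / (o.R : ℝ)) := by gcongr
    _ = 4 * q / (o.R : ℝ) := by ring

end Pool.Agent.MP_b1aeef_nt.H64
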