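import Pool.Agent.MP_b1aeef_nt.H64.Spec

/-! van der Corput under a density. -/

open Finset
open scoped BigOperators

namespace Pool.Agent.MP_b1aeef_nt.H64

namespace RVdc

variable {Ω : Type} [Fintype Ω] {N : ℕ} {D : ℤ → Ω → ℝ}

theorem Er_mono (hD : Dens D) {f g : ℤ → Ω → ℝ} (h : ∀ n ω, f n ω ≤ g n ω) :
    Er N D f ≤ Er N D g :=
  expect_le_expect fun _ _ => expect_le_expect fun _ _ =>
    mul_le_mul_of_nonneg_left (h _ _) (hD.nonneg _ _)

theorem Er_const (hN : 1 ≤ N) (hD : Dens D) (c : ℝ) : Er N D (fun _ _ => c) = c := by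
  unfold Er
  simp only [← expect_mul, hD.avg, one_mul]
  exact expect_const (nonempty_range_iff.2 (by omega)) c

theorem Er_add (f g : ℤ → Ω → ℝ) :
    Er N D (fun n ω => f n ω + g n ω) = Er N D f + Er N D g := by
  unfold Er
  simp only [mul_add, expect_add_distrib]

theorem Er_mul (c : ℝ) (f : ℤ → Ω → ℝ) : Er N D (fun n ω => f n ω * c) = Er N D f * c := by
  unfold Er
  simp only [← mul_assoc, ← expect_mul]

theorem Er_sq (hN : 1 ≤ N) (hD : Dens D) (f : ℤ → Ω → ℝ) :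
    Er N D f ^ 2 ≤ Er N D (fun n ω => f n ω ^ 2) := by
  have h := Er_mono (N := N) hD (f := fun n ω => f n ω * (2 * Er N D f))
    (g := fun n ω => f n ω ^ 2 + Er N D f ^ 2) fun n ω => by
      nlinarith [sq_nonneg (f n ω - Er N D f)]
  rw [Er_mul, Er_add, Er_const hN hD] at h
  linarith

theorem Ec_ofReal (f : ℤ → Ω → ℝ) : Ec N D (fun n ω => (f n ω : ℂ)) = (Er N D f : ℂ) := by
  unfold Ec Er
  simp only [Complex.ofReal_expect, Complex.ofReal_mul]

theorem Ec_expect {A : Type} [Fintype A] (f : A → ℤ → Ω → ℂ) :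
    Ec N D (fun n ω => 𝔼 a, f a n ω) = 𝔼 a, Ec N D (f a) := by
  unfold Ec
  simp only [mul_expect]
  rw [expect_comm univ (range N)]
  exact expect_congr rfl fun n _ => expect_comm _ _ _

theorem norm_Ec_le (hD : Dens D) (f : ℤ → Ω → ℂ) :
    ‖Ec N D f‖ ≤ Er N D (fun n ω => ‖f n ω‖) := by
  unfold Ec Er
  refine (RCLike.norm_expect_le (K := ℂ)).trans (expect_le_expect fun n _ => ?_)
  refine (RCLike.norm_expect_le (K := ℂ)).trans (expect_le_expect fun ω _ => ?_)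
  rw [norm_mul, Complex.norm_real, Real.norm_of_nonneg (hD.nonneg _ _)]

theorem norm_Ec_ee (hN : 1 ≤ N) (hD : Dens D) (f : ℤ → Ω → ℝ) :
    ‖Ec N D (fun n ω => ee (f n ω))‖ ≤ 1 := by
  refine (norm_Ec_le hD _).trans_eq ?_
  simp only [norm_ee]
  exact Er_const hN hD 1

theorem sq_norm {A : Type} [Fintype A] (θ : A → ℝ) :
    ((‖𝔼 a, ee (θ a)‖ ^ 2 : ℝ) : ℂ) = 𝔼 a, 𝔼 a', ee (θ a - θ a') := by
  have h : (starRingEnd ℂ) (𝔼 a, ee (θ a)) = 𝔼 a, (starRingEnd ℂ) (ee (θ a)) := by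
    rw [expect_eq_sum_div_card, expect_eq_sum_div_card, map_div₀, map_sum, map_natCast]
  rw [Complex.ofReal_pow, ← Complex.mul_conj', h, expect_mul_expect]
  simp only [ee_sub]

theorem cs (hN : 1 ≤ N) (hD : Dens D) {X : ℕ} (hX : 1 ≤ X) (θ : Fin X → ℤ → Ω → ℝ) {B : ℝ}
    (hB : 0 ≤ B) (h : ∀ a a', a ≠ a' → ‖Ec N D (fun n ω => ee (θ a n ω - θ a' n ω))‖ ≤ B) :
    Er N D (fun n ω => ‖𝔼 a, ee (θ a n ω)‖) ^ 2 ≤ 1 / X + B := by
  have : Nonempty (Fin X) := ⟨⟨0, hX⟩⟩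
  refine (Er_sq hN hD _).trans ?_
  have h1 : ((Er N D (fun n ω => ‖𝔼 a, ee (θ a n ω)‖ ^ 2) : ℝ) : ℂ) =
      𝔼 a, 𝔼 a', Ec N D (fun n ω => ee (θ a n ω - θ a' n ω)) := by
    rw [← Ec_ofReal]
    simp only [sq_norm]
    rw [Ec_expect fun a n ω => 𝔼 a', ee (θ a n ω - θ a' n ω)]
    exact expect_congr rfl fun a _ => Ec_expect fun a' n ω => ee (θ a n ω - θ a' n ω)
  refine (le_abs_self _).trans ?_
  rw [← Real.norm_eq_abs, ← Complex.norm_real, h1]
  refine (RCLike.norm_expect_le (K := ℂ)).trans ?_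
  refine (expect_le_expect fun a _ => ?_).trans_eq (expect_const univ_nonempty (1 / X + B : ℝ))
  refine (RCLike.norm_expect_le (K := ℂ)).trans ?_
  refine (expect_le_expect (g := fun a' => (if a = a' then (1 : ℝ) else 0) + B)
    fun a' _ => ?_).trans_eq ?_
  · by_cases e : a = a'
    · rw [if_pos e]
      exact (norm_Ec_ee hN hD _).trans (le_add_of_nonneg_right hB)
    · rw [if_neg e, zero_add]
      exact h a a' e
  · rw [expect_add_distrib, expect_const univ_nonempty, expect_eq_sum_div_card]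
    simp

theorem abs_fin {X : ℕ} (a a' : Fin X) : |((a : ℕ) : ℤ) - ((a' : ℕ) : ℤ)| ≤ X := by
  have h1 := a.2
  have h2 := a'.2
  rw [abs_le]
  constructor <;> omega

theorem ne_fin {X : ℕ} {a a' : Fin X} (h : a ≠ a') : ((a : ℕ) : ℤ) - ((a' : ℕ) : ℤ) ≠ 0 := by
  intro e
  exact h (Fin.ext (by omega))

end RVdc

open RVdc in
theorem vdc : VDCStmt := by
  intro Ω _ N S r D e0 δ0 η γ ψ hN hS hD hZ
  induction r generalizing η γ ψ with
  | zero =>
    intro hψ hγ h0 _ _ he hs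
    have h1 := hγ 1 one_ne_zero (by simp)
    have h2 : (0 : ℝ) ≤ 1 / S := by positivity
    have h3 : (fun n ω => ee (ψ n ω)) = fun (_ : ℤ) ω => ee (((1 : ℤ) : ℝ) * γ ω) := by
      funext n ω
      rw [show ψ n ω = γ ω from hψ ω n, Int.cast_one, one_mul]
    rw [h3]
    rw [pow_zero, pow_one] at hs
    linarith
  | succ r ih =>
    intro hψ hγ h0 h1 hδ he hs
    have : Nonempty (Fin S) := ⟨⟨0, hS⟩⟩
    have h2 : (0 : ℝ) ≤ 1 / S := by positivity
    have h3 : η ^ 2 ^ (r + 1) ≤ η ^ 2 :=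
      pow_le_pow_of_le_one h0.le h1 (by rw [pow_succ]; have := Nat.one_le_two_pow (n := r); omega)
    have h4 : η ^ 2 ≤ η := by nlinarith
    have h5 := cs hN hD hS (fun z n ω => ψ (n + (z : ℕ)) ω) (B := 4 * η ^ 2) (by positivity)
      fun z z' hz => ih (η ^ 2) (fun ω => ((((z : ℕ) : ℤ) - ((z' : ℕ) : ℤ) : ℤ) : ℝ) * γ ω)
        (fun n ω => ψ (n + (z : ℕ)) ω - ψ (n + (z' : ℕ)) ω)
        (fun ω => ((hψ ω (((z : ℕ) : ℤ) - ((z' : ℕ) : ℤ))).shift ((z' : ℕ) : ℤ)).congr rfl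
          fun n => by rw [show n + ((z' : ℕ) : ℤ) + (((z : ℕ) : ℤ) - ((z' : ℕ) : ℤ)) =
            n + ((z : ℕ) : ℤ) by ring])
        (fun Q hQ hQ' => by
          have := hγ (Q * (((z : ℕ) : ℤ) - ((z' : ℕ) : ℤ))) (mul_ne_zero hQ (ne_fin hz)) (by
            rw [abs_mul, pow_succ]
            exact mul_le_mul hQ' (abs_fin z z') (abs_nonneg _) (by positivity))
          simpa only [Int.cast_mul, mul_assoc] using this)
        (by positivity) (h4.trans h1) hδ he (by rwa [← pow_mul, ← pow_succ'])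
    have h6 : Er N D (fun n ω => ‖𝔼 z : Fin S, ee (ψ (n + (z : ℕ)) ω)‖) ≤ 3 * η :=
      le_of_sq_le_sq (by nlinarith [sq_nonneg η]) (by positivity)
    have h7 : ‖𝔼 z : Fin S, Ec N D (fun n ω => ee (ψ (n + (z : ℕ)) ω))‖ ≤ 3 * η := by
      rw [← Ec_expect fun (z : Fin S) n ω => ee (ψ (n + (z : ℕ)) ω)]
      exact (norm_Ec_le hD _).trans h6
    have h8 : ‖(𝔼 z : Fin S, Ec N D (fun n ω => ee (ψ (n + (z : ℕ)) ω))) -
        Ec N D (fun n ω => ee (ψ n ω))‖ ≤ e0 := by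
      rw [← expect_const (s := (univ : Finset (Fin S))) univ_nonempty
        (Ec N D (fun n ω => ee (ψ n ω))), ← expect_sub_distrib]
      refine (RCLike.norm_expect_le (K := ℂ)).trans ?_
      refine (expect_le_expect fun z _ => ?_).trans_eq (expect_const univ_nonempty e0)
      exact hZ ((z : ℕ) : ℤ) (by rw [Nat.abs_cast]; exact_mod_cast z.2.le)
        (fun n ω => ee (ψ n ω)) fun n ω => (norm_ee _).le
    have h9 := norm_sub_norm_le (Ec N D (fun n ω => ee (ψ n ω)))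
      (𝔼 z : Fin S, Ec N D (fun n ω => ee (ψ (n + (z : ℕ)) ω)))
    rw [norm_sub_rev] at h9
    linarith

open RVdc in
theorem leaf (h : VDCStmt) : LEAFStmt := by
  intro Ω _ N S X r D e0 δ0 η lo hi γ0 A Θ hN hS hX hD hZ hΘ hA hlo hhi h0 h1 hδ he hs
  refine cs hN hD hX (fun a n ω => Θ n ω * (((a : ℕ) + 1 : ℕ) : ℝ)) (by positivity)
    fun a a' ha => ?_
  refine h Ω N S r D e0 δ0 η (fun ω => γ0 * A ω * ((((a : ℕ) : ℤ) - ((a' : ℕ) : ℤ) : ℤ) : ℝ))
    _ hN hS hD hZ (fun ω => ((hΘ ω).mul_const _).congr rfl fun n => by push_cast; ring)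
    (fun Q hQ hQ' => ?_) h0 h1 hδ he hs
  have e1 : (1 : ℝ) ≤ |(Q : ℝ)| := by exact_mod_cast Int.one_le_abs hQ
  have e2 : |(Q : ℝ)| ≤ (S : ℝ) ^ r := by exact_mod_cast hQ'
  have e3 : (1 : ℝ) ≤ |((((a : ℕ) : ℤ) - ((a' : ℕ) : ℤ) : ℤ) : ℝ)| := by
    exact_mod_cast Int.one_le_abs (ne_fin ha)
  have e4 : |((((a : ℕ) : ℤ) - ((a' : ℕ) : ℤ) : ℤ) : ℝ)| ≤ X := by exact_mod_cast abs_fin a a'
  have e5 := abs_nonneg γ0
  have := hA (γ0 * ((((a : ℕ) : ℤ) - ((a' : ℕ) : ℤ) : ℤ) : ℝ) * Q) (by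
    rw [abs_mul, abs_mul]
    exact hlo.trans ((le_mul_of_one_le_right e5 e3).trans
      (le_mul_of_one_le_right (by positivity) e1))) (by
    rw [abs_mul, abs_mul]
    exact le_trans (by gcongr) hhi)
  refine le_of_eq_of_le ?_ this
  exact congrArg (fun f => ‖Ec N D f‖) (funext fun _ => funext fun ω => congrArg ee (by ring))

end Pool.Agent.MP_b1aeef_nt.H64
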