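import Pool.Agent.MP_b1aeef_nt.H64.Spec

/-! Vinogradov's lemma. -/

open Finset

namespace Pool.Agent.MP_b1aeef_nt.H64

namespace RVin

theorem diam {ι : Type} (U : Finset ι) (g : ι → ℤ) (hg : Set.InjOn g U) (D : ℝ) (hD : 0 ≤ D)
    (h : ∀ a ∈ U, ∀ b ∈ U, (g a : ℝ) - g b ≤ D) : (U.card : ℝ) ≤ D + 1 := by
  rcases U.eq_empty_or_nonempty with rfl | hU
  · simp only [card_empty, Nat.cast_zero]
    linarith
  obtain ⟨m, hm, hm'⟩ := exists_min_image U g hU
  have h1 : U.card ≤ (Icc (g m) (g m + ⌊D⌋)).card :=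
    card_le_card_of_injOn g (fun a ha => by
      have h2 : g a - g m ≤ ⌊D⌋ := Int.le_floor.2 (by exact_mod_cast h a ha m hm)
      have h3 := hm' a ha
      simp only [coe_Icc, Set.mem_Icc]
      omega) hg
  have h4 := Int.floor_nonneg.2 hD
  have h5 : (U.card : ℤ) ≤ ⌊D⌋ + 1 := by
    rw [Int.card_Icc] at h1
    omega
  have h6 : (U.card : ℝ) ≤ (⌊D⌋ : ℝ) + 1 := by exact_mod_cast h5
  linarith [Int.floor_le D]

theorem fib {ι κ : Type} [DecidableEq κ] (U : Finset ι) (f : ι → κ) (a b : ℝ) (hb : 0 ≤ b)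
    (h1 : ((U.image f).card : ℝ) ≤ a) (h2 : ∀ k, ((U.filter fun x => f x = k).card : ℝ) ≤ b) :
    (U.card : ℝ) ≤ a * b := by
  rw [card_eq_sum_card_image f U]
  push_cast
  refine (sum_le_card_nsmul _ _ b fun k _ => h2 k).trans ?_
  rw [nsmul_eq_mul]
  exact mul_le_mul_of_nonneg_right h1 hb

theorem cnt (T : Finset ℕ) (g : ℕ → ℕ) (hg : Set.InjOn g T) (β θ ε M : ℝ) (hθ : θ ≠ 0)
    (hε : 0 ≤ ε) (hM : 0 ≤ M) (h : ∀ u ∈ T, (g u : ℝ) ≤ M ∧ nn (β + g u * θ) ≤ ε) :
    (T.card : ℝ) ≤ (|θ| * M + 1 + 1) * (2 * ε / |θ| + 1) := by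
  have h0 : 0 < |θ| := abs_pos.2 hθ
  refine fib T (fun u => round (β + g u * θ)) _ _ (by positivity) ?_ fun k => ?_
  · refine diam _ id (Set.injOn_id _) _ (by positivity) fun a ha b hb => ?_
    obtain ⟨u, hu, rfl⟩ := mem_image.1 ha
    obtain ⟨v, hv, rfl⟩ := mem_image.1 hb
    have a1 := abs_le.1 (abs_sub_round (β + g u * θ))
    have a2 := abs_le.1 (abs_sub_round (β + g v * θ))
    have a3 : ((g u : ℝ) - g v) * θ ≤ |θ| * M := by
      refine (le_abs_self _).trans ?_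
      rw [abs_mul, mul_comm]
      refine mul_le_mul_of_nonneg_left (abs_le.2 ⟨?_, ?_⟩) h0.le
      · linarith [(h v hv).1, Nat.cast_nonneg (α := ℝ) (g u)]
      · linarith [(h u hu).1, Nat.cast_nonneg (α := ℝ) (g v)]
    simp only [id]
    linarith [a1.1, a2.2]
  · refine diam _ (fun u => (g u : ℤ)) (fun u hu v hv e => hg (mem_filter.1 hu).1
      (mem_filter.1 hv).1 (Int.ofNat_inj.1 e)) _ (by positivity) fun u hu v hv => ?_
    obtain ⟨u1, u2⟩ := mem_filter.1 hu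
    obtain ⟨v1, v2⟩ := mem_filter.1 hv
    have a1 := (h u u1).2
    have a2 := (h v v1).2
    unfold nn at a1 a2
    rw [u2, abs_le] at a1
    rw [v2, abs_le] at a2
    have a3 : |((g u : ℝ) - g v) * θ| ≤ 2 * ε := by
      rw [abs_le]
      constructor <;> linarith [a1.1, a1.2, a2.1, a2.2]
    rw [abs_mul] at a3
    rw [le_div_iff₀ h0]
    push_cast
    exact (mul_le_mul_of_nonneg_right (le_abs_self _) h0.le).trans a3

theorem first {B ε x : ℝ} {X : ℕ} {S : Finset ℕ} (hB : 2 ≤ B) (hX : 100 * B ^ 2 ≤ X)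
    (hS : ∀ h ∈ S, h ≤ X ∧ nn (h * x) ≤ ε) (hc : X / B ≤ S.card) :
    ∃ t : ℕ, 1 ≤ t ∧ (t : ℝ) ≤ 2 * B ∧ nn (t * x) ≤ 2 * ε := by
  have hB0 : 0 < B := by linarith
  have m1 : ((⌊2 * B⌋₊ : ℕ) : ℝ) ≤ 2 * B := Nat.floor_le (by linarith)
  have m2 : 2 * B < (⌊2 * B⌋₊ : ℕ) + 1 := Nat.lt_floor_add_one _
  generalize ⌊2 * B⌋₊ = m at m1 m2
  have m0 : 0 < m := by
    have : (0 : ℝ) < m := by linarith
    exact_mod_cast this
  have hlt : (range (X / m + 1)).card < S.card := by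
    have a1 : ((X / m : ℕ) : ℝ) ≤ X / m := Nat.cast_div_le
    have a2 : (X : ℝ) / m ≤ X / (3 / 2 * B) :=
      div_le_div_of_nonneg_left (Nat.cast_nonneg _) (by positivity) (by linarith)
    have a3 : (X : ℝ) / (3 / 2 * B) = 2 / 3 * (X / B) := by field_simp
    have a4 : 100 * B ≤ X / B := by
      rw [le_div_iff₀ hB0]
      linarith
    have a5 : ((X / m + 1 : ℕ) : ℝ) < S.card := by
      push_cast
      linarith
    rw [card_range]
    exact_mod_cast a5
  have key : ∀ a ∈ S, ∀ b ∈ S, a < b → a / m = b / m →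
      ∃ t : ℕ, 1 ≤ t ∧ (t : ℝ) ≤ 2 * B ∧ nn (t * x) ≤ 2 * ε := by
    intro a ha b hb hab e
    have b1 := Nat.div_add_mod a m
    have b2 := Nat.div_add_mod b m
    have b3 := Nat.mod_lt b m0
    rw [e] at b1
    have b4 : ((b - a : ℕ) : ℝ) ≤ m := by exact_mod_cast (by omega : b - a ≤ m)
    refine ⟨b - a, by omega, b4.trans m1, ?_⟩
    rw [Nat.cast_sub hab.le, sub_mul]
    linarith [nn_sub_le (b * x) (a * x), (hS a ha).2, (hS b hb).2]
  obtain ⟨a, ha, b, hb, hne, e⟩ := exists_ne_map_eq_of_card_lt_of_maps_to hlt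
    (f := fun h => h / m) fun h hh =>
      mem_coe.2 (mem_range.2 (Nat.lt_succ_of_le (Nat.div_le_div_right (hS h hh).1)))
  rcases lt_or_gt_of_ne hne with l | l
  · exact key a ha b hb l e
  · exact key b hb a ha l e.symm

end RVin

open RVin in
theorem vin : VINStmt := by
  intro B ε x X S hB hε hBε hX hS hc
  obtain ⟨t, t1, t2, t3⟩ := first hB hX hS hc
  refine ⟨t, t1, t2, ?_⟩
  have hB0 : 0 < B := by linarith
  have hX0 : (0 : ℝ) < X := by nlinarith
  have t0 : (0 : ℝ) < t := by exact_mod_cast t1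
  obtain ⟨θ, hθ⟩ : ∃ θ : ℝ, θ = t * x - round (t * x) := ⟨_, rfl⟩
  have e : nn (t * x) = |θ| := by rw [hθ, nn]
  rw [e] at t3 ⊢
  by_cases h0 : θ = 0
  · rw [h0, abs_zero]
    positivity
  have p0 : 0 < |θ| := abs_pos.2 h0
  have key := fib S (fun h => h % t) t ((|θ| * (X / t) + 1 + 1) * (2 * ε / |θ| + 1))
    (by positivity) (by
      have : (S.image fun h => h % t).card ≤ (range t).card := card_le_card fun a ha => by
        obtain ⟨h, -, rfl⟩ := mem_image.1 ha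
        exact mem_range.2 (Nat.mod_lt _ t1)
      rw [card_range] at this
      exact_mod_cast this) fun ρ => cnt _ (fun h => h / t) (fun a ha b hb q => by
        have a1 := Nat.div_add_mod a t
        have a2 := Nat.div_add_mod b t
        rw [(mem_filter.1 ha).2] at a1
        rw [(mem_filter.1 hb).2, ← show a / t = b / t from q] at a2
        omega) (ρ * x) θ ε _ h0 hε (by positivity) fun h hh => by
      obtain ⟨h1, h2⟩ := mem_filter.1 hh
      refine ⟨Nat.cast_div_le.trans (div_le_div_of_nonneg_right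
        (by exact_mod_cast (hS h h1).1) t0.le), le_of_eq_of_le ?_ (hS h h1).2⟩
      have a1 : (h : ℝ) = t * (h / t : ℕ) + ρ := by
        rw [← h2]
        exact_mod_cast (Nat.div_add_mod h t).symm
      rw [← nn_add_int _ ((h / t : ℕ) * round (t * x)), hθ]
      congr 1
      generalize h / t = u at a1 ⊢
      rw [a1]
      push_cast
      ring
  obtain ⟨y, hy⟩ : ∃ y, y = ε / |θ| := ⟨_, rfl⟩
  have y0 : 0 ≤ y := by rw [hy]; positivity
  have y1 : |θ| * y = ε := by rw [hy]; field_simp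
  have k1 : (t : ℝ) * ((|θ| * (X / t) + 1 + 1) * (2 * ε / |θ| + 1)) =
      2 * ε * X + |θ| * X + 4 * t * y + 2 * t := by
    rw [hy]
    field_simp
    ring
  have k2 : X ≤ B * (2 * ε * X + |θ| * X + 4 * t * y + 2 * t) := by
    rw [← k1, mul_comm, ← div_le_iff₀ hB0]
    exact hc.trans key
  have k3 : B * (2 * ε * X + |θ| * X) ≤ X / 4 := by
    have a1 : B * |θ| ≤ B * (2 * ε) := mul_le_mul_of_nonneg_left t3 hB0.le
    nlinarith
  have k4 : B * (4 * t * y) ≤ 8 * B ^ 2 * y := by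
    have := mul_le_mul_of_nonneg_left t2 (mul_nonneg hB0.le y0)
    nlinarith
  have k5 : B * (2 * t) ≤ 4 * B ^ 2 := by nlinarith
  have k6 : X ≤ 100 * B ^ 2 * y := by nlinarith [mul_nonneg (sq_nonneg B) y0]
  rw [le_div_iff₀ hX0, ← y1]
  nlinarith

end Pool.Agent.MP_b1aeef_nt.H64
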