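import Pool.Agent.MP_b1aeef_nt.H64.Spec

/-! The Weyl inverse theorem for the top coefficient. -/

open Finset Polynomial Filter Topology
open scoped BigOperators

namespace Pool.Agent.MP_b1aeef_nt.H64

namespace RW0

theorem vdc_eq (F : ℕ → ℂ) (hF : ∀ b, ‖F b‖ = 1) (B L : ℕ) (hL : L ≤ B) :
    ‖∑ b ∈ range L, F b‖ ^ 2 = L + 2 *
      (∑ h ∈ range B, ∑ b ∈ range (L - (h + 1)), F (b + (h + 1)) * (starRingEnd ℂ) (F b)).re := by
  induction L with
  | zero => simp
  | succ L ih =>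
    have e : ∑ h ∈ range B, ∑ b ∈ range (L + 1 - (h + 1)), F (b + (h + 1)) * (starRingEnd ℂ) (F b) =
        ∑ h ∈ range B, ∑ b ∈ range (L - (h + 1)), F (b + (h + 1)) * (starRingEnd ℂ) (F b) +
          F L * (starRingEnd ℂ) (∑ b ∈ range L, F b) := by
      have e1 : F L * (starRingEnd ℂ) (∑ b ∈ range L, F b) =
          ∑ h ∈ range B, if h < L then F L * (starRingEnd ℂ) (F (L - 1 - h)) else 0 := by
        rw [← sum_filter]
        have : (range B).filter (fun h => h < L) = range L := by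
          ext h; simp only [mem_filter, mem_range]; omega
        rw [this, ← sum_range_reflect F L, map_sum, mul_sum]
      rw [e1, ← sum_add_distrib]
      refine sum_congr rfl fun h _ => ?_
      split_ifs with hh
      · have a1 : L + 1 - (h + 1) = L - (h + 1) + 1 := by omega
        have a2 : L - (h + 1) + (h + 1) = L := by omega
        have a3 : L - 1 - h = L - (h + 1) := by omega
        rw [a1, sum_range_succ, a2, a3]
      · have a1 : L + 1 - (h + 1) = 0 := by omega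
        have a2 : L - (h + 1) = 0 := by omega
        rw [a1, a2, add_zero]
    rw [e, sum_range_succ, Complex.add_re, ← Complex.normSq_eq_norm_sq, add_comm _ (F L),
      Complex.normSq_add, Complex.normSq_eq_norm_sq, Complex.normSq_eq_norm_sq, ih (by omega), hF]
    push_cast
    ring

/-- the differenced sums -/
noncomputable def tt (f : ℤ → ℝ) (L h : ℕ) : ℝ :=
  ‖∑ b ∈ range (L - (h + 1)), ee (f (b + ((h + 1 : ℕ) : ℤ)) - f b)‖

theorem vdc (f : ℤ → ℝ) (X L : ℕ) (hL : L ≤ X) :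
    ‖∑ b ∈ range L, ee (f b)‖ ^ 2 ≤ X + 2 * ∑ h ∈ range X, tt f L h := by
  rw [vdc_eq (fun b => ee (f b)) (fun _ => norm_ee _) X L hL]
  have h1 : (L : ℝ) ≤ X := by exact_mod_cast hL
  have h2 := (Complex.re_le_norm _).trans (norm_sum_le (range X) fun h =>
    ∑ b ∈ range (L - (h + 1)), ee (f ((b + (h + 1) : ℕ) : ℤ)) * (starRingEnd ℂ) (ee (f b)))
  have h3 : ∀ h, tt f L h =
      ‖∑ b ∈ range (L - (h + 1)), ee (f ((b + (h + 1) : ℕ) : ℤ)) * (starRingEnd ℂ) (ee (f b))‖ :=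
    fun h => by simp only [tt, ee_sub, Nat.cast_add]
  simp only [h3]
  linarith

theorem tt_le (f : ℤ → ℝ) {X L : ℕ} (hL : L ≤ X) (h : ℕ) : tt f L h ≤ X := by
  refine (norm_sum_le _ _).trans ?_
  simp only [norm_ee, sum_const, card_range, nsmul_eq_mul, mul_one]
  exact_mod_cast (Nat.sub_le _ _).trans hL

theorem many (f : ℤ → ℝ) {B : ℝ} {X L : ℕ} (hB : 2 ≤ B) (hL : L ≤ X) (hX : 2 * B ^ 2 ≤ X)
    (h : X / B ≤ ‖∑ a ∈ range L, ee (f a)‖) :
    X / B ^ 5 ≤ (((range X).filter fun h => X / B ^ 5 ≤ tt f L h).card : ℝ) := by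
  have hB0 : 0 < B := by linarith
  have hX0 : (0 : ℝ) < X := lt_of_lt_of_le (by positivity) hX
  have h1 := (pow_le_pow_left₀ (by positivity) h 2).trans (vdc f X L hL)
  have h2 : ∑ h ∈ range X, tt f L h ≤
      ((range X).filter fun h => X / B ^ 5 ≤ tt f L h).card * X + X * (X / B ^ 5) := by
    rw [← sum_filter_add_sum_filter_not (range X) fun h => X / B ^ 5 ≤ tt f L h]
    refine add_le_add ?_ ?_
    · rw [← nsmul_eq_mul]
      exact sum_le_card_nsmul _ _ _ fun h _ => tt_le f hL h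
    · refine (sum_le_card_nsmul _ _ (X / B ^ 5) fun h hh =>
        (not_le.1 (mem_filter.1 hh).2).le).trans ?_
      rw [nsmul_eq_mul]
      refine mul_le_mul_of_nonneg_right ?_ (by positivity)
      exact_mod_cast (card_filter_le _ _).trans (card_range X).le
  have h3 : (8 : ℝ) ≤ B ^ 3 := (by norm_num : (8 : ℝ) = 2 ^ 3).trans_le
    (pow_le_pow_left₀ zero_le_two hB 3)
  have h4 : 8 * (X / B ^ 5) ≤ X / B ^ 2 := by
    rw [← mul_div_assoc, div_le_div_iff₀ (by positivity) (by positivity)]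
    have := mul_le_mul_of_nonneg_right h3 (show 0 ≤ X * B ^ 2 by positivity)
    linarith [show B ^ 3 * (X * B ^ 2) = X * B ^ 5 by ring]
  have h5 : 2 ≤ X / B ^ 2 := (le_div_iff₀ (by positivity)).2 hX
  rw [div_pow, pow_two, mul_div_assoc] at h1
  refine le_of_mul_le_mul_right ?_ hX0
  nlinarith [mul_le_mul_of_nonneg_left h4 hX0.le, mul_le_mul_of_nonneg_left h5 hX0.le]

end RW0

theorem w0 (h : VINStmt) : W0Stmt := by
  intro r hr
  induction r, hr using Nat.le_induction with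
  | base =>
    refine ⟨1, fun B γ X L f hB hX _ hf hs => ⟨1, le_rfl, by simp; linarith, ?_⟩⟩
    have h1 := geom_ee L γ (f 0)
    have h2 : ∀ a : ℕ, f a = a * γ + f 0 := fun a => by
      have : f (0 + a) - f 0 = ((a : ℤ) : ℝ) * γ := hf a 0
      rw [zero_add, Int.cast_natCast] at this
      linarith
    simp only [← h2] at h1
    have hX0 : (0 : ℝ) < X := by exact_mod_cast hX
    rw [Nat.cast_one, one_mul, pow_one, pow_one, le_div_iff₀ hX0]
    rw [div_le_iff₀ (by linarith)] at hs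
    nlinarith [mul_le_mul_of_nonneg_left hs (nn_nonneg γ), nn_nonneg γ,
      mul_le_mul_of_nonneg_left h1 (show 0 ≤ B by linarith)]
  | succ r hr ih =>
    obtain ⟨C, ih⟩ := ih
    refine ⟨(10 * (C + 1) + 7) * (r + 1) + 5 * C, fun B γ X L f hB hX hL hf hs => ?_⟩
    have hB1 : 1 ≤ B := by linarith
    have hB0 : 0 < B := by linarith
    have hX1 : (1 : ℝ) ≤ X := by exact_mod_cast hX
    have h7 : (100 : ℝ) ≤ B ^ 7 := (by norm_num : (100 : ℝ) ≤ 2 ^ 7).trans
      (pow_le_pow_left₀ zero_le_two hB 7)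
    have hE : 100 * ((B ^ 5) ^ (C + 1)) ^ 2 ≤ B ^ (10 * (C + 1) + 7) := by
      rw [← pow_mul, ← pow_mul, pow_add _ _ 7, mul_comm,
        show 5 * ((C + 1) * 2) = 10 * (C + 1) by ring]
      exact mul_le_mul_of_nonneg_left h7 (by positivity)
    rcases le_total (X : ℝ) (100 * ((B ^ 5) ^ (C + 1)) ^ 2) with hs' | hb
    · refine ⟨1, le_rfl, by simpa using one_le_pow₀ hB1, (nn_le_half _).trans ?_⟩
      rw [le_div_iff₀ (by positivity)]
      have h1 := pow_le_pow_left₀ (by positivity) (hs'.trans hE) (r + 1)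
      rw [← pow_mul] at h1
      have h2 := pow_le_pow_right₀ hB1 (Nat.le_add_right ((10 * (C + 1) + 7) * (r + 1)) (5 * C))
      have : (0 : ℝ) ≤ (X : ℝ) ^ (r + 1) := by positivity
      linarith
    have hB5 : B ≤ B ^ 5 := le_self_pow₀ hB1 (by norm_num)
    have hD : B ^ 5 ≤ (B ^ 5) ^ (C + 1) := le_self_pow₀ (by linarith) (by omega)
    have hD' : (B ^ 5) ^ C ≤ (B ^ 5) ^ (C + 1) := pow_le_pow_right₀ (by linarith) (by omega)
    have hD1 : 1 ≤ (B ^ 5) ^ C := one_le_pow₀ (by linarith)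
    have hm := RW0.many f hB hL (by nlinarith) hs
    set H := (range X).filter fun h => X / B ^ 5 ≤ RW0.tt f L h with hH
    have hex : ∀ k : ℕ, ∃ t : ℕ, k ∈ H → 1 ≤ t ∧ (t : ℝ) ≤ (B ^ 5) ^ C ∧
        nn (t * (((k + 1 : ℕ) : ℤ) * γ)) ≤ (B ^ 5) ^ C / (X : ℝ) ^ r := fun k => by
      by_cases hk : k ∈ H
      · obtain ⟨t, ht⟩ := ih (B ^ 5) _ X (L - (k + 1)) _ (by linarith) hX (by omega)
          (hf ((k + 1 : ℕ) : ℤ)) (mem_filter.1 hk).2
        exact ⟨t, fun _ => ht⟩
      · exact ⟨0, fun h => absurd h hk⟩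
    choose g hg using hex
    obtain ⟨t, ht, hc⟩ := exists_le_card_fiber_of_nsmul_le_card_of_maps_to (s := H) (f := g)
      (t := Icc 1 ⌊(B ^ 5) ^ C⌋₊) (b := X / (B ^ 5) ^ (C + 1))
      (fun k hk => mem_Icc.2 ⟨(hg k hk).1, Nat.le_floor (hg k hk).2.1⟩)
      ⟨1, mem_Icc.2 ⟨le_rfl, Nat.le_floor (by simpa using hD1)⟩⟩ (by
        refine le_trans ?_ hm
        rw [Nat.card_Icc, Nat.add_sub_cancel, nsmul_eq_mul]
        refine (mul_le_mul_of_nonneg_right (Nat.floor_le (by positivity))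
          (by positivity)).trans_eq ?_
        rw [pow_succ _ C]
        field_simp)
    have ht2 : (t : ℝ) ≤ (B ^ 5) ^ C := (Nat.le_floor_iff (by positivity)).1 (mem_Icc.1 ht).2
    have hXr : (X : ℝ) ≤ (X : ℝ) ^ r := le_self_pow₀ hX1 (by omega)
    obtain ⟨u, hu1, hu2, hu3⟩ := h ((B ^ 5) ^ (C + 1)) ((B ^ 5) ^ C / (X : ℝ) ^ r) (t * γ) X
      ((H.filter fun k => g k = t).image (· + 1)) (by linarith) (by positivity) (by
        rw [← mul_div_assoc, div_le_one (by positivity)]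
        nlinarith) hb (fun k hk => by
        obtain ⟨l, hl, rfl⟩ := mem_image.1 hk
        obtain ⟨h1, h2⟩ := mem_filter.1 hl
        refine ⟨mem_range.1 (mem_filter.1 h1).1, le_of_eq_of_le ?_ (hg l h1).2.2⟩
        rw [Int.cast_natCast, mul_left_comm, h2]) (by
        rwa [card_image_of_injective _ (add_left_injective 1)])
    have hF : 100 * ((B ^ 5) ^ (C + 1)) ^ 2 * (B ^ 5) ^ C ≤
        B ^ ((10 * (C + 1) + 7) * (r + 1) + 5 * C) := by
      rw [pow_add _ _ (5 * C), pow_mul B 5 C]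
      refine mul_le_mul_of_nonneg_right (hE.trans (pow_le_pow_right₀ hB1 ?_)) (by positivity)
      exact Nat.le_mul_of_pos_right _ (by omega)
    refine ⟨u * t, Nat.mul_pos hu1 (mem_Icc.1 ht).1, le_trans ?_ hF, ?_⟩
    · rw [Nat.cast_mul]
      exact mul_le_mul (hu2.trans (by nlinarith)) ht2 (by positivity) (by positivity)
    · rw [Nat.cast_mul, mul_assoc]
      refine hu3.trans ?_
      rw [← mul_div_assoc, div_div, ← pow_succ]
      exact div_le_div_of_nonneg_right hF (by positivity)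

end Pool.Agent.MP_b1aeef_nt.H64
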