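import Pool.Agent.MP_b1aeef_nt.H64.Spec

/-! Row W1: polynomial recurrence with polynomial density. -/

open Finset Polynomial Filter Topology
open scoped BigOperators

namespace Pool.Agent.MP_b1aeef_nt.H64

namespace RW1

theorem nat_le_pow {B : ℝ} (hB : 2 ≤ B) (m : ℕ) : (m : ℝ) ≤ B ^ m := by
  have h1 : (m : ℝ) ≤ (2 : ℝ) ^ m := by exact_mod_cast (Nat.lt_two_pow_self).le
  exact h1.trans (pow_le_pow_left₀ (by norm_num) hB m)

theorem small (x : ℕ) (hx : 1 ≤ x) :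
    (5 / 8 : ℝ) ^ (10 * x) ≤ 1 / 4 * (1 / (10 * (x : ℝ) ^ 2 + 1)) := by
  have hx1 : (1 : ℝ) ≤ x := by exact_mod_cast hx
  have h1 : (5 / 8 : ℝ) ^ (10 * x) ≤ (1 / 100 : ℝ) ^ x := by
    rw [pow_mul]; exact pow_le_pow_left₀ (by positivity) (by norm_num) x
  have h2 : 1 + (x : ℝ) * 9 ≤ (1 + 9 : ℝ) ^ x := one_add_mul_le_pow (by norm_num) x
  have h3 : (1 / 100 : ℝ) ^ x = 1 / ((1 + 9 : ℝ) ^ x) ^ 2 := by
    rw [← pow_mul, mul_comm x 2, pow_mul, one_div_pow]; norm_num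
  refine h1.trans ?_
  rw [h3, div_mul_div_comm, one_mul]
  refine one_div_le_one_div_of_le (by positivity) ?_
  nlinarith

/-- choice of the kernel -/
theorem choice (n : ℕ) (hn : 1 ≤ n) : ∃ c : ℕ, ∀ B : ℝ, 2 ≤ B → ∃ U K : ℕ, 1 ≤ U ∧ B ≤ U ∧
    (K * U : ℝ) + 1 ≤ B ^ c ∧ (5 / 8 : ℝ) ^ K ≤ (1 / ((K * U : ℝ) + 1)) ^ n / 4 := by
  refine ⟨10 * n ^ 2 + 5, fun B hB => ?_⟩
  obtain ⟨U, hU1, hU2⟩ : ∃ U : ℕ, B ≤ U ∧ (U : ℝ) ≤ B ^ 2 :=
    ⟨⌈B⌉₊, Nat.le_ceil B, by have := Nat.ceil_lt_add_one (a := B) (by linarith); nlinarith⟩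
  have hU : 1 ≤ U := by
    have : (1 : ℝ) ≤ U := by linarith
    exact_mod_cast this
  have hn1 : (1 : ℝ) ≤ n := by exact_mod_cast hn
  refine ⟨U, 10 * (n * U) * n, hU, hU1, ?_, ?_⟩
  · have h1 := nat_le_pow hB (10 * n ^ 2)
    have h2 : (U : ℝ) ^ 2 ≤ B ^ 4 := by
      have := pow_le_pow_left₀ (by positivity) hU2 2
      rwa [← pow_mul] at this
    have h3 : (10 * (n : ℝ) ^ 2) * (U : ℝ) ^ 2 ≤ B ^ (10 * n ^ 2) * B ^ 4 := by
      refine mul_le_mul (by exact_mod_cast h1) h2 (by positivity) (by positivity)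
    have h4 : (1 : ℝ) ≤ B ^ (10 * n ^ 2) * B ^ 4 := by
      rw [← pow_add]; exact one_le_pow₀ (by linarith)
    have h5 : B ^ (10 * n ^ 2 + 5) = B ^ (10 * n ^ 2) * B ^ 4 * B := by ring
    rw [h5]; push_cast; nlinarith
  · have h1 := small (n * U) (Nat.mul_pos hn hU)
    have e : ((10 * (n * U) * n : ℕ) : ℝ) * U = 10 * ((n * U : ℕ) : ℝ) ^ 2 := by push_cast; ring
    rw [e, pow_mul]
    refine (pow_le_pow_left₀ (by positivity) h1 n).trans ?_
    rw [mul_pow]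
    have h2 : (1 / 4 : ℝ) ^ n ≤ 1 / 4 := pow_le_of_le_one (by norm_num) (by norm_num) (by omega)
    have h3 : (0 : ℝ) ≤ (1 / (10 * ((n * U : ℕ) : ℝ) ^ 2 + 1)) ^ n := by positivity
    nlinarith

/-- if no nonzero frequency correlates, the good set is dense -/
theorem dich (hk : KFStmt) (hw : WTStmt) {ι : Type} (S : Finset ι) (x : ℕ → ι → ℝ) (U K X : ℕ)
    (B p : ℝ) (hU : 1 ≤ U) (hB0 : 0 < B) (hBU : B ≤ U) (hp0 : 0 ≤ p)
    (hp : p ≤ ∏ _t ∈ S, 1 / ((K * U : ℝ) + 1)) (hK : (5 / 8 : ℝ) ^ K ≤ p / 4)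
    (h : ∀ u : ι → ℤ, (∀ t ∈ S, |u t| ≤ (K * U : ℕ)) → (∃ t ∈ S, u t ≠ 0) →
      ‖∑ a ∈ range X, ee (∑ t ∈ S, u t * x a t)‖ ≤ X * p / 2) :
    X * p / 4 ≤ ∑ a ∈ range X, ind (∀ t ∈ S, nn (x a t) ≤ 1 / B) := by
  classical
  obtain ⟨κ, _, c, u, hc0, hc1, hu, hz, hf⟩ := hk ι S (fun _ => U) K fun _ _ => hU
  obtain ⟨w1, -, -, w4, -⟩ := hw U K hU
  have hX : (0 : ℝ) ≤ X := by positivity
  have up : ∀ a, ∏ t ∈ S, wt U K (x a t) ≤ ind (∀ t ∈ S, nn (x a t) ≤ 1 / B) + p / 4 := by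
    intro a
    by_cases hg : ∀ t ∈ S, nn (x a t) ≤ 1 / B
    · rw [ind_pos hg]
      have : ∏ t ∈ S, wt U K (x a t) ≤ 1 :=
        prod_le_one (fun t _ => (w1 _).1.le) fun t _ => (w1 _).2
      linarith
    · rw [ind_neg hg, zero_add]
      push Not at hg
      obtain ⟨t, ht, hg⟩ := hg
      rw [← mul_prod_erase S _ ht]
      have h1 : ∏ s ∈ S.erase t, wt U K (x a s) ≤ 1 :=
        prod_le_one (fun s _ => (w1 _).1.le) fun s _ => (w1 _).2
      have h2 : wt U K (x a t) ≤ (5 / 8) ^ K := by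
        refine w4 _ ?_
        rw [div_lt_iff₀ hB0] at hg
        nlinarith [nn_nonneg (x a t)]
      have h3 := (w1 (x a t)).1
      nlinarith
  have e : ∑ a ∈ range X, ∏ t ∈ S, wt U K (x a t) =
      ∑ i, c i * (∑ a ∈ range X, ee (∑ t ∈ S, u i t * x a t)).re := by
    have : ∀ a, ∏ t ∈ S, wt U K (x a t) = ∑ i, c i * (ee (∑ t ∈ S, u i t * x a t)).re := by
      intro a
      have := congrArg Complex.re (hf (x a))
      rw [Complex.ofReal_re, Complex.re_sum] at this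
      rw [this]
      exact sum_congr rfl fun i _ => Complex.re_ofReal_mul _ _
    rw [sum_congr rfl fun a _ => this a, sum_comm]
    exact sum_congr rfl fun i _ => by rw [Complex.re_sum, mul_sum]
  have lo : ∀ i, X * ind (∀ t ∈ S, u i t = 0) - X * p / 2 ≤
      (∑ a ∈ range X, ee (∑ t ∈ S, u i t * x a t)).re := by
    intro i
    by_cases hg : ∀ t ∈ S, u i t = 0
    · have : ∀ a, ∑ t ∈ S, (u i t : ℝ) * x a t = 0 := fun a =>
        sum_eq_zero fun t ht => by simp [hg t ht]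
      rw [ind_pos hg]
      simp only [this, ee_zero, sum_const, card_range, nsmul_eq_mul, mul_one, Complex.natCast_re]
      have := mul_nonneg hX hp0
      linarith
    · rw [ind_neg hg]
      push Not at hg
      have h1 := h (u i) (hu i) hg
      have h2 := Complex.abs_re_le_norm (∑ a ∈ range X, ee (∑ t ∈ S, u i t * x a t))
      have h3 := neg_abs_le (∑ a ∈ range X, ee (∑ t ∈ S, u i t * x a t)).re
      linarith
  have s1 : ∑ i, c i * (X * ind (∀ t ∈ S, u i t = 0) - X * p / 2) ≤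
      ∑ a ∈ range X, (ind (∀ t ∈ S, nn (x a t) ≤ 1 / B) + p / 4) := by
    refine le_trans ?_ (sum_le_sum fun a _ => up a)
    rw [e]
    exact sum_le_sum fun i _ => mul_le_mul_of_nonneg_left (lo i) (hc0 i)
  have s2 : ∑ i, c i * (X * ind (∀ t ∈ S, u i t = 0) - X * p / 2) =
      X * ∑ i, c i * ind (∀ t ∈ S, u i t = 0) - X * p / 2 * ∑ i, c i := by
    rw [mul_sum, mul_sum, ← sum_sub_distrib]
    exact sum_congr rfl fun i _ => by ring
  rw [s2, hc1, sum_add_distrib, sum_const, card_range, nsmul_eq_mul] at s1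
  have s3 := mul_le_mul_of_nonneg_left (hp.trans hz) hX
  linarith

/-- the structured case, pointwise -/
theorem lift {ι : Type} [DecidableEq ι] (S : Finset ι) (ξ : ι → ℝ) (u : ι → ℤ) (t0 : ι)
    (ht0 : t0 ∈ S) (Q M j a : ℕ) (hM : M = Q * (u t0).natAbs) (D e1 e2 : ℝ) (he2 : 0 ≤ e2)
    (hD : ∀ t ∈ S, (Q : ℝ) * |(u t : ℝ)| ≤ D)
    (h1 : (M : ℝ) ^ j * (a : ℝ) ^ (j + 1) * nn (Q * ∑ t ∈ S, u t * ξ t) ≤ e1)
    (h2 : ∀ t ∈ S.erase t0, nn ((M : ℝ) ^ j * ξ t * (a : ℝ) ^ (j + 1)) ≤ e2) :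
    ∀ t ∈ S, nn (ξ t * ((M * a : ℕ) : ℝ) ^ (j + 1)) ≤ e1 + S.card * D * e2 := by
  have hMr : (M : ℝ) = Q * |(u t0 : ℝ)| := by
    rw [hM, Nat.cast_mul, Nat.cast_natAbs, Int.cast_abs]
  have hD0 : 0 ≤ D := le_trans (by positivity) (hD t0 ht0)
  have he1 : 0 ≤ e1 := le_trans (mul_nonneg (by positivity) (nn_nonneg _)) h1
  have hc : (1 : ℝ) ≤ S.card := by exact_mod_cast card_pos.2 ⟨t0, ht0⟩
  have hDe : 0 ≤ D * e2 := mul_nonneg hD0 he2
  intro t ht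
  by_cases htt : t = t0
  · subst htt
    have e0 : (u t : ℝ) * ξ t = ∑ s ∈ S, u s * ξ s - ∑ s ∈ S.erase t, u s * ξ s := by
      rw [← add_sum_erase S (fun s => (u s : ℝ) * ξ s) ht]; ring
    have key : nn ((M : ℝ) ^ j * (a : ℝ) ^ (j + 1) * Q * (u t * ξ t)) ≤ e1 + S.card * D * e2 := by
      have e1' : (M : ℝ) ^ j * (a : ℝ) ^ (j + 1) * Q * (u t * ξ t) =
          ((M ^ j * a ^ (j + 1) : ℕ) : ℝ) * (Q * ∑ s ∈ S, u s * ξ s) -
            ∑ s ∈ S.erase t, ((Q * u s : ℤ) : ℝ) * ((M : ℝ) ^ j * ξ s * (a : ℝ) ^ (j + 1)) := by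
        rw [e0, mul_sub, mul_sum (S.erase t)]
        push_cast
        rw [mul_assoc _ (Q : ℝ)]
        congr 1
        exact sum_congr rfl fun s _ => by ring
      rw [e1']
      refine (nn_sub_le _ _).trans (add_le_add ((nn_nat_mul_le _ _).trans ?_) ?_)
      · push_cast; exact h1
      · refine (nn_sum_le _ _).trans ?_
        have : ∀ s ∈ S.erase t,
            nn (((Q * u s : ℤ) : ℝ) * ((M : ℝ) ^ j * ξ s * (a : ℝ) ^ (j + 1))) ≤ D * e2 := by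
          intro s hs
          refine (nn_int_mul_le _ _).trans (mul_le_mul ?_ (h2 s hs) (nn_nonneg _) hD0)
          have := hD s (mem_of_mem_erase hs)
          push_cast
          rwa [abs_mul, Nat.abs_cast]
        refine (sum_le_card_nsmul _ _ _ this).trans ?_
        have h3 : ((S.erase t).card : ℝ) ≤ S.card := by exact_mod_cast card_erase_le
        rw [nsmul_eq_mul, mul_assoc]
        exact mul_le_mul_of_nonneg_right h3 hDe
    have e2' : ξ t * ((M * a : ℕ) : ℝ) ^ (j + 1) =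
        (M : ℝ) ^ j * (a : ℝ) ^ (j + 1) * Q * (|(u t : ℝ)| * ξ t) := by
      push_cast
      rw [mul_pow, pow_succ (M : ℝ)]
      linear_combination ξ t * (M : ℝ) ^ j * (a : ℝ) ^ (j + 1) * hMr
    rw [e2']
    rcases abs_choice (u t : ℝ) with h | h
    · rw [h]; exact key
    · rw [h, neg_mul, mul_neg, nn_neg]; exact key
  · have e2' : ξ t * ((M * a : ℕ) : ℝ) ^ (j + 1) =
        (M : ℝ) * ((M : ℝ) ^ j * ξ t * (a : ℝ) ^ (j + 1)) := by push_cast; ring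
    rw [e2']
    refine (nn_nat_mul_le _ _).trans ?_
    have h3 : (M : ℝ) * nn ((M : ℝ) ^ j * ξ t * (a : ℝ) ^ (j + 1)) ≤ D * e2 :=
      mul_le_mul (hMr ▸ hD t0 ht0) (h2 t (mem_erase.2 ⟨htt, ht⟩)) (nn_nonneg _) hD0
    nlinarith

/-- counting along multiples of `M` -/
theorem inj_count (p p' : ℕ → Prop) (M X X' : ℕ) (hM : 1 ≤ M) (hX : M * X' ≤ X)
    (h : ∀ a, a + 1 ≤ X' → p' (a + 1) → p (M * (a + 1))) :
    ∑ a ∈ range X', ind (p' (a + 1)) ≤ ∑ a ∈ range X, ind (p (a + 1)) := by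
  have hpos : ∀ a, 1 ≤ M * (a + 1) := fun a => Nat.mul_pos hM (by omega)
  have h1 : ∑ a ∈ range X', ind (p' (a + 1)) ≤
      ∑ a ∈ range X', ind (p (M * (a + 1) - 1 + 1)) := by
    refine sum_le_sum fun a ha => ?_
    rw [Nat.sub_add_cancel (hpos a)]
    by_cases hp : p' (a + 1)
    · rw [ind_pos hp, ind_pos (h a (mem_range.1 ha) hp)]
    · rw [ind_neg hp]; exact ind_nonneg _
  refine h1.trans ?_
  rw [← sum_image (s := range X') (g := fun a => M * (a + 1) - 1) (f := fun b => ind (p (b + 1)))]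
  · refine sum_le_sum_of_subset_of_nonneg ?_ fun _ _ _ => ind_nonneg _
    intro b hb
    obtain ⟨a, ha, rfl⟩ := mem_image.1 hb
    have h2 : M * (a + 1) ≤ M * X' := Nat.mul_le_mul_left _ (mem_range.1 ha)
    have := hpos a
    rw [mem_range]; omega
  · intro a _ b _ hab
    have h2 := hpos a
    have h3 := hpos b
    have h4 : M * (a + 1) = M * (b + 1) := by
      simp only at hab
      omega
    have := Nat.eq_of_mul_eq_mul_left hM h4
    omega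

theorem isPoly_mon (k : ℕ) (Ξ : ℝ) :
    IsPoly k (k.factorial * Ξ) fun n => Ξ * ((n : ℝ) + 1) ^ k := by
  refine (IsPoly.shift 1 (isPoly_eval k (monomial k Ξ) (natDegree_monomial_le Ξ))).congr
    (by simp) fun n => ?_
  simp

/-- the structured case -/
theorem struct {ι : Type} [DecidableEq ι] (S : Finset ι) (ξ : ι → ℝ) (u : ι → ℤ) (t0 : ι)
    (ht0 : t0 ∈ S) (hu0 : u t0 ≠ 0) (Q j T c C X : ℕ) (B : ℝ) (hB : 2 ≤ B) (hQ : 1 ≤ Q)
    (hS : S.card ≤ T + 1) (hD : ∀ t ∈ S, (Q : ℝ) * |(u t : ℝ)| ≤ B ^ c)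
    (hΞ : nn (Q * ∑ t ∈ S, u t * ξ t) ≤ B ^ c / (X : ℝ) ^ (j + 1))
    (ih : ∀ (S : Finset ι) (ξ : ι → ℝ) (B : ℝ) (X : ℕ), S.card ≤ T → 2 ≤ B → B ^ C ≤ X →
      X / B ^ C ≤ ∑ a ∈ range X, ind (∀ t ∈ S, nn (ξ t * ((a + 1 : ℕ) : ℝ) ^ (j + 1)) ≤ 1 / B))
    (hX : B ^ (c * (j + 1) + 2 + 1 + (T + 1 + c + 2) * C) ≤ X) :
    X / B ^ (c * (j + 1) + 2 + 1 + (T + 1 + c + 2) * C) ≤
      ∑ a ∈ range X, ind (∀ t ∈ S, nn (ξ t * ((a + 1 : ℕ) : ℝ) ^ (j + 1)) ≤ 1 / B) := by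
  have hB0 : 0 < B := by linarith
  have hB1 : 1 ≤ B := by linarith
  obtain ⟨M, hM⟩ : ∃ M, M = Q * (u t0).natAbs := ⟨_, rfl⟩
  have hM1 : 1 ≤ M := hM ▸ Nat.mul_pos hQ (Int.natAbs_pos.2 hu0)
  have hMc : (M : ℝ) ≤ B ^ c := by
    rw [hM, Nat.cast_mul, Nat.cast_natAbs, Int.cast_abs]; exact hD t0 ht0
  obtain ⟨B3, hB3⟩ : ∃ B3, B3 = B ^ (c * (j + 1) + 2) := ⟨_, rfl⟩
  obtain ⟨B4, hB4⟩ : ∃ B4, B4 = B ^ (T + 1 + c + 2) := ⟨_, rfl⟩
  have h31 : 1 ≤ B3 := hB3 ▸ one_le_pow₀ hB1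
  have h42 : 2 ≤ B4 := hB4 ▸ hB.trans (le_self_pow₀ hB1 (by omega))
  have h4C : 1 ≤ B4 ^ C := one_le_pow₀ (by linarith)
  have e : B ^ (c * (j + 1) + 2 + 1 + (T + 1 + c + 2) * C) = B3 * B * B4 ^ C := by
    rw [hB3, hB4, ← pow_mul, ← pow_succ, ← pow_add]
  rw [e] at hX ⊢
  have hX0 : (0 : ℝ) < X := lt_of_lt_of_le (by positivity) hX
  obtain ⟨X', hX1, hX2⟩ : ∃ X' : ℕ, X' * B3 ≤ X ∧ X ≤ (X' + 1) * B3 := by
    refine ⟨⌊X / B3⌋₊, ?_, ?_⟩
    · rw [← le_div_iff₀ (by linarith)]; exact Nat.floor_le (by positivity)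
    · rw [← div_le_iff₀ (by linarith)]; exact (Nat.lt_floor_add_one _).le
  have hX3 : B * B4 ^ C ≤ X' + 1 := by
    refine le_of_mul_le_mul_right (a := B3) ?_ (by linarith)
    linarith
  have hX4 : B4 ^ C ≤ X' := by nlinarith
  have hX5 : (X : ℝ) ≤ X' * (B3 * B) := by
    have : (X' : ℝ) + 1 ≤ X' * B := by nlinarith
    nlinarith
  have hcard : (S.erase t0).card ≤ T := by rw [card_erase_of_mem ht0]; omega
  have h1 := ih (S.erase t0) (fun t => (M : ℝ) ^ j * ξ t) B4 X' hcard h42 hX4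
  have h2 : X / (B3 * B * B4 ^ C) ≤ X' / B4 ^ C := by
    rw [← div_div]
    refine div_le_div_of_nonneg_right ?_ (by positivity)
    rwa [div_le_iff₀ (by positivity)]
  refine h2.trans (h1.trans ?_)
  refine inj_count (fun a => ∀ t ∈ S, nn (ξ t * ((a : ℕ) : ℝ) ^ (j + 1)) ≤ 1 / B)
    (fun a => ∀ t ∈ S.erase t0, nn ((M : ℝ) ^ j * ξ t * ((a : ℕ) : ℝ) ^ (j + 1)) ≤ 1 / B4)
    M X X' hM1 ?_ ?_
  · have h3 : B ^ c ≤ B3 := hB3 ▸ pow_le_pow_right₀ hB1 (by nlinarith)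
    have h4 : (M : ℝ) * X' ≤ X := by
      have : (0 : ℝ) ≤ X' := by positivity
      nlinarith
    exact_mod_cast h4
  · intro a ha hp t ht
    have ha' : ((a + 1 : ℕ) : ℝ) ≤ X' := by exact_mod_cast ha
    have hBB : 1 / B ^ 2 + 1 / B ^ 2 ≤ 1 / B := by
      rw [← add_div, div_le_div_iff₀ (by positivity) hB0]; nlinarith
    refine (lift S ξ u t0 ht0 Q M j (a + 1) hM (B ^ c) (1 / B ^ 2) (1 / B4) (by positivity) hD
      ?_ hp t ht).trans (le_trans (add_le_add le_rfl ?_) hBB)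
    · have h3 : ((a + 1 : ℕ) : ℝ) / X ≤ 1 / B3 := by
        rw [div_le_div_iff₀ hX0 (by linarith)]; nlinarith
      have h4 : (((a + 1 : ℕ) : ℝ) / X) ^ (j + 1) ≤ 1 / B3 := by
        refine (pow_le_pow_left₀ (by positivity) h3 _).trans ?_
        exact pow_le_of_le_one (by positivity) ((div_le_one (by linarith)).2 h31) (by omega)
      have h5 : (M : ℝ) ^ j ≤ (B ^ c) ^ j := pow_le_pow_left₀ (by positivity) hMc j
      calc (M : ℝ) ^ j * ((a + 1 : ℕ) : ℝ) ^ (j + 1) * nn (Q * ∑ t ∈ S, u t * ξ t)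
          ≤ (B ^ c) ^ j * ((a + 1 : ℕ) : ℝ) ^ (j + 1) * (B ^ c / (X : ℝ) ^ (j + 1)) := by
            refine mul_le_mul (mul_le_mul_of_nonneg_right h5 (by positivity)) hΞ (nn_nonneg _)
              (by positivity)
        _ = (B ^ c) ^ (j + 1) * (((a + 1 : ℕ) : ℝ) / X) ^ (j + 1) := by
            rw [div_pow, pow_succ (B ^ c)]; ring
        _ ≤ (B ^ c) ^ (j + 1) * (1 / B3) := mul_le_mul_of_nonneg_left h4 (by positivity)
        _ = 1 / B ^ 2 := by rw [hB3, ← pow_mul, pow_add]; field_simp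
    · have h3 : (S.card : ℝ) ≤ B ^ (T + 1) :=
        le_trans (by exact_mod_cast hS) (nat_le_pow hB (T + 1))
      calc (S.card : ℝ) * B ^ c * (1 / B4) ≤ B ^ (T + 1) * B ^ c * (1 / B4) := by gcongr
        _ = 1 / B ^ 2 := by rw [hB4, ← pow_add, pow_add _ _ 2]; field_simp

end RW1

open RW1 in
theorem w1 (h0 : W0Stmt) (hk : KFStmt) (hw : WTStmt) : W1Stmt := by
  classical
  intro T k hk1
  obtain ⟨j, rfl⟩ : ∃ j, k = j + 1 := ⟨k - 1, by omega⟩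
  induction T with
  | zero =>
    refine ⟨0, fun ι S ξ B X hS _ _ => ?_⟩
    obtain rfl : S = ∅ := card_eq_zero.1 (by omega)
    simp [ind]
  | succ T ih =>
    obtain ⟨C, hC⟩ := ih
    obtain ⟨C0, hC0⟩ := h0 (j + 1) hk1
    obtain ⟨c1, hc1⟩ := choice (T + 1) (by omega)
    obtain ⟨c, hc⟩ : ∃ c, c = (c1 * (T + 1) + 1) * C0 + (j + 1).factorial + c1 := ⟨_, rfl⟩
    obtain ⟨C2, hC2⟩ : ∃ C2, C2 = c * (j + 1) + 2 + 1 + (T + 1 + c + 2) * C := ⟨_, rfl⟩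
    refine ⟨c1 * (T + 1) + 2 + C2, fun ι S ξ B X hS hB hX => ?_⟩
    have hB0 : 0 < B := by linarith
    have hB1 : 1 ≤ B := by linarith
    have hX1 : (1 : ℝ) ≤ X := (one_le_pow₀ hB1).trans hX
    obtain ⟨U, K, hU, hBU, hKU, hK⟩ := hc1 B hB
    obtain ⟨p, hp⟩ : ∃ p : ℝ, p = (1 / ((K * U : ℝ) + 1)) ^ (T + 1) := ⟨_, rfl⟩
    have hp0 : 0 ≤ p := by rw [hp]; positivity
    have hp1 : 1 / B ^ (c1 * (T + 1)) ≤ p := by
      rw [hp, pow_mul, ← one_div_pow]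
      exact pow_le_pow_left₀ (by positivity) (one_div_le_one_div_of_le (by positivity) hKU) _
    have hp2 : p ≤ ∏ _t ∈ S, 1 / ((K * U : ℝ) + 1) := by
      rw [hp, prod_const]
      refine pow_le_pow_of_le_one (by positivity) ?_ hS
      rw [div_le_one (by positivity)]
      have : (0 : ℝ) ≤ K * U := by positivity
      linarith
    by_cases h : ∀ u : ι → ℤ, (∀ t ∈ S, |u t| ≤ (K * U : ℕ)) → (∃ t ∈ S, u t ≠ 0) →
        ‖∑ a ∈ range X, ee (∑ t ∈ S, u t * (ξ t * ((a + 1 : ℕ) : ℝ) ^ (j + 1)))‖ ≤ X * p / 2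
    · refine le_trans ?_ (dich hk hw S (fun a t => ξ t * ((a + 1 : ℕ) : ℝ) ^ (j + 1)) U K X B p
        hU hB0 hBU hp0 hp2 (hp ▸ hK) h)
      have h1 : B ^ (c1 * (T + 1)) * 4 ≤ B ^ (c1 * (T + 1) + 2 + C2) := by
        rw [add_assoc, pow_add]
        refine mul_le_mul_of_nonneg_left ?_ (by positivity)
        exact le_trans (by nlinarith) (pow_le_pow_right₀ hB1 (Nat.le_add_right 2 C2))
      calc X / B ^ (c1 * (T + 1) + 2 + C2) ≤ X / (B ^ (c1 * (T + 1)) * 4) :=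
            div_le_div_of_nonneg_left (by positivity) (by positivity) h1
        _ = X * (1 / B ^ (c1 * (T + 1))) / 4 := by field_simp
        _ ≤ X * p / 4 := by gcongr
    · push Not at h
      obtain ⟨u, hu, ⟨t0, ht0, hu0⟩, h⟩ := h
      have hB2 : 2 ≤ B ^ (c1 * (T + 1) + 1) := hB.trans (le_self_pow₀ hB1 (by omega))
      have hsum : X / B ^ (c1 * (T + 1) + 1) ≤ ‖∑ a ∈ range X,
          ee ((∑ t ∈ S, u t * ξ t) * ((((a : ℕ) : ℤ) : ℝ) + 1) ^ (j + 1))‖ := by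
        have e : ∑ a ∈ range X, ee ((∑ t ∈ S, u t * ξ t) * ((((a : ℕ) : ℤ) : ℝ) + 1) ^ (j + 1)) =
            ∑ a ∈ range X, ee (∑ t ∈ S, u t * (ξ t * ((a + 1 : ℕ) : ℝ) ^ (j + 1))) := by
          refine sum_congr rfl fun a _ => ?_
          rw [sum_mul]
          refine congrArg ee (sum_congr rfl fun t _ => ?_)
          push_cast; ring
        rw [e]
        refine le_trans ?_ h.le
        have h1 : B ^ (c1 * (T + 1)) * 2 ≤ B ^ (c1 * (T + 1) + 1) := by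
          rw [pow_succ]; exact mul_le_mul_of_nonneg_left hB (by positivity)
        calc X / B ^ (c1 * (T + 1) + 1) ≤ X / (B ^ (c1 * (T + 1)) * 2) :=
              div_le_div_of_nonneg_left (by positivity) (by positivity) h1
          _ = X * (1 / B ^ (c1 * (T + 1))) / 2 := by field_simp
          _ ≤ X * p / 2 := by gcongr
      obtain ⟨t1, ht1, ht2, ht3⟩ := hC0 _ _ X X _ hB2 (by exact_mod_cast hX1) le_rfl
        (isPoly_mon (j + 1) (∑ t ∈ S, u t * ξ t)) hsum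
      rw [← pow_mul] at ht2 ht3
      have hD : ∀ t ∈ S, ((t1 * (j + 1).factorial : ℕ) : ℝ) * |(u t : ℝ)| ≤ B ^ c := by
        intro t ht
        have h1 : |(u t : ℝ)| ≤ K * U := by exact_mod_cast hu t ht
        rw [hc, pow_add, pow_add, Nat.cast_mul]
        exact mul_le_mul (mul_le_mul ht2 (nat_le_pow hB _) (by positivity) (by positivity))
          (by linarith) (abs_nonneg _) (by positivity)
      have hΞ : nn (((t1 * (j + 1).factorial : ℕ) : ℝ) * ∑ t ∈ S, u t * ξ t) ≤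
          B ^ c / (X : ℝ) ^ (j + 1) := by
        rw [Nat.cast_mul, mul_assoc]
        refine ht3.trans (div_le_div_of_nonneg_right ?_ (by positivity))
        exact pow_le_pow_right₀ hB1 (by omega)
      have h1 : B ^ C2 ≤ B ^ (c1 * (T + 1) + 2 + C2) := pow_le_pow_right₀ hB1 (by omega)
      refine le_trans (div_le_div_of_nonneg_left (by positivity) (by positivity) h1) ?_
      rw [hC2]
      exact struct S ξ u t0 ht0 hu0 _ j T c C X B hB (Nat.mul_pos ht1 (Nat.factorial_pos _)) hS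
        hD hΞ (hC ι) (hC2 ▸ h1.trans hX)

end Pool.Agent.MP_b1aeef_nt.H64
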