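import Pool.Agent.MP_b1aeef_nt.H64.Spec

open Finset Polynomial Filter Topology
open scoped BigOperators

namespace Pool.Agent.MP_b1aeef_nt.H64

namespace RW2

theorem shift (G : ℕ → ℂ) (hG : ∀ n, ‖G n‖ ≤ 1) (X h : ℕ) :
    ‖∑ a ∈ range X, G (h + a) - ∑ a ∈ range X, G a‖ ≤ 2 * h := by
  have e1 := sum_range_add G X h
  have e2 := sum_range_add G h X
  rw [add_comm h X, e1] at e2
  have e : ∑ a ∈ range X, G (h + a) - ∑ a ∈ range X, G a =
      ∑ a ∈ range h, G (X + a) - ∑ a ∈ range h, G a := by linear_combination -e2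
  have b : ∀ H : ℕ → ℂ, (∀ n, ‖H n‖ ≤ 1) → ‖∑ a ∈ range h, H a‖ ≤ h := fun H hH => by
    simpa using norm_sum_le_of_le (range h) fun a _ => hH a
  rw [e]
  linarith [norm_sub_le (∑ a ∈ range h, G (X + a)) (∑ a ∈ range h, G a),
    b (fun a => G (X + a)) fun n => hG _, b G hG]

theorem pw (k Q X n : ℕ) (Ξ : ℝ) (hQ : 1 ≤ Q) (h1 : Q ≤ X) (h2 : n ≤ X) :
    nn (Ξ * ((Q + n : ℕ) : ℝ) ^ k - Ξ * (n : ℝ) ^ k) ≤ k * (2 * X) ^ (k - 1) * nn (Q * Ξ) := by
  obtain ⟨m, hm⟩ := sub_dvd_pow_sub_pow ((Q : ℤ) + n) n k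
  rw [add_sub_cancel_right] at hm
  have hm' : ((Q + n : ℕ) : ℝ) ^ k - (n : ℝ) ^ k = Q * m := by exact_mod_cast hm
  have q0 : (0 : ℝ) < Q := by exact_mod_cast hQ
  have h3 := abs_pow_sub_pow_le ((Q + n : ℕ) : ℝ) (n : ℝ) k
  have h4 : max |((Q + n : ℕ) : ℝ)| |(n : ℝ)| ≤ 2 * X := by
    rw [Nat.abs_cast, Nat.abs_cast]
    exact max_le (by exact_mod_cast (by omega)) (by exact_mod_cast (by omega))
  rw [hm', Nat.cast_add, add_sub_cancel_right, abs_mul, mul_assoc, abs_of_pos q0,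
    mul_le_mul_iff_right₀ q0, ← Nat.cast_add] at h3
  rw [← mul_sub, hm', show Ξ * (Q * m) = m * (Q * Ξ) by ring]
  refine (nn_int_mul_le _ _).trans (mul_le_mul_of_nonneg_right (h3.trans ?_) (nn_nonneg _))
  gcongr

end RW2

theorem w2 (h0 : W0Stmt) : W2Stmt := by
  intro k hk
  obtain ⟨C, hC⟩ := h0 k (by omega)
  obtain ⟨D, hD⟩ : ∃ D : ℕ, D = 2 * k.factorial + 7 * (k * 2 ^ (k - 1)) := ⟨_, rfl⟩
  refine ⟨C + 1 + D, fun B Ξ θ X hB hX h => ?_⟩
  have X0 : (0 : ℝ) < X := by exact_mod_cast hX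
  have B0 : 0 < B := by linarith
  let G : ℕ → ℂ := fun a => ee (Ξ * ((a + 1 : ℕ) : ℝ) ^ k + θ * ((a + 1 : ℕ) : ℝ))
  have hS : X / B ≤ ‖∑ a ∈ range X, G a‖ := by
    rw [expect_eq_sum_div_card, Fin.sum_univ_eq_sum_range G, norm_div] at h
    simp only [card_univ, Fintype.card_fin, Complex.norm_natCast] at h
    rw [le_div_iff₀ X0] at h
    rwa [div_eq_mul_one_div, mul_comm]
  have hP : IsPoly k (k.factorial * Ξ)
      fun n => Ξ * ((n + 1 : ℤ) : ℝ) ^ k + θ * ((n + 1 : ℤ) : ℝ) := by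
    refine ((isPoly_eval k (monomial k Ξ + monomial 1 θ) ?_).shift 1).congr ?_ fun n => by simp
    · exact (natDegree_add_le _ _).trans (max_le (natDegree_monomial_le _)
        ((natDegree_monomial_le _).trans (by omega)))
    · simp [coeff_monomial, show 1 ≠ k by omega]
  obtain ⟨t, t1, t2, t3⟩ := hC B _ X X _ hB hX le_rfl hP (by simpa [G] using hS)
  have hBD : (D : ℝ) ≤ B ^ D :=
    le_trans (by exact_mod_cast (Nat.lt_two_pow_self (n := D)).le)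
      (pow_le_pow_left₀ zero_le_two hB D)
  have f0 := k.factorial_pos
  have BC : 0 < B ^ C := pow_pos B0 C
  have hQ : ((t * k.factorial : ℕ) : ℝ) ≤ B ^ C * k.factorial := by push_cast; gcongr
  have hQ' : ((t * k.factorial : ℕ) : ℝ) ≤ B ^ (C + 1 + D) := by
    have : (k.factorial : ℝ) ≤ D := by exact_mod_cast (by omega)
    rw [pow_add, pow_succ]
    refine hQ.trans (mul_le_mul (by nlinarith) (this.trans hBD) (by positivity) (by positivity))
  rw [← mul_assoc, ← Nat.cast_mul] at t3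
  have q1 : 1 ≤ t * k.factorial := Nat.mul_pos t1 f0
  generalize t * k.factorial = Q at *
  refine ⟨Q, q1, hQ', ?_⟩
  rw [le_div_iff₀ X0]
  rcases le_total X Q with hXQ | hXQ
  · have : (X : ℝ) ≤ Q := by exact_mod_cast hXQ
    nlinarith [nn_le_half (Q * θ)]
  have a1 := RW2.shift G (fun n => (norm_ee _).le) X Q
  have a2 : ‖∑ a ∈ range X, G (Q + a) - (∑ a ∈ range X, G a) * ee (Q * θ)‖ ≤
      7 * (k * 2 ^ (k - 1)) * B ^ C := by
    rw [sum_mul, ← sum_sub_distrib]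
    have b : ∀ a ∈ range X, ‖G (Q + a) - G a * ee (Q * θ)‖ ≤
        7 * (k * 2 ^ (k - 1)) * B ^ C / X := fun a ha => by
      simp only [G]
      rw [← ee_add]
      refine (norm_ee_sub_ee_le _ _).trans ?_
      have c := RW2.pw k Q X (a + 1) Ξ q1 hXQ (mem_range.1 ha)
      have e : Ξ * ((Q + a + 1 : ℕ) : ℝ) ^ k + θ * ((Q + a + 1 : ℕ) : ℝ) -
          (Ξ * ((a + 1 : ℕ) : ℝ) ^ k + θ * ((a + 1 : ℕ) : ℝ) + Q * θ) =
          Ξ * ((Q + (a + 1) : ℕ) : ℝ) ^ k - Ξ * ((a + 1 : ℕ) : ℝ) ^ k := by push_cast; ring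
      have e2 : (k : ℝ) * (2 * X) ^ (k - 1) * (B ^ C / X ^ k) = k * 2 ^ (k - 1) * B ^ C / X := by
        obtain ⟨j, rfl⟩ : ∃ j, k = j + 1 := ⟨k - 1, by omega⟩
        rw [Nat.add_sub_cancel]
        field_simp
        ring
      have c2 := c.trans ((mul_le_mul_of_nonneg_left t3 (by positivity)).trans_eq e2)
      rw [e, mul_assoc 7, mul_div_assoc 7]
      exact mul_le_mul (by linarith [Real.pi_lt_d2]) c2 (nn_nonneg _) (by norm_num)
    refine (norm_sum_le_of_le _ b).trans_eq ?_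
    rw [sum_const, card_range, nsmul_eq_mul]
    field_simp
  have a3 : ‖∑ a ∈ range X, G a‖ * ‖ee (Q * θ) - 1‖ ≤ D * B ^ C := by
    rw [← norm_mul, mul_sub, mul_one]
    refine (norm_sub_le_norm_sub_add_norm_sub _ (∑ a ∈ range X, G (Q + a)) _).trans ?_
    rw [norm_sub_rev, hD]
    push_cast
    linarith
  have a4 := (mul_le_mul hS (le_norm_ee_sub_one (Q * θ)) (by linarith [nn_nonneg (Q * θ)])
    (norm_nonneg _)).trans a3
  rw [div_mul_eq_mul_div, div_le_iff₀ B0] at a4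
  have a5 := mul_le_mul_of_nonneg_right hBD (mul_pos BC B0).le
  rw [pow_add, pow_succ]
  nlinarith [mul_nonneg X0.le (nn_nonneg (Q * θ))]

end Pool.Agent.MP_b1aeef_nt.H64
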