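import Pool.Agent.MP_b1aeef_nt.H64.Spec

/-! The window nodes: the final state satisfies the elementary invariants. -/

open Finset Polynomial Filter Topology
open scoped BigOperators

namespace Pool.Agent.MP_b1aeef_nt.H64

namespace RWin1

variable {V : Type} [Fintype V] [DecidableEq V]

theorem mon_single (P : ℤ[X]) (A : V → ℕ) (x : ℤ) (v : V) (i : ℕ) :
    mon P A x (Pi.single v i) = (hasseDeriv i P).eval x * (A v : ℤ) ^ i := by
  unfold mon
  rw [Finset.sum_pi_single', if_pos (mem_univ v), Finset.prod_eq_single v, Pi.single_eq_same]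
  · intro w _ hw
    rw [Pi.single_eq_of_ne hw, pow_zero]
  · intro h
    exact absurd (mem_univ v) h

theorem leaf {q : ℕ} {P : ℤ[X]} {o : Par} {jb : V → ℕ} {S : Dat V} {x : ℤ} {ω : S.Ω}
    (hg : Gu q P o jb S x ω) {v : V} (hv : jb v = 1) (hq : 2 ≤ q) (hR : 1 ≤ o.R)
    (hY : P.natDegree * o.R ^ 2 ≤ S.Y) (hRY : o.R ≤ S.Y) {y : ℕ} (hy : y ≤ o.R) :
    nn (((P.eval (x + S.gen ω v * y) - P.eval x : ℤ) : ℝ) / (q : ℝ) ^ S.hi v) ≤
      2 / (o.R : ℝ) / (q : ℝ) ^ (S.hi v - S.lo v) := by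
  have hq0 : (0 : ℝ) < q := by exact_mod_cast (by omega : 0 < q)
  have hR0 : (0 : ℝ) < o.R := by exact_mod_cast hR
  have hY0 : (0 : ℝ) < S.Y := by exact_mod_cast hR.trans hRY
  have hy' : (y : ℝ) ≤ o.R := by exact_mod_cast hy
  have hRY' : (o.R : ℝ) ≤ S.Y := by exact_mod_cast hRY
  have e : P.eval (x + S.gen ω v * y) - P.eval x = ∑ i ∈ range P.natDegree,
      (y : ℤ) ^ (i + 1) * mon P (S.gen ω) x (Pi.single v (i + 1)) := by
    have := hasse_shift P 0 x (S.gen ω v * y)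
    rw [hasseDeriv_zero', sum_range_succ'] at this
    rw [this]
    simp only [zero_add, add_zero, Nat.choose_zero_right, Nat.cast_one, one_mul, pow_zero, mul_one,
      hasseDeriv_zero', add_sub_cancel_right]
    exact sum_congr rfl fun i _ => by rw [mon_single]; ring
  rw [e]
  push_cast
  rw [sum_div]
  refine (nn_sum_le _ _).trans ?_
  have t : ∀ i ∈ range P.natDegree,
      nn ((y : ℝ) ^ (i + 1) * (mon P (S.gen ω) x (Pi.single v (i + 1)) : ℝ) / (q : ℝ) ^ S.hi v) ≤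
        ((if i = 0 then 1 / (o.R : ℝ) else 0) + o.R / S.Y) / (q : ℝ) ^ (S.hi v - S.lo v) := by
    intro i _
    have h1 := hg v hv.ge (Pi.single v (i + 1)) (by rw [hv, Pi.single_eq_same]; omega)
    rw [Finset.sum_pi_single', if_pos (mem_univ v)] at h1
    have h2 := nn_nat_mul_le (y ^ (i + 1))
      ((mon P (S.gen ω) x (Pi.single v (i + 1)) : ℝ) / (q : ℝ) ^ S.hi v)
    rw [Nat.cast_pow] at h2
    rw [mul_div_assoc]
    refine h2.trans ((mul_le_mul_of_nonneg_left h1 (by positivity)).trans ?_)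
    rw [← mul_div_assoc]
    refine div_le_div_of_nonneg_right ?_ (by positivity)
    unfold tol
    rcases Nat.eq_zero_or_pos i with rfl | hi
    · rw [if_pos rfl, if_pos rfl, zero_add, pow_one]
      have : (y : ℝ) * (1 / (o.R : ℝ) ^ 2) ≤ 1 / o.R := by
        rw [mul_one_div, div_le_div_iff₀ (by positivity) hR0]
        nlinarith
      have : (0 : ℝ) ≤ o.R / S.Y := by positivity
      linarith
    · rw [if_neg (by omega), if_neg hi.ne', zero_add, mul_one_div, ← div_pow]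
      have h3 : (y : ℝ) / S.Y ≤ o.R / S.Y := div_le_div_of_nonneg_right hy' hY0.le
      exact (pow_le_of_le_one (by positivity) (h3.trans ((div_le_one hY0).2 hRY'))
        (Nat.succ_ne_zero i)).trans h3
  refine (sum_le_sum t).trans ?_
  rw [← sum_div]
  refine div_le_div_of_nonneg_right ?_ (by positivity)
  rw [sum_add_distrib, sum_ite_eq', sum_const, card_range, nsmul_eq_mul]
  have h4 : (P.natDegree : ℝ) * (o.R / S.Y) ≤ 1 / o.R := by
    have : (P.natDegree : ℝ) * (o.R : ℝ) ^ 2 ≤ S.Y := by exact_mod_cast hY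
    rw [← mul_div_assoc, div_le_div_iff₀ hY0 hR0]
    nlinarith
  have h5 : (0 : ℝ) < 1 / o.R := by positivity
  have h6 : (2 : ℝ) / o.R = 1 / o.R + 1 / o.R := by ring
  split_ifs <;> linarith

theorem window {q : ℕ} {P : ℤ[X]} {o : Par} (ho : Ok q o) (x : ℤ) {A a y : ℕ}
    (hA : q ^ jj q o.N ∣ A) (hy : y ≤ o.R)
    (h : (UW q o : ℝ) * nn (((P.derivative.eval x * A : ℤ) : ℝ) / (q : ℝ) ^ b0 q o.N *
      (a : ℝ) ^ 1) ≤ 1) :
    nn (((P.eval (x + (A * a : ℕ) * y) - P.eval x : ℤ) : ℝ) / (q : ℝ) ^ b0 q o.N) ≤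
      2 / (o.R : ℝ) / (q : ℝ) ^ (b0 q o.N - a0 q o) := by
  have hq0 : (0 : ℝ) < q := by exact_mod_cast (by have := ho.hq; omega : 0 < q)
  have hR0 : (0 : ℝ) < o.R := by exact_mod_cast (by have := ho.R16; omega : 0 < o.R)
  have hy' : (y : ℝ) ≤ o.R := by exact_mod_cast hy
  obtain ⟨k, hk⟩ := P.binomExpansion x ((A * a : ℕ) * y)
  obtain ⟨t, ht⟩ := hA
  have e : ((P.eval (x + (A * a : ℕ) * y) - P.eval x : ℤ) : ℝ) / (q : ℝ) ^ b0 q o.N =
      y * (((P.derivative.eval x * A : ℤ) : ℝ) / (q : ℝ) ^ b0 q o.N * (a : ℝ) ^ 1) +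
        ((k * (t * a * y) ^ 2 : ℤ) : ℝ) := by
    rw [hk, ht]
    unfold b0
    push_cast
    field_simp
    ring
  rw [e, nn_add_int, show b0 q o.N - a0 q o = 2 * o.s by have := ho.a0_add; omega]
  refine (nn_nat_mul_le _ _).trans ?_
  unfold UW at h
  push_cast at h ⊢
  generalize hn : nn _ = τ at h ⊢
  have h0 : 0 ≤ τ := hn ▸ nn_nonneg _
  rw [div_div, le_div_iff₀ (by positivity)]
  have : (y : ℝ) * τ * (o.R * (q : ℝ) ^ (2 * o.s)) ≤ o.R * τ * (o.R * (q : ℝ) ^ (2 * o.s)) := by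
    gcongr
  nlinarith

omit [Fintype V] [DecidableEq V] in
theorem wph_shift {q : ℕ} (hq : 2 ≤ q) (P : ℤ[X]) (o : Par) (S : Dat V) (p : V) (j n h : ℤ)
    (ω : S.Ω) (hp : q ^ jj q o.N ∣ S.gen ω p) (hh : (q : ℤ) ^ jj q o.N ∣ h) :
    ∃ k : ℤ, wph q P o S p j (n + h) ω = wph q P o S p j n ω + k := by
  have hq0 : (0 : ℝ) < q := by exact_mod_cast (by omega : 0 < q)
  obtain ⟨u, hu⟩ := hh.trans (show h ∣ P.derivative.eval (n + h + j) - P.derivative.eval (n + j) by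
    have := sub_dvd_eval_sub (n + h + j) (n + j) P.derivative
    rwa [show n + h + j - (n + j) = h by ring] at this)
  obtain ⟨t, ht⟩ := hp
  refine ⟨u * t, ?_⟩
  unfold wph b0
  rw [ht, eq_add_of_sub_eq hu]
  push_cast
  field_simp
  ring

omit [Fintype V] [DecidableEq V] in
theorem winD (q : ℕ) (P : ℤ[X]) (o : Par) (jb : V → ℕ) (p : V) (J : Finset ℤ) (S : Dat V) (L : ℕ)
    (n : ℤ) (ω : S.Ω × ({j // j ∈ J.erase 0} → Fin (Nat.sqrt S.Y))) :
    (win q P o jb p J S L).D n ω = S.D n ω.1 *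
      ∏ c : {j // j ∈ J.erase 0}, kw q P o S p c.1 n ω.1 ((ω.2 c : ℕ) + 1) := rfl

end RWin1

open RWin1 in
theorem win1 (h2 : K2Stmt) (hz : ZWStmt) (hm : MARGStmt) : WIN1Stmt := by
  intro V _ _ q P J jb z b p hjb
  obtain ⟨C1, E1, hZ⟩ := hz q
  refine ⟨E1 + C1 + P.natDegree + J.sup Int.natAbs + 3, fun o C S L m h0 hinv hgu hn => ?_⟩
  have ho := hn.ok
  have hq := ho.hq
  have hLY : q ^ L ≤ S.Y := by simpa using hn.pow_le (e := 1) (by omega)
  have hXY : Nat.sqrt S.Y * q ^ L ≤ S.Y := by simpa using hn.sqrt_mul_le (e := 1) (by omega)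
  have hX : 1 ≤ Nat.sqrt S.Y := Nat.le_sqrt.2 (by have := h0.Y2; omega)
  have hN1 : (16 : ℝ) ≤ o.N := by exact_mod_cast ho.N16
  have hβ := bet_pos q o.N
  have hL0 : (0 : ℝ) < (q ^ L : ℕ) := by exact_mod_cast (by have := hn.big; omega : 0 < q ^ L)
  have hLY' : ((q ^ L : ℕ) : ℝ) ≤ S.Y := by exact_mod_cast hLY
  have hRL : o.R ≤ q ^ L := ho.R_le.trans hn.s_le
  have hK := fun x : ℝ => h2 Unit {()} (fun _ => UW q o) (KK q o.N) 1 (Nat.sqrt S.Y) (fun _ => x)
    (fun _ _ => Nat.mul_pos (by positivity) (by have := ho.R16; positivity)) hX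
  have hZN : ∀ x : ℝ, 1 / Zt ({()} : Finset Unit) (fun _ => UW q o) (KK q o.N) 1 (Nat.sqrt S.Y)
      (fun _ => x) ≤ o.N := fun x => by
    have a1 := hZ _ o C S.Y L m (hn.mono (by omega)) x
    have a2 : ((q : ℝ) ^ L) ^ C1 ≤ o.N := by
      exact_mod_cast ((hn.pow_le (e := C1) (by omega)).trans h0.Yle).trans ho.pow_j
    have a3 : (0 : ℝ) < ((q : ℝ) ^ L) ^ C1 := by positivity
    exact ((one_div_le a3 (hK x).1.1).1 a1).trans a2
  have k0 : ∀ j n ω a, 0 ≤ kw q P o S p j n ω a := fun j n ω a => ((hK _).2.2.1 a).1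
  have k1 : ∀ j n ω a, kw q P o S p j n ω a ≤ o.N := fun j n ω a =>
    ((hK _).2.2.1 a).2.trans (hZN _)
  have kp : ∀ (T : Finset {j // j ∈ J.erase 0}) n ω (a : {j // j ∈ J.erase 0} → ℕ),
      0 ≤ ∏ c ∈ T, kw q P o S p c.1 n ω (a c) ∧
      ∏ c ∈ T, kw q P o S p c.1 n ω (a c) ≤ (o.N : ℝ) ^ J.card := fun T n ω a => by
    refine ⟨prod_nonneg fun c _ => k0 _ _ _ _, ?_⟩
    have : ∏ c ∈ T, kw q P o S p c.1 n ω (a c) ≤ ∏ _c ∈ T, (o.N : ℝ) :=
      prod_le_prod (fun c _ => k0 c.1 n ω (a c)) fun c _ => k1 c.1 n ω (a c)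
    refine this.trans ?_
    rw [prod_const]
    refine pow_le_pow_right₀ (by linarith) ((card_le_univ T).trans ?_)
    rw [Fintype.card_coe]
    exact card_erase_le
  have up : ∀ {c : ℝ}, c ≤ 16 → c * ((o.N : ℝ) ^ C * bet q o.N) * (o.N : ℝ) ^ J.card ≤
      (o.N : ℝ) ^ (C + J.card + 1) * bet q o.N := fun {c} hc => by
    have : (0 : ℝ) ≤ (o.N : ℝ) ^ C * bet q o.N * (o.N : ℝ) ^ J.card := by positivity
    calc _ = c * ((o.N : ℝ) ^ C * bet q o.N * (o.N : ℝ) ^ J.card) := by ring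
      _ ≤ o.N * ((o.N : ℝ) ^ C * bet q o.N * (o.N : ℝ) ^ J.card) :=
        mul_le_mul_of_nonneg_right (hc.trans hN1) this
      _ = _ := by ring
  have up2 : (o.N : ℝ) ^ (C + J.card + 1) * bet q o.N ≤ (o.N : ℝ) ^ (C + J.card + 2) * bet q o.N :=
    mul_le_mul_of_nonneg_right (pow_le_pow_right₀ (by linarith) (by omega)) hβ.le
  have shift : ∀ (n : ℤ) (ω : (win q P o jb p J S L).Ω) (w : V) (y h : ℤ), h = S.gen ω.1 w * y →
      q ^ jj q o.N ∣ S.gen ω.1 w → |y| ≤ S.Y →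
      |(win q P o jb p J S L).D (n + h) ω - (win q P o jb p J S L).D n ω| ≤
        (win q P o jb p J S L).D n ω / (q ^ L : ℕ) +
          (o.N : ℝ) ^ (C + J.card + 2) * bet q o.N := by
    rintro n ω w y h rfl hw hy
    have e : ∀ c : {j // j ∈ J.erase 0},
        kw q P o S p c.1 (n + S.gen ω.1 w * y) ω.1 ((ω.2 c : ℕ) + 1) =
          kw q P o S p c.1 n ω.1 ((ω.2 c : ℕ) + 1) := fun c =>
      (hK _).2.2.2.2 _ (fun _ _ => wph_shift hq P o S p c.1 n _ ω.1 (h0.dvd _ p h0.pz)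
        (Dvd.dvd.mul_right (by exact_mod_cast hw) y)) _
    obtain ⟨p0, p1⟩ := kp univ n ω.1 fun c => (ω.2 c : ℕ) + 1
    have a1 := hinv n ω.1 w y hy
    have a2 := h0.dens.nonneg n ω.1
    rw [winD, winD, prod_congr rfl fun c _ => e c, ← sub_mul, abs_mul, abs_of_nonneg p0]
    refine (mul_le_mul_of_nonneg_right a1 p0).trans ?_
    rw [add_mul, div_mul_eq_mul_div]
    refine add_le_add (div_le_div_of_nonneg_left (mul_nonneg a2 p0) hL0 hLY') ?_
    refine le_trans ?_ ((up (c := 1) (by norm_num)).trans up2)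
    rw [one_mul]
    exact mul_le_mul_of_nonneg_left p1 (by positivity)
  have hvz : ∀ v : {v // jb v = 1}, v.1 ≠ z := fun v h => by
    have := v.2
    rw [h, h0.jz] at this
    omega
  have hLZ : ((q ^ L : ℕ) : ℤ) ≤ S.Y := by exact_mod_cast hLY
  refine ⟨?_, hLY.trans h0.Yle, (hm _ _ o.N _ S.D
    (fun (c : {j // j ∈ J.erase 0}) n ω a => kw q P o S p c.1 n ω ((a : ℕ) + 1)) h0.dens
    (fun _ _ _ _ => k0 _ _ _ _) fun _ _ _ => (hK _).2.1).1, ?_, ?_, ?_, fun n ω y hy => ?_,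
    fun n ω => ?_, ?_, ?_, fun α M => ?_⟩
  · refine le_trans ?_ hn.s3_le
    rw [show 3 * o.s = 2 * o.s + o.s by ring, pow_add]
    exact Nat.mul_le_mul_left _ ho.R_le
  · rintro ω (v | c)
    · exact h0.dvd _ _ (hvz v)
    · exact (h0.dvd _ p h0.pz).mul_right _
  · rintro ω (v | c)
    · exact (Nat.mul_le_mul_left _ hLY).trans (h0.size ω.1 v.1)
    · refine le_trans ?_ (h0.size ω.1 p)
      change S.gen ω.1 p * ((ω.2 c : ℕ) + 1) * q ^ L ≤ _
      rw [mul_assoc]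
      exact Nat.mul_le_mul_left _ ((Nat.mul_le_mul_right _ (ω.2 c).2).trans hXY)
  · rintro n ω (v | c) y hy
    · exact shift n ω v.1 y _ rfl (h0.dvd _ _ (hvz v)) (hy.trans hLZ)
    · refine shift n ω p ((((ω.2 c : ℕ) + 1 : ℕ) : ℤ) * y) _ ?_ (h0.dvd _ p h0.pz) ?_
      · change ((S.gen ω.1 p * ((ω.2 c : ℕ) + 1) : ℕ) : ℤ) * y = _
        rw [Nat.cast_mul, mul_assoc]
      · rw [abs_mul, Nat.abs_cast]
        refine (mul_le_mul_of_nonneg_left hy (Nat.cast_nonneg _)).trans ?_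
        exact_mod_cast (Nat.mul_le_mul_right _ (ω.2 c).2).trans hXY
  · refine shift n ω b y _ (by rw [h0.gb, Nat.cast_pow]) ?_ (hy.trans hLZ)
    rw [h0.gb]
    exact pow_dvd_pow _ ho.j_le_a0
  · by_cases g1 : ∀ j ∈ J, Gu q P o jb S (n + j) ω.1
    · by_cases g2 : ∀ c : {j // j ∈ J.erase 0}, (UW q o : ℝ) *
          nn (wph q P o S p c.1 n ω.1 * (((ω.2 c : ℕ) + 1 : ℕ) : ℝ) ^ 1) ≤ 1
      · left
        rintro (v | c) j hj y hy
        · refine leaf (g1 j hj) v.2 hq (by have := ho.R16; omega) ?_ (hRL.trans hLY) hy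
          refine le_trans ?_ (hn.pow_le (e := 3) (by omega))
          rw [pow_succ' _ 2]
          exact Nat.mul_le_mul (hn.const_le (by omega)) (Nat.pow_le_pow_left hRL 2)
        · obtain rfl : j = c.1 := mem_singleton.1 hj
          exact window ho _ (h0.dvd _ p h0.pz) hy (g2 c)
      · right
        push Not at g2
        obtain ⟨c, hc⟩ := g2
        have a1 : kw q P o S p c.1 n ω.1 ((ω.2 c : ℕ) + 1) ≤ bet q o.N * o.N := by
          refine ((hK _).2.2.2.1 _ ⟨(), mem_singleton_self _, hc.le⟩).trans ?_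
          rw [div_eq_mul_one_div]
          exact mul_le_mul_of_nonneg_left (hZN _) hβ.le
        obtain ⟨p0, p1⟩ := kp (univ.erase c) n ω.1 fun c => (ω.2 c : ℕ) + 1
        rw [winD, ← mul_prod_erase univ _ (mem_univ c)]
        refine le_trans ?_ up2
        calc _ ≤ (o.N : ℝ) ^ C * (bet q o.N * o.N * (o.N : ℝ) ^ J.card) :=
              mul_le_mul (h0.sup n ω.1) (mul_le_mul a1 p1 p0 (by positivity))
                (mul_nonneg (k0 _ _ _ _) p0) (by positivity)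
          _ = _ := by ring
    · right
      push Not at g1
      obtain ⟨j, hj, g1⟩ := g1
      have a1 := (hgu (n + j) ω.1).resolve_left g1
      have a2 := hinv (n + j) ω.1 z (-j) (by
        rw [abs_neg, ← Int.natCast_natAbs]
        have : j.natAbs ≤ J.sup Int.natAbs := le_sup hj
        exact_mod_cast (hn.const_le (by omega)).trans hLY)
      rw [h0.gz, Nat.cast_one, one_mul, add_neg_cancel_right] at a2
      have a3 : S.D (n + j) ω.1 / S.Y ≤ S.D (n + j) ω.1 :=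
        div_le_self (h0.dens.nonneg _ _) (by exact_mod_cast (by have := h0.Y2; omega : 1 ≤ S.Y))
      have a4 : S.D n ω.1 ≤ 3 * ((o.N : ℝ) ^ C * bet q o.N) := by
        linarith [(abs_le.1 a2).2]
      obtain ⟨p0, p1⟩ := kp univ n ω.1 fun c => (ω.2 c : ℕ) + 1
      rw [winD]
      exact (mul_le_mul a4 p1 p0 (by positivity)).trans ((up (by norm_num)).trans up2)
  · have := ho.a0_add
    rintro (v | c)
    · exact ⟨le_trans (by omega) (h0.reg v.1).1, (h0.reg v.1).2⟩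
    · exact ⟨le_rfl, show a0 q o ≤ b0 q o.N by omega, b0_le_atop _ _ _⟩
  · rintro (v | c)
    · exact Subset.rfl
    · exact singleton_subset_iff.2 (mem_of_mem_erase c.2)
  · rw [Fintype.sum_sum_type]
    refine congrArg₂ (· + ·) ?_ ?_
    · change ∑ v : {v // jb v = 1}, ∑ j ∈ J, α j * (ds q (S.lo v.1) (S.hi v.1) (M j) : ℝ) = _
      rw [sum_comm]
      refine sum_congr rfl fun j _ => ?_
      rw [← mul_sum, ← h0.cover (M j), Nat.cast_sum, ← sum_subtype (univ.filter fun v => jb v = 1)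
        (by simp) fun v => (ds q (S.lo v) (S.hi v) (M j) : ℝ), sum_filter_of_ne]
      intro v _ hv
      by_contra h
      have := hjb v
      exact hv (by rw [h0.dead v (by omega), ds_self, Nat.cast_zero])
    · rw [← sum_coe_sort (J.erase 0)]
      exact sum_congr rfl fun c _ => sum_singleton _ _

end Pool.Agent.MP_b1aeef_nt.H64
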