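import Pool.Agent.MP_b1aeef_nt.H64.Spec

/-! The Fourier part of the final state. -/

open Finset Polynomial Filter Topology
open scoped BigOperators

namespace Pool.Agent.MP_b1aeef_nt.H64

namespace RWin2

/-- the top difference of the derivative -/
noncomputable def top (P : ℤ[X]) (e : ℕ) : ℤ := ((e + 1).factorial : ℤ) * P.derivative.coeff (e + 1)

theorem top_ne {P : ℤ[X]} {e : ℕ} (h : P.natDegree = e + 2) : top P e ≠ 0 := by
  have hP : P ≠ 0 := by
    rintro rfl
    simp at h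
  have h1 : P.coeff (e + 2) ≠ 0 := by
    rw [← h]
    exact leadingCoeff_ne_zero.2 hP
  unfold top
  rw [coeff_derivative]
  refine mul_ne_zero (by exact_mod_cast (Nat.factorial_pos _).ne') (mul_ne_zero h1 ?_)
  positivity

theorem isPoly_der {P : ℤ[X]} {e : ℕ} (h : P.natDegree = e + 2) :
    IsPoly (e + 1) (top P e : ℝ) fun n => ((P.derivative.eval n : ℤ) : ℝ) := by
  have h1 : P.derivative.natDegree ≤ e + 1 := by
    have := natDegree_derivative_le P
    omega
  refine (isPoly_int (e + 1) P.derivative h1).congr ?_ fun _ => rfl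
  unfold top
  push_cast
  rfl

/-- the combined phase is a polynomial with an integer top difference -/
theorem poly_cases {P : ℤ[X]} {e : ℕ} (h : P.natDegree = e + 2) (u w j : ℤ) (hj : j ≠ 0)
    (hw : w ≠ 0) (B : ℤ) (h1 : |u + w| * |top P e| ≤ B) (h2 : |j| * |u| * |top P e| ≤ B) :
    ∃ (r : ℕ) (g : ℤ), r ≤ e + 2 ∧ g ≠ 0 ∧ |g| ≤ B ∧ IsPoly r (g : ℝ) fun n =>
      (u : ℝ) * ((P.derivative.eval (n + j) : ℤ) : ℝ) + w * ((P.derivative.eval n : ℤ) : ℝ) := by
  have hp := isPoly_der h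
  have ht := top_ne h
  by_cases huw : u + w = 0
  · have hu : u = -w := by linarith
    have hu0 : u ≠ 0 := by rw [hu]; exact neg_ne_zero.2 hw
    refine ⟨e, j * u * top P e, by omega, mul_ne_zero (mul_ne_zero hj hu0) ht, ?_, ?_⟩
    · rw [abs_mul, abs_mul]; exact h2
    · refine (IsPoly.mul_const (u : ℝ) (hp j)).congr ?_ fun n => ?_
      · push_cast; ring
      · rw [hu]; push_cast; ring
  · refine ⟨e + 1, (u + w) * top P e, by omega, mul_ne_zero huw ht, ?_, ?_⟩
    · rw [abs_mul]; exact h1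
    · refine ((IsPoly.mul_const (u : ℝ) (IsPoly.shift j hp)).add
        (IsPoly.mul_const (w : ℝ) hp)).congr ?_ fun n => ?_
      · push_cast; ring
      · ring

theorem u_le {q d C Y L m E : ℕ} {o : Par} (h : Num q d o C Y L m E) :
    KK q o.N * UW q o ≤ q ^ L := by
  refine le_trans ?_ h.s3_le
  have h1 := h.ok.KR
  unfold UW
  calc KK q o.N * (q ^ (2 * o.s) * o.R ^ 2) = q ^ (2 * o.s) * (KK q o.N * o.R ^ 2) := by ring
    _ ≤ q ^ (2 * o.s) * q ^ o.s := Nat.mul_le_mul_left _ h1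
    _ = q ^ (3 * o.s) := by rw [← pow_add]; congr 1; ring

theorem w_le {q d C Y L m E : ℕ} {o : Par} (h : Num q d o C Y L m E) :
    UF q o * q ^ gg q o ≤ q ^ 2 * q ^ L := by
  refine le_trans ?_ (Nat.mul_le_mul_left _ h.s3_le)
  have h1 := h.ok.KR
  have h2 := h.ok.gg_le
  have h3 := h.ok.R_le
  unfold UF
  calc q ^ o.s * o.R * q ^ gg q o ≤ q ^ o.s * q ^ o.s * (q ^ 2 * q ^ o.s) :=
        Nat.mul_le_mul (Nat.mul_le_mul_left _ h3) (h2.trans (Nat.mul_le_mul_left _ h1))
    _ = q ^ 2 * q ^ (3 * o.s) := by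
        rw [show 3 * o.s = o.s + o.s + o.s by ring, pow_add, pow_add]; ring

theorem wsum_ext {V : Type} [Fintype V] (q : ℕ) (P : ℤ[X]) (o : Par) (jb : V → ℕ)
    (u : {v // jb v = 1} → ℤ) (A : V → ℕ) (n : ℤ) :
    wsum q P o (fun v => if h : jb v = 1 then u ⟨v, h⟩ else 0) A n =
      wsum q P o u (fun v => A v.1) n := by
  classical
  unfold wsum
  rw [← sum_filter_of_ne (p := fun v => jb v = 1), sum_subtype (p := fun v => jb v = 1)
    (F := inferInstance) _ (by simp)]
  · refine sum_congr rfl fun v _ => ?_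
    simp only [dif_pos v.2]
  · intro v _ hv
    by_contra hj
    simp [dif_neg hj] at hv

end RWin2

open RWin2 in
theorem win2 (hl : LEAF2Stmt) (h6 : K6Stmt) (h2 : K2Stmt) (hm : MARGStmt) (hz : ZWStmt) :
    WIN2Stmt := by
  intro V _ _ q P J jb z b p hd
  obtain ⟨e, he⟩ : ∃ e, P.natDegree = e + 2 := ⟨P.natDegree - 2, by omega⟩
  obtain ⟨C1, E1, hZ⟩ := hz q
  obtain ⟨E2, hL⟩ := hl q P.natDegree (C1 + 1)
  refine ⟨E1 + E2 + (top P e).natAbs + J.sup Int.natAbs + (q ^ 2 + 1), ?_⟩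
  intro o C S L m hS hN u hu0 hu
  have hq := hN.ok.hq
  have hq0 : (0 : ℝ) < q := by exact_mod_cast (by omega : 0 < q)
  have hQ : (0 : ℝ) < (q : ℝ) ^ L := by positivity
  have hb : (0 : ℝ) < (q : ℝ) ^ b0 q o.N := by positivity
  have hX : 1 ≤ Nat.sqrt S.Y := by
    rw [Nat.le_sqrt]; have := hS.base.Y2; omega
  have hU : ∀ t ∈ ({()} : Finset Unit), 1 ≤ (fun _ => UW q o) t := fun t _ => by
    have := hN.ok.R16
    show 1 ≤ q ^ (2 * o.s) * o.R ^ 2
    exact Nat.one_le_iff_ne_zero.2 (by positivity)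
  have hM := hm S.Ω {j // j ∈ J.erase 0} o.N (Nat.sqrt S.Y) S.D
    (fun c n ω a => kw q P o S p c.1 n ω ((a : ℕ) + 1)) hS.base.dens
    (fun c n ω a => ((h2 Unit _ _ _ 1 _ (fun _ => wph q P o S p c.1 n ω) hU hX).2.2.1 _).1)
    (fun c n ω => (h2 Unit _ _ _ 1 _ (fun _ => wph q P o S p c.1 n ω) hU hX).2.1)
  have hW : ∀ (n : ℤ) (ω : (win q P o jb p J S L).Ω),
      wsum q P o u ((win q P o jb p J S L).gen ω) n =
        wsum q P o (fun v => u (Sum.inl v)) (fun v => S.gen ω.1 v.1) n +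
          ∑ c : {j // j ∈ J.erase 0}, ((u (Sum.inr c) : ℝ) * (q : ℝ) ^ gg q o *
            (P.derivative.eval n : ℤ) * (S.gen ω.1 p : ℝ) / (q : ℝ) ^ b0 q o.N) *
              ((((ω.2 c : ℕ) + 1 : ℕ)) : ℝ) := by
    intro n ω
    unfold wsum
    rw [Fintype.sum_sum_type]
    congr 1
    refine sum_congr rfl fun c _ => ?_
    simp only [win, Sum.elim_inr]
    push_cast
    ring
  simp only [hW]
  show ‖Ec o.N (fun n (ω : S.Ω × ({j // j ∈ J.erase 0} → Fin (Nat.sqrt S.Y))) => S.D n ω.1 *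
    ∏ c : {j // j ∈ J.erase 0}, kw q P o S p c.1 n ω.1 ((ω.2 c : ℕ) + 1)) _‖ ≤
      1 / ((q ^ L : ℕ) : ℝ)
  push_cast
  by_cases hc : ∀ c, u (Sum.inr c) = 0
  · simp only [hc, Int.cast_zero, zero_mul, zero_div, sum_const_zero, add_zero]
    have h3 := hM.2.1 (fun n ω => ee (wsum q P o (fun v => u (Sum.inl v))
      (fun v => S.gen ω v.1) n))
    refine (congrArg norm h3).trans_le ?_
    have h4 := hS.four (fun v => if h : jb v = 1 then u (Sum.inl ⟨v, h⟩) else 0)
      (fun v hv => dif_neg hv) ?_ ?_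
    · simp only [wsum_ext q P o jb (fun v => u (Sum.inl v))] at h4
      refine h4.trans ?_
      have h5 : ((q ^ L) ^ 1 : ℕ) ≤ S.Y := hN.pow_le (by omega)
      rw [pow_one] at h5
      exact one_div_le_one_div_of_le hQ (by exact_mod_cast h5)
    · intro h0
      apply hu0
      funext i
      rcases i with v | c
      · have := congrFun h0 v.1
        simp only [dif_pos v.2] at this
        exact this
      · exact hc c
    · intro v
      by_cases hv : jb v = 1
      · simp only [dif_pos hv]; exact hu _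
      · simp only [dif_neg hv, abs_zero]; positivity
  · obtain ⟨c0, hc0⟩ := not_forall.1 hc
    have h3 := hM.2.2 c0 (fun n ω => wsum q P o (fun v => u (Sum.inl v))
      (fun v => S.gen ω v.1) n) (fun c n ω a => ((u (Sum.inr c) : ℝ) * (q : ℝ) ^ gg q o *
            (P.derivative.eval n : ℤ) * (S.gen ω p : ℝ) / (q : ℝ) ^ b0 q o.N) *
              ((((a : ℕ) + 1 : ℕ)) : ℝ))
    push_cast at h3
    refine h3.trans ?_
    have h4 := h6 Unit S.Ω {()} (fun _ => UW q o) (KK q o.N) (Nat.sqrt S.Y) o.N S.D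
      (fun n ω _ => wph q P o S p c0.1 n ω)
      (fun n ω => (u (Sum.inr c0) : ℝ) * (q : ℝ) ^ gg q o *
            (P.derivative.eval n : ℤ) * (S.gen ω p : ℝ) / (q : ℝ) ^ b0 q o.N)
      (1 / ((q : ℝ) ^ L) ^ C1) (1 / ((q : ℝ) ^ L) ^ (C1 + 1)) hU hX hS.base.dens (by positivity)
      (fun n ω => hZ _ o C S.Y L m (hN.mono (by omega)) _) ?_
    · push_cast at h4
      refine h4.trans (le_of_eq ?_)
      field_simp
      ring
    · intro u' hu'
      have hu1 : |u' ()| ≤ (q : ℤ) ^ L := by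
        refine (hu' () (mem_singleton_self _)).trans ?_
        exact_mod_cast u_le hN
      have hu2 : |u (Sum.inr c0) * (q : ℤ) ^ gg q o| ≤ (q : ℤ) ^ 2 * (q : ℤ) ^ L := by
        rw [abs_mul, abs_of_nonneg (by positivity : (0 : ℤ) ≤ (q : ℤ) ^ gg q o)]
        refine (mul_le_mul_of_nonneg_right (hu _) (by positivity)).trans ?_
        exact_mod_cast w_le hN
      have ht : |top P e| ≤ (q : ℤ) ^ L := by
        rw [Int.abs_eq_natAbs]
        exact_mod_cast hN.const_le (c := (top P e).natAbs) (by omega)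
      have hj : |c0.1| ≤ (q : ℤ) ^ L := by
        rw [Int.abs_eq_natAbs]
        have h7 : c0.1.natAbs ≤ J.sup Int.natAbs := le_sup (mem_of_mem_erase c0.2)
        exact_mod_cast hN.const_le (c := c0.1.natAbs) (by omega)
      have hq2 : (q : ℤ) ^ 2 + 1 ≤ (q : ℤ) ^ L := by
        exact_mod_cast hN.const_le (c := q ^ 2 + 1) (by omega)
      have hQ0 : (0 : ℤ) ≤ (q : ℤ) ^ L := by positivity
      have hqz : (q : ℤ) ≠ 0 := by exact_mod_cast (by omega : q ≠ 0)
      obtain ⟨r, g, hr, hg0, hg, hp⟩ := poly_cases he (u' ()) (u (Sum.inr c0) * (q : ℤ) ^ gg q o)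
        c0.1 (ne_of_mem_erase c0.2) (mul_ne_zero hc0 (pow_ne_zero _ hqz)) (((q : ℤ) ^ L) ^ 3)
        (by
          have h8 : |u' () + u (Sum.inr c0) * (q : ℤ) ^ gg q o| ≤ (q : ℤ) ^ L * (q : ℤ) ^ L := by
            refine (abs_add_le _ _).trans ?_
            nlinarith
          calc _ ≤ (q : ℤ) ^ L * (q : ℤ) ^ L * (q : ℤ) ^ L :=
                mul_le_mul h8 ht (abs_nonneg _) (by positivity)
            _ = _ := by ring)
        (by
          calc _ ≤ (q : ℤ) ^ L * (q : ℤ) ^ L * (q : ℤ) ^ L :=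
                mul_le_mul (mul_le_mul hj hu1 (abs_nonneg _) hQ0) ht (abs_nonneg _) (by positivity)
            _ = _ := by ring)
      refine hL V P o C jb z b p S p L m r ((g : ℝ) / (q : ℝ) ^ b0 q o.N) _ hS.base hS.inv hS.ac
        (Or.inr rfl) (hN.mono (by omega)) (by omega) (fun ω => ?_) ?_ ?_
      · refine (IsPoly.mul_const ((S.gen ω p : ℝ) / (q : ℝ) ^ b0 q o.N) hp).congr (by ring)
          fun n => ?_
        simp only [sum_singleton, wph]
        push_cast
        ring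
      · rw [abs_div, abs_of_pos hb, div_le_div_iff₀ (by positivity) hb]
        have h9 : (1 : ℝ) ≤ |(g : ℝ)| := by exact_mod_cast Int.one_le_abs hg0
        nlinarith
      · rw [abs_div, abs_of_pos hb]
        refine div_le_div_of_nonneg_right ?_ hb.le
        exact_mod_cast hg

end Pool.Agent.MP_b1aeef_nt.H64
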