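import Pool.Agent.MP_b1aeef_nt.H64.Spec

/-! Row Zch: lower bounds for the normalisers of the kernels. -/

open Finset Polynomial Filter Topology
open scoped BigOperators

namespace Pool.Agent.MP_b1aeef_nt.H64

namespace RZch

theorem card_MM {V : Type} [Fintype V] [DecidableEq V] (d : ℕ) (v : V) (k : ℕ) :
    (MM d v k).card ≤ (d + 1) ^ Fintype.card V := by
  refine (card_filter_le _ _).trans (le_of_eq ?_)
  rw [Fintype.card_piFinset]
  simp

theorem sum_MM {V : Type} [Fintype V] [DecidableEq V] {d : ℕ} {v : V} {k : ℕ} {μ : V → ℕ}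
    (h : μ ∈ MM d v k) : ∑ w, μ w ≤ d * Fintype.card V := by
  have h1 := Fintype.mem_piFinset.1 (mem_filter.1 h).1
  refine (sum_le_card_nsmul _ _ d fun w _ => Nat.lt_succ_iff.1 (mem_range.1 (h1 w))).trans ?_
  rw [card_univ, smul_eq_mul, mul_comm]

theorem len_le {V : Type} (S : Dat V) (v : V) (L c : ℕ) : chi S v L c - clo S v L c ≤ L := by
  unfold chi clo
  rw [add_mul, one_mul]
  omega

theorem KU_le {V : Type} [Fintype V] {q d : ℕ} {o : Par} {C Y L m E : ℕ}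
    (h : Num q d o C Y L m E) {len D : ℕ} (hl : len ≤ L) {μ : V → ℕ} (hμ : ∑ w, μ w ≤ D) :
    1 ≤ UU q o.R L len μ ∧ KK q o.N * UU q o.R L len μ ≤ (q ^ L) ^ (4 * D + 2) := by
  have hq := h.ok.hq
  have hR := h.ok.R16
  have h1 : q ^ len ≤ q ^ L := Nat.pow_le_pow_right (by omega) hl
  have h2 : KK q o.N * o.R ^ 2 ≤ q ^ L := h.ok.KR.trans h.s_le
  have h3 : KK q o.N ≤ q ^ L := le_trans (Nat.le_mul_of_pos_right _ (by positivity)) h2
  have h4 : 1 ≤ (q ^ L) ^ (4 * D) := Nat.one_le_pow _ _ (by positivity)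
  unfold UU
  split_ifs with he
  · refine ⟨Nat.succ_le_of_lt (by positivity), ?_⟩
    calc KK q o.N * (q ^ len * o.R ^ 2) = 1 * (q ^ len * (KK q o.N * o.R ^ 2)) := by ring
      _ ≤ (q ^ L) ^ (4 * D) * (q ^ L * q ^ L) := Nat.mul_le_mul h4 (Nat.mul_le_mul h1 h2)
      _ = _ := by ring
  · refine ⟨Nat.succ_le_of_lt (by positivity), ?_⟩
    have h5 : q ^ (4 * L * ∑ w, μ w) ≤ (q ^ L) ^ (4 * D) := by
      rw [← pow_mul]
      refine Nat.pow_le_pow_right (by omega) ?_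
      calc 4 * L * ∑ w, μ w ≤ 4 * L * D := Nat.mul_le_mul_left _ hμ
        _ = L * (4 * D) := by ring
    calc KK q o.N * (q ^ len * q ^ (4 * L * ∑ w, μ w))
        = q ^ (4 * L * ∑ w, μ w) * (q ^ len * KK q o.N) := by ring
      _ ≤ (q ^ L) ^ (4 * D) * (q ^ L * q ^ L) := Nat.mul_le_mul h5 (Nat.mul_le_mul h1 h3)
      _ = _ := by ring

end RZch

theorem zch_ok (h : K1Stmt) : ZCHStmt := by
  intro V _ _ q P v k hk
  obtain ⟨C0, hC⟩ := h ((P.natDegree + 1) ^ Fintype.card V) k hk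
  refine ⟨(4 * (P.natDegree * Fintype.card V) + 2) * C0,
    2 * ((4 * (P.natDegree * Fintype.card V) + 2) * C0), fun o C S L m hN c n ω => ?_⟩
  have hb := hN.big
  have h1 : 2 ≤ (q ^ L) ^ (4 * (P.natDegree * Fintype.card V) + 2) :=
    le_trans (by omega) (Nat.le_self_pow (by omega) (q ^ L))
  have h2 := hN.pow_le_sqrt (e := (4 * (P.natDegree * Fintype.card V) + 2) * C0) le_rfl
  rw [pow_mul]
  refine hC _ _ _ _ _ _ _ (RZch.card_MM _ v k) (by exact_mod_cast h1) (fun μ hμ => ?_) ?_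
  · have h3 := RZch.KU_le hN (RZch.len_le S v L c) (RZch.sum_MM hμ)
    exact ⟨h3.1, by exact_mod_cast h3.2⟩
  · rw [← pow_mul]
    exact_mod_cast h2

theorem zw (h : K1Stmt) : ZWStmt := by
  intro q
  obtain ⟨C0, hC⟩ := h 1 1 le_rfl
  refine ⟨C0, 2 * C0, fun d o C Y L m hN x => ?_⟩
  have hb := hN.big
  have hq := hN.ok.hq
  have hR := hN.ok.R16
  have h1 : 2 ≤ q ^ L := by omega
  have h2 := hN.pow_le_sqrt (e := C0) le_rfl
  have h3 : KK q o.N * UW q o ≤ q ^ L := by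
    refine le_trans ?_ hN.s3_le
    calc KK q o.N * UW q o = q ^ (2 * o.s) * (KK q o.N * o.R ^ 2) := by unfold UW; ring
      _ ≤ q ^ (2 * o.s) * q ^ o.s := Nat.mul_le_mul_left _ hN.ok.KR
      _ = _ := by ring
  have h4 : 1 ≤ UW q o := Nat.succ_le_of_lt (by unfold UW; positivity)
  exact hC _ _ _ _ _ _ _ (by simp) (by exact_mod_cast h1)
    (fun _ _ => ⟨h4, by exact_mod_cast h3⟩) (by exact_mod_cast h2)

end Pool.Agent.MP_b1aeef_nt.H64
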