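import Pool.Agent.MP_b1aeef_nt.H64.Spec

/-! Row Zsh: the shift lemma in a state and in a final state. -/

open Finset Polynomial
open scoped BigOperators

namespace Pool.Agent.MP_b1aeef_nt.H64

namespace RZsh

theorem num {q : ℕ} {o : Par} (h : Ok q o) {C Y : ℕ} (h1 : 1 ≤ Y) (h2 : Y ≤ q ^ jj q o.N)
    (h3 : (o.N : ℝ) ^ (C + 1) * bet q o.N ≤ 1) :
    1 / (Y : ℝ) + (o.N : ℝ) ^ C * bet q o.N + 4 * ((q ^ (4 * jj q o.N) : ℕ) : ℝ) / o.N ≤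
      3 / (Y : ℝ) := by
  have hq := h.hq
  have hY : (0 : ℝ) < Y := by exact_mod_cast h1
  have hN : (0 : ℝ) < o.N := by have := h.N16; exact_mod_cast (by omega : 0 < o.N)
  have hYN : (Y : ℝ) ≤ o.N := by exact_mod_cast h2.trans h.pow_j
  have e1 : (o.N : ℝ) ^ C * bet q o.N ≤ 1 / (Y : ℝ) := by
    refine le_trans ?_ (one_div_le_one_div_of_le hY hYN)
    rw [le_div_iff₀ hN]
    rw [pow_succ] at h3
    linarith
  have e2 : 4 ≤ q ^ jj q o.N :=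
    (Nat.pow_le_pow_left hq 2).trans (Nat.pow_le_pow_right (by omega) h.j2)
  have e3 : 4 * q ^ (4 * jj q o.N) * Y ≤ o.N := by
    refine le_trans ?_ h.pow_j8
    refine (Nat.mul_le_mul (Nat.mul_le_mul_right _ e2) h2).trans ?_
    rw [← pow_add, ← pow_add]
    exact Nat.pow_le_pow_right (by omega) (by omega)
  have e4 : 4 * ((q ^ (4 * jj q o.N) : ℕ) : ℝ) / o.N ≤ 1 / (Y : ℝ) := by
    rw [div_le_div_iff₀ hN hY, one_mul]
    exact_mod_cast e3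
  have e5 : 3 / (Y : ℝ) = 1 / Y + 1 / Y + 1 / Y := by ring
  linarith

theorem one (hs : SHStmt) {q : ℕ} {o : Par} (h : Ok q o) {C Y : ℕ} (h1 : 1 ≤ Y)
    (h2 : Y ≤ q ^ jj q o.N) (h3 : (o.N : ℝ) ^ (C + 1) * bet q o.N ≤ 1) {Ω : Type} [Fintype Ω]
    {D : ℤ → Ω → ℝ} (hD : Dens D) (g : Ω → ℤ) (hg : ∀ ω, |g ω| ≤ (q ^ (4 * jj q o.N) : ℕ))
    (hi : ∀ n ω, |D (n + g ω) ω - D n ω| ≤ D n ω / Y + (o.N : ℝ) ^ C * bet q o.N) :
    (∀ φ : ℤ → Ω → ℂ, (∀ n ω, ‖φ n ω‖ ≤ 1) →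
      ‖Ec o.N D (fun n ω => φ (n + g ω) ω) - Ec o.N D φ‖ ≤ 3 / (Y : ℝ)) ∧
    (∀ φ : ℤ → Ω → ℝ, (∀ n ω, ‖φ n ω‖ ≤ 1) →
      ‖Er o.N D (fun n ω => φ (n + g ω) ω) - Er o.N D φ‖ ≤ 3 / (Y : ℝ)) := by
  have k := hs Ω o.N (q ^ (4 * jj q o.N)) D g (1 / Y) ((o.N : ℝ) ^ C * bet q o.N)
    (by have := h.N16; omega) hD hg fun n ω => by
      rw [one_div, ← div_eq_inv_mul]; exact hi n ω
  exact ⟨fun φ hφ => (k.1 φ hφ).trans (num h h1 h2 h3),
    fun φ hφ => (k.2 φ hφ).trans (num h h1 h2 h3)⟩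

theorem many {Ω M I : Type} [SeminormedAddCommGroup M] (E : (ℤ → Ω → M) → M) (e : ℝ)
    (g : I → Ω → ℤ) (hg : ∀ i, ∀ φ : ℤ → Ω → M, (∀ n ω, ‖φ n ω‖ ≤ 1) →
      ‖E (fun n ω => φ (n + g i ω) ω) - E φ‖ ≤ e) (s : Finset I) :
    ∀ φ : ℤ → Ω → M, (∀ n ω, ‖φ n ω‖ ≤ 1) →
      ‖E (fun n ω => φ (n + ∑ i ∈ s, g i ω) ω) - E φ‖ ≤ s.card * e := by
  classical
  induction s using Finset.induction_on with
  | empty => intro φ _; simp
  | insert i s hi ih =>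
    intro φ hφ
    have h1 := hg i (fun n ω => φ (n + ∑ j ∈ s, g j ω) ω) fun n ω => hφ _ _
    have h2 := ih φ hφ
    have h3 := norm_sub_le_norm_sub_add_norm_sub
      (E fun n ω => φ (n + g i ω + ∑ j ∈ s, g j ω) ω) (E fun n ω => φ (n + ∑ j ∈ s, g j ω) ω) (E φ)
    simp only [sum_insert hi, ← add_assoc, card_insert_of_notMem hi]
    push_cast
    linarith

theorem all {Ω M I : Type} [Fintype I] [SeminormedAddCommGroup M] (E : (ℤ → Ω → M) → M) (e : ℝ)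
    (g : I → Ω → ℤ) (c : ℤ) (hg : ∀ i, ∀ φ : ℤ → Ω → M, (∀ n ω, ‖φ n ω‖ ≤ 1) →
      ‖E (fun n ω => φ (n + g i ω) ω) - E φ‖ ≤ e)
    (hc : ∀ φ : ℤ → Ω → M, (∀ n ω, ‖φ n ω‖ ≤ 1) → ‖E (fun n ω => φ (n + c) ω) - E φ‖ ≤ e)
    (φ : ℤ → Ω → M) (hφ : ∀ n ω, ‖φ n ω‖ ≤ 1) :
    ‖E (fun n ω => φ (n + ∑ i, g i ω + c) ω) - E φ‖ ≤ (Fintype.card I + 1) * e := by
  have h1 := many E e g hg univ (fun n ω => φ (n + c) ω) fun n ω => hφ _ _
  have h2 := hc φ hφ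
  have h3 := norm_sub_le_norm_sub_add_norm_sub
    (E fun n ω => φ (n + ∑ i, g i ω + c) ω) (E fun n ω => φ (n + c) ω) (E φ)
  rw [card_univ] at h1
  linarith

end RZsh

theorem zsh (h : SHStmt) : ZSHStmt := by
  intro V _ q P o C jb z b p S hO hS hI hb y hy
  have hq := hO.hq
  refine (RZsh.one h hO (by have := hS.Y2; omega) hS.Yle hb hS.dens (fun _ => y) (fun _ => ?_)
    fun n ω => ?_).1
  · refine hy.trans ?_
    exact_mod_cast hS.Yle.trans (Nat.pow_le_pow_right (by omega) (by omega))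
  · have h1 := hI n ω z y hy
    rwa [hS.gz, Nat.cast_one, one_mul] at h1

theorem fsh (h : SHStmt) : FSHStmt := by
  intro I _ q P J o C F hO hF hb y yb hy hyb
  have hq := hO.hq
  have hY : 1 ≤ F.Y := by
    refine le_trans ?_ hF.Ybig
    have := hO.R16
    exact Nat.mul_pos (by positivity) (by omega)
  have h1 := fun i => RZsh.one h hO hY hF.Yle hb hF.dens (fun ω => (F.gen ω i : ℤ) * y i)
    (fun ω => by
      rw [abs_of_nonneg (by positivity)]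
      exact_mod_cast (Nat.mul_le_mul_left _ (hy i)).trans (hF.size ω i))
    fun n ω => hF.inv n ω i (y i) (by
      rw [abs_of_nonneg (by positivity)]; exact_mod_cast hy i)
  have h2 := RZsh.one h hO hY hF.Yle hb hF.dens (fun _ => (q : ℤ) ^ a0 q o * yb)
    (fun _ => by
      rw [abs_of_nonneg (by positivity)]
      have h3 : q ^ a0 q o * yb ≤ q ^ (4 * jj q o.N) := by
        refine (Nat.mul_le_mul_left _ (hyb.trans hF.Yle)).trans ?_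
        rw [← pow_add]
        exact Nat.pow_le_pow_right (by omega) (by unfold a0; omega)
      exact_mod_cast h3)
    fun n ω => hF.invb n ω yb (by
      rw [abs_of_nonneg (by positivity)]; exact_mod_cast hyb)
  exact ⟨fun φ hφ => RZsh.all (Ec o.N F.D) _ (fun i ω => (F.gen ω i : ℤ) * y i) _
      (fun i => (h1 i).1) h2.1 φ hφ,
    fun φ hφ => RZsh.all (Er o.N F.D) _ (fun i ω => (F.gen ω i : ℤ) * y i) _
      (fun i => (h1 i).2) h2.2 φ hφ⟩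

end Pool.Agent.MP_b1aeef_nt.H64
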