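import Pool.Agent.MP_b1aeef_nt.H64.RFej
import Pool.Agent.MP_b1aeef_nt.H64.RKf
import Pool.Agent.MP_b1aeef_nt.H64.RVin
import Pool.Agent.MP_b1aeef_nt.H64.RW0
import Pool.Agent.MP_b1aeef_nt.H64.RW1
import Pool.Agent.MP_b1aeef_nt.H64.RW2
import Pool.Agent.MP_b1aeef_nt.H64.REq
import Pool.Agent.MP_b1aeef_nt.H64.RVal
import Pool.Agent.MP_b1aeef_nt.H64.RK2
import Pool.Agent.MP_b1aeef_nt.H64.RK4
import Pool.Agent.MP_b1aeef_nt.H64.RK5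
import Pool.Agent.MP_b1aeef_nt.H64.RSh
import Pool.Agent.MP_b1aeef_nt.H64.RZsh
import Pool.Agent.MP_b1aeef_nt.H64.RMarg
import Pool.Agent.MP_b1aeef_nt.H64.RVdc
import Pool.Agent.MP_b1aeef_nt.H64.RLeaf2
import Pool.Agent.MP_b1aeef_nt.H64.RBox
import Pool.Agent.MP_b1aeef_nt.H64.RGn
import Pool.Agent.MP_b1aeef_nt.H64.RNum
import Pool.Agent.MP_b1aeef_nt.H64.RZch
import Pool.Agent.MP_b1aeef_nt.H64.RS1
import Pool.Agent.MP_b1aeef_nt.H64.RS2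
import Pool.Agent.MP_b1aeef_nt.H64.RS3a
import Pool.Agent.MP_b1aeef_nt.H64.RS3b
import Pool.Agent.MP_b1aeef_nt.H64.RS3
import Pool.Agent.MP_b1aeef_nt.H64.RS4
import Pool.Agent.MP_b1aeef_nt.H64.RS5
import Pool.Agent.MP_b1aeef_nt.H64.RInit
import Pool.Agent.MP_b1aeef_nt.H64.RWin1
import Pool.Agent.MP_b1aeef_nt.H64.RWin2
import Pool.Agent.MP_b1aeef_nt.H64.RE1a
import Pool.Agent.MP_b1aeef_nt.H64.RE1
import Pool.Agent.MP_b1aeef_nt.H64.RE2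
import Pool.Agent.MP_b1aeef_nt.H64.RE3
import Pool.Agent.MP_b1aeef_nt.H64.RE4
import Pool.Agent.MP_b1aeef_nt.H64.RE5
import Pool.Agent.MP_b1aeef_nt.H64.RStep
import Pool.Agent.MP_b1aeef_nt.H64.RCor
import Pool.Agent.MP_b1aeef_nt.H64.RMain

/-! Assembly. -/

namespace Pool.Agent.MP_b1aeef_nt.H64

theorem w0_ok : W0Stmt := w0 vin

theorem kf_ok : KFStmt := kf fej_ok wt_ok

theorem k2_ok : K2Stmt := k2 wt_ok

theorem k1_ok : K1Stmt := k1 (w1 w0_ok kf_ok wt_ok) wt_ok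

theorem leaf2_ok : LEAF2Stmt := leaf2 (leaf vdc) (zsh sh)

theorem step_ok : STEPStmt :=
  step (s1 k2_ok (zch_ok k1_ok) marg) (s2 k2_ok (zch_ok k1_ok))
    (s3 (s3a (k4 wt_ok k2_ok) (zch_ok k1_ok)) (s3b (k4 wt_ok k2_ok) (zch_ok k1_ok)) k2_ok
      (zch_ok k1_ok))
    (s4 (w2 w0_ok) (k5 kf_ok k2_ok) k2_ok marg fej_ok (zch_ok k1_ok))
    (s5 leaf2_ok (k6 kf_ok k2_ok) k2_ok marg (zch_ok k1_ok)) num

theorem fin_ok : FINStmt :=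
  fin (win1 k2_ok (zw k1_ok) marg) (win2 leaf2_ok (k6 kf_ok k2_ok) k2_ok marg (zw k1_ok)) num
    (e1 e1a (fsh sh) (eq_ok w0_ok fej_ok) grow)
    (e5 (e2 box) e3 (e4 fej_ok) (val (eq_ok w0_ok fej_ok)) gn)

theorem cor_ok : CORStmt := cor (ind_ok step_ok fin_ok) init

theorem main_ok : MAINStmt := main_of cor_ok

end Pool.Agent.MP_b1aeef_nt.H64
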