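import Pool.Agent.MP_b1aeef_nt.H64.Defs

/-! Elementary lemmas on `ee`, `nn`, `sq`, `dL`, `ds`, `IsPoly`. -/

open Finset Polynomial Filter Topology
open scoped BigOperators

namespace Pool.Agent.MP_b1aeef_nt.H64

theorem ee_add (x y : ℝ) : ee (x + y) = ee x * ee y := by
  unfold ee; rw [← Complex.exp_add]; congr 1; push_cast; ring

@[simp] theorem ee_zero : ee 0 = 1 := by simp [ee]

@[simp] theorem norm_ee (x : ℝ) : ‖ee x‖ = 1 := by
  unfold ee
  have : (2 * Real.pi * x * Complex.I : ℂ) = ((2 * Real.pi * x : ℝ) : ℂ) * Complex.I := by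
    push_cast; ring
  rw [this, Complex.norm_exp_ofReal_mul_I]

@[simp] theorem ee_int (k : ℤ) : ee k = 1 := by
  unfold ee
  have : (2 * Real.pi * (k : ℝ) * Complex.I : ℂ) = k * (2 * Real.pi * Complex.I) := by
    push_cast; ring
  rw [this, Complex.exp_int_mul_two_pi_mul_I]

theorem ee_add_int (x : ℝ) (k : ℤ) : ee (x + k) = ee x := by rw [ee_add, ee_int, mul_one]

theorem conj_ee (x : ℝ) : (starRingEnd ℂ) (ee x) = ee (-x) := by
  unfold ee
  rw [← Complex.exp_conj]; congr 1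
  simp only [map_mul, Complex.conj_ofReal, Complex.conj_I, map_ofNat]; push_cast; ring

theorem ee_sub (x y : ℝ) : ee (x - y) = ee x * (starRingEnd ℂ) (ee y) := by
  rw [conj_ee, ← ee_add, sub_eq_add_neg]

theorem ee_sum {ι : Type*} (s : Finset ι) (f : ι → ℝ) : ee (∑ i ∈ s, f i) = ∏ i ∈ s, ee (f i) := by
  classical
  induction s using Finset.induction_on with
  | empty => simp
  | insert a s h ih => rw [sum_insert h, prod_insert h, ee_add, ih]

theorem ee_nat_mul (n : ℕ) (x : ℝ) : ee (n * x) = ee x ^ n := by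
  induction n with
  | zero => simp
  | succ n ih => rw [Nat.cast_succ, add_mul, one_mul, ee_add, ih, pow_succ]

theorem ee_re (x : ℝ) : (ee x).re = Real.cos (2 * Real.pi * x) := by
  unfold ee
  have : (2 * Real.pi * x * Complex.I : ℂ) = ((2 * Real.pi * x : ℝ) : ℂ) * Complex.I := by
    push_cast; ring
  rw [this, Complex.exp_ofReal_mul_I_re]

theorem nn_nonneg (x : ℝ) : 0 ≤ nn x := abs_nonneg _

theorem nn_le_half (x : ℝ) : nn x ≤ 1 / 2 := abs_sub_round x

theorem nn_le (x : ℝ) (k : ℤ) : nn x ≤ |x - k| := round_le x k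

theorem nn_le_abs (x : ℝ) : nn x ≤ |x| := by simpa using nn_le x 0

@[simp] theorem nn_int (k : ℤ) : nn k = 0 := by simp [nn]

@[simp] theorem nn_zero : nn 0 = 0 := by simp [nn]

theorem nn_add_int (x : ℝ) (k : ℤ) : nn (x + k) = nn x := by
  unfold nn; rw [round_add_intCast]; congr 1; push_cast; ring

theorem nn_add_le (x y : ℝ) : nn (x + y) ≤ nn x + nn y := by
  refine (nn_le _ (round x + round y)).trans ?_
  have : x + y - ((round x + round y : ℤ) : ℝ) = (x - round x) + (y - round y) := by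
    push_cast; ring
  rw [this]; exact abs_add_le _ _

theorem nn_neg (x : ℝ) : nn (-x) = nn x := by
  have h : ∀ y : ℝ, nn (-y) ≤ nn y := fun y => by
    refine (nn_le _ (-round y)).trans (le_of_eq ?_)
    have : -y - ((-round y : ℤ) : ℝ) = -(y - round y) := by push_cast; ring
    rw [this, abs_neg]; rfl
  exact le_antisymm (h x) (by simpa using h (-x))

theorem nn_sub_le (x y : ℝ) : nn (x - y) ≤ nn x + nn y := by
  rw [sub_eq_add_neg, ← nn_neg y]; exact nn_add_le _ _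

theorem nn_int_mul_le (k : ℤ) (x : ℝ) : nn (k * x) ≤ |(k : ℝ)| * nn x := by
  refine (nn_le _ (k * round x)).trans (le_of_eq ?_)
  have : k * x - ((k * round x : ℤ) : ℝ) = k * (x - round x) := by push_cast; ring
  rw [this, abs_mul]; rfl

theorem nn_nat_mul_le (k : ℕ) (x : ℝ) : nn (k * x) ≤ k * nn x := by
  simpa using nn_int_mul_le k x

theorem nn_sum_le {ι : Type*} (s : Finset ι) (f : ι → ℝ) :
    nn (∑ i ∈ s, f i) ≤ ∑ i ∈ s, nn (f i) := by
  classical
  induction s using Finset.induction_on with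
  | empty => simp
  | insert a s h ih =>
    rw [sum_insert h, sum_insert h]; exact (nn_add_le _ _).trans (by linarith)

theorem nn_eq_abs {x : ℝ} (h : |x| ≤ 1 / 2) : nn x = |x| := by
  refine le_antisymm (nn_le_abs x) ?_
  unfold nn
  rcases eq_or_ne (round x) 0 with h0 | h0
  · simp [h0]
  · have h1 : (1 : ℝ) ≤ |((round x : ℤ) : ℝ)| := by exact_mod_cast Int.one_le_abs h0
    have h2 := abs_sub_abs_le_abs_sub ((round x : ℤ) : ℝ) x
    rw [abs_sub_comm] at h2
    linarith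

/-- passing from the scale `q ^ b` to the smaller scale `q ^ a` -/
theorem nn_div_pow_le {q : ℕ} (hq : 2 ≤ q) (x : ℝ) {a b : ℕ} (h : a ≤ b) :
    nn (x / (q : ℝ) ^ a) ≤ (q : ℝ) ^ (b - a) * nn (x / (q : ℝ) ^ b) := by
  have hq0 : (0 : ℝ) < q := by exact_mod_cast (by omega : 0 < q)
  have : x / (q : ℝ) ^ a = ((q ^ (b - a) : ℕ) : ℝ) * (x / (q : ℝ) ^ b) := by
    obtain ⟨c, rfl⟩ := Nat.exists_eq_add_of_le h
    rw [Nat.add_sub_cancel_left]; push_cast; field_simp; ring
  rw [this]; simpa using nn_nat_mul_le (q ^ (b - a)) (x / (q : ℝ) ^ b)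

theorem ee_eq_nn (x : ℝ) : ee x = ee (x - round x) := by
  conv_lhs => rw [show x = (x - round x) + ((round x : ℤ) : ℝ) by ring, ee_add_int]

theorem norm_ee_sub_one (x : ℝ) : ‖ee x - 1‖ = 2 * |Real.sin (Real.pi * x)| := by
  unfold ee
  have : (2 * Real.pi * x * Complex.I : ℂ) = Complex.I * ((2 * Real.pi * x : ℝ) : ℂ) := by
    push_cast; ring
  rw [this, Complex.norm_exp_I_mul_ofReal_sub_one, Real.norm_eq_abs, abs_mul]
  congr 2
  · simp
  · congr 1; ring

theorem norm_ee_sub_one_le (x : ℝ) : ‖ee x - 1‖ ≤ 2 * Real.pi * nn x := by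
  rw [ee_eq_nn, norm_ee_sub_one]
  have := Real.abs_sin_le_abs (x := Real.pi * (x - round x))
  rw [abs_mul, abs_of_pos Real.pi_pos] at this
  unfold nn; nlinarith

theorem le_norm_ee_sub_one (x : ℝ) : 4 * nn x ≤ ‖ee x - 1‖ := by
  rw [ee_eq_nn, norm_ee_sub_one]
  have h1 : |x - round x| ≤ 1 / 2 := abs_sub_round x
  have h2 := Real.mul_abs_le_abs_sin (x := Real.pi * (x - round x)) (by
    rw [abs_mul, abs_of_pos Real.pi_pos]; nlinarith [Real.pi_pos])
  rw [abs_mul, abs_of_pos Real.pi_pos] at h2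
  have h3 : 2 / Real.pi * (Real.pi * |x - round x|) = 2 * |x - round x| := by
    field_simp
  unfold nn; linarith

theorem norm_ee_sub_ee_le (x y : ℝ) : ‖ee x - ee y‖ ≤ 2 * Real.pi * nn (x - y) := by
  have : ee x - ee y = ee y * (ee (x - y) - 1) := by
    rw [mul_sub, ← ee_add]; simp
  rw [this, norm_mul, norm_ee, one_mul]; exact norm_ee_sub_one_le _

/-- geometric sums -/
theorem geom_ee (L : ℕ) (x c : ℝ) : 2 * nn x * ‖∑ a ∈ range L, ee (a * x + c)‖ ≤ 1 := by
  have h1 : ∑ a ∈ range L, ee (a * x + c) = (∑ a ∈ range L, ee x ^ a) * ee c := by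
    rw [sum_mul]; exact sum_congr rfl fun a _ => by rw [ee_add, ee_nat_mul]
  have h2 : ‖(∑ a ∈ range L, ee x ^ a) * (ee x - 1)‖ ≤ 2 := by
    rw [geom_sum_mul]
    refine (norm_sub_le _ _).trans ?_
    rw [norm_pow, norm_ee, one_pow, norm_one]; norm_num
  rw [norm_mul] at h2
  rw [h1, norm_mul, norm_ee, mul_one]
  have h3 := le_norm_ee_sub_one x
  nlinarith [norm_nonneg (∑ a ∈ range L, ee x ^ a)]

/-! digit sums -/

@[simp] theorem sq_zero (q : ℕ) : sq q 0 = 0 := by simp [sq]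

theorem sq_mul_add {q : ℕ} (hq : 2 ≤ q) (m r : ℕ) (hr : r < q) : sq q (q * m + r) = r + sq q m := by
  rcases Nat.eq_zero_or_pos (q * m + r) with h | h
  · obtain rfl : r = 0 := by omega
    obtain rfl : m = 0 := by
      rcases Nat.mul_eq_zero.1 (show q * m = 0 by omega) with h | h <;> omega
    simp
  · unfold sq
    rw [Nat.digits_def' (by omega) h, List.sum_cons, Nat.mul_add_mod, Nat.mod_eq_of_lt hr,
      Nat.mul_add_div (by omega), Nat.div_eq_of_lt hr, add_zero]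

theorem sq_of_lt {q : ℕ} (hq : 2 ≤ q) {r : ℕ} (hr : r < q) : sq q r = r := by
  simpa using sq_mul_add hq 0 r hr

theorem sq_add_pow {q : ℕ} (hq : 2 ≤ q) (a : ℕ) :
    ∀ x y : ℕ, x < q ^ a → sq q (x + q ^ a * y) = sq q x + sq q y := by
  induction a with
  | zero => intro x y h; obtain rfl : x = 0 := by simpa using h
            simp
  | succ a ih =>
    intro x y h
    have hq0 : 0 < q := by omega
    have e1 : x + q ^ (a + 1) * y = q * (x / q + q ^ a * y) + x % q := by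
      rw [pow_succ]; have := Nat.div_add_mod x q; nlinarith
    have e2 : sq q x = x % q + sq q (x / q) := by
      conv_lhs => rw [← Nat.div_add_mod x q]
      exact sq_mul_add hq _ _ (Nat.mod_lt _ hq0)
    rw [e1, sq_mul_add hq _ _ (Nat.mod_lt _ hq0),
      ih _ _ (Nat.div_lt_of_lt_mul (by rwa [pow_succ'] at h)), e2, add_assoc]

@[simp] theorem dL_zero (q : ℕ) (m : ℤ) : dL q 0 m = 0 := by simp [dL]

theorem dL_add_mul (q L : ℕ) (m t : ℤ) : dL q L (m + (q : ℤ) ^ L * t) = dL q L m := by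
  unfold dL; rw [Int.add_mul_emod_self_left]

theorem dL_congr {q L : ℕ} {m m' : ℤ} (h : (q : ℤ) ^ L ∣ m' - m) : dL q L m' = dL q L m := by
  obtain ⟨t, ht⟩ := h
  rw [show m' = m + (q : ℤ) ^ L * t by linarith, dL_add_mul]

theorem dL_nat {q L m : ℕ} (h : m < q ^ L) : dL q L (m : ℤ) = sq q m := by
  unfold dL
  rw [Int.emod_eq_of_lt (by positivity) (by exact_mod_cast h), Int.toNat_natCast]

/-- splitting off the lowest `a` digits -/
theorem dL_split {q : ℕ} (hq : 2 ≤ q) (a c : ℕ) (m : ℤ) :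
    dL q (a + c) m = dL q a m + dL q c (m / (q : ℤ) ^ a) := by
  have hq0 : (0 : ℤ) < q := by exact_mod_cast (by omega : 0 < q)
  have ha : (0 : ℤ) < (q : ℤ) ^ a := by positivity
  have hc : (0 : ℤ) < (q : ℤ) ^ c := by positivity
  obtain ⟨x, hx⟩ := Int.eq_ofNat_of_zero_le (Int.emod_nonneg m ha.ne')
  obtain ⟨y, hy⟩ := Int.eq_ofNat_of_zero_le (Int.emod_nonneg (m / (q : ℤ) ^ a) hc.ne')
  have hxl : x < q ^ a := by
    have := Int.emod_lt_of_pos m ha; rw [hx] at this; exact_mod_cast this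
  have hyl : y < q ^ c := by
    have := Int.emod_lt_of_pos (m / (q : ℤ) ^ a) hc; rw [hy] at this; exact_mod_cast this
  have e1 : m = ((x + q ^ a * y : ℕ) : ℤ) +
      (q : ℤ) ^ (a + c) * (m / (q : ℤ) ^ a / (q : ℤ) ^ c) := by
    have h1 := Int.mul_ediv_add_emod m ((q : ℤ) ^ a)
    have h2 := Int.mul_ediv_add_emod (m / (q : ℤ) ^ a) ((q : ℤ) ^ c)
    rw [hx] at h1; rw [hy] at h2
    push_cast; rw [pow_add]; linear_combination -h1 - (q : ℤ) ^ a * h2
  have hl : x + q ^ a * y < q ^ (a + c) := by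
    rw [pow_add]
    have : q ^ a * (y + 1) ≤ q ^ a * q ^ c := Nat.mul_le_mul_left _ hyl
    nlinarith
  conv_lhs => rw [e1, dL_add_mul, dL_nat hl, sq_add_pow hq a x y hxl]
  unfold dL
  rw [hx, hy, Int.toNat_natCast, Int.toNat_natCast]

@[simp] theorem ds_self (q a : ℕ) (m : ℤ) : ds q a a m = 0 := by simp [ds]

theorem ds_zero (q b : ℕ) (m : ℤ) : ds q 0 b m = dL q b m := by simp [ds]

theorem ds_add {q : ℕ} (hq : 2 ≤ q) {a b c : ℕ} (h1 : a ≤ b) (h2 : b ≤ c) (m : ℤ) :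
    ds q a b m + ds q b c m = ds q a c m := by
  obtain ⟨u, rfl⟩ := Nat.exists_eq_add_of_le h1
  obtain ⟨v, rfl⟩ := Nat.exists_eq_add_of_le h2
  unfold ds
  rw [Nat.add_sub_cancel_left, Nat.add_sub_cancel_left, add_assoc, Nat.add_sub_cancel_left,
    dL_split hq, pow_add, Int.ediv_ediv_of_nonneg (by positivity)]

theorem ds_congr {q : ℕ} (hq : 2 ≤ q) {a b : ℕ} (hab : a ≤ b) {m m' : ℤ}
    (h : (q : ℤ) ^ b ∣ m' - m) : ds q a b m' = ds q a b m := by
  have hq0 : (0 : ℤ) < q := by exact_mod_cast (by omega : 0 < q)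
  obtain ⟨t, ht⟩ := h
  obtain ⟨u, rfl⟩ := Nat.exists_eq_add_of_le hab
  unfold ds
  rw [Nat.add_sub_cancel_left, show m' = m + (q : ℤ) ^ a * ((q : ℤ) ^ u * t) by
    rw [pow_add] at ht; linarith, Int.add_mul_ediv_left _ _ (by positivity), dL_add_mul]

theorem ds_nat {q b : ℕ} {m : ℤ} (h0 : 0 ≤ m) (h : m < (q : ℤ) ^ b) :
    ds q 0 b m = sq q m.toNat := by
  rw [ds_zero]; unfold dL; rw [Int.emod_eq_of_lt h0 h]

/-- (BL) a small move does not change a block when no carry is near -/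
theorem ds_eq_of_small {q : ℕ} (hq : 2 ≤ q) {a b : ℕ} (hab : a ≤ b) {m m' : ℤ} {η : ℝ}
    (h1 : nn (((m' - m : ℤ) : ℝ) / (q : ℝ) ^ b) ≤ η / (q : ℝ) ^ (b - a))
    (h2 : η < nn ((m : ℝ) / (q : ℝ) ^ a)) : ds q a b m' = ds q a b m := by
  have hq0 : (0 : ℝ) < q := by exact_mod_cast (by omega : 0 < q)
  set t := round (((m' - m : ℤ) : ℝ) / (q : ℝ) ^ b) with ht
  set δ : ℤ := m' - m - (q : ℤ) ^ b * t with hδ
  have hb : (0 : ℝ) < (q : ℝ) ^ b := by positivity
  have ha : (0 : ℝ) < (q : ℝ) ^ a := by positivity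
  have hδ1 : |(δ : ℝ) / (q : ℝ) ^ a| ≤ η := by
    have e : (δ : ℝ) / (q : ℝ) ^ a =
        (q : ℝ) ^ (b - a) * (((m' - m : ℤ) : ℝ) / (q : ℝ) ^ b - t) := by
      obtain ⟨u, rfl⟩ := Nat.exists_eq_add_of_le hab
      rw [hδ, Nat.add_sub_cancel_left]; push_cast; field_simp; ring
    rw [e, abs_mul, abs_of_pos (by positivity : (0 : ℝ) < (q : ℝ) ^ (b - a))]
    rw [le_div_iff₀ (by positivity)] at h1
    unfold nn at h1; linarith
  have hqq : (m + δ) / (q : ℤ) ^ a = m / (q : ℤ) ^ a := by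
    have hf : ∀ k : ℤ, k / (q : ℤ) ^ a = ⌊(k : ℝ) / (q : ℝ) ^ a⌋ := fun k => by
      have := Int.floor_div_natCast (k : ℝ) (q ^ a)
      rw [Int.floor_intCast] at this
      push_cast at this
      exact this.symm
    rw [hf, hf, Int.floor_eq_iff]
    have g1 := nn_le ((m : ℝ) / (q : ℝ) ^ a) ⌊(m : ℝ) / (q : ℝ) ^ a⌋
    have g2 := nn_le ((m : ℝ) / (q : ℝ) ^ a) (⌊(m : ℝ) / (q : ℝ) ^ a⌋ + 1)
    have g3 := Int.floor_le ((m : ℝ) / (q : ℝ) ^ a)
    have g4 := Int.lt_floor_add_one ((m : ℝ) / (q : ℝ) ^ a)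
    rw [abs_of_nonneg (by linarith)] at g1
    rw [abs_of_nonpos (by push_cast; linarith)] at g2
    push_cast at g2 ⊢
    rw [add_div]
    have := abs_le.1 hδ1
    constructor <;> linarith [this.1, this.2]
  have e2 : ds q a b m' = ds q a b (m + δ) := ds_congr hq hab ⟨t, by rw [hδ]; ring⟩
  rw [e2]; unfold ds; rw [hqq]

theorem ind_nonneg (p : Prop) : 0 ≤ ind p := by unfold ind; split_ifs <;> norm_num

theorem ind_le_one (p : Prop) : ind p ≤ 1 := by unfold ind; split_ifs <;> norm_num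

theorem ind_pos {p : Prop} (h : p) : ind p = 1 := by unfold ind; rw [if_pos h]

theorem ind_neg {p : Prop} (h : ¬ p) : ind p = 0 := by unfold ind; rw [if_neg h]

/-! polynomial functions -/

theorem IsPoly.congr {r : ℕ} {γ γ' : ℝ} {f g : ℤ → ℝ} (h : IsPoly r γ f) (e : γ = γ')
    (e' : ∀ n, f n = g n) : IsPoly r γ' g := by
  rw [← e, ← funext e']; exact h

theorem IsPoly.add : ∀ {r : ℕ} {γ γ' : ℝ} {f g : ℤ → ℝ}, IsPoly r γ f → IsPoly r γ' g →
    IsPoly r (γ + γ') fun n => f n + g n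
  | 0, _, _, _, _, hf, hg => fun n => congrArg₂ (· + ·) (hf n) (hg n)
  | _ + 1, _, _, _, _, hf, hg => fun h =>
    (IsPoly.add (hf h) (hg h)).congr (by ring) fun n => by ring

theorem IsPoly.mul_const (c : ℝ) : ∀ {r : ℕ} {γ : ℝ} {f : ℤ → ℝ}, IsPoly r γ f →
    IsPoly r (γ * c) fun n => f n * c
  | 0, _, _, hf => fun n => congrArg (· * c) (hf n)
  | _ + 1, _, _, hf => fun h => (IsPoly.mul_const c (hf h)).congr (by ring) fun n => by ring

theorem IsPoly.shift (c : ℤ) : ∀ {r : ℕ} {γ : ℝ} {f : ℤ → ℝ}, IsPoly r γ f →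
    IsPoly r γ fun n => f (n + c)
  | 0, _, _, hf => fun n => hf (n + c)
  | _ + 1, _, _, hf => fun h =>
    (IsPoly.shift c (hf h)).congr rfl fun n => by rw [add_right_comm]

theorem isPoly_zero : ∀ r : ℕ, IsPoly r 0 fun _ => 0
  | 0 => fun _ => rfl
  | r + 1 => fun _ => (isPoly_zero r).congr (by ring) fun _ => by ring

theorem IsPoly.succ : ∀ {r : ℕ} {γ : ℝ} {f : ℤ → ℝ}, IsPoly r γ f → IsPoly (r + 1) 0 f
  | 0, _, _, hf => fun h n => by simp [hf n, hf (n + h)]
  | _ + 1, _, _, hf => fun h => (IsPoly.succ (hf h)).congr (by ring) fun _ => rfl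

theorem IsPoly.sum {ι : Type*} {r : ℕ} (s : Finset ι) {γ : ι → ℝ} {f : ι → ℤ → ℝ}
    (h : ∀ i ∈ s, IsPoly r (γ i) (f i)) :
    IsPoly r (∑ i ∈ s, γ i) fun n => ∑ i ∈ s, f i n := by
  classical
  induction s using Finset.induction_on with
  | empty => simpa using isPoly_zero r
  | insert a s ha ih =>
    refine ((h a (mem_insert_self _ _)).add (ih fun i hi => h i (mem_insert_of_mem hi))).congr
      (sum_insert ha).symm fun n => (sum_insert ha (f := fun i => f i n)).symm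

/-- real polynomials of degree at most `r` -/
theorem isPoly_eval : ∀ (r : ℕ) (Q : ℝ[X]), Q.natDegree ≤ r →
    IsPoly r (r.factorial * Q.coeff r) fun n => Q.eval (n : ℝ)
  | 0, Q, hQ => fun n => by
    rw [eq_C_of_natDegree_le_zero hQ]; simp
  | r + 1, Q, hQ => fun h => by
    have hc : ∀ i, r + 1 ≤ i → (taylor (h : ℝ) Q - Q).coeff i = 0 := fun i hi => by
      rw [coeff_sub, taylor_coeff]
      have : (hasseDeriv i Q).natDegree ≤ 0 := (natDegree_hasseDeriv_le Q i).trans (by omega)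
      rw [eq_C_of_natDegree_le_zero this, hasseDeriv_coeff]; simp
    have hd : (taylor (h : ℝ) Q - Q).natDegree ≤ r :=
      natDegree_le_iff_coeff_eq_zero.2 fun i hi => hc i hi
    refine (isPoly_eval r _ hd).congr ?_ fun n => ?_
    · rw [coeff_sub, taylor_coeff]
      have : (hasseDeriv r Q).natDegree ≤ 1 := (natDegree_hasseDeriv_le Q r).trans (by omega)
      rw [eq_X_add_C_of_natDegree_le_one this, hasseDeriv_coeff, hasseDeriv_coeff]
      simp [Nat.factorial_succ, add_comm 1 r]; ring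
    · rw [eval_sub, taylor_eval]; push_cast; rfl

/-- integer polynomials of degree at most `r` -/
theorem isPoly_int (r : ℕ) (Q : ℤ[X]) (hQ : Q.natDegree ≤ r) :
    IsPoly r (r.factorial * (Q.coeff r : ℝ)) fun n => ((Q.eval n : ℤ) : ℝ) := by
  refine (isPoly_eval r (Q.map (Int.castRingHom ℝ)) (natDegree_map_le.trans hQ)).congr
    (by simp) fun n => ?_
  rw [eval_intCast_map]; simp

/-- Taylor expansion of a Hasse derivative -/
theorem hasse_shift (P : ℤ[X]) (e : ℕ) (n h : ℤ) :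
    (hasseDeriv e P).eval (n + h) = ∑ i ∈ range (P.natDegree + 1),
      ((e + i).choose e : ℤ) * (hasseDeriv (e + i) P).eval n * h ^ i := by
  have hd : (taylor n (hasseDeriv e P)).natDegree < P.natDegree + 1 := by
    rw [natDegree_taylor]
    exact Nat.lt_succ_of_le ((natDegree_hasseDeriv_le P e).trans (Nat.sub_le _ _))
  rw [add_comm n h, ← taylor_eval, eval_eq_sum_range' hd]
  refine sum_congr rfl fun i _ => ?_
  rw [taylor_coeff]
  have := congrArg (fun T => T P) (hasseDeriv_comp (R := ℤ) i e)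
  simp only [LinearMap.comp_apply, LinearMap.smul_apply] at this
  rw [this, add_comm i e, Nat.choose_symm_add]
  simp

theorem hasse_eq_zero (P : ℤ[X]) {e : ℕ} (h : P.natDegree < e) : hasseDeriv e P = 0 :=
  hasseDeriv_eq_zero_of_lt_natDegree P e h

end Pool.Agent.MP_b1aeef_nt.H64
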