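import Pool.Agent.MP_b1aeef_nt.H64.Kit

/-! Numerical consequences of `Ok` and `Num`. -/

open Finset Polynomial Filter Topology
open scoped BigOperators

namespace Pool.Agent.MP_b1aeef_nt.H64

variable {q d C Y L m E : ℕ} {o : Par}

theorem Ok.N_ne (h : Ok q o) : o.N ≠ 0 := by
  intro h0
  have := h.hl
  simp [lg, h0] at this

theorem Ok.pow_lg (h : Ok q o) : q ^ lg q o.N ≤ o.N := Nat.pow_log_le_self q h.N_ne

theorem Ok.j2 (h : Ok q o) : 2 ≤ jj q o.N := by have := h.hl; unfold jj; omega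

theorem Ok.j8 (h : Ok q o) : 8 * jj q o.N ≤ lg q o.N := by unfold jj; omega

theorem Ok.pow_j8 (h : Ok q o) : q ^ (8 * jj q o.N) ≤ o.N :=
  (Nat.pow_le_pow_right (by have := h.hq; omega) h.j8).trans h.pow_lg

theorem Ok.pow_j (h : Ok q o) : q ^ jj q o.N ≤ o.N :=
  (Nat.pow_le_pow_right (by have := h.hq; omega) (by omega)).trans h.pow_j8

theorem Ok.N16 (h : Ok q o) : 16 ≤ o.N := by
  have h1 : 2 ^ 16 ≤ q ^ lg q o.N :=
    (Nat.pow_le_pow_left h.hq 16).trans (Nat.pow_le_pow_right (by have := h.hq; omega) h.hl)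
  have := h.pow_lg
  omega

theorem Ok.R16 (h : Ok q o) : 16 ≤ o.R := h.hl.trans h.hR

theorem Ok.KR (h : Ok q o) : KK q o.N * o.R ^ 2 ≤ q ^ o.s := by
  refine le_trans ?_ h.hR4
  have := Nat.pow_le_pow_left h.hR 2
  unfold KK; nlinarith

theorem Ok.KK2 (h : Ok q o) : KK q o.N ^ 2 ≤ q ^ o.s := by
  refine le_trans ?_ h.hR4
  unfold KK; rw [← pow_mul]; exact Nat.pow_le_pow_left h.hR 4

theorem Ok.K_pos (h : Ok q o) : 1 ≤ KK q o.N := by
  have := h.hl; unfold KK; exact Nat.one_le_pow _ _ (by omega)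

theorem Ok.R_le (h : Ok q o) : o.R ≤ q ^ o.s :=
  (Nat.le_self_pow (by norm_num) _).trans h.hR4

theorem Ok.le_gg (h : Ok q o) : 2 * (KK q o.N * o.R ^ 2) ≤ q ^ gg q o := by
  have h1 := Nat.lt_pow_succ_log_self (b := q) (by have := h.hq; omega) (KK q o.N * o.R ^ 2)
  have h2 := h.hq
  unfold gg
  rw [pow_succ q, mul_comm 2]
  exact Nat.mul_le_mul h1.le h2

theorem Ok.gg_le (h : Ok q o) : q ^ gg q o ≤ q ^ 2 * (KK q o.N * o.R ^ 2) := by
  have h0 : KK q o.N * o.R ^ 2 ≠ 0 := by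
    have := h.K_pos; have := h.R16; positivity
  have h1 := Nat.pow_log_le_self q h0
  unfold gg
  rw [pow_add, mul_comm]; exact Nat.mul_le_mul_left _ h1

theorem Ok.j_le_a0 (h : Ok q o) : jj q o.N ≤ a0 q o := by have := h.hs; unfold a0; omega

theorem Ok.a0_add (h : Ok q o) : a0 q o + 2 * o.s = b0 q o.N := by
  have := h.hs; unfold a0 b0; omega

theorem Ok.a0_add' (h : Ok q o) : a0 q o + o.s = a1 q o := by have := h.hs; unfold a0 a1; omega

theorem Ok.a1_add (h : Ok q o) : a1 q o + o.s = b0 q o.N := by have := h.hs; unfold a1 b0; omega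

theorem b0_le_atop (q d N : ℕ) : b0 q N ≤ atop q d N := by unfold b0 atop; omega

theorem atop_le {q d N : ℕ} (hd : 1 ≤ d) : atop q d N + 2 * jj q N ≤ d * lg q N := by
  obtain ⟨e, rfl⟩ := Nat.exists_eq_add_of_le' hd
  unfold atop jj
  rw [Nat.add_sub_cancel, add_mul, one_mul]; omega

theorem atop_le_btop {q d N : ℕ} (hd : 1 ≤ d) : atop q d N ≤ btop q d N := by
  have := atop_le (q := q) (N := N) hd
  unfold btop; rw [add_mul]; omega

theorem Num.mono (h : Num q d o C Y L m E) {E' : ℕ} (hE : E' ≤ E) : Num q d o C Y L m E' :=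
  ⟨h.ok, (Nat.pow_le_pow_right (by have := h.ok.hq; omega) (Nat.mul_le_mul_left _ hE)).trans h.hE,
    hE.trans h.hL, h.hsm, h.hbet, h.hm⟩

theorem Num.pow_le (h : Num q d o C Y L m E) {e : ℕ} (he : e ≤ E) : (q ^ L) ^ e ≤ Y := by
  rw [← pow_mul]; exact (h.mono he).hE

theorem Num.pow_le_sqrt (h : Num q d o C Y L m E) {e : ℕ} (he : 2 * e ≤ E) :
    (q ^ L) ^ e ≤ Nat.sqrt Y := by
  rw [Nat.le_sqrt, ← pow_add, ← two_mul]; exact h.pow_le he

/-- `X * Y' ^ e ≤ Y` -/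
theorem Num.sqrt_mul_le (h : Num q d o C Y L m E) {e : ℕ} (he : 2 * e ≤ E) :
    Nat.sqrt Y * (q ^ L) ^ e ≤ Y :=
  (Nat.mul_le_mul_left _ (h.pow_le_sqrt he)).trans (Nat.sqrt_le Y)

/-- constants are below the new range -/
theorem Num.const_le (h : Num q d o C Y L m E) {c : ℕ} (hc : c ≤ E) : c ≤ q ^ L :=
  (hc.trans h.hL).trans (Nat.lt_pow_self (by have := h.ok.hq; omega)).le

theorem Num.const_sq_le (h : Num q d o C Y L m E) {c : ℕ} (hc : c ^ 2 ≤ E) : c ^ 2 ≤ q ^ L :=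
  h.const_le hc

theorem Num.s3_le (h : Num q d o C Y L m E) : q ^ (3 * o.s) ≤ q ^ L :=
  le_trans (Nat.le_mul_of_pos_right _ (by omega)) h.hsm

theorem Num.s_le (h : Num q d o C Y L m E) : q ^ o.s ≤ q ^ L :=
  (Nat.pow_le_pow_right (by have := h.ok.hq; omega) (by omega)).trans h.s3_le

theorem Num.m_le (h : Num q d o C Y L m E) : m + 1 ≤ q ^ L :=
  le_trans (Nat.le_mul_of_pos_left _ (by have := h.ok.hq; positivity)) h.hsm

theorem Num.big (h : Num q d o C Y L m E) : 16 ≤ q ^ L := (h.ok.R16.trans h.ok.R_le).trans h.s_le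

theorem bet_pos (q N : ℕ) : 0 < bet q N := by unfold bet; positivity

theorem corr_le (q : ℕ) (α : ℤ → ℝ) (P : ℤ[X]) (J : Finset ℤ) (N : ℕ) : ‖corr q α P J N‖ ≤ 1 := by
  unfold corr
  rcases Nat.eq_zero_or_pos N with rfl | h
  · simp
  · refine (RCLike.norm_expect_le (K := ℝ)).trans ?_
    simp only [norm_ee]
    rw [expect_const (nonempty_range_iff.2 h.ne')]

end Pool.Agent.MP_b1aeef_nt.H64
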