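import Pool.Agent.MP_b1aeef_nt.H64.Spec

/-! Row E2: from the model to the cube averages. -/

open Finset Polynomial Filter Topology
open scoped BigOperators

namespace Pool.Agent.MP_b1aeef_nt.H64

namespace RE2

theorem jen {ι : Type} (s : Finset ι) (w f : ι → ℝ) (hw : ∀ i ∈ s, 0 ≤ w i)
    (hf : ∀ i ∈ s, 0 ≤ f i) (h1 : 𝔼 i ∈ s, w i = 1) (M : ℕ) :
    (𝔼 i ∈ s, w i * f i) ^ M ≤ 𝔼 i ∈ s, w i * f i ^ M := by
  have := Real.pow_arith_mean_le_arith_mean_pow s (fun i => w i / s.card) f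
    (fun i hi => div_nonneg (hw i hi) (Nat.cast_nonneg _))
    (by rw [← sum_div, ← expect_eq_sum_div_card, h1]) hf M
  rw [expect_eq_sum_div_card, expect_eq_sum_div_card, sum_div, sum_div]
  simpa only [div_mul_eq_mul_div] using this

theorem jen1 {ι : Type} (s : Finset ι) (hs : s.Nonempty) (f : ι → ℝ) (hf : ∀ i ∈ s, 0 ≤ f i)
    (M : ℕ) : (𝔼 i ∈ s, f i) ^ M ≤ 𝔼 i ∈ s, f i ^ M := by
  simpa only [one_mul] using jen s (fun _ => 1) f (fun _ _ => zero_le_one) hf
    (expect_const hs _) M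

theorem norm_shift {ι : Type} (s : Finset ι) (c : ℝ) (f : ι → ℝ) :
    ‖𝔼 i ∈ s, ee (c + f i)‖ = ‖𝔼 i ∈ s, ee (f i)‖ := by
  simp only [ee_add]
  rw [← mul_expect, norm_mul, norm_ee, one_mul]

variable {I : Type} [Fintype I] [DecidableEq I]

omit [DecidableEq I] in
theorem low {q : ℕ} (hq : 2 ≤ q) (P : ℤ[X]) (o : Par) (A : I → ℕ) (n j : ℤ) (y : I → ℕ) (yb : ℕ) :
    ds q 0 (a0 q o) (P.eval (pt q o A n y yb + j)) =
      ds q 0 (a0 q o) (P.eval (pt q o A n y 0 + j)) := by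
  refine ds_congr hq (Nat.zero_le _) (Dvd.dvd.trans ⟨yb, ?_⟩ (sub_dvd_eval_sub _ _ P))
  unfold pt
  push_cast
  ring

theorem inner {q : ℕ} (hq : 2 ≤ q) (α : ℤ → ℝ) (P : ℤ[X]) (J : Finset ℤ) (o : Par) (A : I → ℕ)
    (n : ℤ) (y0 y1 : I → ℕ) :
    ‖𝔼 yb : Fin (q ^ (2 * o.s)), ee (∑ E : Finset I,
      (-1) ^ E.card * pmain q α P J o A n (vtx y0 y1 E) yb)‖ = ‖cube q (α 0) P o A n y0 y1‖ := by
  unfold cube
  refine Eq.trans ?_ (norm_shift univ (∑ E : Finset I, (-1) ^ E.card *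
    ∑ j ∈ J, α j * ds q 0 (a0 q o) (P.eval (pt q o A n (vtx y0 y1 E) 0 + j))) _)
  refine congrArg norm (expect_congr rfl fun yb _ => congrArg ee ?_)
  rw [mul_sum, ← sum_add_distrib]
  refine sum_congr rfl fun E _ => ?_
  unfold pmain
  simp only [fun j => low hq P o A n j (vtx y0 y1 E) yb]
  ring

theorem point (h : BOXStmt) [Nonempty I] {q : ℕ} (hq : 2 ≤ q) (α : ℤ → ℝ) (P : ℤ[X])
    (J : Finset ℤ) (o : Par) (F : FDat I) (n : ℤ) (ω : F.Ω) :
    ‖𝔼 yb : Fin (q ^ (2 * o.s)), 𝔼 y : I → Fin (o.R),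
      ee (pmod q α P J o F ω n (fun i => y i) yb)‖ ^ 2 ^ Fintype.card I ≤
    𝔼 y0 : I → Fin o.R, 𝔼 y1 : I → Fin o.R,
      ‖cube q (α 0) P o (F.gen ω) n (fun i => y0 i) (fun i => y1 i)‖ := by
  have hne : (univ : Finset (Fin (q ^ (2 * o.s)))).Nonempty :=
    ⟨⟨0, pow_pos (by omega) _⟩, mem_univ _⟩
  have key : ∀ yb : Fin (q ^ (2 * o.s)), ‖𝔼 y : I → Fin (o.R),
      ee (pmod q α P J o F ω n (fun i => y i) yb)‖ ^ 2 ^ Fintype.card I ≤
      (𝔼 y0 : I → Fin o.R, 𝔼 y1 : I → Fin o.R, ee (∑ E : Finset I, (-1) ^ E.card *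
        pmain q α P J o (F.gen ω) n (vtx (fun i => y0 i) (fun i => y1 i) E) yb)).re := fun yb => by
    have hb := h I (Fin o.R) (fun y => pmain q α P J o (F.gen ω) n (fun i => y i) yb)
      (fun i y => pdir q α P o F ω n i (fun i => y i) yb) fun i y t => by
        have e : Function.update (fun k => ((Function.update y i t k : Fin o.R) : ℕ)) i 0 =
            Function.update (fun k => ((y k : Fin o.R) : ℕ)) i 0 := by
          funext k
          by_cases hk : k = i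
          · subst hk
            simp
          · simp [Function.update_of_ne hk]
        simp only [pdir, e]
    have ev : ∀ (y0 y1 : I → Fin o.R) (E : Finset I),
        (fun i => ((vtx y0 y1 E i : Fin o.R) : ℕ)) =
          vtx (fun i => (y0 i : ℕ)) (fun i => (y1 i : ℕ)) E := fun y0 y1 E => by
      funext i
      unfold vtx
      split_ifs <;> rfl
    simp only [ev] at hb
    unfold pmod
    rw [norm_shift]
    exact hb
  refine (pow_le_pow_left₀ (norm_nonneg _) (RCLike.norm_expect_le (K := ℝ)) _).trans ?_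
  refine (jen1 _ hne _ (fun _ _ => norm_nonneg _) _).trans ?_
  refine (expect_le_expect fun yb _ => key yb).trans ?_
  rw [← Complex.re_expect, expect_comm]
  refine (Complex.re_le_norm _).trans ((RCLike.norm_expect_le (K := ℝ)).trans
    (expect_le_expect fun y0 _ => ?_))
  rw [expect_comm]
  exact (RCLike.norm_expect_le (K := ℝ)).trans
    (expect_le_expect fun y1 _ => (inner hq α P J o _ n _ _).le)

end RE2

theorem e2 (h : BOXStmt) : E2Stmt := by
  intro I _ _ _ q α P J o F hq hN hD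
  have h1 : ‖model q α P J o F‖ ≤ 𝔼 n ∈ range o.N, 𝔼 ω : F.Ω, F.D (n : ℤ) ω *
      ‖𝔼 yb : Fin (q ^ (2 * o.s)), 𝔼 y : I → Fin (o.R),
        ee (pmod q α P J o F ω (n : ℤ) (fun i => y i) yb)‖ := by
    refine (RCLike.norm_expect_le (K := ℝ)).trans (expect_le_expect fun n _ => ?_)
    refine (RCLike.norm_expect_le (K := ℝ)).trans (expect_le_expect fun ω _ => ?_)
    rw [norm_mul, Complex.norm_real, Real.norm_of_nonneg (hD.nonneg _ _)]
  refine (pow_le_pow_left₀ (norm_nonneg _) h1 _).trans ?_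
  refine (RE2.jen1 _ (nonempty_range_iff.2 (by omega)) _ (fun n _ => expect_nonneg fun ω _ =>
    mul_nonneg (hD.nonneg _ _) (norm_nonneg _)) _).trans (expect_le_expect fun n _ => ?_)
  refine (RE2.jen _ _ _ (fun ω _ => hD.nonneg _ _) (fun _ _ => norm_nonneg _) (hD.avg _) _).trans
    (expect_le_expect fun ω _ => ?_)
  exact mul_le_mul_of_nonneg_left (RE2.point h hq α P J o F n ω) (hD.nonneg _ _)

end Pool.Agent.MP_b1aeef_nt.H64
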