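import Pool.Agent.MP_b1aeef_nt.H64.Spec

/-! The Fejer kernel and the basic weight. -/

open Finset Polynomial Filter Topology
open scoped BigOperators

namespace Pool.Agent.MP_b1aeef_nt.H64

namespace RFej

/-- the mean of the phases -/
noncomputable def av (U : ℕ) (x : ℝ) : ℂ := 𝔼 u ∈ range U, ee (u * x)

theorem fej_eq (U : ℕ) (x : ℝ) : fej U x = ‖av U x‖ ^ 2 := rfl

theorem av_eq (U : ℕ) (x : ℝ) : av U x = (∑ u ∈ range U, ee (u * x)) / U := by
  unfold av
  rw [expect_eq_sum_div_card, card_range]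

theorem norm_av (U : ℕ) (x : ℝ) : ‖av U x‖ = ‖∑ u ∈ range U, ee (u * x)‖ / U := by
  rw [av_eq, norm_div, Complex.norm_natCast]

theorem norm_av_le {U : ℕ} (hU : 1 ≤ U) (x : ℝ) : ‖av U x‖ ≤ 1 := by
  have h0 : (0 : ℝ) < U := by exact_mod_cast hU
  rw [norm_av, div_le_one h0]
  refine (norm_sum_le _ _).trans (le_of_eq ?_)
  simp

theorem av_zero {U : ℕ} (hU : 1 ≤ U) : av U 0 = 1 := by
  have h0 : (U : ℂ) ≠ 0 := by exact_mod_cast (by omega : U ≠ 0)
  rw [av_eq]
  simp [h0]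

theorem av_int (U : ℕ) (x : ℝ) (k : ℤ) : av U (x + k) = av U x := by
  rw [av_eq, av_eq]
  refine congrArg (fun t : ℂ => t / U) (sum_congr rfl fun u _ => ?_)
  have e : (u : ℝ) * (x + k) = u * x + ((u * k : ℤ) : ℝ) := by
    push_cast
    ring
  rw [e, ee_add_int]

theorem av_small {U : ℕ} (hU : 1 ≤ U) {x : ℝ} (h : 1 ≤ U * nn x) : ‖av U x‖ ≤ 1 / 2 := by
  have h0 : (0 : ℝ) < U := by exact_mod_cast hU
  have h1 := geom_ee U x 0
  simp only [add_zero] at h1
  rw [norm_av, div_le_iff₀ h0]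
  have h2 := norm_nonneg (∑ u ∈ range U, ee (u * x))
  have h3 := mul_le_mul_of_nonneg_left h1 h0.le
  have h4 := mul_le_mul_of_nonneg_right h h2
  nlinarith

theorem re_ee (x : ℝ) : 1 - (2 * Real.pi * nn x) ^ 2 / 2 ≤ (ee x).re := by
  rw [ee_eq_nn, ee_re]
  have h := Real.one_sub_sq_div_two_le_cos (x := 2 * Real.pi * (x - round x))
  have e : (2 * Real.pi * nn x) ^ 2 = (2 * Real.pi * (x - round x)) ^ 2 := by
    unfold nn
    rw [mul_pow, mul_pow (2 * Real.pi), sq_abs]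
  rw [e]
  exact h

theorem av_big {U : ℕ} (hU : 1 ≤ U) {x : ℝ} (h : U * nn x ≤ 1 / 10) : 3 / 4 ≤ ‖av U x‖ := by
  have h0 : (0 : ℝ) < U := by exact_mod_cast hU
  rw [norm_av, le_div_iff₀ h0]
  refine le_trans ?_ (Complex.re_le_norm _)
  rw [Complex.re_sum]
  have h1 : ∀ u ∈ range U, (3 / 4 : ℝ) ≤ (ee (u * x)).re := by
    intro u hu
    refine le_trans ?_ (re_ee _)
    have h2 : (u : ℝ) ≤ U := by exact_mod_cast (mem_range.1 hu).le
    have h3 : nn (u * x) ≤ 1 / 10 :=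
      (nn_nat_mul_le u x).trans ((mul_le_mul_of_nonneg_right h2 (nn_nonneg x)).trans h)
    have h4 := nn_nonneg (u * x)
    have h5 := Real.pi_lt_d2
    have h6 := Real.pi_pos
    have h7 : 2 * Real.pi * nn (u * x) ≤ 7 / 10 := by nlinarith
    have h8 : 0 ≤ 2 * Real.pi * nn (u * x) := by positivity
    nlinarith
  have h2 := card_nsmul_le_sum (range U) _ _ h1
  rw [card_range, nsmul_eq_mul] at h2
  linarith

theorem av_lip {U : ℕ} (hU : 1 ≤ U) (x δ : ℝ) :
    ‖av U (x + δ) - av U x‖ ≤ 2 * Real.pi * (U * nn δ) := by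
  have h0 : (0 : ℝ) < U := by exact_mod_cast hU
  rw [av_eq, av_eq, ← sub_div, norm_div, Complex.norm_natCast, div_le_iff₀ h0, ← sum_sub_distrib]
  refine (norm_sum_le _ _).trans ?_
  have h1 : ∀ u ∈ range U, ‖ee (u * (x + δ)) - ee (u * x)‖ ≤ 2 * Real.pi * (U * nn δ) := by
    intro u hu
    refine (norm_ee_sub_ee_le _ _).trans (mul_le_mul_of_nonneg_left ?_ (by positivity))
    have h2 : (u : ℝ) ≤ U := by exact_mod_cast (mem_range.1 hu).le
    rw [show (u : ℝ) * (x + δ) - u * x = u * δ by ring]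
    exact (nn_nat_mul_le u δ).trans (mul_le_mul_of_nonneg_right h2 (nn_nonneg δ))
  have h2 := sum_le_card_nsmul (range U) _ _ h1
  rw [card_range, nsmul_eq_mul] at h2
  linarith

theorem fej_lip {U : ℕ} (hU : 1 ≤ U) (x δ : ℝ) :
    |fej U (x + δ) - fej U x| ≤ 13 * U * nn δ := by
  have h1 := norm_av_le hU x
  have h2 := norm_av_le hU (x + δ)
  have h3 := (abs_norm_sub_norm_le _ _).trans (av_lip hU x δ)
  have h4 := norm_nonneg (av U x)
  have h5 := norm_nonneg (av U (x + δ))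
  have h6 : 0 ≤ (U : ℝ) * nn δ := mul_nonneg (Nat.cast_nonneg U) (nn_nonneg δ)
  have h7 := Real.pi_lt_d2
  rw [fej_eq, fej_eq, sq_sub_sq, abs_mul, abs_of_nonneg (add_nonneg h5 h4)]
  have h8 : (‖av U (x + δ)‖ + ‖av U x‖) * |‖av U (x + δ)‖ - ‖av U x‖| ≤
      2 * (2 * Real.pi * (U * nn δ)) :=
    mul_le_mul (by linarith) h3 (abs_nonneg _) (by norm_num)
  nlinarith

theorem fej_exp (U : ℕ) (x : ℝ) :
    (fej U x : ℂ) = 𝔼 u ∈ range U, 𝔼 u' ∈ range U, ee (((u : ℝ) - u') * x) := by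
  rw [fej_eq, Complex.ofReal_pow, ← Complex.mul_conj', av_eq]
  simp only [expect_eq_sum_div_card, card_range, sub_mul, ee_sub]
  rw [map_div₀, map_sum, Complex.conj_natCast, ← sum_div, div_mul_div_comm, sum_mul_sum, div_div]

end RFej

open RFej in
theorem fej_ok : FEJStmt := by
  intro U hU
  refine ⟨fun x => ⟨sq_nonneg _, ?_⟩, ?_, fun x k => ?_, fun x h => ?_, fun x h => ?_,
    fej_lip hU, fej_exp U⟩
  · exact pow_le_one₀ (norm_nonneg _) (norm_av_le hU x)
  · rw [fej_eq, av_zero hU]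
    simp
  · rw [fej_eq, fej_eq, av_int]
  · have h1 := av_small hU h
    have h2 := norm_nonneg (av U x)
    rw [fej_eq]
    nlinarith
  · have h1 := av_big hU h
    rw [fej_eq]
    nlinarith

theorem wt_ok : WTStmt := by
  intro U K hU
  obtain ⟨h1, h2, h3, h4, -, h5, -⟩ := fej_ok U hU
  refine ⟨fun x => ⟨?_, ?_⟩, ?_, fun x k => ?_, fun x h => ?_, fun x δ => ?_⟩
  · have := (h1 x).1
    unfold wt
    positivity
  · have := h1 x
    exact pow_le_one₀ (by linarith [this.1]) (by linarith [this.2])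
  · unfold wt
    rw [h2]
    norm_num
  · unfold wt
    rw [h3]
  · have := h4 x h
    exact pow_le_pow_left₀ (by linarith [(h1 x).1]) (by linarith) K
  · have e : 13 * (K : ℝ) * U * nn δ = K * (13 * U * nn δ) := by ring
    unfold wt
    rw [e, Real.exp_nat_mul, ← mul_pow]
    refine pow_le_pow_left₀ (by linarith [(h1 (x + δ)).1]) ?_ K
    have h6 := (abs_le.1 (h5 x δ)).2
    have h7 := Real.add_one_le_exp (13 * U * nn δ)
    have h8 := (h1 x).1
    have h9 : 0 ≤ 13 * (U : ℝ) * nn δ := mul_nonneg (by positivity) (nn_nonneg δ)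
    nlinarith

end Pool.Agent.MP_b1aeef_nt.H64
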