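import Pool.Agent.MP_b1aeef_nt.H64.Spec

/-! Rows K5 and K6: linear phases against a kernel. -/

open Finset Polynomial Filter Topology
open scoped BigOperators

namespace Pool.Agent.MP_b1aeef_nt.H64

namespace RK5

/-- the pointwise bound through the Fourier expansion of the weight -/
theorem bound {ι κ : Type} [Fintype κ] (S : Finset ι) (U : ι → ℕ) (K k X : ℕ) (c : κ → ℝ)
    (u : κ → ι → ℤ) (hc : ∀ i, 0 ≤ c i)
    (hx : ∀ x : ι → ℝ, ((∏ t ∈ S, wt (U t) K (x t) : ℝ) : ℂ) =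
      ∑ i, (c i : ℂ) * ee (∑ t ∈ S, u i t * x t))
    (ξ : ι → ℝ) (θ z0 : ℝ) (hz : 0 < z0) (hZ : z0 ≤ Zt S U K k X ξ) :
    ‖𝔼 a : Fin X, (ker S U K k X ξ ((a : ℕ) + 1) : ℂ) * ee (θ * (((a : ℕ) + 1 : ℕ) : ℝ))‖ ≤
      (∑ i, c i * ‖𝔼 a : Fin X, ee ((∑ t ∈ S, u i t * ξ t) * (((a : ℕ) + 1 : ℕ) : ℝ) ^ k +
        θ * (((a : ℕ) + 1 : ℕ) : ℝ))‖) / z0 := by
  have hZ0 : 0 < Zt S U K k X ξ := hz.trans_le hZ
  have e1 : ∀ a : ℕ, (ker S U K k X ξ a : ℂ) * ee (θ * (a : ℝ)) =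
      ∑ i, ((c i / Zt S U K k X ξ : ℝ) : ℂ) *
        ee ((∑ t ∈ S, u i t * ξ t) * (a : ℝ) ^ k + θ * (a : ℝ)) := by
    intro a
    have h1 := hx (fun t => ξ t * (a : ℝ) ^ k)
    unfold ker Wt
    rw [Complex.ofReal_div, h1, sum_div, sum_mul]
    refine sum_congr rfl fun i _ => ?_
    rw [ee_add, sum_mul, Complex.ofReal_div]
    have : ∑ t ∈ S, (u i t : ℝ) * (ξ t * (a : ℝ) ^ k) = ∑ t ∈ S, (u i t : ℝ) * ξ t * (a : ℝ) ^ k :=
      sum_congr rfl fun t _ => by ring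
    rw [this]; ring
  have e2 : 𝔼 a : Fin X, (ker S U K k X ξ ((a : ℕ) + 1) : ℂ) * ee (θ * (((a : ℕ) + 1 : ℕ) : ℝ)) =
      ∑ i, ((c i / Zt S U K k X ξ : ℝ) : ℂ) *
        𝔼 a : Fin X, ee ((∑ t ∈ S, u i t * ξ t) * (((a : ℕ) + 1 : ℕ) : ℝ) ^ k +
          θ * (((a : ℕ) + 1 : ℕ) : ℝ)) := by
    rw [expect_congr rfl fun (a : Fin X) _ => e1 ((a : ℕ) + 1), expect_sum_comm]
    exact sum_congr rfl fun i _ => (mul_expect _ _ _).symm
  rw [e2, sum_div]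
  refine (norm_sum_le _ _).trans (sum_le_sum fun i _ => ?_)
  rw [norm_mul, Complex.norm_real, Real.norm_of_nonneg (div_nonneg (hc i) hZ0.le),
    mul_div_right_comm]
  exact mul_le_mul_of_nonneg_right (div_le_div_of_nonneg_left (hc i) hz hZ) (norm_nonneg _)

theorem Er_mono {Ω : Type} [Fintype Ω] (N : ℕ) {D : ℤ → Ω → ℝ} (hD : Dens D) {φ ψ : ℤ → Ω → ℝ}
    (h : ∀ n ω, φ n ω ≤ ψ n ω) : Er N D φ ≤ Er N D ψ :=
  expect_le_expect fun _ _ => expect_le_expect fun ω _ =>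
    mul_le_mul_of_nonneg_left (h _ ω) (hD.nonneg _ ω)

theorem Er_comb {Ω κ : Type} [Fintype Ω] [Fintype κ] (N : ℕ) (D : ℤ → Ω → ℝ) (c : κ → ℝ)
    (z0 : ℝ) (φ : κ → ℤ → Ω → ℝ) :
    Er N D (fun n ω => (∑ i, c i * φ i n ω) / z0) = (∑ i, c i * Er N D (φ i)) / z0 := by
  unfold Er
  have e : ∀ (n : ℕ) (ω : Ω), D n ω * ((∑ i, c i * φ i n ω) / z0) =
      ∑ i, c i / z0 * (D n ω * φ i n ω) := fun n ω => by
    rw [sum_div, mul_sum]; exact sum_congr rfl fun i _ => by ring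
  simp only [e]
  rw [sum_div, expect_congr rfl fun (n : ℕ) _ => expect_sum_comm _ _ _, expect_sum_comm]
  refine sum_congr rfl fun i _ => ?_
  simp only [← mul_expect]
  ring

end RK5

theorem k5 (hk : KFStmt) (h2 : K2Stmt) : K5Stmt := by
  intro ι S U K k X ξ θ z0 B0 hU _ hz hZ hB
  obtain ⟨κ, _, c, u, hc, hs, -, -, hx⟩ := hk ι S U K hU
  refine (RK5.bound S U K k X c u hc hx ξ θ z0 hz hZ).trans ?_
  refine div_le_div_of_nonneg_right ?_ hz.le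
  calc _ ≤ ∑ i, c i * B0 := sum_le_sum fun i _ => mul_le_mul_of_nonneg_left (hB _) (hc i)
    _ = B0 := by rw [← sum_mul, hs, one_mul]

theorem k6 (hk : KFStmt) (h2 : K2Stmt) : K6Stmt := by
  intro ι Ω _ S U K X N D ξ θ z0 B0 hU _ hD hz hZ hB
  obtain ⟨κ, _, c, u, hc, hs, hu, -, hx⟩ := hk ι S U K hU
  refine (RK5.Er_mono N hD fun n ω =>
    RK5.bound S U K 1 X c u hc hx (ξ n ω) (θ n ω) z0 hz (hZ n ω)).trans ?_
  rw [RK5.Er_comb N D c z0 fun i n ω => ‖𝔼 a : Fin X,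
    ee ((∑ t ∈ S, u i t * ξ n ω t) * (((a : ℕ) + 1 : ℕ) : ℝ) ^ 1 +
      θ n ω * (((a : ℕ) + 1 : ℕ) : ℝ))‖]
  refine div_le_div_of_nonneg_right ?_ hz.le
  calc _ ≤ ∑ i, c i * B0 := sum_le_sum fun i _ => mul_le_mul_of_nonneg_left (by
        have := hB (u i) (hu i)
        simpa only [pow_one, add_mul] using this) (hc i)
    _ = B0 := by rw [← sum_mul, hs, one_mul]

end Pool.Agent.MP_b1aeef_nt.H64
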