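import Pool.Agent.MP_b1aeef_nt.H64.Spec

/-! The guarantee survives a refinement step. -/

open Finset Polynomial Filter Topology
open scoped BigOperators

namespace Pool.Agent.MP_b1aeef_nt.H64

namespace RS2

variable {V : Type} [Fintype V] [DecidableEq V] {m : ℕ}

/-- the children are collapsed onto the parent -/
def pi (v : V) (μ : V ⊕ Fin m → ℕ) (w : V) : ℕ :=
  μ (Sum.inl w) + if w = v then ∑ c, μ (Sum.inr c) else 0

theorem sum_pi (v : V) (μ : V ⊕ Fin m → ℕ) : ∑ w, pi v μ w = ∑ w, μ w := by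
  simp only [pi, sum_add_distrib, sum_ite_eq', mem_univ, if_true, Fintype.sum_sum_type]

theorem mon_pi (P : ℤ[X]) (A : V → ℕ) (v : V) (a : Fin m → ℕ) (n : ℤ) (μ : V ⊕ Fin m → ℕ) :
    mon P (Sum.elim A fun c => A v * a c) n μ =
      ((∏ c, a c ^ μ (Sum.inr c) : ℕ) : ℤ) * mon P A n (pi v μ) := by
  have h : ∏ w, (A w : ℤ) ^ (if w = v then ∑ c, μ (Sum.inr c) else 0) =
      ∏ c, (A v : ℤ) ^ μ (Sum.inr c) := by
    rw [prod_eq_single v (fun w _ hw => by rw [if_neg hw, pow_zero]) (by simp), if_pos rfl,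
      prod_pow_eq_pow_sum]
  unfold mon
  rw [sum_pi, Fintype.prod_sum_type]
  simp only [pi, pow_add, prod_mul_distrib, h, Sum.elim_inl, Sum.elim_inr]
  push_cast
  simp only [mul_pow, prod_mul_distrib]
  ring

theorem tol_nonneg (R Y e : ℕ) : 0 ≤ tol R Y e := by
  unfold tol
  split_ifs <;> positivity

theorem tol_mul {R Y Y' X M s e : ℕ} (hX : 1 ≤ X) (hY' : 1 ≤ Y') (h : X * Y' ≤ Y) (hM : M ≤ X ^ s)
    (hs : s ≤ e) (he : e ≠ 1 ∨ s = 0) : M * tol R Y e ≤ tol R Y' e := by
  unfold tol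
  split_ifs with h1
  · obtain rfl := he.resolve_left (not_not.2 h1)
    have : (M : ℝ) ≤ 1 := by exact_mod_cast hM
    exact mul_le_of_le_one_left (by positivity) this
  · have h2 : M * Y' ^ e ≤ Y ^ e := by
      refine le_trans ?_ (Nat.pow_le_pow_left h e)
      rw [mul_pow]
      exact Nat.mul_le_mul_right _ (hM.trans (Nat.pow_le_pow_right hX hs))
    have h3 : 0 < Y := lt_of_lt_of_le (Nat.mul_pos hX hY') h
    rw [mul_one_div, div_le_div_iff₀ (by positivity) (by positivity), one_mul]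
    exact_mod_cast h2

theorem step {M : ℕ} {g : ℤ} {b τ τ' c : ℝ} (hc : 0 < c) (h : nn ((g : ℝ) / b) ≤ τ / c)
    (hτ : M * τ ≤ τ') : nn ((((M : ℤ) * g : ℤ) : ℝ) / b) ≤ τ' / c := by
  push_cast
  rw [mul_div_assoc]
  refine (nn_nat_mul_le M _).trans ((mul_le_mul_of_nonneg_left h (Nat.cast_nonneg M)).trans ?_)
  rw [← mul_div_assoc]
  exact div_le_div_of_nonneg_right hτ hc.le

end RS2

open RS2 in
theorem s2 (h2 : K2Stmt) (hz : ZCHStmt) : S2Stmt := by
  intro V _ _ q P jb z b p v hv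
  obtain ⟨C1, E, hE⟩ := hz V q P v (jb v - 1) (by omega)
  refine ⟨max (max E C1) 2, fun o C S L m h0 hg hN n ω => ?_⟩
  obtain ⟨ω, a⟩ := ω
  have hq := hN.ok.hq
  have hq0 : (0 : ℝ) < q := by exact_mod_cast (by omega : 0 < q)
  have hX : 1 ≤ Nat.sqrt S.Y := by
    rw [Nat.le_sqrt]
    have := h0.Y2
    omega
  have hL : 1 ≤ q ^ L := Nat.one_le_pow _ _ (by omega)
  have hXY : Nat.sqrt S.Y * q ^ L ≤ S.Y := by
    simpa using hN.sqrt_mul_le (e := 1) (le_max_right _ _)
  have hN1 : (1 : ℝ) ≤ o.N := by exact_mod_cast (by have := hN.ok.N16; omega : 1 ≤ o.N)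
  have hb := bet_pos q o.N
  have hU : ∀ (len : ℕ) (μ : V → ℕ), 1 ≤ UU q o.R L len μ := fun len μ => by
    have := hN.ok.R16
    unfold UU
    split_ifs <;> exact Nat.mul_pos (by positivity) (by positivity)
  have hK := fun c : ℕ => h2 _ (MM P.natDegree v (jb v - 1))
    (UU q o.R L (chi S v L c - clo S v L c)) (KK q o.N) (jb v - 1) (Nat.sqrt S.Y)
    (phs q P S (chi S v L c) n ω) (fun t _ => hU _ t) hX
  have hZ : ∀ c, 1 / zch q P o S v (jb v - 1) L c n ω ≤ o.N := fun c => by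
    have e1 := hE o C S L m (hN.mono ((le_max_left _ _).trans (le_max_left _ _))) c n ω
    have e2 : (q ^ L) ^ C1 ≤ o.N :=
      ((hN.pow_le ((le_max_right _ _).trans (le_max_left _ _))).trans h0.Yle).trans hN.ok.pow_j
    refine ((one_div_le (by positivity) (hK c).1.1).1 e1).trans ?_
    exact_mod_cast e2
  have hk : ∀ c x, 0 ≤ kch q P o S v (jb v - 1) L c n ω x ∧
      kch q P o S v (jb v - 1) L c n ω x ≤ o.N := fun c x =>
    ⟨((hK c).2.2.1 x).1, ((hK c).2.2.1 x).2.trans (hZ c)⟩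
  have hp : ∀ T : Finset (Fin m),
      ∏ c ∈ T, kch q P o S v (jb v - 1) L c n ω ((a c : ℕ) + 1) ≤ (o.N : ℝ) ^ m := fun T => by
    refine (prod_le_prod (fun c _ => (hk _ _).1) fun c _ => (hk _ _).2).trans ?_
    rw [prod_const]
    exact pow_le_pow_right₀ hN1 (by simpa using card_le_univ T)
  have hp0 : ∀ T : Finset (Fin m),
      0 ≤ ∏ c ∈ T, kch q P o S v (jb v - 1) L c n ω ((a c : ℕ) + 1) := fun T =>
    prod_nonneg fun c _ => (hk _ _).1
  have hfin : (o.N : ℝ) ^ (C + m + 1) * bet q o.N ≤ (o.N : ℝ) ^ (C + m + 3) * bet q o.N :=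
    mul_le_mul_of_nonneg_right (pow_le_pow_right₀ hN1 (by omega)) hb.le
  rcases hg n ω with hG | hG
  swap
  · refine Or.inr (le_trans ?_ hfin)
    refine (mul_le_mul hG (hp univ) (hp0 univ) (by positivity)).trans ?_
    rw [mul_right_comm, ← pow_add]
    exact mul_le_mul_of_nonneg_right (pow_le_pow_right₀ hN1 (by omega)) hb.le
  by_cases hbad : ∃ c : Fin m, ∃ t ∈ MM P.natDegree v (jb v - 1),
      1 ≤ (UU q o.R L (chi S v L c - clo S v L c) t : ℝ) *
        nn (phs q P S (chi S v L c) n ω t * (((a c : ℕ) + 1 : ℕ) : ℝ) ^ (jb v - 1))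
  · obtain ⟨c, hc⟩ := hbad
    refine Or.inr (le_trans ?_ hfin)
    have e1 : kch q P o S v (jb v - 1) L c n ω ((a c : ℕ) + 1) ≤ bet q o.N * o.N := by
      refine ((hK c).2.2.2.1 _ hc).trans ?_
      rw [div_eq_mul_one_div]
      exact mul_le_mul_of_nonneg_left (hZ c) hb.le
    change S.D n ω * ∏ c : Fin m, kch q P o S v (jb v - 1) L c n ω ((a c : ℕ) + 1) ≤ _
    rw [← mul_prod_erase _ _ (mem_univ c)]
    refine (mul_le_mul (h0.sup n ω) (mul_le_mul e1 (hp _) (hp0 _) (by positivity))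
      (mul_nonneg (hk _ _).1 (hp0 _)) (by positivity)).trans_eq ?_
    ring
  left
  push Not at hbad
  intro u hu μ hμ
  have hM : ∏ c, ((a c : ℕ) + 1) ^ μ (Sum.inr c) ≤ Nat.sqrt S.Y ^ ∑ c, μ (Sum.inr c) := by
    rw [← prod_pow_eq_pow_sum]
    exact prod_le_prod' fun c _ => Nat.pow_le_pow_left (a c).2 _
  have hs : ∑ w, μ (Sum.inl w) + ∑ c, μ (Sum.inr c) = ∑ w, μ w := (Fintype.sum_sum_type μ).symm
  change nn ((mon P (Sum.elim (S.gen ω) fun c => S.gen ω v * ((a c : ℕ) + 1)) n μ : ℝ) / _) ≤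
    tol o.R (q ^ L) _ / _
  rw [mon_pi]
  rcases u with u | c
  · have huv : u ≠ v := by
      rintro rfl
      simp [jref] at hu
    simp only [jref, Sum.elim_inl, Function.update_of_ne huv] at hu hμ
    have e1 := hG u hu (pi v μ) (hμ.trans (Nat.le_add_right _ _))
    have e2 : μ (Sum.inl u) ≤ ∑ w, μ (Sum.inl w) :=
      single_le_sum (f := fun w => μ (Sum.inl w)) (fun _ _ => Nat.zero_le _) (mem_univ u)
    rw [sum_pi] at e1
    simp only [refine, Sum.elim_inl, Function.update_of_ne huv]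
    exact step (by positivity) e1 (tol_mul hX hL hXY hM (by omega) (by omega))
  · simp only [jref, Sum.elim_inr] at hu hμ
    simp only [refine, Sum.elim_inr]
    have e2 : μ (Sum.inl v) ≤ ∑ w, μ (Sum.inl w) :=
      single_le_sum (f := fun w => μ (Sum.inl w)) (fun _ _ => Nat.zero_le _) (mem_univ v)
    have e3 : pi v μ v = μ (Sum.inl v) + ∑ c, μ (Sum.inr c) := by rw [RS2.pi, if_pos rfl]
    have e4 := add_sum_erase univ (fun c => μ (Sum.inr c)) (mem_univ c)
    have r1 := (h0.reg v).2.1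
    have r2 : S.lo v ≤ clo S v L c := le_min (Nat.le_add_right _ _) r1
    have r3 : clo S v L c ≤ chi S v L c :=
      min_le_min_right _ (Nat.add_le_add_left (Nat.mul_le_mul_right _ (Nat.le_succ _)) _)
    have r4 : chi S v L c ≤ S.hi v := min_le_right _ _
    by_cases h1 : jb v ≤ pi v μ v
    · have e1 := hG v (by omega) (pi v μ) h1
      rw [sum_pi] at e1
      refine step (by positivity) ((nn_div_pow_le hq _ r4).trans ?_)
        (tol_mul hX hL hXY hM (by omega) (by omega))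
      refine (mul_le_mul_of_nonneg_left e1 (by positivity)).trans ?_
      rw [← mul_div_assoc, div_le_div_iff₀ (by positivity) (by positivity), mul_right_comm,
        mul_comm, ← pow_add]
      exact mul_le_mul_of_nonneg_left (pow_le_pow_right₀ (by exact_mod_cast (by omega : 1 ≤ q))
        (by omega)) (tol_nonneg _ _ _)
    by_cases h3 : P.natDegree < ∑ w, μ w
    · rw [mon, sum_pi, hasse_eq_zero P h3]
      simp only [eval_zero, zero_mul, mul_zero, Int.cast_zero, zero_div, nn_zero]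
      exact div_nonneg (tol_nonneg _ _ _) (by positivity)
    have e5 : pi v μ ∈ MM P.natDegree v (jb v - 1) := by
      refine mem_filter.2 ⟨Fintype.mem_piFinset.2 fun w => mem_range.2 ?_, by omega⟩
      have := single_le_sum (f := pi v μ) (fun _ _ => Nat.zero_le _) (mem_univ w)
      rw [sum_pi] at this
      omega
    have e6 : ∏ c, ((a c : ℕ) + 1) ^ μ (Sum.inr c) = ((a c : ℕ) + 1) ^ (jb v - 1) := by
      have e7 : ∑ x ∈ univ.erase c, μ (Sum.inr x) = 0 := by omega
      rw [prod_eq_single c (fun c' _ hc' => by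
        rw [sum_eq_zero_iff.1 e7 c' (mem_erase.2 ⟨hc', mem_univ _⟩), pow_zero]) (by simp)]
      congr 1
      omega
    have e8 := hbad c _ e5
    have e9 : (0 : ℝ) < UU q o.R L (chi S v L c - clo S v L c) (pi v μ) := by
      exact_mod_cast hU _ _
    rw [← lt_div_iff₀' e9] at e8
    rw [e6]
    refine le_trans (le_of_eq ?_) (e8.le.trans ?_)
    · congr 1
      unfold phs
      push_cast
      ring
    · unfold UU tol
      rw [sum_pi, div_eq_mul_one_div _ ((q : ℝ) ^ _)]
      split_ifs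
      · push_cast
        rw [one_div_mul_one_div_rev]
      · push_cast
        rw [one_div_mul_one_div_rev, ← pow_mul]
        refine one_div_le_one_div_of_le (by positivity)
          (mul_le_mul_of_nonneg_left (pow_le_pow_right₀ (by exact_mod_cast (by omega : 1 ≤ q))
            (Nat.mul_le_mul_right _ (by omega))) (by positivity))

end Pool.Agent.MP_b1aeef_nt.H64
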