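import Pool.Agent.MP_b1aeef_nt.H64.Kit2

/-! Statements of the rows. Never edit. -/

open Finset Polynomial Filter Topology
open scoped BigOperators

namespace Pool.Agent.MP_b1aeef_nt.H64

/-! ### tools -/

def FEJStmt : Prop := ∀ U : ℕ, 1 ≤ U →
  (∀ x, 0 ≤ fej U x ∧ fej U x ≤ 1) ∧ fej U 0 = 1 ∧
  (∀ (x : ℝ) (k : ℤ), fej U (x + k) = fej U x) ∧
  (∀ x, 1 ≤ U * nn x → fej U x ≤ 1 / 4) ∧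
  (∀ x, U * nn x ≤ 1 / 10 → 1 / 2 ≤ fej U x) ∧
  (∀ x δ, |fej U (x + δ) - fej U x| ≤ 13 * U * nn δ) ∧
  (∀ x, (fej U x : ℂ) = 𝔼 u ∈ range U, 𝔼 u' ∈ range U, ee (((u : ℝ) - u') * x))

def WTStmt : Prop := ∀ U K : ℕ, 1 ≤ U →
  (∀ x, 0 < wt U K x ∧ wt U K x ≤ 1) ∧ wt U K 0 = 1 ∧
  (∀ (x : ℝ) (k : ℤ), wt U K (x + k) = wt U K x) ∧
  (∀ x, 1 ≤ U * nn x → wt U K x ≤ (5 / 8) ^ K) ∧
  (∀ x δ, wt U K (x + δ) ≤ wt U K x * Real.exp (13 * K * U * nn δ))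

/-- Fourier expansion of a product of weights -/
def KFStmt : Prop := ∀ (ι : Type) (S : Finset ι) (U : ι → ℕ) (K : ℕ), (∀ t ∈ S, 1 ≤ U t) →
  ∃ (κ : Type) (_ : Fintype κ) (c : κ → ℝ) (u : κ → ι → ℤ),
    (∀ i, 0 ≤ c i) ∧ ∑ i, c i = 1 ∧ (∀ i, ∀ t ∈ S, |u i t| ≤ (K * U t : ℕ)) ∧
    (∏ t ∈ S, 1 / ((K * U t : ℝ) + 1) ≤ ∑ i, c i * ind (∀ t ∈ S, u i t = 0)) ∧
    ∀ x : ι → ℝ, ((∏ t ∈ S, wt (U t) K (x t) : ℝ) : ℂ) =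
      ∑ i, (c i : ℂ) * ee (∑ t ∈ S, u i t * x t)

/-- Vinogradov's lemma -/
def VINStmt : Prop := ∀ (B ε x : ℝ) (X : ℕ) (S : Finset ℕ), 2 ≤ B → 0 ≤ ε → 16 * B * ε ≤ 1 →
  100 * B ^ 2 ≤ X → (∀ h ∈ S, h ≤ X ∧ nn (h * x) ≤ ε) → X / B ≤ S.card →
  ∃ t : ℕ, 1 ≤ t ∧ (t : ℝ) ≤ 2 * B ∧ nn (t * x) ≤ 100 * B ^ 2 * ε / X

/-- Weyl inverse theorem for the top coefficient -/
def W0Stmt : Prop := ∀ r : ℕ, 1 ≤ r → ∃ C : ℕ, ∀ (B γ : ℝ) (X L : ℕ) (f : ℤ → ℝ),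
  2 ≤ B → 1 ≤ X → L ≤ X → IsPoly r γ f → X / B ≤ ‖∑ a ∈ range L, ee (f a)‖ →
  ∃ t : ℕ, 1 ≤ t ∧ (t : ℝ) ≤ B ^ C ∧ nn (t * γ) ≤ B ^ C / (X : ℝ) ^ r

/-- polynomial recurrence -/
def W1Stmt : Prop := ∀ T k : ℕ, 1 ≤ k → ∃ C : ℕ, ∀ (ι : Type) (S : Finset ι) (ξ : ι → ℝ) (B : ℝ)
  (X : ℕ), S.card ≤ T → 2 ≤ B → B ^ C ≤ X →
  X / B ^ C ≤ ∑ a ∈ range X, ind (∀ t ∈ S, nn (ξ t * ((a + 1 : ℕ) : ℝ) ^ k) ≤ 1 / B)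

/-- Weyl inverse theorem for the linear coefficient -/
def W2Stmt : Prop := ∀ k : ℕ, 2 ≤ k → ∃ C : ℕ, ∀ (B Ξ θ : ℝ) (X : ℕ), 2 ≤ B → 1 ≤ X →
  1 / B ≤ ‖𝔼 a : Fin X, ee (Ξ * (((a : ℕ) + 1 : ℕ) : ℝ) ^ k + θ * (((a : ℕ) + 1 : ℕ) : ℝ))‖ →
  ∃ t : ℕ, 1 ≤ t ∧ (t : ℝ) ≤ B ^ C ∧ nn (t * θ) ≤ B ^ C / X

/-- carries are rare -/
def EQStmt : Prop := ∀ Q : ℤ[X], 1 ≤ Q.natDegree → ∃ C : ℕ, ∀ (B M : ℝ) (N : ℕ), 2 ≤ B → 1 ≤ N →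
  B ^ C ≤ M → M * B ^ C ≤ (N : ℝ) ^ Q.natDegree →
  𝔼 n ∈ range N, ind (nn (((Q.eval (n : ℤ) : ℤ) : ℝ) / M) ≤ 1 / (20 * B)) ≤ 4 / B

/-- lower bound for the normaliser -/
def K1Stmt : Prop := ∀ T k : ℕ, 1 ≤ k → ∃ C : ℕ, ∀ (ι : Type) (S : Finset ι) (U : ι → ℕ)
  (K X : ℕ) (ξ : ι → ℝ) (B : ℝ), S.card ≤ T → 2 ≤ B →
  (∀ t ∈ S, 1 ≤ U t ∧ (K * U t : ℝ) ≤ B) → B ^ C ≤ X → 1 / B ^ C ≤ Zt S U K k X ξ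

/-- elementary properties of the kernel -/
def K2Stmt : Prop := ∀ (ι : Type) (S : Finset ι) (U : ι → ℕ) (K k X : ℕ) (ξ : ι → ℝ),
  (∀ t ∈ S, 1 ≤ U t) → 1 ≤ X →
  (0 < Zt S U K k X ξ ∧ Zt S U K k X ξ ≤ 1) ∧
  (𝔼 a : Fin X, ker S U K k X ξ ((a : ℕ) + 1) = 1) ∧
  (∀ a, 0 ≤ ker S U K k X ξ a ∧ ker S U K k X ξ a ≤ 1 / Zt S U K k X ξ) ∧
  (∀ a : ℕ, (∃ t ∈ S, 1 ≤ U t * nn (ξ t * (a : ℝ) ^ k)) →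
    ker S U K k X ξ a ≤ (5 / 8) ^ K / Zt S U K k X ξ) ∧
  (∀ ξ' : ι → ℝ, (∀ t ∈ S, ∃ n : ℤ, ξ' t = ξ t + n) →
    ∀ a, ker S U K k X ξ' a = ker S U K k X ξ a)

/-- stability of the kernel -/
def K4Stmt : Prop := ∀ (ι : Type) (S : Finset ι) (U : ι → ℕ) (K k X : ℕ) (ξ ξ' : ι → ℝ)
  (τ z0 : ℝ), (∀ t ∈ S, 1 ≤ U t) → 1 ≤ X → 0 ≤ τ → τ ≤ 1 / 10 → 0 < z0 →
  z0 ≤ Zt S U K k X ξ → z0 ≤ Zt S U K k X ξ' →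
  (∀ a : ℕ, 1 ≤ a → a ≤ X →
    ((∀ t ∈ S, U t * nn (ξ t * (a : ℝ) ^ k) ≤ 1) ∨ (∀ t ∈ S, U t * nn (ξ' t * (a : ℝ) ^ k) ≤ 1)) →
    ∑ t ∈ S, 13 * K * U t * nn ((ξ' t - ξ t) * (a : ℝ) ^ k) ≤ τ) →
  ∀ a : ℕ, 1 ≤ a → a ≤ X → |ker S U K k X ξ' a - ker S U K k X ξ a| ≤
    10 * τ * ker S U K k X ξ a + 5 * (5 / 8) ^ K / z0 ^ 2

/-- linear phases against a kernel, pointwise -/
def K5Stmt : Prop := ∀ (ι : Type) (S : Finset ι) (U : ι → ℕ) (K k X : ℕ) (ξ : ι → ℝ)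
  (θ z0 B0 : ℝ), (∀ t ∈ S, 1 ≤ U t) → 1 ≤ X → 0 < z0 → z0 ≤ Zt S U K k X ξ →
  (∀ Ξ : ℝ, ‖𝔼 a : Fin X,
    ee (Ξ * (((a : ℕ) + 1 : ℕ) : ℝ) ^ k + θ * (((a : ℕ) + 1 : ℕ) : ℝ))‖ ≤ B0) →
  ‖𝔼 a : Fin X, (ker S U K k X ξ ((a : ℕ) + 1) : ℂ) * ee (θ * (((a : ℕ) + 1 : ℕ) : ℝ))‖ ≤ B0 / z0

/-- linear phases against a linear kernel, on average -/
def K6Stmt : Prop := ∀ (ι Ω : Type) [Fintype Ω] (S : Finset ι) (U : ι → ℕ) (K X N : ℕ)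
  (D : ℤ → Ω → ℝ) (ξ : ℤ → Ω → ι → ℝ) (θ : ℤ → Ω → ℝ) (z0 B0 : ℝ),
  (∀ t ∈ S, 1 ≤ U t) → 1 ≤ X → Dens D → 0 < z0 → (∀ n ω, z0 ≤ Zt S U K 1 X (ξ n ω)) →
  (∀ u : ι → ℤ, (∀ t ∈ S, |u t| ≤ (K * U t : ℕ)) → Er N D (fun n ω => ‖𝔼 a : Fin X,
    ee ((∑ t ∈ S, u t * ξ n ω t + θ n ω) * (((a : ℕ) + 1 : ℕ) : ℝ))‖) ≤ B0) →
  Er N D (fun n ω => ‖𝔼 a : Fin X, (ker S U K 1 X (ξ n ω) ((a : ℕ) + 1) : ℂ) *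
    ee (θ n ω * (((a : ℕ) + 1 : ℕ) : ℝ))‖) ≤ B0 / z0

/-- the shift lemma -/
def SHStmt : Prop := ∀ (Ω : Type) [Fintype Ω] (N H : ℕ) (D : ℤ → Ω → ℝ) (h : Ω → ℤ) (τ b : ℝ),
  1 ≤ N → Dens D → (∀ ω, |h ω| ≤ H) → (∀ n ω, |D (n + h ω) ω - D n ω| ≤ τ * D n ω + b) →
  (∀ φ : ℤ → Ω → ℂ, (∀ n ω, ‖φ n ω‖ ≤ 1) →
    ‖Ec N D (fun n ω => φ (n + h ω) ω) - Ec N D φ‖ ≤ τ + b + 4 * H / N) ∧
  (∀ φ : ℤ → Ω → ℝ, (∀ n ω, |φ n ω| ≤ 1) →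
    |Er N D (fun n ω => φ (n + h ω) ω) - Er N D φ| ≤ τ + b + 4 * H / N)

/-- the shift lemma along `z` in a state -/
def ZSHStmt : Prop := ∀ (V : Type) [Fintype V] (q : ℕ) (P : ℤ[X]) (o : Par) (C : ℕ) (jb : V → ℕ)
  (z b p : V) (S : Dat V), Ok q o → St0 q P o C jb z b p S → Inv q o C S →
  (o.N : ℝ) ^ (C + 1) * bet q o.N ≤ 1 → ZInv o.N S.D S.Y (3 / S.Y)

/-- the shift lemma in a final state -/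
def FSHStmt : Prop := ∀ (I : Type) [Fintype I] (q : ℕ) (P : ℤ[X]) (J : Finset ℤ) (o : Par) (C : ℕ)
  (F : FDat I), Ok q o → FSt0 q P J o C F → (o.N : ℝ) ^ (C + 1) * bet q o.N ≤ 1 →
  ∀ (y : I → ℕ) (yb : ℕ), (∀ i, y i ≤ F.Y) → yb ≤ F.Y →
  (∀ φ : ℤ → F.Ω → ℂ, (∀ n ω, ‖φ n ω‖ ≤ 1) →
    ‖Ec o.N F.D (fun n ω => φ (pt q o (F.gen ω) n y yb) ω) - Ec o.N F.D φ‖ ≤
      (Fintype.card I + 1) * (3 / F.Y)) ∧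
  (∀ φ : ℤ → F.Ω → ℝ, (∀ n ω, |φ n ω| ≤ 1) →
    |Er o.N F.D (fun n ω => φ (pt q o (F.gen ω) n y yb) ω) - Er o.N F.D φ| ≤
      (Fintype.card I + 1) * (3 / F.Y))

/-- summing out independent new variables -/
def MARGStmt : Prop := ∀ (Ω Cc : Type) [Fintype Ω] [Fintype Cc] [DecidableEq Cc] (N X : ℕ)
  (D : ℤ → Ω → ℝ) (k : Cc → ℤ → Ω → Fin X → ℝ), Dens D → (∀ c n ω a, 0 ≤ k c n ω a) →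
  (∀ c n ω, 𝔼 a, k c n ω a = 1) →
  Dens (fun n (ω : Ω × (Cc → Fin X)) => D n ω.1 * ∏ c, k c n ω.1 (ω.2 c)) ∧
  (∀ φ : ℤ → Ω → ℂ, Ec N (fun n (ω : Ω × (Cc → Fin X)) => D n ω.1 * ∏ c, k c n ω.1 (ω.2 c))
    (fun n ω => φ n ω.1) = Ec N D φ) ∧
  (∀ (c0 : Cc) (φ : ℤ → Ω → ℝ) (ψ : Cc → ℤ → Ω → Fin X → ℝ),
    ‖Ec N (fun n (ω : Ω × (Cc → Fin X)) => D n ω.1 * ∏ c, k c n ω.1 (ω.2 c))
      (fun n ω => ee (φ n ω.1 + ∑ c, ψ c n ω.1 (ω.2 c)))‖ ≤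
    Er N D (fun n ω => ‖𝔼 a, (k c0 n ω a : ℂ) * ee (ψ c0 n ω a)‖))

/-- van der Corput under the measure -/
def VDCStmt : Prop := ∀ (Ω : Type) [Fintype Ω] (N S r : ℕ) (D : ℤ → Ω → ℝ) (e0 δ0 η : ℝ)
  (γ : Ω → ℝ) (ψ : ℤ → Ω → ℝ), 1 ≤ N → 1 ≤ S → Dens D → ZInv N D S e0 →
  (∀ ω, IsPoly r (γ ω) (fun n => ψ n ω)) →
  (∀ Q : ℤ, Q ≠ 0 → |Q| ≤ (S : ℤ) ^ r → ‖Ec N D (fun _ ω => ee (Q * γ ω))‖ ≤ δ0) →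
  0 < η → η ≤ 1 → 0 ≤ δ0 → 0 ≤ e0 → δ0 + 1 / S + e0 ≤ η ^ 2 ^ r →
  ‖Ec N D (fun n ω => ee (ψ n ω))‖ ≤ 4 * η

/-- geometric sums with a polynomial frequency are small on average -/
def LEAFStmt : Prop := ∀ (Ω : Type) [Fintype Ω] (N S X r : ℕ) (D : ℤ → Ω → ℝ)
  (e0 δ0 η lo hi γ0 : ℝ) (A : Ω → ℕ) (Θ : ℤ → Ω → ℝ), 1 ≤ N → 1 ≤ S → 1 ≤ X → Dens D →
  ZInv N D S e0 → (∀ ω, IsPoly r (γ0 * A ω) (fun n => Θ n ω)) →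
  (∀ x : ℝ, lo ≤ |x| → |x| ≤ hi → ‖Ec N D (fun _ ω => ee (x * A ω))‖ ≤ δ0) →
  lo ≤ |γ0| → |γ0| * X * (S : ℝ) ^ r ≤ hi →
  0 < η → η ≤ 1 → 0 ≤ δ0 → 0 ≤ e0 → δ0 + 1 / S + e0 ≤ η ^ 2 ^ r →
  Er N D (fun n ω => ‖𝔼 a : Fin X, ee (Θ n ω * (((a : ℕ) + 1 : ℕ) : ℝ))‖) ^ 2 ≤ 1 / X + 4 * η

/-- the same in a state -/
def LEAF2Stmt : Prop := ∀ q d C1 : ℕ, ∃ E : ℕ, ∀ (V : Type) [Fintype V] (P : ℤ[X])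
  (o : Par) (C : ℕ) (jb : V → ℕ) (z b p : V) (S : Dat V) (v : V) (L m r : ℕ) (γ0 : ℝ)
  (Θ : ℤ → S.Ω → ℝ), St0 q P o C jb z b p S → Inv q o C S → Ac q o jb p S →
  (2 ≤ jb v ∨ v = p) → Num q d o C S.Y L m E → r ≤ d →
  (∀ ω, IsPoly r (γ0 * S.gen ω v) (fun n => Θ n ω)) →
  1 / (2 * (q : ℝ) ^ b0 q o.N) ≤ |γ0| → |γ0| ≤ ((q : ℝ) ^ L) ^ 3 / (q : ℝ) ^ b0 q o.N →
  Er o.N S.D (fun n ω => ‖𝔼 a : Fin (Nat.sqrt S.Y), ee (Θ n ω * (((a : ℕ) + 1 : ℕ) : ℝ))‖) ≤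
    1 / ((q : ℝ) ^ L) ^ C1

/-- box Cauchy-Schwarz -/
def BOXStmt : Prop := ∀ (I β : Type) [Fintype I] [DecidableEq I] [Nonempty I] [Fintype β]
  (φ : (I → β) → ℝ) (ψ : I → (I → β) → ℝ),
  (∀ i y t, ψ i (Function.update y i t) = ψ i y) →
  ‖𝔼 y : I → β, ee (φ y + ∑ i, ψ i y)‖ ^ 2 ^ Fintype.card I ≤
    (𝔼 y0 : I → β, 𝔼 y1 : I → β,
      ee (∑ E : Finset I, (-1) ^ E.card * φ (vtx y0 y1 E))).re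

/-- Gowers norm of the digit sum -/
def GNStmt : Prop := ∀ (q : ℕ) (x : ℝ), 2 ≤ q → (∀ k : ℤ, ((q : ℝ) - 1) * x ≠ k) →
  ∀ (I : Type) [Fintype I] [DecidableEq I] [Nonempty I], ∃ θ C : ℝ, 0 < θ ∧ θ < 1 ∧
  ∀ (L : ℕ) (c : Finset I → ℕ), (∀ E, c E ≤ Fintype.card I) →
    𝔼 i : I → Fin (q ^ L), ‖Phi q x L c (fun v => i v)‖ ≤ C * θ ^ L

/-- choice of the new range and of the number of children -/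
def NUMStmt : Prop := ∀ q d C ρ E E2 : ℕ, 2 ≤ q → ∃ m ρ' E' : ℕ, ∀ᶠ N in atTop, ∀ o : Par,
  o.N = N → Adm q o E' → ∀ Y : ℕ, N ≤ Y ^ ρ →
  ∃ L, Num q d o C Y L m E ∧ N ≤ (q ^ L) ^ ρ' ∧ o.s * E2 ≤ L

/-! ### the step -/

def ZCHStmt : Prop := ∀ (V : Type) [Fintype V] [DecidableEq V] (q : ℕ) (P : ℤ[X]) (v : V) (k : ℕ),
  1 ≤ k → ∃ C1 E : ℕ, ∀ (o : Par) (C : ℕ) (S : Dat V) (L m : ℕ),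
  Num q P.natDegree o C S.Y L m E → ∀ c n ω, 1 / ((q : ℝ) ^ L) ^ C1 ≤ zch q P o S v k L c n ω

def ZWStmt : Prop := ∀ q : ℕ, ∃ C1 E : ℕ, ∀ (d : ℕ) (o : Par) (C Y L m : ℕ),
  Num q d o C Y L m E → ∀ x : ℝ, 1 / ((q : ℝ) ^ L) ^ C1 ≤
    Zt ({()} : Finset Unit) (fun _ => UW q o) (KK q o.N) 1 (Nat.sqrt Y) (fun _ => x)

def S1Stmt : Prop := ∀ (V : Type) [Fintype V] [DecidableEq V] (q : ℕ) (P : ℤ[X]) (jb : V → ℕ)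
  (z b p v : V), 2 ≤ jb v → ∃ E : ℕ, ∀ (o : Par) (C : ℕ) (S : Dat V) (L m : ℕ),
  St0 q P o C jb z b p S → Num q P.natDegree o C S.Y L m E →
  St0 q P o (C + m + 3) (jref jb v m) (Sum.inl z) (Sum.inl b) (Sum.inl p)
    (refine q P o S v (jb v - 1) m L)

def S2Stmt : Prop := ∀ (V : Type) [Fintype V] [DecidableEq V] (q : ℕ) (P : ℤ[X]) (jb : V → ℕ)
  (z b p v : V), 2 ≤ jb v → ∃ E : ℕ, ∀ (o : Par) (C : ℕ) (S : Dat V) (L m : ℕ),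
  St0 q P o C jb z b p S → GuD q P o C jb S → Num q P.natDegree o C S.Y L m E →
  GuD q P o (C + m + 3) (jref jb v m) (refine q P o S v (jb v - 1) m L)

/-- the kernels of the children are stable under shifts along the other nodes -/
def S3aStmt : Prop := ∀ (V : Type) [Fintype V] [DecidableEq V] (q : ℕ) (P : ℤ[X]) (jb : V → ℕ)
  (z b p v : V), 2 ≤ jb v → ∃ E : ℕ, ∀ (o : Par) (C : ℕ) (S : Dat V) (L m : ℕ),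
  St0 q P o C jb z b p S → Num q P.natDegree o C S.Y L m E →
  ∀ (n : ℤ) (ω : S.Ω) (w : V) (y : ℤ), w ≠ v → |y| ≤ (q ^ L : ℕ) →
  ∀ c a : ℕ, 1 ≤ a → a ≤ Nat.sqrt S.Y →
    |kch q P o S v (jb v - 1) L c (n + S.gen ω w * y) ω a - kch q P o S v (jb v - 1) L c n ω a| ≤
      kch q P o S v (jb v - 1) L c n ω a / (8 * ((q : ℝ) ^ L) ^ 2) +
        5 * (o.N : ℝ) ^ 2 * bet q o.N

/-- the kernels of the children are stable under shifts along the parent -/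
def S3bStmt : Prop := ∀ (V : Type) [Fintype V] [DecidableEq V] (q : ℕ) (P : ℤ[X]) (jb : V → ℕ)
  (z b p v : V), 2 ≤ jb v → ∃ E : ℕ, ∀ (o : Par) (C : ℕ) (S : Dat V) (L m : ℕ),
  St0 q P o C jb z b p S → Num q P.natDegree o C S.Y L m E →
  ∀ (n : ℤ) (ω : S.Ω) (y : ℤ), Gu q P o jb S n ω → |y| ≤ (Nat.sqrt S.Y * q ^ L : ℕ) →
  ∀ c a : ℕ, 1 ≤ a → a ≤ Nat.sqrt S.Y →
    |kch q P o S v (jb v - 1) L c (n + S.gen ω v * y) ω a - kch q P o S v (jb v - 1) L c n ω a| ≤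
      kch q P o S v (jb v - 1) L c n ω a / (8 * ((q : ℝ) ^ L) ^ 2) +
        5 * (o.N : ℝ) ^ 2 * bet q o.N

def S3Stmt : Prop := ∀ (V : Type) [Fintype V] [DecidableEq V] (q : ℕ) (P : ℤ[X]) (jb : V → ℕ)
  (z b p v : V), 2 ≤ jb v → ∃ E : ℕ, ∀ (o : Par) (C : ℕ) (S : Dat V) (L m : ℕ),
  St0 q P o C jb z b p S → Inv q o C S → GuD q P o C jb S → Num q P.natDegree o C S.Y L m E →
  Inv q o (C + m + 3) (refine q P o S v (jb v - 1) m L)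

def S4Stmt : Prop := ∀ (V : Type) [Fintype V] [DecidableEq V] (q : ℕ) (P : ℤ[X]) (jb : V → ℕ)
  (z b p v : V), 2 ≤ jb v → ∃ E : ℕ, ∀ (o : Par) (C : ℕ) (S : Dat V) (L m : ℕ),
  St0 q P o C jb z b p S → Ac q o jb p S → Num q P.natDegree o C S.Y L m E →
  Ac q o (jref jb v m) (Sum.inl p) (refine q P o S v (jb v - 1) m L)

def S5Stmt : Prop := ∀ (V : Type) [Fintype V] [DecidableEq V] (q : ℕ) (P : ℤ[X]) (jb : V → ℕ)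
  (z b p v : V), 2 ≤ P.natDegree → 2 ≤ jb v → ∃ E : ℕ, ∀ (o : Par) (C : ℕ) (S : Dat V) (L m : ℕ),
  St q P o C jb z b p S → Num q P.natDegree o C S.Y L m E →
  Four q P o (jref jb v m) (refine q P o S v (jb v - 1) m L)

def STEPStmt : Prop := ∀ (V : Type) [Fintype V] [DecidableEq V] (q : ℕ) (P : ℤ[X]) (jb : V → ℕ)
  (z b p v : V) (ρ C : ℕ), 2 ≤ q → 2 ≤ P.natDegree → 2 ≤ jb v → ∃ m ρ' C' E : ℕ, ∀ᶠ N in atTop,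
  ∀ o : Par, o.N = N → Adm q o E → ∀ S : Dat V, St q P o C jb z b p S → N ≤ S.Y ^ ρ →
  ∃ S' : Dat (V ⊕ Fin m),
    St q P o C' (jref jb v m) (Sum.inl z) (Sum.inl b) (Sum.inl p) S' ∧ N ≤ S'.Y ^ ρ'

def INITStmt : Prop := ∀ (q : ℕ) (P : ℤ[X]), 2 ≤ q → 2 ≤ P.natDegree → ∀ᶠ N in atTop,
  ∀ o : Par, o.N = N → 2 * o.s ≤ jj q N →
  ∃ S : Dat (Fin 4), St q P o 0 (fun v => if v = 3 then P.natDegree + 1 else 0) 0 1 2 S ∧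
    N ≤ S.Y ^ 16

/-! ### the end -/

def WIN1Stmt : Prop := ∀ (V : Type) [Fintype V] [DecidableEq V] (q : ℕ) (P : ℤ[X]) (J : Finset ℤ)
  (jb : V → ℕ) (z b p : V), (∀ v, jb v ≤ 1) → ∃ E : ℕ, ∀ (o : Par) (C : ℕ) (S : Dat V) (L m : ℕ),
  St0 q P o C jb z b p S → Inv q o C S → GuD q P o C jb S → Num q P.natDegree o C S.Y L m E →
  FSt0 q P J o (C + J.card + 2) (win q P o jb p J S L)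

def WIN2Stmt : Prop := ∀ (V : Type) [Fintype V] [DecidableEq V] (q : ℕ) (P : ℤ[X]) (J : Finset ℤ)
  (jb : V → ℕ) (z b p : V), 2 ≤ P.natDegree → ∃ E : ℕ, ∀ (o : Par) (C : ℕ) (S : Dat V) (L m : ℕ),
  St q P o C jb z b p S → Num q P.natDegree o C S.Y L m E →
  FFour q P o (win q P o jb p J S L)

/-- size and growth of `P`, and smallness of `bet` -/
def GROWStmt : Prop := ∀ (q : ℕ) (P : ℤ[X]) (J : Finset ℤ) (D C : ℕ), 2 ≤ q →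
  1 ≤ P.natDegree → ∀ᶠ N : ℕ in atTop, C ≤ lg q N ∧ (N : ℝ) ^ C * bet q N ≤ 1 ∧
  ∀ n h : ℤ, 0 ≤ n → n < N → 0 ≤ h → h ≤ D * (q : ℤ) ^ (4 * jj q N) → ∀ j ∈ J,
    P.eval (n + j) < (q : ℤ) ^ btop q P.natDegree N ∧
    |P.eval (n + h + j) - P.eval (n + j)| * (q : ℤ) ^ jj q N ≤ (q : ℤ) ^ atop q P.natDegree N

/-- without carries the true phase is the model phase -/
def E1aStmt : Prop := ∀ (I : Type) [Fintype I] [DecidableEq I] (q : ℕ) (α : ℤ → ℝ) (P : ℤ[X])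
  (J : Finset ℤ) (o : Par) (C : ℕ) (F : FDat I) (n : ℤ) (ω : F.Ω) (y : I → ℕ) (yb : ℕ),
  Ok q o → 1 ≤ P.natDegree → 0 ∈ J → FSt0 q P J o C F → (∀ i, y i ≤ o.R) →
  (∀ i, Kill q P o F (pt q o (F.gen ω) n (Function.update y i 0) yb) ω) →
  (∀ i, ∀ j ∈ F.cop i, 2 / (o.R : ℝ) < nn (((P.eval
    (pt q o (F.gen ω) n (Function.update y i 0) yb + j) : ℤ) : ℝ) / (q : ℝ) ^ F.lo i)) →
  (∀ j ∈ J, 2 / (o.R : ℝ) < nn (((P.eval (n + j) : ℤ) : ℝ) / (q : ℝ) ^ atop q P.natDegree o.N) ∧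
    |P.eval (pt q o (F.gen ω) n y yb + j) - P.eval (n + j)| * (q : ℤ) ^ jj q o.N ≤
      (q : ℤ) ^ atop q P.natDegree o.N) →
  pall q α P J o (pt q o (F.gen ω) n y yb) = pmod q α P J o F ω n y yb

def E1Stmt : Prop := ∀ (I : Type) [Fintype I] [DecidableEq I] (q : ℕ) (α : ℤ → ℝ) (P : ℤ[X])
  (J : Finset ℤ) (C : ℕ), 2 ≤ q → 2 ≤ P.natDegree → 0 ∈ J →
  (∀ n : ℕ, ∀ j ∈ J, 0 ≤ P.eval ((n : ℤ) + j)) → ∃ (E : ℕ) (C2 : ℝ), ∀ᶠ N in atTop, ∀ o : Par,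
  o.N = N → Ok q o → o.R ^ E ≤ 2 ^ o.s → ∀ F : FDat I, FSt0 q P J o C F →
  ‖corr q α P J N - model q α P J o F‖ ≤ C2 / o.R

def E2Stmt : Prop := ∀ (I : Type) [Fintype I] [DecidableEq I] [Nonempty I] (q : ℕ) (α : ℤ → ℝ)
  (P : ℤ[X]) (J : Finset ℤ) (o : Par) (F : FDat I), 2 ≤ q → 1 ≤ o.N → Dens F.D →
  ‖model q α P J o F‖ ^ 2 ^ Fintype.card I ≤ Er o.N F.D fun n ω =>
    𝔼 y0 : I → Fin o.R, 𝔼 y1 : I → Fin o.R,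
      ‖cube q (α 0) P o (F.gen ω) n (fun i => y0 i) (fun i => y1 i)‖

def E3Stmt : Prop := ∀ (I : Type) [Fintype I] [DecidableEq I] (q : ℕ) (x : ℝ) (P : ℤ[X]) (o : Par)
  (A : I → ℕ) (n : ℤ) (y0 y1 : I → ℕ), Ok q o → (∀ i, q ^ jj q o.N ∣ A i) →
  Int.gcd (P.derivative.eval n) ((q : ℤ) ^ (2 * o.s)) ∣ q ^ o.s →
  ‖cube q x P o A n y0 y1‖ ≤
    ∑ c ∈ Fintype.piFinset (fun _ : Finset I => range (Fintype.card I + 1)),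
      ‖Phi q x o.s c (idx q P o A n (fun i => (y1 i : ℤ) - y0 i))‖

def E4Stmt : Prop := ∀ (I : Type) [Fintype I] [DecidableEq I] (q : ℕ) (P : ℤ[X]) (o : Par)
  (F : FDat I) (r : I → ℤ) (i0 : I → ℕ), Ok q o → Dens F.D → FFour q P o F →
  gg q o + 4 ≤ o.s → (∀ i, r i ≠ 0 ∧ |r i| ≤ o.R) →
  Er o.N F.D (fun n ω => ind (idx q P o (F.gen ω) n r = i0)) ≤
    2 ^ Fintype.card I * ((1 / (U0 q o : ℝ)) ^ Fintype.card I + 1 / F.Y)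

def VALStmt : Prop := ∀ (q : ℕ) (P : ℤ[X]), 2 ≤ P.natDegree → ∃ (E : ℕ) (C2 : ℝ), ∀ o : Par,
  Ok q o → o.R ^ E ≤ 2 ^ o.s → 𝔼 n ∈ range o.N, ind (¬ Int.gcd (P.derivative.eval (n : ℤ))
    ((q : ℤ) ^ (2 * o.s)) ∣ q ^ o.s) ≤ C2 / o.R

def E5Stmt : Prop := ∀ (I : Type) [Fintype I] [DecidableEq I] [Nonempty I] (q : ℕ) (α : ℤ → ℝ)
  (P : ℤ[X]) (J : Finset ℤ), 2 ≤ P.natDegree → (∀ k : ℤ, ((q : ℝ) - 1) * α 0 ≠ k) →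
  ∃ (E : ℕ) (C2 : ℝ), ∀ (o : Par) (C : ℕ) (F : FDat I), Ok q o → o.R ^ E ≤ 2 ^ o.s → q ^ 6 ≤ o.R →
  (q ^ o.s) ^ E ≤ F.Y → FSt0 q P J o C F → FFour q P o F →
  ‖model q α P J o F‖ ^ 2 ^ Fintype.card I ≤ C2 / o.R

/-- every state of the given shape bounds the correlation -/
def Good {V : Type} [Fintype V] (q : ℕ) (α : ℤ → ℝ) (P : ℤ[X]) (J : Finset ℤ) (jb : V → ℕ)
    (z b p : V) (ρ C : ℕ) : Prop :=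
  ∃ (E : ℕ) (C2 : ℝ), ∀ᶠ N in atTop, ∀ o : Par, o.N = N → Adm q o E → ∀ S : Dat V,
    St q P o C jb z b p S → N ≤ S.Y ^ ρ → ‖corr q α P J N‖ ^ E ≤ C2 / o.R

def FINStmt : Prop := ∀ (V : Type) [Fintype V] [DecidableEq V] (q : ℕ) (α : ℤ → ℝ) (P : ℤ[X])
  (J : Finset ℤ) (jb : V → ℕ) (z b p : V) (ρ C : ℕ), 2 ≤ q → 2 ≤ P.natDegree → 0 ∈ J →
  (∀ n : ℕ, ∀ j ∈ J, 0 ≤ P.eval ((n : ℤ) + j)) → (∀ k : ℤ, ((q : ℝ) - 1) * α 0 ≠ k) →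
  (∀ v, jb v ≤ 1) → Good q α P J jb z b p ρ C

def INDStmt : Prop := ∀ (V : Type) [Fintype V] [DecidableEq V] (q : ℕ) (α : ℤ → ℝ) (P : ℤ[X])
  (J : Finset ℤ) (jb : V → ℕ) (z b p : V) (ρ C : ℕ), 2 ≤ q → 2 ≤ P.natDegree → 0 ∈ J →
  (∀ n : ℕ, ∀ j ∈ J, 0 ≤ P.eval ((n : ℤ) + j)) → (∀ k : ℤ, ((q : ℝ) - 1) * α 0 ≠ k) →
  Good q α P J jb z b p ρ C

def CORStmt : Prop := ∀ (q : ℕ) (α : ℤ → ℝ) (P : ℤ[X]) (J : Finset ℤ), 2 ≤ q → 2 ≤ P.natDegree →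
  0 ∈ J → (∀ n : ℕ, ∀ j ∈ J, 0 ≤ P.eval ((n : ℤ) + j)) → (∀ k : ℤ, ((q : ℝ) - 1) * α 0 ≠ k) →
  ∃ c : ℝ, 0 < c ∧ ∀ᶠ N : ℕ in atTop, ‖corr q α P J N‖ ≤ (N : ℝ) ^ (-c)

/-- Gelfond's third problem with words, every degree, base and modulus -/
def MAINStmt : Prop :=
  ∀ (q m k : ℕ), 2 ≤ q → 1 ≤ m → ∀ P : Polynomial ℤ, 2 ≤ P.natDegree →
    (∀ n : ℕ, 0 ≤ P.eval (n : ℤ)) →
    ∃ c C : ℝ, 0 < c ∧ ∀ (w : Fin k → ℕ) (N : ℕ),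
      |((((range N).filter fun n => ∀ l : Fin k,
            (Nat.digits q (P.eval ((n + l : ℕ) : ℤ)).toNat).sum ≡ w l [MOD m]).card : ℕ) : ℝ) -
          ((Nat.gcd m (q - 1) : ℝ) / m) ^ k *
            ((((range N).filter fun n => ∀ l : Fin k,
              (P.eval ((n + l : ℕ) : ℤ)).toNat ≡ w l [MOD Nat.gcd m (q - 1)]).card : ℕ) : ℝ)| ≤
        C * (N : ℝ) ^ (1 - c)

end Pool.Agent.MP_b1aeef_nt.H64
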